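import Mathlib
import Pool.Agent.TH881.RG.StD
import Pool.Agent.TH881.Asy

/-! Continuity of the local function. -/

set_option autoImplicit false

namespace Pool.Agent.TH111.J2027

open Finset Filter Topology
open Pool.Agent.TH881
open Pool.Agent.TH881.RG
open Pool.Agent.H373R2.T7

lemma Wp_dvd {y w : ℕ} (h : y ≤ w) : Wp y ∣ Wp w := by
  unfold Wp
  refine Finset.prod_dvd_prod_of_subset _ _ _ fun p hp => ?_
  rw [mem_pz] at hp ⊢
  exact ⟨hp.1.trans h, hp.2⟩

lemma Vz_tendsto : Tendsto Vz atTop (𝓝 0) := by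
  have h1 : Tendsto (fun N : ℕ => Gam 1 N) atTop atTop := by
    have h2 : Tendsto (fun N : ℕ => Real.log N) atTop atTop :=
      Real.tendsto_log_atTop.comp tendsto_natCast_atTop_atTop
    have h3 := mert.pos_mul_atTop (Real.exp_pos _) h2
    refine h3.congr' ?_
    filter_upwards [eventually_ge_atTop 2] with N hN
    have : Real.log N ≠ 0 := (Real.log_pos (by exact_mod_cast hN)).ne'
    field_simp
  have h4 := h1.inv_tendsto_atTop
  refine h4.congr fun N => ?_
  have h5 := Gam_mul_Vz N
  have h6 : (0 : ℝ) < Gam 1 N := lt_of_lt_of_le one_pos (one_le_Gam 1 N)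
  rw [Pi.inv_apply]
  field_simp
  linarith

/-- the number of `t` with `π t - a` a unit -/
lemma card_T {y w : ℕ} (h : y ≤ w) (a : ZMod (Wp y)) :
    (((univ : Finset (ZMod (Wp w))).filter
      (fun t => ZMod.castHom (Wp_dvd h) (ZMod (Wp y)) t - a ∈ UU y)).card : ℝ) = Wp w * Vz y := by
  classical
  set π := ZMod.castHom (Wp_dvd h) (ZMod (Wp y)) with hπ
  have hsurj : Function.Surjective π := ZMod.castHom_surjective _
  have hfib : ∀ s : ZMod (Wp y), ((univ : Finset (ZMod (Wp w))).filter (fun t => π t = s)).card =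
      ((univ : Finset (ZMod (Wp w))).filter (fun t => π t = 0)).card := by
    intro s
    exact AddMonoidHom.card_fiber_eq_of_mem_range π.toAddMonoidHom (hsurj s) (hsurj 0)
  set k := ((univ : Finset (ZMod (Wp w))).filter (fun t => π t = 0)).card with hk
  have h1 : ∑ s : ZMod (Wp y), ((univ : Finset (ZMod (Wp w))).filter (fun t => π t = s)).card =
      (univ : Finset (ZMod (Wp w))).card :=
    (Finset.card_eq_sum_card_fiberwise (fun t _ => Finset.mem_univ (π t))).symm
  simp only [hfib, Finset.sum_const, Finset.card_univ, ZMod.card, smul_eq_mul] at h1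
  have h2 : ((univ : Finset (ZMod (Wp w))).filter (fun t => π t - a ∈ UU y)).card =
      ∑ s ∈ (univ : Finset (ZMod (Wp y))).filter (fun s => s - a ∈ UU y),
        ((univ : Finset (ZMod (Wp w))).filter (fun t => π t = s)).card := by
    rw [Finset.card_eq_sum_card_fiberwise (f := π)
      (t := (univ : Finset (ZMod (Wp y))).filter (fun s => s - a ∈ UU y))]
    · refine Finset.sum_congr rfl fun s hs => ?_
      rw [Finset.mem_filter] at hs
      congr 1
      ext t
      simp only [Finset.mem_filter, Finset.mem_univ, true_and]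
      constructor
      · exact fun h => h.2
      · intro h
        exact ⟨by rw [h]; exact hs.2, h⟩
    · intro t ht
      simp only [Finset.coe_filter, Finset.mem_univ, true_and, Set.mem_ofPred_eq] at ht ⊢
      exact ht
  have h3 : ((univ : Finset (ZMod (Wp y))).filter (fun s => s - a ∈ UU y)).card = (UU y).card := by
    refine Finset.card_bij (fun s _ => s - a) ?_ ?_ ?_
    · intro s hs
      exact (Finset.mem_filter.1 hs).2
    · intro s _ s' _ hss
      exact sub_left_injective hss
    · intro s hs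
      exact ⟨s + a, by rw [Finset.mem_filter]; exact ⟨mem_univ _, by rwa [add_sub_cancel_right]⟩,
        add_sub_cancel_right s a⟩
  simp only [hfib, Finset.sum_const, smul_eq_mul] at h2
  rw [h3] at h2
  have h4 : (Wp y : ℝ) ≠ 0 := by
    have := Wp_pos y
    positivity
  have h5 : (Wp y : ℝ) * k = Wp w := by exact_mod_cast h1
  rw [h2, Nat.cast_mul, card_UU, totient_Wp, ← h5]
  ring

lemma Floc_le {β : ℝ} {w : ℕ} {B : Finset (ZMod (Wp w))} (hB : B ⊆ UU w)
    (h : β * Nat.totient (Wp w) ≤ B.card) : Floc β ≤ ((sums w B).card : ℝ) / Wp w := by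
  unfold Floc
  refine csInf_le ⟨0, ?_⟩ ⟨w, B, hB, h, rfl⟩
  rintro d ⟨w, B, _, _, rfl⟩
  positivity

theorem floc_cont (β τ : ℝ) (hβ : 0 < β) (hβ1 : β < 1) (hτ : 0 < τ) : ∃ ε : ℝ, 0 < ε ∧ ∃ w1 : ℕ, ∀ w : ℕ, w1 ≤ w →
    ∀ B ⊆ UU w, (β - ε) * Nat.totient (Wp w) ≤ B.card → Floc β ≤ ((sums w B).card : ℝ) / Wp w + τ := by
  classical
  obtain ⟨y, hy⟩ : ∃ y, Vz y ≤ τ := by
    have h := Vz_tendsto.eventually (Iio_mem_nhds hτ)
    obtain ⟨y, hy⟩ := h.exists
    exact ⟨y, (Set.mem_Iio.1 hy).le⟩
  have hφy := totient_Wp_pos y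
  refine ⟨(1 - β) / Nat.totient (Wp y), div_pos (by linarith) hφy, y, ?_⟩
  intro w hw B hB hcard
  by_cases hA : β * Nat.totient (Wp w) ≤ B.card
  · have := Floc_le hB hA
    linarith
  push Not at hA
  have hφw := totient_Wp_pos w
  set π := ZMod.castHom (Wp_dvd hw) (ZMod (Wp y)) with hπ
  have hmaps : ∀ a ∈ UU w \ B, π a ∈ UU y := by
    intro a ha
    rw [Finset.mem_sdiff, mem_UU] at ha
    rw [mem_UU]
    exact ha.1.map π
  have hne : (UU y).Nonempty := ⟨1, mem_UU.2 isUnit_one⟩
  have hc1 : ((UU w \ B).card : ℝ) = Nat.totient (Wp w) - B.card := by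
    rw [Finset.card_sdiff_of_subset hB, Nat.cast_sub (Finset.card_le_card hB), card_UU]
  obtain ⟨a1, ha1, hfa⟩ := Finset.exists_le_card_fiber_of_nsmul_le_card_of_maps_to
    (M := ℝ) (b := (1 - β) / Nat.totient (Wp y) * Nat.totient (Wp w)) hmaps hne (by
      rw [nsmul_eq_mul, card_UU, hc1]
      have : (Nat.totient (Wp y) : ℝ) * ((1 - β) / Nat.totient (Wp y) * Nat.totient (Wp w)) =
          (1 - β) * Nat.totient (Wp w) := by
        field_simp
      rw [this]
      linarith)
  set X := (UU w).filter (fun a => π a = a1) with hX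
  have hB' : B ∪ X ⊆ UU w := Finset.union_subset hB (Finset.filter_subset _ _)
  have hcard' : β * Nat.totient (Wp w) ≤ (B ∪ X).card := by
    have h1 : Disjoint B ((UU w \ B).filter (fun a => π a = a1)) := by
      rw [Finset.disjoint_left]
      intro a ha ha2
      rw [Finset.mem_filter, Finset.mem_sdiff] at ha2
      exact ha2.1.2 ha
    have h2 : B ∪ ((UU w \ B).filter (fun a => π a = a1)) ⊆ B ∪ X := by
      refine Finset.union_subset_union (Finset.Subset.refl _) ?_
      exact Finset.filter_subset_filter _ Finset.sdiff_subset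
    have h3 := Finset.card_le_card h2
    rw [Finset.card_union_of_disjoint h1] at h3
    have h4 : (B.card : ℝ) + ((UU w \ B).filter (fun a => π a = a1)).card ≤ (B ∪ X).card := by
      exact_mod_cast h3
    nlinarith
  have hF := Floc_le hB' hcard'
  have hsub : sums w (B ∪ X) ⊆ sums w B ∪
      (univ : Finset (ZMod (Wp w))).filter (fun t => π t - a1 ∈ UU y) := by
    intro t ht
    unfold sums at ht
    rw [Finset.mem_filter] at ht
    obtain ⟨-, a, ha, hu⟩ := ht
    rw [Finset.mem_union]
    rcases Finset.mem_union.1 ha with ha | ha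
    · left
      unfold sums
      rw [Finset.mem_filter]
      exact ⟨mem_univ _, a, ha, hu⟩
    · right
      rw [Finset.mem_filter]
      refine ⟨mem_univ _, ?_⟩
      rw [hX, Finset.mem_filter] at ha
      rw [mem_UU, ← ha.2, ← map_sub]
      exact hu.map π
  have h5 := (Finset.card_le_card hsub).trans (Finset.card_union_le _ _)
  have h6 : ((sums w (B ∪ X)).card : ℝ) ≤ (sums w B).card + Wp w * Vz y := by
    rw [← card_T hw a1]
    exact_mod_cast h5
  have hW : (0 : ℝ) < Wp w := by
    have := Wp_pos w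
    positivity
  have h7 : ((sums w (B ∪ X)).card : ℝ) / Wp w ≤ (sums w B).card / Wp w + Vz y := by
    rw [div_add' _ _ _ hW.ne', div_le_div_iff_of_pos_right hW]
    linarith
  linarith

end Pool.Agent.TH111.J2027
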