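import Mathlib
import Pool.Agent.TH881.RK.Defs

/-! The law near density one. -/

set_option autoImplicit false

namespace Pool.Agent.TH111.J3812

open Finset Filter Topology
open Pool.Agent.TH881
open Pool.Agent.TH881.RG
open Pool.Agent.TH881.RQ
open Pool.Agent.TH881.RK
open Pool.Agent.H373R2.T7

lemma AA_pos (pr : Bool) (w : ℕ) : (0 : ℝ) < (AA pr w).card := by
  have h : 0 < (AA pr w).card := by
    apply card_pos.2
    refine ⟨1, ?_⟩
    unfold AA
    rw [mem_filter]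
    exact ⟨mem_univ _, fun _ => isUnit_one⟩
  exact_mod_cast h

open Classical in
/-- the elements counted by `cnt` -/
noncomputable def cS1 (A : Set ℕ) (n : ℕ) : Finset ℕ := (Icc 1 n).filter (fun a => a ∈ A)

lemma cnt_eq1 (A : Set ℕ) (n : ℕ) : cnt A n = (cS1 A n).card := rfl

lemma mem_cS1 {A : Set ℕ} {n a : ℕ} : a ∈ cS1 A n ↔ (1 ≤ a ∧ a ≤ n) ∧ a ∈ A := by
  classical
  unfold cS1
  rw [mem_filter, mem_Icc]

open Classical in
/-- the elements counted by `cntk` -/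
noncomputable def cS {m : ℕ} (S : Set (Fin m → ℕ)) (x : ℕ) : Finset (Fin m → ℕ) :=
  (Fintype.piFinset (fun _ : Fin m => Icc 1 x)).filter (fun h => h ∈ S)

lemma cntk_eq {m : ℕ} (S : Set (Fin m → ℕ)) (x : ℕ) : cntk S x = (cS S x).card := rfl

lemma mem_cS {m : ℕ} {S : Set (Fin m → ℕ)} {x : ℕ} {h : Fin m → ℕ} :
    h ∈ cS S x ↔ (∀ j, h j ∈ Icc 1 x) ∧ h ∈ S := by
  classical
  unfold cS
  rw [mem_filter, Fintype.mem_piFinset]

lemma relq_univ (pr : Bool) : relq pr Set.univ = 1 := by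
  have h1 : ∀ᶠ n : ℕ in atTop, (cnt {m | isArg pr m ∧ m ∈ Set.univ} n : ℝ) / (cnt {m | isArg pr m} n : ℝ) = 1 := by
    filter_upwards [eventually_ge_atTop 2] with n hn
    have h2 : {m : ℕ | isArg pr m ∧ m ∈ Set.univ} = {m | isArg pr m} := by
      ext p
      constructor
      · exact fun h => h.1
      · exact fun h => ⟨h, Set.mem_univ p⟩
    rw [h2]
    have h3 : 0 < cnt {m | isArg pr m} n := by
      rw [cnt_eq1]
      apply card_pos.2
      refine ⟨2, ?_⟩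
      rw [mem_cS1]
      exact ⟨⟨by norm_num, hn⟩, fun _ => Nat.prime_two⟩
    have h4 : (0 : ℝ) < cnt {m | isArg pr m} n := by exact_mod_cast h3
    exact div_self h4.ne'
  unfold relq
  rw [liminf_congr h1]
  exact liminf_const 1

lemma cntk_le {m : ℕ} (S : Set (Fin m → ℕ)) (x : ℕ) : (cntk S x : ℝ) ≤ (x : ℝ) ^ m := by
  classical
  have h1 : cntk S x ≤ x ^ m := by
    unfold cntk
    refine (card_filter_le _ _).trans ?_
    rw [Fintype.card_piFinset]
    simp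
  exact_mod_cast h1

lemma cntk_mono {m : ℕ} {S T : Set (Fin m → ℕ)} (h : S ⊆ T) (x : ℕ) : cntk S x ≤ cntk T x := by
  classical
  unfold cntk
  apply card_le_card
  intro a ha
  have ha' := Finset.mem_filter.1 ha
  exact Finset.mem_filter.2 ⟨ha'.1, h ha'.2⟩

lemma cntk_union {m : ℕ} (S T : Set (Fin m → ℕ)) (x : ℕ) : cntk (S ∪ T) x ≤ cntk S x + cntk T x := by
  classical
  rw [cntk_eq, cntk_eq, cntk_eq]
  refine le_trans (card_le_card ?_) (card_union_le _ _)
  intro a ha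
  rw [mem_cS] at ha
  rw [mem_union, mem_cS, mem_cS]
  rcases ha.2 with h | h
  · exact Or.inl ⟨ha.1, h⟩
  · exact Or.inr ⟨ha.1, h⟩

lemma cntk_cls {m : ℕ} (w : ℕ) (T : Finset (Fin m → ZMod (Wp w))) (X : ℕ) :
    (cntk {h : Fin m → ℕ | (fun j => (h j : ZMod (Wp w))) ∈ T} X : ℝ) ≤
      T.card * ((X : ℝ) / Wp w + 1) ^ m := by
  classical
  have h1 : cntk {h : Fin m → ℕ | (fun j => (h j : ZMod (Wp w))) ∈ T} X ≤
      ∑ t ∈ T, ∏ j, (cls w (Icc 1 X) (t j)).card := by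
    rw [cntk_eq]
    refine le_trans (card_le_card (t := T.biUnion fun t =>
      Fintype.piFinset fun j => cls w (Icc 1 X) (t j)) ?_) (card_biUnion_le.trans ?_)
    · intro h hh
      rw [mem_cS] at hh
      rw [mem_biUnion]
      refine ⟨_, hh.2, ?_⟩
      rw [Fintype.mem_piFinset]
      intro j
      rw [mem_cls]
      exact ⟨hh.1 j, rfl⟩
    · apply sum_le_sum
      intro t _
      rw [Fintype.card_piFinset]
  have h2 : ((∑ t ∈ T, ∏ j, (cls w (Icc 1 X) (t j)).card : ℕ) : ℝ) ≤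
      ∑ t ∈ T, ((X : ℝ) / Wp w + 1) ^ m := by
    push_cast
    apply sum_le_sum
    intro t _
    calc ∏ j : Fin m, ((cls w (Icc 1 X) (t j)).card : ℝ) ≤ ∏ _j : Fin m, ((X : ℝ) / Wp w + 1) := by
          apply Finset.prod_le_prod
          · intro j _
            exact Nat.cast_nonneg _
          · intro j _
            apply cls_card_le w 0 X
            intro n hn
            rw [mem_Icc] at hn
            rw [mem_Ioc]
            omega
      _ = _ := by simp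
  rw [sum_const, nsmul_eq_mul] at h2
  refine le_trans ?_ h2
  exact_mod_cast h1

lemma udk_le {m : ℕ} {S : Set (Fin m → ℕ)} {c : ℝ}
    (h : ∀ᶠ x : ℕ in atTop, (cntk S x : ℝ) / (x : ℝ) ^ m ≤ c) : udk S ≤ c := by
  unfold udk
  apply limsup_le_of_le _ h
  apply IsBoundedUnder.isCoboundedUnder_flip
  exact isBoundedUnder_of ⟨0, fun x => by positivity⟩

lemma udk_le_one {m : ℕ} (S : Set (Fin m → ℕ)) : udk S ≤ 1 :=
  udk_le (Eventually.of_forall fun x => div_le_one_of_le₀ (cntk_le S x) (by positivity))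

lemma exists_arg (pr : Bool) {m : ℕ} (h : Fin m → ℕ) (hA : Admk pr h) (s : Finset ℕ)
    (hs : ∀ p ∈ s, p.Prime) :
    ∃ a : ℕ, ∀ p ∈ s, (pr = true → ¬ p ∣ a) ∧ ∀ j, ¬ p ∣ a + h j := by
  classical
  induction s using Finset.induction_on with
  | empty => exact ⟨0, fun p hp => absurd hp (notMem_empty p)⟩
  | insert p s hps ih =>
    obtain ⟨a, ha⟩ := ih (fun q hq => hs q (mem_insert_of_mem hq))
    have hp := hs p (mem_insert_self p s)
    have hco : Nat.Coprime (∏ q ∈ s, q) p := by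
      apply Nat.Coprime.prod_left
      intro q hq
      exact (Nat.coprime_primes (hs q (mem_insert_of_mem hq)) hp).2 (fun h => hps (h ▸ hq))
    obtain ⟨r, hr1, hr2⟩ := hA p hp
    obtain ⟨k, hk1, hk2⟩ := Nat.chineseRemainder hco a r
    refine ⟨k, ?_⟩
    have key : ∀ q b : ℕ, k ≡ b [MOD q] → (pr = true → ¬ q ∣ b) → (∀ j, ¬ q ∣ b + h j) →
        (pr = true → ¬ q ∣ k) ∧ ∀ j, ¬ q ∣ k + h j := by
      intro q b hkb h1 h2
      refine ⟨fun hpr h => h1 hpr ((hkb.dvd_iff dvd_rfl).1 h), fun j hj => h2 j ?_⟩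
      exact ((hkb.add_right (h j)).dvd_iff dvd_rfl).1 hj
    intro q hq
    rcases mem_insert.1 hq with h | h
    · rw [h]
      exact key p r hk2 hr1 hr2
    · exact key q a (hk1.of_dvd (dvd_prod_of_mem _ h)) (ha q h).1 (ha q h).2

lemma unit_of {w n : ℕ} (h : ∀ p : ℕ, p.Prime → p ≤ w → ¬ p ∣ n) : IsUnit (n : ZMod (Wp w)) := by
  rw [ZMod.isUnit_iff_coprime]
  apply Nat.coprime_of_dvd
  intro p hp hpn hpW
  exact h p hp ((prime_dvd_Wp hp).1 hpW) hpn

lemma wk_ne_zero (pr : Bool) {m : ℕ} (w : ℕ) (h : Fin m → ℕ) (hA : Admk pr h) :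
    wk pr m w (fun j => (h j : ZMod (Wp w))) ≠ 0 := by
  classical
  obtain ⟨a, ha⟩ := exists_arg pr h hA (pz w) (fun p hp => (mem_pz.1 hp).2)
  have ha' : ∀ p : ℕ, p.Prime → p ≤ w → (pr = true → ¬ p ∣ a) ∧ ∀ j, ¬ p ∣ a + h j :=
    fun p hp hpw => ha p (mem_pz.2 ⟨hpw, hp⟩)
  unfold wk
  apply ne_of_gt
  apply div_pos _ (AA_pos pr w)
  have h1 : 0 < ((AA pr w).filter (fun b => gk (fun j => (h j : ZMod (Wp w))) b)).card := by
    apply card_pos.2
    refine ⟨(a : ZMod (Wp w)), ?_⟩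
    rw [mem_filter]
    constructor
    · unfold AA
      rw [mem_filter]
      exact ⟨mem_univ _, fun hpr => unit_of (fun p hp hpw => (ha' p hp hpw).1 hpr)⟩
    · intro j
      have h2 : IsUnit ((a + h j : ℕ) : ZMod (Wp w)) :=
        unit_of (fun p hp hpw => (ha' p hp hpw).2 j)
      push_cast at h2
      rwa [add_comm]
  exact_mod_cast h1

lemma losk_sub (pr : Bool) (m w : ℕ) (A : Set ℕ) (B : Finset (ZMod (Wp w))) :
    losk pr m A ⊆ {h : Fin m → ℕ | (fun j => (h j : ZMod (Wp w))) ∈ sumk m w B ∧ h ∉ hitk pr m A} ∪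
      {h : Fin m → ℕ | (fun j => (h j : ZMod (Wp w))) ∈ misk pr m w B} := by
  classical
  rintro h ⟨h1, h2⟩
  by_cases h3 : (fun j => (h j : ZMod (Wp w))) ∈ sumk m w B
  · exact Or.inl ⟨h3, h2⟩
  · refine Or.inr ?_
    show (fun j => (h j : ZMod (Wp w))) ∈ misk pr m w B
    unfold misk
    rw [mem_filter]
    refine ⟨mem_univ _, wk_ne_zero pr w h h1, fun a ha hg => h3 ?_⟩
    unfold sumk
    rw [mem_filter]
    exact ⟨mem_univ _, a, ha, hg⟩

lemma udk_losk_le (pr : Bool) (m : ℕ) (c : ℝ) (h1 : StOneK pr m c) (h3 : StGlob pr m)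
    (d : ℝ) (hd : 0 < d) (hdc : d < c) : ∃ η0 : ℝ, 0 < η0 ∧ ∀ δ κ : ℝ, 0 < δ → 0 < κ →
    δ + κ ≤ η0 → δ + κ < 1 → ∀ A : Set ℕ, 1 - δ ≤ relq pr A →
    udk (losk pr m A) ≤ Real.exp (-Real.exp (((c - d) / (δ + κ)) ^ (1 / (m : ℝ)))) := by
  classical
  obtain ⟨η0, hη0, h1⟩ := h1 d hd hdc
  refine ⟨η0, hη0, fun δ κ hδ hκ hle hlt A hA => ?_⟩
  obtain ⟨E, hE⟩ : ∃ E : ℝ, E = Real.exp (-Real.exp (((c - d) / (δ + κ)) ^ (1 / (m : ℝ)))) := ⟨_, rfl⟩
  rw [← hE]
  have hE0 : 0 < E := by rw [hE]; exact Real.exp_pos _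
  apply le_of_forall_pos_le_add
  intro ε hε
  obtain ⟨w0, hw0⟩ := h3 A (1 - δ) κ (ε / 2) hκ (by linarith) (by linarith) (by positivity) hA
  obtain ⟨X0, hX0⟩ := hw0 w0 le_rfl
  have hW : (0 : ℝ) < Wp w0 := by exact_mod_cast Wp_pos w0
  have hlim : Tendsto (fun X : ℕ => E * (1 + (Wp w0 : ℝ) / X) ^ m) atTop (𝓝 (E * (1 + 0) ^ m)) := by
    apply Tendsto.const_mul
    apply Tendsto.pow
    apply Tendsto.const_add
    exact tendsto_const_div_atTop_nhds_zero_nat _
  rw [add_zero, one_pow, mul_one] at hlim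
  have hev := hlim.eventually_lt_const (show E < E + ε / 2 by linarith)
  apply udk_le
  filter_upwards [hev, eventually_ge_atTop X0, eventually_ge_atTop 1] with X hX1 hX2 hX3
  obtain ⟨B, hB, hBc, hcnt⟩ := hX0 X hX2
  have hXr : (0 : ℝ) < X := by exact_mod_cast hX3
  have hmis := h1 (δ + κ) (by positivity) hle w0 B hB (by
    have : (1 - (δ + κ)) = (1 - δ - κ) := by ring
    rw [this]
    exact hBc)
  rw [← hE, div_le_iff₀ (by positivity)] at hmis
  have h4 : (cntk (losk pr m A) X : ℝ) ≤ ε / 2 * (X : ℝ) ^ m + E * ((X : ℝ) + Wp w0) ^ m := by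
    have h5 : cntk (losk pr m A) X ≤
        cntk {h : Fin m → ℕ | (fun j => (h j : ZMod (Wp w0))) ∈ sumk m w0 B ∧ h ∉ hitk pr m A} X +
        cntk {h : Fin m → ℕ | (fun j => (h j : ZMod (Wp w0))) ∈ misk pr m w0 B} X :=
      (cntk_mono (losk_sub pr m w0 A B) X).trans (cntk_union _ _ X)
    have h6 : (cntk (losk pr m A) X : ℝ) ≤
        (cntk {h : Fin m → ℕ | (fun j => (h j : ZMod (Wp w0))) ∈ sumk m w0 B ∧ h ∉ hitk pr m A} X : ℝ) +
        (cntk {h : Fin m → ℕ | (fun j => (h j : ZMod (Wp w0))) ∈ misk pr m w0 B} X : ℝ) := by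
      exact_mod_cast h5
    have h7 := cntk_cls w0 (misk pr m w0 B) X
    have h8 : ((misk pr m w0 B).card : ℝ) * ((X : ℝ) / Wp w0 + 1) ^ m ≤ E * ((X : ℝ) + Wp w0) ^ m := by
      calc ((misk pr m w0 B).card : ℝ) * ((X : ℝ) / Wp w0 + 1) ^ m
          ≤ (E * (Wp w0 : ℝ) ^ m) * ((X : ℝ) / Wp w0 + 1) ^ m :=
            mul_le_mul_of_nonneg_right hmis (by positivity)
        _ = E * ((X : ℝ) + Wp w0) ^ m := by
            rw [mul_assoc, ← mul_pow]
            congr 2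
            field_simp
    linarith
  rw [div_le_iff₀ (by positivity)]
  refine h4.trans ?_
  have h9 : E * ((X : ℝ) + Wp w0) ^ m = E * (1 + (Wp w0 : ℝ) / X) ^ m * (X : ℝ) ^ m := by
    rw [mul_assoc, ← mul_pow]
    congr 2
    field_simp
  rw [h9]
  have h10 : 0 < (X : ℝ) ^ m := by positivity
  nlinarith

theorem law_one (pr : Bool) (m : ℕ) (hm : 1 ≤ m) (c : ℝ) (hc : 0 < c) (h1 : StOneK pr m c)
    (h2 : StOneUpK pr m c) (h3 : StGlob pr m) (h4 : StUnion pr m) :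
    Tendsto (fun δ : ℝ => δ * Real.log (Real.log (1 / MDk pr m δ)) ^ m) (𝓝[>] 0) (𝓝 c) := by
  classical
  rw [Metric.tendsto_nhds]
  intro t ht
  obtain ⟨d, hd⟩ : ∃ d : ℝ, d = min (t / 4) (c / 4) := ⟨_, rfl⟩
  have hd0 : 0 < d := by rw [hd]; positivity
  have hda : d ≤ t / 4 := by rw [hd]; exact min_le_left _ _
  have hdb : d ≤ c / 4 := by rw [hd]; exact min_le_right _ _
  obtain ⟨η1, hη1, h1'⟩ := udk_losk_le pr m c h1 h3 d hd0 (by linarith)
  obtain ⟨η2, hη2, h2'⟩ := h2 d hd0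
  have hη3 : 0 < min (min (η1 / 2) η2) (1 / 4) := by positivity
  filter_upwards [Ioo_mem_nhdsGT hη3] with η hη
  obtain ⟨hη0, hηlt⟩ := hη
  have hηle1 : η ≤ η1 / 2 := hηlt.le.trans ((min_le_left _ _).trans (min_le_left _ _))
  have hηle2 : η ≤ η2 := hηlt.le.trans ((min_le_left _ _).trans (min_le_right _ _))
  have hηq : η ≤ 1 / 4 := hηlt.le.trans (min_le_right _ _)
  have hmr : (0 : ℝ) < m := by exact_mod_cast hm
  have hbdd : BddAbove {x | ∃ A : Set ℕ, 1 - η ≤ relq pr A ∧ x = udk (losk pr m A)} := by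
    refine ⟨1, ?_⟩
    rintro x ⟨A, _, rfl⟩
    exact udk_le_one _
  -- upper bound
  have hup : MDk pr m η ≤ Real.exp (-Real.exp (((c - 2 * d) / η) ^ (1 / (m : ℝ)))) := by
    unfold MDk
    apply csSup_le
    · exact ⟨_, Set.univ, by rw [relq_univ]; linarith, rfl⟩
    · rintro x ⟨A, hA, rfl⟩
      obtain ⟨κ, hκ⟩ : ∃ κ : ℝ, κ = η * (d / c) := ⟨_, rfl⟩
      have hdc : d / c ≤ 1 / 4 := by
        rw [div_le_iff₀ hc]
        linarith
      have hκ0 : 0 < κ := by rw [hκ]; positivity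
      have hκle : κ ≤ η := by
        rw [hκ]
        nlinarith
      refine (h1' η κ hη0 hκ0 (by linarith) (by linarith) A hA).trans ?_
      apply Real.exp_le_exp.2
      apply neg_le_neg
      apply Real.exp_le_exp.2
      apply Real.rpow_le_rpow (div_nonneg (by linarith) hη0.le) _ (by positivity)
      rw [div_le_div_iff₀ hη0 (by positivity)]
      have h5 : η + κ = η * ((c + d) / c) := by
        rw [hκ]
        field_simp
      rw [h5]
      have h6 : (c - 2 * d) * ((c + d) / c) ≤ c - d := by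
        rw [mul_div_assoc', div_le_iff₀ hc]
        nlinarith
      calc (c - 2 * d) * (η * ((c + d) / c)) = ((c - 2 * d) * ((c + d) / c)) * η := by ring
        _ ≤ (c - d) * η := mul_le_mul_of_nonneg_right h6 hη0.le
  have hlow : Real.exp (-Real.exp (((c + d) / η) ^ (1 / (m : ℝ)))) ≤ MDk pr m η := by
    obtain ⟨w, hw, B, hB, hBc, h5⟩ := h2' η hη0 hηle2
    obtain ⟨A, hA1, hA2, _⟩ := h4 w B hB
    refine h5.trans ((hA2 hw).trans ?_)
    unfold MDk
    apply le_csSup hbdd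
    refine ⟨A, ?_, rfl⟩
    refine le_trans ?_ hA1
    rw [le_div_iff₀ (AA_pos pr w)]
    exact hBc
  have hpos : 0 < MDk pr m η := lt_of_lt_of_le (Real.exp_pos _) hlow
  have hneg : Real.log (1 / MDk pr m η) = -Real.log (MDk pr m η) := by
    rw [one_div, Real.log_inv]
  have hlog1 : Real.log (1 / MDk pr m η) ≤ Real.exp (((c + d) / η) ^ (1 / (m : ℝ))) := by
    rw [hneg]
    have h3 := Real.log_le_log (Real.exp_pos _) hlow
    rw [Real.log_exp] at h3
    linarith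
  have hlog2 : Real.exp (((c - 2 * d) / η) ^ (1 / (m : ℝ))) ≤ Real.log (1 / MDk pr m η) := by
    rw [hneg]
    have h3 := Real.log_le_log hpos hup
    rw [Real.log_exp] at h3
    linarith
  have hlogpos : 0 < Real.log (1 / MDk pr m η) := lt_of_lt_of_le (Real.exp_pos _) hlog2
  have hll1 : Real.log (Real.log (1 / MDk pr m η)) ≤ ((c + d) / η) ^ (1 / (m : ℝ)) := by
    have h3 := Real.log_le_log hlogpos hlog1
    rwa [Real.log_exp] at h3
  have hll2 : ((c - 2 * d) / η) ^ (1 / (m : ℝ)) ≤ Real.log (Real.log (1 / MDk pr m η)) := by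
    have h3 := Real.log_le_log (Real.exp_pos _) hlog2
    rwa [Real.log_exp] at h3
  have hx1 : 0 ≤ (c - 2 * d) / η := div_nonneg (by linarith) hη0.le
  have hx2 : 0 ≤ (c + d) / η := div_nonneg (by linarith) hη0.le
  have hpw : ∀ x : ℝ, 0 ≤ x → (x ^ (1 / (m : ℝ))) ^ m = x := by
    intro x hx
    rw [← Real.rpow_natCast, ← Real.rpow_mul hx, one_div, inv_mul_cancel₀ hmr.ne', Real.rpow_one]
  have h7 := pow_le_pow_left₀ (Real.rpow_nonneg hx1 _) hll2 m
  have h8 := pow_le_pow_left₀ ((Real.rpow_nonneg hx1 _).trans hll2) hll1 m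
  rw [hpw _ hx1, div_le_iff₀ hη0] at h7
  rw [hpw _ hx2, le_div_iff₀ hη0] at h8
  rw [Real.dist_eq, abs_lt]
  constructor
  · linarith
  · linarith

end Pool.Agent.TH111.J3812
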