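import Mathlib
import Pool.Agent.TH881.RK.DefsL
import Pool.Agent.TH663.J3811
import Pool.Agent.TH111.J3812

/-! RL-3: duality between the lost and the hit vectors (job 4394, helper111 for helper881) -/

set_option autoImplicit false

namespace Pool.Agent.TH111.J4394

open Finset Filter Topology
open Pool.Agent.TH881
open Pool.Agent.TH881.RG
open Pool.Agent.TH881.RQ
open Pool.Agent.TH881.RK
open Pool.Agent.H373R2.T7
open Pool.Agent.TH111.J3812 (cS mem_cS cntk_eq cS1 mem_cS1 cnt_eq1)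

/-! ### the density of the primes -/

lemma pi_ratio : Tendsto (fun y : ℕ => (Nat.primeCounting y : ℝ) / y) atTop (𝓝 0) := by
  have h2 := (tendsto_natCast_atTop_atTop (R := ℝ)).eventually
    (Chebyshev.eventually_primeCounting_le (ε := 1) one_pos)
  have hlog : Tendsto (fun y : ℕ => (Real.log 4 + 1) / Real.log (y : ℝ)) atTop (𝓝 0) :=
    tendsto_const_nhds.div_atTop (Real.tendsto_log_atTop.comp tendsto_natCast_atTop_atTop)
  apply squeeze_zero' _ _ hlog
  · exact Eventually.of_forall fun y => by positivity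
  · filter_upwards [h2, eventually_ge_atTop 3] with y hy hy3
    have hyR : (3 : ℝ) ≤ y := by exact_mod_cast hy3
    rw [Nat.floor_natCast] at hy
    rw [div_le_iff₀ (by linarith)]
    refine hy.trans (le_of_eq ?_)
    ring

/-- the exceptional set of entries -/
def ZZ (m : ℕ) : Set ℕ := {k | k ≤ m + 1 ∨ ∃ n ≤ m + 1, (n + k).Prime}

open Classical in
lemma cnt_ZZ (m x : ℕ) : ((cS1 (ZZ m) x).card : ℝ) ≤
    (m + 2) + (m + 2) * Nat.primeCounting (x + (m + 1)) := by
  have h : (cS1 (ZZ m) x).card ≤ (m + 2) + (m + 2) * Nat.primeCounting (x + (m + 1)) := by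
    have hs : cS1 (ZZ m) x ⊆ range (m + 2) ∪
        (range (m + 2)).biUnion (fun n => (Icc 1 x).filter (fun k => (n + k).Prime)) := by
      intro k hk
      rw [mem_cS1] at hk
      rw [mem_union]
      rcases hk.2 with h | ⟨n, hn, hp⟩
      · left
        rw [mem_range]
        omega
      · right
        rw [mem_biUnion]
        refine ⟨n, by rw [mem_range]; omega, ?_⟩
        rw [mem_filter, mem_Icc]
        exact ⟨hk.1, hp⟩
    refine (card_le_card hs).trans ((card_union_le _ _).trans ?_)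
    rw [card_range]
    apply Nat.add_le_add_left
    refine (card_biUnion_le).trans ?_
    calc ∑ n ∈ range (m + 2), ((Icc 1 x).filter (fun k => (n + k).Prime)).card
        ≤ ∑ _n ∈ range (m + 2), Nat.primeCounting (x + (m + 1)) := by
          apply sum_le_sum
          intro n hn
          rw [mem_range] at hn
          have h4 : Nat.primeCounting (x + (m + 1)) = Nat.count Nat.Prime (x + (m + 1) + 1) := rfl
          rw [h4, Nat.count_eq_card_filter_range]
          apply card_le_card_of_injOn (fun k => n + k)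
          · intro k hk
            rw [mem_coe, mem_filter, mem_Icc] at hk
            rw [mem_coe, mem_filter, mem_range]
            refine ⟨?_, hk.2⟩
            show n + k < _
            omega
          · intro a _ b _ hab
            exact Nat.add_left_cancel hab
      _ = _ := by rw [sum_const, card_range, smul_eq_mul]
  exact_mod_cast h

lemma ZZ_ratio (m : ℕ) : Tendsto (fun x : ℕ => ((cS1 (ZZ m) x).card : ℝ) / x) atTop (𝓝 0) := by
  have h1 : Tendsto (fun x : ℕ => (Nat.primeCounting (x + (m + 1)) : ℝ) / ((x + (m + 1) : ℕ) : ℝ)) atTop (𝓝 0) :=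
    pi_ratio.comp (tendsto_add_atTop_nat (m + 1))
  have hinv : Tendsto (fun x : ℕ => 1 / (x : ℝ)) atTop (𝓝 0) := tendsto_const_div_atTop_nhds_zero_nat 1
  have h2 : Tendsto (fun x : ℕ => ((m : ℝ) + 2) * (1 / (x : ℝ)) +
      (m + 2) * ((Nat.primeCounting (x + (m + 1)) : ℝ) / ((x + (m + 1) : ℕ) : ℝ) *
        (1 + (m + 1) * (1 / (x : ℝ))))) atTop
      (𝓝 (((m : ℝ) + 2) * 0 + (m + 2) * (0 * (1 + (m + 1) * 0)))) :=
    (hinv.const_mul _).add ((h1.mul ((hinv.const_mul _).const_add 1)).const_mul _)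
  rw [mul_zero, zero_mul, mul_zero, add_zero] at h2
  apply squeeze_zero' _ _ h2
  · exact Eventually.of_forall fun y => by positivity
  · filter_upwards [eventually_ge_atTop 1] with x hx
    have hx0 : (0 : ℝ) < x := by exact_mod_cast hx
    rw [div_le_iff₀ hx0]
    refine (cnt_ZZ m x).trans (le_of_eq ?_)
    have hxm : ((x + (m + 1) : ℕ) : ℝ) ≠ 0 := by positivity
    have e : ((x + (m + 1) : ℕ) : ℝ) = x + (m + 1) := by push_cast; ring
    have e2 : (1 + ((m : ℝ) + 1) * (1 / (x : ℝ))) * x = ((x + (m + 1) : ℕ) : ℝ) := by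
      rw [e]
      field_simp
    calc ((m : ℝ) + 2) + (m + 2) * Nat.primeCounting (x + (m + 1))
        = (m + 2) + (m + 2) * (Nat.primeCounting (x + (m + 1)) / ((x + (m + 1) : ℕ) : ℝ) *
          ((x + (m + 1) : ℕ) : ℝ)) := by
          rw [div_mul_cancel₀ _ hxm]
      _ = (m + 2) + (m + 2) * (Nat.primeCounting (x + (m + 1)) / ((x + (m + 1) : ℕ) : ℝ) *
          ((1 + ((m : ℝ) + 1) * (1 / (x : ℝ))) * x)) := by rw [e2]
      _ = _ := by
          field_simp

/-! ### one coordinate in a thin set -/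

lemma coord {m : ℕ} (j : Fin m) (S : Set ℕ) (x : ℕ) (hx : 0 < x) :
    (cntk {h : Fin m → ℕ | h j ∈ S} x : ℝ) / (x : ℝ) ^ m ≤ ((cS1 S x).card : ℝ) / x := by
  classical
  have h1 : cntk {h : Fin m → ℕ | h j ∈ S} x ≤ (cS1 S x).card * x ^ (m - 1) := by
    rw [cntk_eq]
    have hs : cS {h : Fin m → ℕ | h j ∈ S} x ⊆
        Fintype.piFinset (fun i : Fin m => if i = j then cS1 S x else Icc 1 x) := by
      intro h hh
      rw [mem_cS] at hh
      rw [Fintype.mem_piFinset]
      intro i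
      split_ifs with hij
      · rw [mem_cS1, hij]
        exact ⟨mem_Icc.1 (hh.1 j), hh.2⟩
      · exact hh.1 i
    refine (card_le_card hs).trans (le_of_eq ?_)
    rw [Fintype.card_piFinset, ← mul_prod_erase univ _ (mem_univ j)]
    congr 1
    · rw [if_pos rfl]
    · rw [prod_congr rfl (g := fun _ => x)]
      · rw [prod_const, card_erase_of_mem (mem_univ j), card_univ, Fintype.card_fin]
      · intro i hi
        rw [if_neg (ne_of_mem_erase hi), Nat.card_Icc, Nat.add_sub_cancel]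
  have hm : 1 ≤ m := by have := j.2; omega
  have hx0 : (0 : ℝ) < x := by exact_mod_cast hx
  have h2 : (cntk {h : Fin m → ℕ | h j ∈ S} x : ℝ) ≤ (cS1 S x).card * (x : ℝ) ^ (m - 1) := by
    exact_mod_cast h1
  rw [div_le_iff₀ (by positivity)]
  refine h2.trans (le_of_eq ?_)
  obtain ⟨k, rfl⟩ : ∃ k, m = k + 1 := ⟨m - 1, by omega⟩
  rw [Nat.add_sub_cancel, pow_succ]
  field_simp

lemma cntk_bUnion {m : ℕ} (F : Fin m → Set (Fin m → ℕ)) (x : ℕ) :
    (cntk {h : Fin m → ℕ | ∃ j, h ∈ F j} x : ℝ) ≤ ∑ j, (cntk (F j) x : ℝ) := by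
  classical
  have h : cntk {h : Fin m → ℕ | ∃ j, h ∈ F j} x ≤ ∑ j, cntk (F j) x := by
    rw [cntk_eq]
    simp only [cntk_eq]
    refine (card_le_card ?_).trans card_biUnion_le
    intro h hh
    rw [mem_cS] at hh
    obtain ⟨h1, j, hj⟩ := hh
    rw [mem_biUnion]
    exact ⟨j, mem_univ j, mem_cS.2 ⟨h1, hj⟩⟩
  exact_mod_cast h

/-- vectors with an entry in the exceptional set have density zero -/
lemma thin {m : ℕ} : Tendsto (fun x : ℕ => (cntk {h : Fin m → ℕ | ∃ j, h j ∈ ZZ m} x : ℝ) / (x : ℝ) ^ m)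
    atTop (𝓝 0) := by
  have h1 : Tendsto (fun x : ℕ => (m : ℝ) * (((cS1 (ZZ m) x).card : ℝ) / x)) atTop (𝓝 (m * 0)) :=
    (ZZ_ratio m).const_mul _
  rw [mul_zero] at h1
  apply squeeze_zero' _ _ h1
  · exact Eventually.of_forall fun y => by positivity
  · filter_upwards [eventually_ge_atTop 1] with x hx
    have hx0 : (0 : ℝ) < x := by exact_mod_cast hx
    have h2 := cntk_bUnion (fun j : Fin m => {h : Fin m → ℕ | h j ∈ ZZ m}) x
    have h3 : (cntk {h : Fin m → ℕ | ∃ j, h j ∈ ZZ m} x : ℝ) / (x : ℝ) ^ m ≤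
        ∑ j : Fin m, (cntk {h : Fin m → ℕ | h j ∈ ZZ m} x : ℝ) / (x : ℝ) ^ m := by
      rw [← sum_div]
      exact div_le_div_of_nonneg_right h2 (by positivity)
    refine h3.trans ((sum_le_sum fun j _ => coord j (ZZ m) x hx).trans (le_of_eq ?_))
    rw [sum_const, card_univ, Fintype.card_fin, nsmul_eq_mul]

/-- a vector which is hit and has a local obstruction has an exceptional entry -/
lemma hit_not_adm (pr : Bool) (m : ℕ) (hm : 1 ≤ m) (A : Set ℕ) (h : Fin m → ℕ)
    (hh : h ∈ hitk pr m A) (hA : ¬ Admk pr h) : ∃ j, h j ∈ ZZ m := by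
  classical
  by_contra hcon
  push Not at hcon
  apply hA
  obtain ⟨n, -, hn, hp⟩ := hh
  have hlarge : ∀ j, m + 1 < h j := fun j => by
    by_contra h1
    exact hcon j (Or.inl (not_lt.1 h1))
  apply Pool.Agent.TH663.J3811.adm_of pr (m + 1) le_rfl h
  unfold wk
  apply ne_of_gt
  apply div_pos _ (Pool.Agent.TH111.J3812.AA_pos pr (m + 1))
  have h1 : 0 < ((AA pr (m + 1)).filter
      (fun b => gk (Pool.Agent.TH663.J3811.cl (Wp (m + 1)) h) b)).card := by
    apply card_pos.2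
    refine ⟨(n : ZMod (Wp (m + 1))), ?_⟩
    rw [mem_filter]
    constructor
    · unfold AA
      rw [mem_filter]
      refine ⟨mem_univ _, fun hpr => ?_⟩
      apply Pool.Agent.TH663.J3811.unit_of_prime (hn hpr)
      by_contra h2
      exact hcon ⟨0, hm⟩ (Or.inr ⟨n, not_lt.1 h2, hp _⟩)
    · intro j
      have h2 := Pool.Agent.TH663.J3811.unit_of_prime (w := m + 1) (hp j) (by have := hlarge j; omega)
      unfold Pool.Agent.TH663.J3811.cl
      push_cast at h2
      rw [add_comm (h j : ZMod (Wp (m + 1)))]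
      exact h2
  exact_mod_cast h1

/-! ### the density of the admissible vectors -/

open Classical in
/-- the admissible classes -/
noncomputable def TT (pr : Bool) (m : ℕ) : Finset (Fin m → ZMod (Wp (m + 1))) :=
  univ.filter (fun t => wk pr m (m + 1) t ≠ 0)

lemma adm_iff (pr : Bool) (m : ℕ) (h : Fin m → ℕ) :
    Admk pr h ↔ Pool.Agent.TH663.J3811.cl (Wp (m + 1)) h ∈ TT pr m := by
  classical
  unfold TT
  rw [mem_filter]
  constructor
  · intro hA
    exact ⟨mem_univ _, Pool.Agent.TH111.J3812.wk_ne_zero pr (m + 1) h hA⟩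
  · rintro ⟨-, h1⟩
    exact Pool.Agent.TH663.J3811.adm_of pr (m + 1) le_rfl h h1

lemma cntk_adm (pr : Bool) (m x : ℕ) : cntk {h : Fin m → ℕ | Admk pr h} x =
    (Pool.Agent.TH663.J3811.VV (Wp (m + 1)) 1 x (TT pr m)).card := by
  classical
  rw [cntk_eq]
  congr 1
  ext h
  rw [mem_cS]
  unfold Pool.Agent.TH663.J3811.VV
  rw [mem_filter, Fintype.mem_piFinset]
  exact and_congr Iff.rfl (adm_iff pr m h)

lemma adm_dens (pr : Bool) (m : ℕ) :
    Tendsto (fun x : ℕ => (cntk {h : Fin m → ℕ | Admk pr h} x : ℝ) / (x : ℝ) ^ m) atTop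
      (𝓝 (((TT pr m).card : ℝ) / (Wp (m + 1) : ℝ) ^ m)) := by
  classical
  obtain ⟨W, hWdef⟩ : ∃ W : ℕ, W = Wp (m + 1) := ⟨_, rfl⟩
  have hW : 0 < Wp (m + 1) := Wp_pos _
  have hWR : (0 : ℝ) < Wp (m + 1) := by exact_mod_cast hW
  have hinv : Tendsto (fun x : ℕ => 1 / (x : ℝ)) atTop (𝓝 0) := tendsto_const_div_atTop_nhds_zero_nat 1
  have e : ((TT pr m).card : ℝ) / (Wp (m + 1) : ℝ) ^ m =
      (TT pr m).card * (1 / (Wp (m + 1) : ℝ)) ^ m := by
    rw [one_div, inv_pow]
    rfl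
  have hup : Tendsto (fun x : ℕ => ((TT pr m).card : ℝ) * (1 / (Wp (m + 1) : ℝ) + 1 / (x : ℝ)) ^ m) atTop
      (𝓝 (((TT pr m).card : ℝ) * (1 / (Wp (m + 1) : ℝ) + 0) ^ m)) :=
    ((tendsto_const_nhds.add hinv).pow m).const_mul _
  have hlo : Tendsto (fun x : ℕ => ((TT pr m).card : ℝ) * (1 / (Wp (m + 1) : ℝ) - 1 / (x : ℝ)) ^ m) atTop
      (𝓝 (((TT pr m).card : ℝ) * (1 / (Wp (m + 1) : ℝ) - 0) ^ m)) :=
    ((tendsto_const_nhds.sub hinv).pow m).const_mul _
  rw [add_zero, ← e] at hup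
  rw [sub_zero, ← e] at hlo
  apply tendsto_of_tendsto_of_tendsto_of_le_of_le' hlo hup
  · have hlin : ∀ᶠ x : ℕ in atTop, (Wp (m + 1) : ℝ) ≤ (x : ℝ) :=
      tendsto_natCast_atTop_atTop.eventually_ge_atTop _
    filter_upwards [hlin, eventually_ge_atTop 1] with x hx hx1
    have hx0 : (0 : ℝ) < x := by exact_mod_cast hx1
    have h1 : 0 ≤ (x : ℝ) / Wp (m + 1) - 1 - (0 : ℕ) := by
      have : (1 : ℝ) ≤ (x : ℝ) / Wp (m + 1) := by
        rw [le_div_iff₀ hWR]
        linarith
      push_cast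
      linarith
    have h2 := Pool.Agent.TH663.J3811.VV_lower (m := m) (Wp (m + 1)) hW 0 x (TT pr m) h1
    rw [zero_add, ← cntk_adm] at h2
    rw [le_div_iff₀ (by positivity)]
    refine le_trans (le_of_eq ?_) h2
    rw [mul_assoc, ← mul_pow]
    congr 2
    push_cast
    field_simp
    ring
  · filter_upwards [eventually_ge_atTop 1] with x hx1
    have hx0 : (0 : ℝ) < x := by exact_mod_cast hx1
    have h2 := Pool.Agent.TH663.J3811.VV_upper (m := m) (Wp (m + 1)) hW x (TT pr m)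
    rw [← cntk_adm] at h2
    rw [div_le_iff₀ (by positivity)]
    refine h2.trans (le_of_eq ?_)
    rw [mul_assoc, ← mul_pow]
    congr 2
    field_simp

/-! ### the duality -/

lemma cntk_disj {m : ℕ} {S T U : Set (Fin m → ℕ)} (h1 : ∀ h, h ∈ U ↔ h ∈ S ∨ h ∈ T)
    (h2 : ∀ h, h ∈ S → h ∉ T) (x : ℕ) : cntk U x = cntk S x + cntk T x := by
  classical
  rw [cntk_eq, cntk_eq, cntk_eq, ← card_union_of_disjoint]
  · congr 1
    ext h
    rw [mem_union, mem_cS, mem_cS, mem_cS, h1]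
    tauto
  · rw [Finset.disjoint_left]
    intro h ha hb
    rw [mem_cS] at ha hb
    exact h2 h ha.2 hb.2

lemma count_eq (pr : Bool) (m : ℕ) (A : Set ℕ) (x : ℕ) :
    cntk (losk pr m A) x + cntk (hitk pr m A) x = cntk {h : Fin m → ℕ | Admk pr h} x +
      cntk {h : Fin m → ℕ | h ∈ hitk pr m A ∧ ¬ Admk pr h} x := by
  have h1 := cntk_disj (S := losk pr m A) (T := {h : Fin m → ℕ | Admk pr h ∧ h ∈ hitk pr m A})
    (U := {h : Fin m → ℕ | Admk pr h}) (fun h => by
      constructor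
      · intro ha
        have ha' : Admk pr h := ha
        by_cases hb : h ∈ hitk pr m A
        · exact Or.inr ⟨ha', hb⟩
        · exact Or.inl ⟨ha', hb⟩
      · rintro (h1 | h1)
        · exact h1.1
        · exact h1.1) (fun h h1 h2 => h1.2 h2.2) x
  have h2 := cntk_disj (S := {h : Fin m → ℕ | Admk pr h ∧ h ∈ hitk pr m A})
    (T := {h : Fin m → ℕ | h ∈ hitk pr m A ∧ ¬ Admk pr h})
    (U := hitk pr m A) (fun h => by
      constructor
      · intro hb
        by_cases ha : Admk pr h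
        · exact Or.inl ⟨ha, hb⟩
        · exact Or.inr ⟨hb, ha⟩
      · rintro (h1 | h1)
        · exact h1.2
        · exact h1.1) (fun h h1 h2 => h2.2 h1.1) x
  omega

lemma limsup_sub {a b : ℕ → ℝ} {d : ℝ} (ha : Tendsto a atTop (𝓝 d)) (hb0 : ∀ x, 0 ≤ b x)
    (hb1 : ∀ x, b x ≤ 1) : limsup (fun x => a x - b x) atTop = d - liminf b atTop := by
  have hbb : IsBoundedUnder (· ≥ ·) atTop b := isBoundedUnder_of ⟨0, hb0⟩
  have hba : IsBoundedUnder (· ≤ ·) atTop b := isBoundedUnder_of ⟨1, hb1⟩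
  have hsa : IsBoundedUnder (· ≤ ·) atTop (fun x => a x - b x) := by
    refine ⟨d + 1, ?_⟩
    rw [eventually_map]
    have : ∀ᶠ x in atTop, a x < d + 1 := ha.eventually_lt_const (by linarith)
    filter_upwards [this] with x hx
    have := hb0 x
    linarith
  have hsb : IsBoundedUnder (· ≥ ·) atTop (fun x => a x - b x) := by
    refine ⟨d - 2, ?_⟩
    rw [eventually_map]
    have : ∀ᶠ x in atTop, d - 1 < a x := ha.eventually_const_lt (by linarith)
    filter_upwards [this] with x hx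
    have := hb1 x
    show d - 2 ≤ a x - b x
    linarith
  apply le_antisymm
  · apply le_of_forall_pos_le_add
    intro ε hε
    apply limsup_le_of_le hsb.isCoboundedUnder_flip
    have h1 : ∀ᶠ x in atTop, a x < d + ε / 2 := ha.eventually_lt_const (by linarith)
    have h2 : ∀ᶠ x in atTop, liminf b atTop - ε / 2 < b x :=
      eventually_lt_of_lt_liminf (by linarith) hbb
    filter_upwards [h1, h2] with x hx1 hx2
    linarith
  · apply le_of_forall_pos_le_add
    intro ε hε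
    have h1 : ∀ᶠ x in atTop, d - ε / 2 < a x := ha.eventually_const_lt (by linarith)
    have h2 : ∃ᶠ x in atTop, b x < liminf b atTop + ε / 2 :=
      frequently_lt_of_liminf_lt hba.isCoboundedUnder_flip (by linarith)
    have h3 : d - liminf b atTop - ε ≤ limsup (fun x => a x - b x) atTop := by
      apply le_limsup_of_frequently_le _ hsa
      refine (h2.and_eventually h1).mono ?_
      rintro x ⟨hx1, hx2⟩
      linarith
    linarith

lemma dual_one (pr : Bool) (m : ℕ) (hm : 1 ≤ m) (A : Set ℕ) :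
    udk (losk pr m A) = ((TT pr m).card : ℝ) / (Wp (m + 1) : ℝ) ^ m - ldk (hitk pr m A) := by
  have herr : Tendsto (fun x : ℕ => (cntk {h : Fin m → ℕ | h ∈ hitk pr m A ∧ ¬ Admk pr h} x : ℝ) /
      (x : ℝ) ^ m) atTop (𝓝 0) := by
    apply squeeze_zero' _ _ (thin (m := m))
    · exact Eventually.of_forall fun y => by positivity
    · refine Eventually.of_forall fun x => div_le_div_of_nonneg_right ?_ (by positivity)
      have := Pool.Agent.TH111.J3812.cntk_mono
        (S := {h : Fin m → ℕ | h ∈ hitk pr m A ∧ ¬ Admk pr h}) (T := {h : Fin m → ℕ | ∃ j, h j ∈ ZZ m})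
        (fun h hh => hit_not_adm pr m hm A h hh.1 hh.2) x
      exact_mod_cast this
  have h1 := (adm_dens pr m).add herr
  rw [add_zero] at h1
  unfold udk ldk
  rw [← limsup_sub h1 (fun x => Pool.Agent.TH663.J3811.ratio_nonneg (hitk pr m A) x)
    (fun x => Pool.Agent.TH663.J3811.ratio_le (hitk pr m A) x)]
  congr 1
  funext x
  have h2 := count_eq pr m A x
  have h3 : (cntk (losk pr m A) x : ℝ) = cntk {h : Fin m → ℕ | Admk pr h} x +
      cntk {h : Fin m → ℕ | h ∈ hitk pr m A ∧ ¬ Admk pr h} x - cntk (hitk pr m A) x := by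
    have h4 : (cntk (losk pr m A) x : ℝ) + cntk (hitk pr m A) x = cntk {h : Fin m → ℕ | Admk pr h} x +
      cntk {h : Fin m → ℕ | h ∈ hitk pr m A ∧ ¬ Admk pr h} x := by exact_mod_cast h2
    linarith
  rw [h3]
  ring

theorem dual_k (pr : Bool) (m : ℕ) (hm : 1 ≤ m) :
    (Tendsto (fun x : ℕ => (cntk {h : Fin m → ℕ | Admk pr h} x : ℝ) / (x : ℝ) ^ m) atTop
      (𝓝 (ldk {h : Fin m → ℕ | Admk pr h}))) ∧
    ∀ δ : ℝ, 0 ≤ δ → MDk pr m δ = ldk {h : Fin m → ℕ | Admk pr h} - FFk pr m (1 - δ) := by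
  have hd : ldk {h : Fin m → ℕ | Admk pr h} = ((TT pr m).card : ℝ) / (Wp (m + 1) : ℝ) ^ m := by
    unfold ldk
    exact (adm_dens pr m).liminf_eq
  refine ⟨by rw [hd]; exact adm_dens pr m, fun δ hδ => ?_⟩
  have hu : 1 - δ ≤ relq pr Set.univ := by
    rw [Pool.Agent.TH111.J3812.relq_univ]
    linarith
  have hbb : BddBelow {d | ∃ A : Set ℕ, 1 - δ ≤ relq pr A ∧ d = ldk (hitk pr m A)} := by
    refine ⟨0, ?_⟩
    rintro d ⟨A, -, rfl⟩
    unfold ldk
    apply le_liminf_of_le (Pool.Agent.TH663.J3811.bdd_above (hitk pr m A)).isCoboundedUnder_flip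
    exact Eventually.of_forall fun x => Pool.Agent.TH663.J3811.ratio_nonneg (hitk pr m A) x
  have hba : BddAbove {d | ∃ A : Set ℕ, 1 - δ ≤ relq pr A ∧ d = udk (losk pr m A)} := by
    refine ⟨1, ?_⟩
    rintro d ⟨A, -, rfl⟩
    exact Pool.Agent.TH111.J3812.udk_le_one _
  have hn1 : Set.Nonempty {d | ∃ A : Set ℕ, 1 - δ ≤ relq pr A ∧ d = udk (losk pr m A)} :=
    ⟨udk (losk pr m Set.univ), Set.univ, hu, rfl⟩
  have hn2 : Set.Nonempty {d | ∃ A : Set ℕ, 1 - δ ≤ relq pr A ∧ d = ldk (hitk pr m A)} :=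
    ⟨ldk (hitk pr m Set.univ), Set.univ, hu, rfl⟩
  rw [hd]
  unfold MDk FFk
  apply le_antisymm
  · apply csSup_le hn1
    rintro d ⟨A, hA, rfl⟩
    rw [dual_one pr m hm A]
    have : sInf {d | ∃ A : Set ℕ, 1 - δ ≤ relq pr A ∧ d = ldk (hitk pr m A)} ≤ ldk (hitk pr m A) :=
      csInf_le hbb ⟨A, hA, rfl⟩
    linarith
  · have h1 : ((TT pr m).card : ℝ) / (Wp (m + 1) : ℝ) ^ m -
        sSup {d | ∃ A : Set ℕ, 1 - δ ≤ relq pr A ∧ d = udk (losk pr m A)} ≤
        sInf {d | ∃ A : Set ℕ, 1 - δ ≤ relq pr A ∧ d = ldk (hitk pr m A)} := by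
      apply le_csInf hn2
      rintro d ⟨A, hA, rfl⟩
      have : udk (losk pr m A) ≤ sSup {d | ∃ A : Set ℕ, 1 - δ ≤ relq pr A ∧ d = udk (losk pr m A)} :=
        le_csSup hba ⟨A, hA, rfl⟩
      rw [dual_one pr m hm A] at this
      linarith
    linarith

end Pool.Agent.TH111.J4394
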