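import Mathlib
import Pool.Agent.TH881.RK.DefsX
import Pool.Agent.TH914.J5134

/-! Log-concavity of the occupancy numbers. -/

set_option autoImplicit false

namespace Pool.Agent.TH111.J5316

open Finset Filter Topology

open Pool.Agent.TH881 Pool.Agent.TH881.RK

theorem anti (m N k : ℕ) (h : k + 1 ≤ N) : dd m N (k + 1) ≤ dd m N k := by
  obtain ⟨n, rfl⟩ : ∃ n, N = n + 1 := ⟨N - 1, by omega⟩
  have := Pool.Agent.TH914.J5134.dd_add m n k (by omega)
  omega

/-- the consequence of log-concavity for four consecutive terms -/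
theorem four {a b c d : ℕ} (h1 : a * c ≤ b ^ 2) (h2 : b * d ≤ c ^ 2) (hcb : c ≤ b) (hdc : d ≤ c) :
    a * d ≤ b * c := by
  rcases Nat.eq_zero_or_pos c with h | h
  · have : d = 0 := by omega
    rw [this, mul_zero]
    exact Nat.zero_le _
  · have hb : 0 < b := by omega
    have h3 : (b * c) * (a * d) ≤ (b * c) * (b * c) := by
      calc (b * c) * (a * d) = (a * c) * (b * d) := by ring
        _ ≤ b ^ 2 * c ^ 2 := Nat.mul_le_mul h1 h2
        _ = (b * c) * (b * c) := by ring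
    exact Nat.le_of_mul_le_mul_left h3 (Nat.mul_pos hb h)

theorem step0 (r a0 a1 a2 : ℝ) (hr : 0 ≤ r) (h : a0 * a2 ≤ a1 ^ 2) :
    ((r + 2) * a0) * (r * a2 + 2 * a1) ≤ ((r + 1) * a1 + a0) ^ 2 := by
  have h1 : 0 ≤ r * (r + 2) * (a1 ^ 2 - a0 * a2) :=
    mul_nonneg (mul_nonneg hr (by linarith)) (by linarith)
  nlinarith [sq_nonneg (a1 - a0)]

theorem step1 (r k a b c d : ℝ) (hr : 0 ≤ r) (hk : 0 ≤ k) (h1 : a * c ≤ b ^ 2)
    (h2 : b * d ≤ c ^ 2) (h3 : a * d ≤ b * c) :
    ((r + 2) * b + k * a) * (r * d + (k + 2) * c) ≤ ((r + 1) * c + (k + 1) * b) ^ 2 := by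
  have e1 : 0 ≤ r * (r + 2) * (c ^ 2 - b * d) :=
    mul_nonneg (mul_nonneg hr (by linarith)) (by linarith)
  have e2 : 0 ≤ k * (k + 2) * (b ^ 2 - a * c) :=
    mul_nonneg (mul_nonneg hk (by linarith)) (by linarith)
  have e3 : 0 ≤ k * r * (b * c - a * d) :=
    mul_nonneg (mul_nonneg hk hr) (by linarith)
  have e4 : ((r + 1) * c + (k + 1) * b) ^ 2 - ((r + 2) * b + k * a) * (r * d + (k + 2) * c) =
      (c - b) ^ 2 + r * (r + 2) * (c ^ 2 - b * d) + k * (k + 2) * (b ^ 2 - a * c) +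
        k * r * (b * c - a * d) := by
    ring
  nlinarith [sq_nonneg (c - b)]

theorem stLC : StLC := by
  intro m N
  induction m with
  | zero =>
    intro k _
    have h : dd 0 N (k + 2) = 0 := rfl
    rw [h, mul_zero]
    exact Nat.zero_le _
  | succ m ih =>
    intro k hk
    cases k with
    | zero =>
      obtain ⟨r, rfl⟩ : ∃ r, N = r + 2 := ⟨N - 2, by omega⟩
      have h := ih 0 hk
      simp only [dd, zero_add] at h ⊢
      have e1 : r + 2 - 1 = r + 1 := by omega
      have e2 : r + 2 - (1 + 1) = r := by omega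
      rw [e1, e2]
      have h' : (dd m (r + 2) 0 : ℝ) * dd m (r + 2) 2 ≤ (dd m (r + 2) 1 : ℝ) ^ 2 := by
        exact_mod_cast h
      have := step0 r (dd m (r + 2) 0) (dd m (r + 2) 1) (dd m (r + 2) 2) (Nat.cast_nonneg r) h'
      have g : (((r + 2) * dd m (r + 2) 0 * (r * dd m (r + 2) (1 + 1) +
          (1 + 1) * dd m (r + 2) 1) : ℕ) : ℝ) ≤
          ((((r + 1) * dd m (r + 2) 1 + 1 * dd m (r + 2) 0) ^ 2 : ℕ) : ℝ) := by
        push_cast
        rw [one_mul]
        exact this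
      exact_mod_cast g
    | succ k =>
      obtain ⟨r, rfl⟩ : ∃ r, N = k + 1 + 2 + r := ⟨N - (k + 1 + 2), by omega⟩
      have h1 := ih k (by omega)
      have h2 := ih (k + 1) (by omega)
      have h3 := four h1 h2 (anti m _ (k + 1) (by omega)) (anti m _ (k + 2) (by omega))
      have e0 : dd (m + 1) (k + 1 + 2 + r) (k + 1) =
          (r + 2) * dd m (k + 1 + 2 + r) (k + 1) + (k + 1) * dd m (k + 1 + 2 + r) k := by
        show (k + 1 + 2 + r - (k + 1)) * dd m (k + 1 + 2 + r) (k + 1) +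
          (k + 1) * dd m (k + 1 + 2 + r) k = _
        have : k + 1 + 2 + r - (k + 1) = r + 2 := by omega
        rw [this]
      have e1 : dd (m + 1) (k + 1 + 2 + r) (k + 1 + 1) =
          (r + 1) * dd m (k + 1 + 2 + r) (k + 2) + (k + 2) * dd m (k + 1 + 2 + r) (k + 1) := by
        show (k + 1 + 2 + r - (k + 1 + 1)) * dd m (k + 1 + 2 + r) (k + 2) +
          (k + 1 + 1) * dd m (k + 1 + 2 + r) (k + 1) = _
        have : k + 1 + 2 + r - (k + 1 + 1) = r + 1 := by omega
        rw [this]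
      have e2 : dd (m + 1) (k + 1 + 2 + r) (k + 1 + 2) =
          r * dd m (k + 1 + 2 + r) (k + 3) + (k + 3) * dd m (k + 1 + 2 + r) (k + 2) := by
        show (k + 1 + 2 + r - (k + 2 + 1)) * dd m (k + 1 + 2 + r) (k + 3) +
          (k + 2 + 1) * dd m (k + 1 + 2 + r) (k + 2) = _
        have : k + 1 + 2 + r - (k + 2 + 1) = r := by omega
        rw [this]
      rw [e0, e1, e2]
      generalize dd m (k + 1 + 2 + r) k = a at *
      generalize hb : dd m (k + 1 + 2 + r) (k + 1) = b at *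
      have f1 : k + 1 + 1 = k + 2 := rfl
      rw [f1] at h1 h2 h3
      generalize hcc : dd m (k + 1 + 2 + r) (k + 2) = c at *
      generalize hd : dd m (k + 1 + 2 + r) (k + 3) = d at *
      have g1 : (a : ℝ) * c ≤ (b : ℝ) ^ 2 := by exact_mod_cast h1
      have g2 : (b : ℝ) * d ≤ (c : ℝ) ^ 2 := by exact_mod_cast h2
      have g3 : (a : ℝ) * d ≤ (b : ℝ) * c := by exact_mod_cast h3
      have g4 := step1 r (k + 1) a b c d (Nat.cast_nonneg r) (by positivity) g1 g2 g3
      have g5 : ((((r + 2) * b + (k + 1) * a) * (r * d + (k + 3) * c) : ℕ) : ℝ) ≤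
          ((((r + 1) * c + (k + 2) * b) ^ 2 : ℕ) : ℝ) := by
        push_cast
        have q1 : ((k : ℝ) + 1 + 2) = k + 3 := by ring
        have q2 : ((k : ℝ) + 1 + 1) = k + 2 := by ring
        rw [q1, q2] at g4
        exact g4
      exact_mod_cast g5

end Pool.Agent.TH111.J5316
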