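import Pool.Agent.TH716.C3.Stmts

set_option autoImplicit false

namespace Pool.Agent.TH111.J515

open Pool.Agent.TH716.C3 Pool.Agent.Helper281.Sc
open Set Topology unitInterval

section

variable {V G : Type} [DecidableEq V] [Group G] [TopologicalSpace G] [DiscreteTopology G]
  {L : Set (Finset V)} (C : V → V → G) (hC : Coc L C)

omit [DecidableEq V] in
theorem exists_pos (x : Rlz L) : ∃ v, 0 < x.1 v := by
  obtain ⟨x, s, hs, hx⟩ := x
  by_contra h
  push Not at h
  have h1 : ∑ v ∈ s, x v ≤ 0 := Finset.sum_nonpos fun v _ => h v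
  rw [hx.2.2] at h1
  linarith

theorem mem_of_pos {x : V → ℝ} {s : Finset V} (hx : x ∈ Simp s) {v : V} (hv : 0 < x v) : v ∈ s := by
  by_contra h
  rw [hx.2.1 v h] at hv
  exact lt_irrefl _ hv

omit [DecidableEq V] [TopologicalSpace G] [DiscreteTopology G] in
include hC in
theorem coc_self {s : Finset V} (hs : s ∈ L) {u : V} (hu : u ∈ s) : C u u = 1 := by
  have := hC s hs u hu u hu u hu
  simpa using this

/-- the bundle -/
noncomputable def core : FiberBundleCore V (Rlz L) G where
  baseSet v := {x | 0 < x.1 v}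
  isOpen_baseSet v := by
    rw [Rlz.isOpen_iff]
    intro s hs
    show IsOpen {x : Simp s | 0 < x.1 v}
    exact isOpen_lt continuous_const ((continuous_apply v).comp continuous_subtype_val)
  indexAt x := (exists_pos x).choose
  mem_baseSet_at x := (exists_pos x).choose_spec
  coordChange i j _ a := a * C i j
  coordChange_self i x hx a := by
    obtain ⟨x, s, hs, hxs⟩ := x
    have hi : i ∈ s := mem_of_pos hxs hx
    rw [coc_self C hC hs hi, mul_one]
  continuousOn_coordChange i j := by
    have : Continuous fun p : Rlz L × G => p.2 * C i j :=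
      (continuous_of_discreteTopology (f := fun a : G => a * C i j)).comp continuous_snd
    exact this.continuousOn
  coordChange_comp i j k x hx a := by
    obtain ⟨x, s, hs, hxs⟩ := x
    have hi : i ∈ s := mem_of_pos hxs hx.1.1
    have hj : j ∈ s := mem_of_pos hxs hx.1.2
    have hk : k ∈ s := mem_of_pos hxs hx.2
    show a * C i j * C j k = a * C i k
    rw [mul_assoc, hC s hs i hi j hj k hk]

theorem cov : IsCoveringMap (core C hC).proj :=
  FiberBundle.isCoveringMap (F := G) (E := (core C hC).Fiber)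

theorem exists_section (h : Ctr L) : ∃ S : C(Rlz L, (core C hC).TotalSpace),
    ∀ x, (core C hC).proj (S x) = x := by
  obtain ⟨z0, H, hH, h0, h1⟩ := h
  let H' : C(I × Rlz L, Rlz L) := ⟨fun p => H (p.2, unitInterval.symm p.1), by fun_prop⟩
  let f : C(Rlz L, (core C hC).TotalSpace) := ContinuousMap.const _ ⟨z0, (1 : G)⟩
  have hf : ∀ a, H' (0, a) = (core C hC).proj (f a) := by
    intro a
    show H (a, unitInterval.symm 0) = z0
    rw [unitInterval.symm_zero, h1]
  let S' := (cov C hC).liftHomotopy H' f hf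
  have hS' : ∀ p, (core C hC).proj (S' p) = H' p := fun p =>
    congrFun ((cov C hC).liftHomotopy_lifts H' f hf) p
  refine ⟨⟨fun x => S' (1, x), by fun_prop⟩, fun x => ?_⟩
  show (core C hC).proj (S' (1, x)) = x
  rw [hS']
  show H (x, unitInterval.symm 1) = x
  rw [unitInterval.symm_one, h0]

/-- the coordinate of a point -/
noncomputable def ch (v : V) (e : (core C hC).TotalSpace) : G := ((core C hC).localTriv v e).2

theorem ch_eq (v : V) (e : (core C hC).TotalSpace) :
    ch C hC v e = (show G from e.2) * C ((core C hC).indexAt e.1) v := rfl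

theorem ch_change {s : Finset V} (hs : s ∈ L) (x : Simp s) {u v : V} (hu : 0 < x.1 u)
    (hv : 0 < x.1 v) (e : (core C hC).TotalSpace) (he : (core C hC).proj e = Rlz.inc s hs x) :
    ch C hC v e = ch C hC u e * C u v := by
  have hi : (core C hC).indexAt e.1 ∈ s := by
    have h1 : 0 < (e.1 : Rlz L).1 ((core C hC).indexAt e.1) := (core C hC).mem_baseSet_at e.1
    have h2 : (e.1 : Rlz L) = Rlz.inc s hs x := he
    have h3 : (e.1 : Rlz L).1 = x.1 := congrArg Subtype.val h2
    have h4 : 0 < x.1 ((core C hC).indexAt e.1) := by rw [← h3]; exact h1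
    exact mem_of_pos x.2 h4
  rw [ch_eq, ch_eq, mul_assoc, hC s hs _ hi u (mem_of_pos x.2 hu) v (mem_of_pos x.2 hv)]

theorem ch_const (S : C(Rlz L, (core C hC).TotalSpace)) (hS : ∀ x, (core C hC).proj (S x) = x)
    {s : Finset V} (hs : s ∈ L) (x y : Simp s) {u : V} (hx : 0 < x.1 u) (hy : 0 < y.1 u) :
    ch C hC u (S (Rlz.inc s hs x)) = ch C hC u (S (Rlz.inc s hs y)) := by
  have hm : ∀ t : I, (fun w => (1 - (t : ℝ)) * x.1 w + (t : ℝ) * y.1 w) ∈ Simp s := by
    intro t
    have h0 := t.2.1
    have h1 : (0 : ℝ) ≤ 1 - (t : ℝ) := by linarith [t.2.2]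
    refine ⟨fun w => ?_, fun w hw => ?_, ?_⟩
    · have := x.2.1 w
      have := y.2.1 w
      positivity
    · dsimp only
      rw [x.2.2.1 w hw, y.2.2.1 w hw]; ring
    · rw [Finset.sum_add_distrib, ← Finset.mul_sum, ← Finset.mul_sum, x.2.2.2, y.2.2.2]; ring
  let p : I → Simp s := fun t => ⟨_, hm t⟩
  have hp : Continuous p := by
    refine Continuous.subtype_mk ?_ _
    refine continuous_pi fun w => ?_
    fun_prop
  have hpos : ∀ t, 0 < (p t).1 u := by
    intro t
    show 0 < (1 - (t : ℝ)) * x.1 u + (t : ℝ) * y.1 u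
    have h0 := t.2.1
    have h1 : (0 : ℝ) ≤ 1 - (t : ℝ) := by linarith [t.2.2]
    rcases h0.eq_or_lt with h | h
    · rw [← h]; simpa using hx
    · have := mul_pos h hy
      have := mul_nonneg h1 hx.le
      linarith
  have hc : Continuous fun t : I => ch C hC u (S (Rlz.inc s hs (p t))) := by
    have h1 : Continuous fun t : I => S (Rlz.inc s hs (p t)) :=
      S.continuous.comp ((Rlz.continuous_inc s hs).comp hp)
    have h2 : ContinuousOn ((core C hC).localTriv u) ((core C hC).localTriv u).source :=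
      ((core C hC).localTriv u).continuousOn
    have h3 : ∀ t : I, S (Rlz.inc s hs (p t)) ∈ ((core C hC).localTriv u).source := by
      intro t
      rw [(core C hC).mem_localTriv_source]
      have h5 : (S (Rlz.inc s hs (p t))).proj = Rlz.inc s hs (p t) := hS _
      rw [h5]
      exact hpos t
    have h4 : Continuous fun t : I => (core C hC).localTriv u (S (Rlz.inc s hs (p t))) :=
      h2.comp_continuous h1 h3
    exact continuous_snd.comp h4
  have hcc := isPreconnected_univ.constant hc.continuousOn (mem_univ (0 : I)) (mem_univ (1 : I))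
  have e0 : p 0 = x := by
    apply Subtype.ext
    funext w
    show (1 - ((0 : I) : ℝ)) * x.1 w + ((0 : I) : ℝ) * y.1 w = x.1 w
    simp
  have e1 : p 1 = y := by
    apply Subtype.ext
    funext w
    show (1 - ((1 : I) : ℝ)) * x.1 w + ((1 : I) : ℝ) * y.1 w = y.1 w
    simp
  rw [e0, e1] at hcc
  exact hcc

end

/-- the barycentre of two vertices -/
theorem mid_mem {V : Type} [DecidableEq V] {s : Finset V} {u v : V} (hu : u ∈ s) (hv : v ∈ s) :
    (fun w => (1 / 2 : ℝ) * (if w = u then 1 else 0) + (1 / 2 : ℝ) * (if w = v then 1 else 0)) ∈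
      Simp s := by
  refine ⟨fun w => ?_, fun w hw => ?_, ?_⟩
  · dsimp only
    split_ifs <;> norm_num
  · dsimp only
    rw [if_neg (by rintro rfl; exact hw hu), if_neg (by rintro rfl; exact hw hv)]
    norm_num
  · rw [Finset.sum_add_distrib, ← Finset.mul_sum, ← Finset.mul_sum]
    simp [hu, hv]
    norm_num

theorem result : S_triv := by
  intro V G _ _ L hL _ hctr C hC
  let _ : TopologicalSpace G := ⊥
  have : DiscreteTopology G := ⟨rfl⟩
  obtain ⟨S, hS⟩ := exists_section C hC hctr
  classical
  let b : V → G := fun v =>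
    if h : ({v} : Finset V) ∈ L then ch C hC v (S (vt v h)) else 1
  have hb : ∀ s (hs : s ∈ L), ∀ u ∈ s, ∀ x : Simp s, 0 < x.1 u →
      b u = ch C hC u (S (Rlz.inc s hs x)) := by
    intro s hs u hu x hx
    have h1 : ({u} : Finset V) ∈ L := hL.2 s hs _ (by simpa using hu) (by simp)
    have h2 : b u = ch C hC u (S (vt u h1)) := dif_pos h1
    rw [h2]
    have hy : (fun w => if w = u then (1 : ℝ) else 0) ∈ Simp s := by
      refine ⟨fun w => by dsimp only; split_ifs <;> norm_num, fun w hw =>
        if_neg (by rintro rfl; exact hw hu), by simp [hu]⟩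
    have h3 : (vt u h1 : Rlz L) = Rlz.inc s hs ⟨_, hy⟩ := rfl
    rw [h3]
    apply ch_const C hC S hS hs
    · show (0 : ℝ) < if u = u then 1 else 0
      rw [if_pos rfl]; norm_num
    · exact hx
  refine ⟨b, fun s hs u hu v hv => ?_⟩
  let x : Simp s := ⟨_, mid_mem hu hv⟩
  have hxu : 0 < x.1 u := by
    show (0 : ℝ) < 1 / 2 * (if u = u then 1 else 0) + 1 / 2 * (if u = v then 1 else 0)
    rw [if_pos rfl]
    split_ifs <;> norm_num
  have hxv : 0 < x.1 v := by
    show (0 : ℝ) < 1 / 2 * (if v = u then 1 else 0) + 1 / 2 * (if v = v then 1 else 0)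
    rw [if_pos rfl]
    split_ifs <;> norm_num
  rw [hb s hs u hu x hxu, hb s hs v hv x hxv, ch_change C hC hs x hxu hxv _ (hS _),
    inv_mul_cancel_left]

end Pool.Agent.TH111.J515
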