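import Mathlib

set_option autoImplicit false

namespace Pool.Agent.TH111.J524

/-! ### a free subgroup of an HNN extension -/

section free

variable {G : Type} [Group G]

/-- The conversion of a word in two letters. -/
def cv : List (Bool × Bool) → ℤ × List (ℤˣ × ℤ)
  | [] => (0, [])
  | (false, e) :: l => ((cv l).1 + (if e then 1 else -1), (cv l).2)
  | (true, e) :: l => (0, ((if e then 1 else -1), (cv l).1) :: (cv l).2)

/-- The invariant. -/
def Inv : List (Bool × Bool) → ℤ × List (ℤˣ × ℤ) → Prop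
  | [], x => x = (0, [])
  | (false, e) :: _, x => if e then 0 < x.1 else x.1 < 0
  | (true, e) :: _, x => x.1 = 0 ∧ ∃ k W, x.2 = ((if e then 1 else -1), k) :: W

theorem inv_cv : ∀ l : List (Bool × Bool), FreeGroup.IsReduced l →
    Inv l (cv l) ∧ (cv l).2.IsChain (fun a b => a.2 = 0 → a.1 = b.1)
  | [], _ => ⟨rfl, List.IsChain.nil⟩
  | (false, e) :: [], _ => by
    cases e <;> simp [Inv, cv]
  | (true, e) :: [], _ => by
    cases e <;> simp [Inv, cv]
  | (x, e) :: (y, e') :: l, h => by
    have h' := List.isChain_cons_cons.1 h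
    obtain ⟨h1, h2⟩ := inv_cv ((y, e') :: l) h'.2
    have h3 := h'.1
    cases x
    · refine ⟨?_, h2⟩
      cases y
      · have h4 : e = e' := h3 rfl
        subst h4
        cases e
        · have h5 : (cv ((false, false) :: l)).1 < 0 := h1
          show (cv ((false, false) :: l)).1 + -1 < 0
          omega
        · have h5 : 0 < (cv ((false, true) :: l)).1 := h1
          show 0 < (cv ((false, true) :: l)).1 + 1
          omega
      · have h5 : (cv ((true, e') :: l)).1 = 0 := h1.1
        cases e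
        · show (cv ((true, e') :: l)).1 + -1 < 0
          omega
        · show 0 < (cv ((true, e') :: l)).1 + 1
          omega
    · refine ⟨⟨rfl, _, _, rfl⟩, ?_⟩
      show List.IsChain _ (((if e then 1 else -1), (cv ((y, e') :: l)).1) ::
        (cv ((y, e') :: l)).2)
      cases y
      · rcases hW : (cv ((false, e') :: l)).2 with _ | ⟨b, W⟩
        · exact List.IsChain.singleton _
        · rw [hW] at h2
          refine List.isChain_cons_cons.2 ⟨fun h6 => ?_, h2⟩
          exfalso
          have h6' : (cv ((false, e') :: l)).1 = 0 := h6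
          cases e'
          · have h5 : (cv ((false, false) :: l)).1 < 0 := h1
            omega
          · have h5 : 0 < (cv ((false, true) :: l)).1 := h1
            omega
      · have h4 : e = e' := h3 rfl
        subst h4
        exact List.isChain_cons_cons.2 ⟨fun _ => rfl, h2⟩

variable {A B : Subgroup G} (φ : A ≃* B)

/-- The letters. -/
def ab (v : G) (c : Bool) : HNNExtension G A B φ := if c then HNNExtension.t else HNNExtension.of v

/-- The reduced word. -/
def rw' (v : G) (l : List (Bool × Bool)) (hl : FreeGroup.IsReduced l)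
    (hA : ∀ k : ℤ, v ^ k ∈ A → k = 0) (hB : ∀ k : ℤ, v ^ k ∈ B → k = 0) :
    HNNExtension.NormalWord.ReducedWord G A B where
  head := v ^ (cv l).1
  toList := (cv l).2.map fun x => (x.1, v ^ x.2)
  chain := by
    rw [List.isChain_map]
    refine (inv_cv l hl).2.imp ?_
    rintro ⟨u, k⟩ ⟨u', k'⟩ h1 h2
    apply h1
    rcases Int.units_eq_one_or u with rfl | rfl
    · exact hA _ h2
    · exact hB _ h2

theorem prod_cv (v : G) (l : List (Bool × Bool)) :
    FreeGroup.lift (ab φ v) (FreeGroup.mk l) = HNNExtension.of (v ^ (cv l).1) *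
      (((cv l).2.map fun x => (x.1, v ^ x.2)).map fun x =>
        (HNNExtension.t ^ (x.1 : ℤ) * HNNExtension.of x.2 : HNNExtension G A B φ)).prod := by
  induction l with
  | nil => simp [cv]
  | cons x l ih =>
    have h2 : (FreeGroup.mk (x :: l) : FreeGroup Bool) = FreeGroup.mk [x] * FreeGroup.mk l := by
      simp
    rw [h2, map_mul, ih]
    obtain ⟨c, e⟩ := x
    cases c
    · show _ = HNNExtension.of (v ^ ((cv l).1 + (if e then 1 else -1))) * _
      rw [add_comm, zpow_add, map_mul, mul_assoc]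
      congr 1
      cases e <;> simp [ab]
    · show _ = HNNExtension.of (v ^ (0 : ℤ)) * _
      rw [zpow_zero, map_one, one_mul]
      show _ = (List.map _ (List.map _ (((if e then 1 else -1), (cv l).1) :: (cv l).2))).prod
      rw [List.map_cons, List.map_cons, List.prod_cons, ← mul_assoc]
      congr 2
      cases e <;> simp [ab]

theorem free (v : G) (hA : ∀ k : ℤ, v ^ k ∈ A → k = 0) (hB : ∀ k : ℤ, v ^ k ∈ B → k = 0) :
    Function.Injective (FreeGroup.lift (ab φ v)) := by
  rw [injective_iff_map_eq_one]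
  intro x hx
  have hl : FreeGroup.IsReduced x.toWord := FreeGroup.isReduced_toWord
  rw [← FreeGroup.mk_toWord (x := x)] at hx
  rw [prod_cv] at hx
  have h1 : (rw' v x.toWord hl hA hB).prod φ = 1 := hx
  have h2 : (rw' v x.toWord hl hA hB).toList = [] := by
    apply HNNExtension.ReducedWord.toList_eq_nil_of_mem_of_range
    rw [h1]
    exact one_mem _
  have h3 : (cv x.toWord).2 = [] := List.map_eq_nil_iff.1 h2
  rw [h3] at hx
  simp only [List.map_nil, List.prod_nil, mul_one] at hx
  have h4 : v ^ (cv x.toWord).1 = 1 := HNNExtension.of_injective φ (hx.trans (map_one _).symm)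
  have h5 : (cv x.toWord).1 = 0 := hA _ (by rw [h4]; exact one_mem _)
  have h6 := (inv_cv _ hl).1
  apply FreeGroup.toWord_eq_nil_iff.1
  rcases hw : x.toWord with _ | ⟨⟨c, e⟩, l⟩
  · rfl
  · exfalso
    rw [hw] at h6 h5 h3
    cases c
    · cases e
      · have h7 : (cv ((false, false) :: l)).1 < 0 := h6
        omega
      · have h7 : 0 < (cv ((false, true) :: l)).1 := h6
        omega
    · obtain ⟨k, W, h8⟩ := h6.2
      rw [h3] at h8
      cases h8

end free

/-! ### extension of actions -/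

section ext

variable {F P : Type} [Group F] [Group P]

/-- the right cosets of the range -/
abbrev Orb (f : F →* P) : Type := Quotient (QuotientGroup.rightRel f.range)

theorem orb_bij (f : F →* P) (hf : Function.Injective f) :
    Function.Bijective (fun x : F × Orb f => f x.1 * (Quotient.out x.2 : P)) := by
  constructor
  · rintro ⟨x, o⟩ ⟨y, o'⟩ h
    have h1 : f x * (Quotient.out o : P) = f y * (Quotient.out o' : P) := h
    have h2 : o = o' := by
      rw [← Quotient.out_eq o, ← Quotient.out_eq o']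
      apply Quotient.sound
      apply QuotientGroup.rightRel_apply.2
      refine ⟨y⁻¹ * x, ?_⟩
      rw [map_mul, map_inv, inv_mul_eq_iff_eq_mul, ← mul_assoc, ← h1, mul_inv_cancel_right]
    subst h2
    have h3 : x = y := hf (mul_right_cancel h1)
    rw [h3]
  · intro a
    have h1 : (QuotientGroup.rightRel f.range) (Quotient.out (Quotient.mk _ a : Orb f)) a :=
      Quotient.mk_out a
    obtain ⟨x, hx⟩ := QuotientGroup.rightRel_apply.1 h1
    exact ⟨(x, Quotient.mk _ a), by
      show f x * (Quotient.out (Quotient.mk _ a : Orb f) : P) = a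
      rw [hx, inv_mul_cancel_right]⟩

theorem ext {H Λ : Type} [Group H] [Infinite Λ] (f : F →* P) (hf : Function.Injective f)
    (h : F →* H) (hh : Function.Injective h) (hP : Cardinal.mk P ≤ Cardinal.mk Λ)
    (hH : Cardinal.mk H ≤ Cardinal.mk Λ) :
    ∃ Φ : H →* Equiv.Perm (P × Λ), ∀ (x : F) (a : P) (n : Λ), Φ (h x) (a, n) = (f x * a, n) := by
  have key : ∀ (Q : Type) [Group Q] (g : F →* Q), Function.Injective g →
      Cardinal.mk Q ≤ Cardinal.mk Λ → ∃ e : F × Λ ≃ Q × Λ, ∀ (x y : F) (n : Λ),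
        e (x * y, n) = (g x * (e (y, n)).1, (e (y, n)).2) := by
    intro Q _ g hg hQ
    have h1 : Cardinal.mk (Orb g) ≤ Cardinal.mk Λ :=
      (Cardinal.mk_le_of_surjective (f := fun a : Q => (Quotient.mk _ a : Orb g))
        Quotient.mk_surjective).trans hQ
    have h2 : Cardinal.mk (Orb g × Λ) = Cardinal.mk Λ := by
      rw [Cardinal.mk_prod, Cardinal.lift_id, Cardinal.lift_id]
      refine Cardinal.mul_eq_right (Cardinal.aleph0_le_mk Λ) h1 ?_
      exact Cardinal.mk_ne_zero_iff.2 ⟨Quotient.mk _ 1⟩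
    obtain ⟨e1⟩ := Cardinal.eq.1 h2
    refine ⟨((Equiv.refl F).prodCongr e1.symm).trans ((Equiv.prodAssoc F (Orb g) Λ).symm.trans
      ((Equiv.ofBijective _ (orb_bij g hg)).prodCongr (Equiv.refl Λ))), ?_⟩
    intro x y n
    show ((g (x * y) * (Quotient.out (e1.symm n).1 : Q)), (e1.symm n).2) =
      (g x * (g y * (Quotient.out (e1.symm n).1 : Q)), (e1.symm n).2)
    rw [map_mul, mul_assoc]
  obtain ⟨e1, he1⟩ := key P f hf hP
  obtain ⟨e2, he2⟩ := key H h hh hH
  let L : H →* Equiv.Perm (H × Λ) := MonoidHom.mk' (fun g => (Equiv.mulLeft g).prodCongr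
    (Equiv.refl Λ)) (by
      intro a b
      ext x
      · show a * b * x.1 = a * (b * x.1)
        rw [mul_assoc]
      · rfl)
  let E : P × Λ ≃ H × Λ := e1.symm.trans e2
  refine ⟨MonoidHom.mk' (fun g => E.trans ((L g).trans E.symm)) ?_, ?_⟩
  · intro a b
    ext1 x
    show E.symm (L (a * b) (E x)) = E.symm (L a (E (E.symm (L b (E x)))))
    rw [Equiv.apply_symm_apply, map_mul]
    rfl
  · intro x a n
    show E.symm (L (h x) (E (a, n))) = (f x * a, n)
    rw [Equiv.symm_apply_eq]
    obtain ⟨⟨y, k⟩, hy⟩ := e1.surjective (a, n)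
    have h1 : e1.symm (a, n) = (y, k) := by rw [Equiv.symm_apply_eq, hy]
    have h2 : e1.symm (f x * a, n) = (x * y, k) := by
      rw [Equiv.symm_apply_eq, he1, hy]
    show (h x * (e2 (e1.symm (a, n))).1, (e2 (e1.symm (a, n))).2) = e2 (e1.symm (f x * a, n))
    rw [h1, h2, he2]

end ext

/-! ### the group `T` -/

/-- translation -/
def pp : Equiv.Perm ℚ := Equiv.addRight 1

/-- halving -/
def qq : Equiv.Perm ℚ where
  toFun x := x / 2
  invFun x := 2 * x
  left_inv x := by ring
  right_inv x := by ring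

theorem pp_zpow (k : ℤ) (x : ℚ) : (pp ^ k) x = x + k := by
  induction k using Int.induction_on generalizing x with
  | zero => simp
  | succ n ih =>
    rw [zpow_add_one, Equiv.Perm.mul_apply, ih]
    show x + 1 + _ = _
    push_cast; ring
  | pred n ih =>
    rw [zpow_sub_one, Equiv.Perm.mul_apply, ih]
    show x + -1 + _ = _
    push_cast; ring

theorem qq_zpow (k : ℤ) (x : ℚ) : (qq ^ k) x = x / 2 ^ k := by
  induction k using Int.induction_on generalizing x with
  | zero => simp
  | succ n ih =>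
    rw [zpow_add_one, Equiv.Perm.mul_apply, ih]
    show x / 2 / _ = _
    rw [zpow_add_one₀ (by norm_num)]
    field_simp
  | pred n ih =>
    rw [zpow_sub_one, Equiv.Perm.mul_apply, ih]
    show 2 * x / _ = _
    rw [zpow_sub_one₀ (by norm_num)]
    field_simp

theorem qq_inj : Function.Injective fun k : ℤ => qq ^ k := by
  intro a b h
  have h1 : (qq ^ a) 1 = (qq ^ b) 1 := by
    have : qq ^ a = qq ^ b := h
    rw [this]
  rw [qq_zpow, qq_zpow] at h1
  have h2 : (2 : ℚ) ^ a = 2 ^ b := by
    have h3 := congrArg (fun x => x⁻¹) h1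
    simpa using h3
  exact zpow_right_injective₀ (by norm_num) (by norm_num) h2

theorem pp_qq (k j : ℤ) (h : pp ^ k = qq ^ j) : k = 0 := by
  have h1 : (pp ^ k) 0 = (qq ^ j) 0 := by rw [h]
  rw [pp_zpow, qq_zpow] at h1
  simp at h1
  exact_mod_cast h1

theorem pp_rel : qq⁻¹ * pp * qq * pp⁻¹ * pp⁻¹ = 1 := by
  ext x
  show 2 * (((x + -1) + -1) / 2 + 1) = x
  ring

/-- an infinite cyclic group -/
noncomputable def cyc {G : Type} [Group G] (g : G) (hg : Function.Injective fun k : ℤ => g ^ k) :
    Multiplicative ℤ ≃* Subgroup.zpowers g :=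
  MulEquiv.ofBijective (MonoidHom.mk' (fun k : Multiplicative ℤ =>
    (⟨g ^ (Multiplicative.toAdd k), Subgroup.zpow_mem_zpowers _ _⟩ : Subgroup.zpowers g))
    (fun a b => Subtype.ext (zpow_add g (Multiplicative.toAdd a) (Multiplicative.toAdd b))))
    ⟨fun _ _ h => hg (congrArg Subtype.val h), fun ⟨_, k, hk⟩ =>
      ⟨Multiplicative.ofAdd k, Subtype.ext hk⟩⟩

theorem qq2_inj : Function.Injective fun k : ℤ => (qq * qq) ^ k := by
  intro a b h
  have h0 : (qq * qq) ^ a = (qq * qq) ^ b := h
  have h1 : qq ^ (2 * a) = qq ^ (2 * b) := by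
    rw [zpow_mul, zpow_mul, show qq ^ (2 : ℤ) = qq * qq from zpow_two qq]
    exact h0
  have := qq_inj h1
  omega

/-- the isomorphism -/
noncomputable def iso : Subgroup.zpowers (qq * qq) ≃* Subgroup.zpowers qq :=
  (cyc _ qq2_inj).symm.trans (cyc _ qq_inj)

theorem iso_apply : iso ⟨qq * qq, Subgroup.mem_zpowers _⟩ = ⟨qq, Subgroup.mem_zpowers _⟩ := by
  have h1 : (⟨qq * qq, Subgroup.mem_zpowers _⟩ : Subgroup.zpowers (qq * qq)) =
      cyc _ qq2_inj (Multiplicative.ofAdd 1) := Subtype.ext (zpow_one _).symm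
  rw [iso, MulEquiv.trans_apply, h1, MulEquiv.symm_apply_apply]
  exact Subtype.ext (zpow_one _)

/-- the group `T` -/
abbrev TT : Type := HNNExtension (Equiv.Perm ℚ) (Subgroup.zpowers (qq * qq)) (Subgroup.zpowers qq)
  iso

theorem tt_rel : (HNNExtension.t : TT)⁻¹ * HNNExtension.of qq * HNNExtension.t *
    (HNNExtension.of qq)⁻¹ * (HNNExtension.of qq)⁻¹ = 1 := by
  have h1 := HNNExtension.t_mul_of (φ := iso) ⟨qq * qq, Subgroup.mem_zpowers _⟩
  rw [iso_apply] at h1
  have h2 : HNNExtension.t * (HNNExtension.of (qq * qq) : TT) =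
    HNNExtension.of qq * HNNExtension.t := h1
  rw [mul_assoc _ (HNNExtension.of qq) HNNExtension.t, ← h2, map_mul]
  group

theorem tt_rel' : (HNNExtension.of qq : TT)⁻¹ * HNNExtension.of pp * HNNExtension.of qq *
    (HNNExtension.of pp)⁻¹ * (HNNExtension.of pp)⁻¹ = 1 := by
  rw [← map_inv, ← map_inv, ← map_mul, ← map_mul, ← map_mul, ← map_mul, pp_rel, map_one]

theorem tt_free : Function.Injective (FreeGroup.lift (ab iso pp)) := by
  apply free
  · rintro k ⟨j, hj⟩
    have h1 : (qq * qq) ^ j = pp ^ k := hj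
    apply pp_qq k (2 * j)
    rw [← h1, zpow_mul, show qq ^ (2 : ℤ) = qq * qq from zpow_two qq]
  · rintro k ⟨j, hj⟩
    have h1 : qq ^ j = pp ^ k := hj
    exact pp_qq k j h1.symm

/-! ### the group `K` -/

section kk

variable {Γ : Type} [Group Γ]

/-- left multiplication -/
def lm : Γ →* Equiv.Perm (Γ × ℤ) := MonoidHom.mk' (fun g => (Equiv.mulLeft g).prodCongr
    (Equiv.refl ℤ)) (by
      intro a b
      ext x
      · show a * b * x.1 = a * (b * x.1)
        rw [mul_assoc]
      · rfl)

theorem lm_apply (g : Γ) (x : Γ × ℤ) : lm g x = (g * x.1, x.2) := rfl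

open Classical in
/-- the shift at `1` -/
noncomputable def xx : Equiv.Perm (Γ × ℤ) where
  toFun x := (x.1, if x.1 = 1 then x.2 + 1 else x.2)
  invFun x := (x.1, if x.1 = 1 then x.2 - 1 else x.2)
  left_inv x := by
    obtain ⟨g, n⟩ := x
    by_cases h : g = 1 <;> simp [h]
  right_inv x := by
    obtain ⟨g, n⟩ := x
    by_cases h : g = 1 <;> simp [h]

open Classical in
theorem xx_apply (x : Γ × ℤ) : xx x = (x.1, if x.1 = 1 then x.2 + 1 else x.2) := rfl

open Classical in
theorem xx_inv_apply (x : Γ × ℤ) : xx⁻¹ x = (x.1, if x.1 = 1 then x.2 - 1 else x.2) := rfl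

theorem zpow_of {G : Type} [Group G] (a : G) (h : ∀ n : ℕ, a ^ (n + 1) ≠ 1) (k : ℤ)
    (hk : a ^ k = 1) : k = 0 := by
  obtain ⟨n, rfl | rfl⟩ := k.eq_nat_or_neg
  · rcases n with _ | n
    · rfl
    · exact absurd (by exact_mod_cast hk) (h n)
  · rcases n with _ | n
    · rfl
    · exfalso
      apply h n
      rw [zpow_neg, inv_eq_one] at hk
      exact_mod_cast hk

theorem ord1 (g : Γ) (k : ℤ) (hk : (lm g * xx) ^ k = 1) : k = 0 := by
  apply zpow_of _ _ k hk
  intro n hn
  have key : ∀ n : ℕ, 1 ≤ (((lm g * xx) ^ (n + 1) : Equiv.Perm (Γ × ℤ)) (1, 0)).2 := by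
    intro n
    induction n with
    | zero =>
      rw [zero_add, pow_one, Equiv.Perm.mul_apply, xx_apply, lm_apply]
      simp
    | succ n ih =>
      rw [pow_succ', Equiv.Perm.mul_apply, Equiv.Perm.mul_apply, xx_apply, lm_apply]
      dsimp only
      split_ifs <;> omega
  have h1 := key n
  rw [hn] at h1
  simp at h1

theorem ord2 (g : Γ) (hg : g ≠ 1) (k : ℤ) (hk : (lm g * xx * (lm g)⁻¹ * xx⁻¹) ^ k = 1) :
    k = 0 := by
  apply zpow_of _ _ k hk
  intro n hn
  have key : ∀ n : ℕ, ((lm g * xx * (lm g)⁻¹ * xx⁻¹) ^ n : Equiv.Perm (Γ × ℤ)) (g, 0) =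
      (g, (n : ℤ)) := by
    intro n
    induction n with
    | zero => rfl
    | succ n ih =>
      rw [pow_succ', Equiv.Perm.mul_apply, ih, Equiv.Perm.mul_apply, Equiv.Perm.mul_apply,
        Equiv.Perm.mul_apply, xx_inv_apply, ← map_inv, lm_apply, xx_apply, lm_apply]
      simp [hg]
  have h1 := key (n + 1)
  rw [hn] at h1
  have h2 := congrArg Prod.snd h1
  simp at h2
  omega

end kk

/-! ### the elements of infinite order -/

section vv

variable {Γ : Type} [Group Γ] {m : ℕ} (g : Fin m → Γ) (w : Γ)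

/-- the elements `v_h` -/
noncomputable def vv (h : ℕ) : Equiv.Perm (Γ × ℤ) :=
  if h = 0 then lm 1 * xx else if hh : h - 1 < m then lm (g ⟨h - 1, hh⟩) * xx else
    lm w * xx * (lm w)⁻¹ * xx⁻¹

theorem vv_ord (hw : w ≠ 1) (h : ℕ) (k : ℤ) (hk : vv g w h ^ k = 1) : k = 0 := by
  unfold vv at hk
  split_ifs at hk
  · exact ord1 _ k hk
  · exact ord1 _ k hk
  · exact ord2 _ hw k hk

theorem vv_zero : vv g w 0 = xx := by
  unfold vv
  rw [if_pos rfl, map_one, one_mul]

theorem vv_succ (i : Fin m) : vv g w (i.1 + 1) = lm (g i) * xx := by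
  unfold vv
  rw [if_neg (by omega), dif_pos (by have := i.2; omega)]
  congr 2

theorem vv_last : vv g w (m + 1) = lm w * xx * (lm w)⁻¹ * xx⁻¹ := by
  unfold vv
  rw [if_neg (by omega), dif_neg (by omega)]

/-- the group `P` -/
abbrev P2 (Γ : Type) [Group Γ] : Type :=
  HNNExtension (Equiv.Perm (Γ × ℤ)) ⊥ ⊥ (MulEquiv.refl _)

theorem p2_free (v : Equiv.Perm (Γ × ℤ)) (hv : ∀ k : ℤ, v ^ k = 1 → k = 0) :
    Function.Injective (FreeGroup.lift (ab (MulEquiv.refl (⊥ : Subgroup (Equiv.Perm (Γ × ℤ)))) v))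
    := by
  apply free
  · intro k hk
    exact hv k (Subgroup.mem_bot.1 hk)
  · intro k hk
    exact hv k (Subgroup.mem_bot.1 hk)

theorem swap_free {G : Type} [Group G] (f : Bool → G) (hf : Function.Injective (FreeGroup.lift f)) :
    Function.Injective (FreeGroup.lift fun c => f (!c)) := by
  have h1 : FreeGroup.lift (fun c => f (!c)) =
      (FreeGroup.lift f).comp (FreeGroup.map fun c => !c) := by
    apply FreeGroup.ext_hom
    intro c
    simp
  rw [h1]
  refine hf.comp (FreeGroup.map_injective ?_)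
  intro a b h
  simpa using h

end vv

end Pool.Agent.TH111.J524
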