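import Pool.Agent.TH716.C3.Stmts
import Pool.Agent.TH111.J524b

set_option autoImplicit false

namespace Pool.Agent.TH111.J524

open Pool.Agent.TH716.C3 Pool.Agent.Helper281.Sc

/-! ### words -/

section words
variable {G : Type} [Group G] (γ : ℕ → G)

theorem ev_append (l l' : List (ℕ × Bool)) : ev γ (l ++ l') = ev γ l * ev γ l' := by
  simp [ev]

theorem ev_rl (g : ℕ → ℕ) (h : ℕ) :
    ev γ (rl g h) = (γ (g h))⁻¹ * γ h * γ (g h) * (γ h)⁻¹ * (γ h)⁻¹ := by
  simp [ev, rl, mul_assoc]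

/-- the homomorphism of the substitution -/
def ph (m : ℕ) : FreeGroup (Fin m) →* G := FreeGroup.lift fun i => γ (i.1 + 1) * (γ 0)⁻¹

theorem ev_sw {m : ℕ} (l : List (Fin m × Bool)) : ev γ (sw l) = ph γ m (FreeGroup.mk l) := by
  induction l with
  | nil => simp [sw, ev, ph]
  | cons x l ih =>
    have h1 : sw (x :: l) = (if x.2 then [(x.1.1 + 1, true), (0, false)]
        else [(0, true), (x.1.1 + 1, false)]) ++ sw l := by simp [sw]
    have h2 : (FreeGroup.mk (x :: l) : FreeGroup (Fin m)) = FreeGroup.mk [x] * FreeGroup.mk l := by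
      simp
    rw [h1, ev_append, ih, h2, map_mul]
    congr 1
    obtain ⟨i, b⟩ := x
    cases b <;> simp [ev, ph]

theorem mk_iw {m : ℕ} (l : List (Fin m × Bool)) :
    (FreeGroup.mk (iw l) : FreeGroup (Fin m)) = (FreeGroup.mk l)⁻¹ := by
  rw [FreeGroup.inv_mk]; rfl

theorem ev_rsn {m : ℕ} (r : List (Fin m × Bool)) :
    ev γ (sw r ++ [(0, true), (0, false)]) = ph γ m (FreeGroup.mk r) := by
  rw [ev_append, ev_sw]; simp [ev]

theorem ev_last {m : ℕ} (w : List (Fin m × Bool)) :
    ev γ ([(m + 1, false)] ++ sw w ++ [(0, true)] ++ sw (iw w) ++ [(0, false)]) =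
      (γ (m + 1))⁻¹ * ph γ m (FreeGroup.mk w) * γ 0 * (ph γ m (FreeGroup.mk w))⁻¹ * (γ 0)⁻¹ := by
  simp only [ev_append, ev_sw, mk_iw, map_inv]
  simp [ev]

end words

/-! ### the first statement -/

/-- from a relation with trivial conjugating element -/
theorem triv_of {G : Type} [Group G] {a b : G} (h : a⁻¹ * b * a * b⁻¹ * b⁻¹ = 1)
    (hc : Commute a b) : b = 1 := by
  have h1 : a⁻¹ * b * a = b := by
    rw [mul_assoc, ← hc.eq, inv_mul_cancel_left]
  rw [h1] at h
  simpa using h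

theorem s_yes : S_yes := by
  intro m R w hw G _ γ hrel hcomm
  let N : Subgroup (FreeGroup (Fin m)) :=
    { carrier := {x | ∀ h < 2 * m + 6, Commute (ph γ m x) (γ h)}
      one_mem' := fun h _ => by rw [map_one]; exact Commute.one_left _
      mul_mem' := fun {x y} hx hy h hh => by rw [map_mul]; exact (hx h hh).mul_left (hy h hh)
      inv_mem' := fun {x} hx h hh => by rw [map_inv]; exact (hx h hh).inv_left }
  have hcm : ∀ x ∈ N, ∀ u : FreeGroup (Fin m), Commute (ph γ m x) (ph γ m u) := by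
    intro x hx u
    induction u using FreeGroup.induction_on with
    | C1 => rw [map_one]; exact Commute.one_right _
    | of i =>
      have : ph γ m (FreeGroup.of i) = γ (i.1 + 1) * (γ 0)⁻¹ := by
        simp [ph]
      rw [this]
      have hi := i.2
      exact (hx _ (by omega)).mul_right (hx _ (by omega)).inv_right
    | inv_of i hi =>
      rw [map_inv]
      exact hi.inv_right
    | mul u v hu hv => rw [map_mul]; exact hu.mul_right hv
  have hN : N.Normal := by
    refine ⟨fun x hx u => ?_⟩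
    have h1 : ph γ m (u * x * u⁻¹) = ph γ m x := by
      rw [map_mul, map_mul, map_inv, ← (hcm x hx u).eq, mul_inv_cancel_right]
    intro h hh
    rw [h1]
    exact hx h hh
  have hR : Subgroup.normalClosure {x | ∃ r ∈ R, x = FreeGroup.mk r} ≤ N := by
    apply Subgroup.normalClosure_le_normal
    rintro _ ⟨r, hr, rfl⟩ h hh
    rw [← ev_rsn γ r]
    exact hcomm _ (List.mem_append_left _ (List.mem_map_of_mem hr)) h hh
  have hwN := hR hw
  have hb : ∀ h < 2 * m + 6, Commute (γ (m + 1)) (γ h) := by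
    intro h hh
    have h1 := hcomm _ (List.mem_append_right _ (List.mem_singleton.2 rfl)) h hh
    rw [ev_last] at h1
    have h2 : (γ (m + 1))⁻¹ * ph γ m (FreeGroup.mk w) * γ 0 * (ph γ m (FreeGroup.mk w))⁻¹ *
        (γ 0)⁻¹ = (γ (m + 1))⁻¹ := by
      have := hwN 0 (by omega)
      rw [mul_assoc _ _ (γ 0), this.eq]
      group
    rw [h2] at h1
    exact Commute.inv_left_iff.1 h1
  have hs : γ (2 * m + 5) = 1 := by
    have h1 := hrel (2 * m + 5) (by omega)
    have h2 : gN m (2 * m + 5) = m + 1 := by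
      unfold gN
      rw [if_neg (by omega), if_neg (by omega), if_neg (by omega)]
    rw [ev_rl, h2] at h1
    exact triv_of h1 (hb _ (by omega))
  have hz : γ (2 * m + 4) = 1 := by
    have h1 := hrel (2 * m + 4) (by omega)
    have h2 : gN m (2 * m + 4) = 2 * m + 5 := by
      unfold gN
      rw [if_neg (by omega), if_neg (by omega), if_pos (by omega)]
    rw [ev_rl, h2] at h1
    exact triv_of h1 (by rw [hs]; exact Commute.one_left _)
  have hy : ∀ h, m + 2 ≤ h → h < 2 * m + 4 → γ h = 1 := by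
    intro h hh1 hh2
    have h1 := hrel h (by omega)
    have h2 : gN m h = 2 * m + 4 := by
      unfold gN
      rw [if_neg (by omega), if_pos (by omega)]
    rw [ev_rl, h2] at h1
    exact triv_of h1 (by rw [hz]; exact Commute.one_left _)
  have hv : ∀ h, h < m + 2 → γ h = 1 := by
    intro h hh1
    have h1 := hrel h (by omega)
    have h2 : gN m h = m + 2 + h := by
      unfold gN
      rw [if_pos (by omega)]
    rw [ev_rl, h2] at h1
    exact triv_of h1 (by rw [hy _ (by omega) (by omega)]; exact Commute.one_left _)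
  intro h hh
  rcases Nat.lt_or_ge h (m + 2) with h1 | h1
  · exact hv h h1
  rcases Nat.lt_or_ge h (2 * m + 4) with h2 | h2
  · exact hy h h1 h2
  have h3 : h = 2 * m + 4 ∨ h = 2 * m + 5 := by omega
  rcases h3 with rfl | rfl
  · exact hz
  · exact hs

/-! ### the second statement -/

theorem hom_rel {G : Type} [Group G] (Φ : TT →* G) : (Φ (HNNExtension.of qq))⁻¹ *
    Φ (HNNExtension.of pp) * Φ (HNNExtension.of qq) * (Φ (HNNExtension.of pp))⁻¹ *
    (Φ (HNNExtension.of pp))⁻¹ = 1 := by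
  rw [← map_inv Φ, ← map_inv Φ, ← map_mul Φ, ← map_mul Φ, ← map_mul Φ, ← map_mul Φ, tt_rel',
    map_one]

theorem main {m : ℕ} {Γ : Type} [Group Γ] (q : FreeGroup (Fin m) →* Γ) (w : Γ) (hw : w ≠ 1) :
    ∃ (G : Type) (_ : Group G) (γ : ℕ → G) (L : Γ →* G),
      (∀ h < 2 * m + 6, ev γ (rl (gN m) h) = 1) ∧ ph γ m = L.comp q ∧
      γ (m + 1) = L w * γ 0 * (L w)⁻¹ * (γ 0)⁻¹ ∧ γ 0 ≠ 1 := by
  let g : Fin m → Γ := fun i => q (FreeGroup.of i)
  let Λ : Type := (P2 Γ × TT) × ℕ
  have hP : Cardinal.mk (P2 Γ) ≤ Cardinal.mk Λ :=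
    Cardinal.mk_le_of_injective (f := fun a : P2 Γ => (((a, 1), 0) : Λ))
      (fun a b h => congrArg (fun x : Λ => x.1.1) h)
  have hT : Cardinal.mk TT ≤ Cardinal.mk Λ :=
    Cardinal.mk_le_of_injective (f := fun a : TT => (((1, a), 0) : Λ))
      (fun a b h => congrArg (fun x : Λ => x.1.2) h)
  let v : ℕ → P2 Γ := fun h => HNNExtension.of (vv g w h)
  let z : P2 Γ := HNNExtension.t
  have h1 : ∀ h : ℕ, ∃ Φ : TT →* Equiv.Perm (P2 Γ × Λ), (∀ (a : P2 Γ) (n : Λ),
      Φ (HNNExtension.of pp) (a, n) = (v h * a, n)) ∧ ∀ (a : P2 Γ) (n : Λ),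
      Φ HNNExtension.t (a, n) = (z * a, n) := by
    intro h
    obtain ⟨Φ, hΦ⟩ := ext (Λ := Λ) _ (p2_free (vv g w h) (vv_ord g w hw h)) _ tt_free hP hT
    refine ⟨Φ, fun a n => ?_, fun a n => ?_⟩
    · have := hΦ (FreeGroup.of false) a n
      rw [FreeGroup.lift_apply_of, FreeGroup.lift_apply_of] at this
      exact this
    · have := hΦ (FreeGroup.of true) a n
      rw [FreeGroup.lift_apply_of, FreeGroup.lift_apply_of] at this
      exact this
  choose Φ hΦ1 hΦ2 using h1
  have h2 : ∃ Φ : TT →* Equiv.Perm (P2 Γ × Λ), (∀ (a : P2 Γ) (n : Λ),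
      Φ (HNNExtension.of pp) (a, n) = (z * a, n)) ∧ ∀ (a : P2 Γ) (n : Λ),
      Φ HNNExtension.t (a, n) = (v (m + 1) * a, n) := by
    obtain ⟨Φ, hΦ⟩ := ext (Λ := Λ) _ (swap_free _ (p2_free (vv g w (m + 1))
      (vv_ord g w hw (m + 1)))) _ tt_free hP hT
    refine ⟨Φ, fun a n => ?_, fun a n => ?_⟩
    · have := hΦ (FreeGroup.of false) a n
      rw [FreeGroup.lift_apply_of, FreeGroup.lift_apply_of] at this
      exact this
    · have := hΦ (FreeGroup.of true) a n
      rw [FreeGroup.lift_apply_of, FreeGroup.lift_apply_of] at this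
      exact this
  obtain ⟨Ψ, hΨ1, hΨ2⟩ := h2
  let M : P2 Γ →* Equiv.Perm (P2 Γ × Λ) := MonoidHom.mk' (fun g => (Equiv.mulLeft g).prodCongr
    (Equiv.refl Λ)) (by
      intro a b
      ext1 x
      show ((a * b) * x.1, x.2) = (a * (b * x.1), x.2)
      rw [mul_assoc])
  have hM : ∀ (c a : P2 Γ) (n : Λ), M c (a, n) = (c * a, n) := fun _ _ _ => rfl
  have e1 : ∀ h, Φ h (HNNExtension.of pp) = M (v h) := fun h => by
    ext1 x
    exact (hΦ1 h x.1 x.2).trans (hM _ _ _).symm
  have e2 : ∀ h, Φ h HNNExtension.t = M z := fun h => by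
    ext1 x
    exact (hΦ2 h x.1 x.2).trans (hM _ _ _).symm
  have e3 : Ψ (HNNExtension.of pp) = M z := by
    ext1 x
    exact (hΨ1 x.1 x.2).trans (hM _ _ _).symm
  have e4 : Ψ HNNExtension.t = M (v (m + 1)) := by
    ext1 x
    exact (hΨ2 x.1 x.2).trans (hM _ _ _).symm
  let γ : ℕ → Equiv.Perm (P2 Γ × Λ) := fun h =>
    if h < m + 2 then M (v h) else if h < 2 * m + 4 then Φ (h - (m + 2)) (HNNExtension.of qq) else
      if h = 2 * m + 4 then M z else Ψ (HNNExtension.of qq)
  have g1 : ∀ h, h < m + 2 → γ h = M (v h) := fun h hh => if_pos hh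
  have g2 : ∀ h, h < m + 2 → γ (m + 2 + h) = Φ h (HNNExtension.of qq) := fun h hh => by
    show (if m + 2 + h < m + 2 then _ else _) = _
    rw [if_neg (by omega), if_pos (by omega)]
    congr 2
    omega
  have g3 : γ (2 * m + 4) = M z := by
    show (if 2 * m + 4 < m + 2 then _ else _) = _
    rw [if_neg (by omega), if_neg (by omega), if_pos rfl]
  have g4 : γ (2 * m + 5) = Ψ (HNNExtension.of qq) := by
    show (if 2 * m + 5 < m + 2 then _ else _) = _
    rw [if_neg (by omega), if_neg (by omega), if_neg (by omega)]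
  let L : Γ →* Equiv.Perm (P2 Γ × Λ) := M.comp ((HNNExtension.of (φ := MulEquiv.refl _)).comp lm)
  have g0 : γ 0 = M (HNNExtension.of xx) := by
    rw [g1 0 (by omega)]
    show M (HNNExtension.of (vv g w 0)) = _
    rw [vv_zero]
  refine ⟨Equiv.Perm (P2 Γ × Λ), inferInstance, γ, L, ?_, ?_, ?_, ?_⟩
  · intro h hh
    rw [ev_rl]
    rcases Nat.lt_or_ge h (m + 2) with c1 | c1
    · have k1 : gN m h = m + 2 + h := by
        unfold gN
        rw [if_pos c1]
      rw [k1, g2 h c1, g1 h c1, ← e1]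
      exact hom_rel _
    rcases Nat.lt_or_ge h (2 * m + 4) with c2 | c2
    · have k1 : gN m h = 2 * m + 4 := by
        unfold gN
        rw [if_neg (by omega), if_pos c2]
      obtain ⟨i, rfl⟩ := Nat.exists_eq_add_of_le c1
      rw [k1, g2 i (by omega), g3, ← e2 i, ← map_inv, ← map_inv, ← map_mul, ← map_mul, ← map_mul,
        ← map_mul, tt_rel, map_one]
    have h3 : h = 2 * m + 4 ∨ h = 2 * m + 5 := by omega
    rcases h3 with rfl | rfl
    · have k1 : gN m (2 * m + 4) = 2 * m + 5 := by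
        unfold gN
        rw [if_neg (by omega), if_neg (by omega), if_pos rfl]
      rw [k1, g3, g4, ← e3]
      exact hom_rel _
    · have k1 : gN m (2 * m + 5) = m + 1 := by
        unfold gN
        rw [if_neg (by omega), if_neg (by omega), if_neg (by omega)]
      rw [k1, g4, g1 (m + 1) (by omega), ← e4, ← map_inv, ← map_inv, ← map_mul, ← map_mul,
        ← map_mul, ← map_mul, tt_rel, map_one]
  · apply FreeGroup.ext_hom
    intro i
    have k1 : ph γ m (FreeGroup.of i) = γ (i.1 + 1) * (γ 0)⁻¹ := by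
      simp [ph]
    rw [k1, g0, g1 (i.1 + 1) (by have := i.2; omega)]
    show M (HNNExtension.of (vv g w (i.1 + 1))) * _ = M (HNNExtension.of (lm (g i)))
    rw [vv_succ, ← map_inv, ← map_inv, ← map_mul, ← map_mul, mul_inv_cancel_right]
  · rw [g0, g1 (m + 1) (by omega)]
    show M (HNNExtension.of (vv g w (m + 1))) = M (HNNExtension.of (lm w)) * _ *
      (M (HNNExtension.of (lm w)))⁻¹ * _
    rw [vv_last]
    simp only [map_mul, map_inv]
  · rw [g0]
    intro h
    have k1 : M (HNNExtension.of xx) (1, ((1, 1), 0)) = (1, ((1, 1), 0)) := by rw [h]; rfl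
    rw [hM, mul_one] at k1
    have k2 : HNNExtension.of xx = (1 : P2 Γ) := congrArg Prod.fst k1
    have k3 : (xx : Equiv.Perm (Γ × ℤ)) = 1 :=
      HNNExtension.of_injective _ (k2.trans (map_one _).symm)
    have k4 := congrArg (fun x : Equiv.Perm (Γ × ℤ) => x (1, 0)) k3
    simp [xx_apply] at k4

theorem s_no : S_no := by
  intro m R w hw
  let N := Subgroup.normalClosure {x | ∃ r ∈ R, x = (FreeGroup.mk r : FreeGroup (Fin m))}
  have h1 : (QuotientGroup.mk' N) (FreeGroup.mk w) ≠ 1 := by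
    intro h
    exact hw ((QuotientGroup.eq_one_iff _).1 h)
  obtain ⟨G, inst, γ, L, hr, hp, hl, h0⟩ := main (QuotientGroup.mk' N) _ h1
  refine ⟨G, inst, γ, hr, ?_, h0⟩
  intro r hr
  rcases List.mem_append.1 hr with h | h
  · obtain ⟨s, hs, rfl⟩ := List.mem_map.1 h
    rw [ev_rsn, hp]
    show L (QuotientGroup.mk' N (FreeGroup.mk s)) = 1
    have : (QuotientGroup.mk' N) (FreeGroup.mk s) = 1 :=
      (QuotientGroup.eq_one_iff _).2 (Subgroup.subset_normalClosure ⟨s, hs, rfl⟩)
    rw [this, map_one]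
  · rw [List.mem_singleton] at h
    subst h
    rw [ev_last, hp, hl]
    show (L (QuotientGroup.mk' N (FreeGroup.mk w)) * _ * _ * _)⁻¹ *
      L (QuotientGroup.mk' N (FreeGroup.mk w)) * _ * (L (QuotientGroup.mk' N (FreeGroup.mk w)))⁻¹ * _
      = 1
    group

/-- Both statements on the presentations. -/
theorem result : S_yes ∧ S_no := ⟨s_yes, s_no⟩

end Pool.Agent.TH111.J524
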