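import Mathlib
import Pool.Agent.TH165.Tan2.Defs5

set_option autoImplicit false
set_option linter.unusedVariables false

open CategoryTheory TensorProduct

namespace Pool.Agent.TH165.Tan

namespace Helper111

variable {X T : Fib}

/-- natural monoidal semilinear families -/
structure Nice (X : Fib) {R S : Type} [CommRing R] [CommRing S] (φ : R →+* S) (x : X.Obj R)
    (y : X.Obj S) (θ : ∀ M : QSh X, Slin φ (M.sec x) (M.sec y)) : Prop where
  nat : ∀ (M N : QSh X) (a : QSh.Hom M N) (m : (M.sec x).carrier),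
      (a.app y).app ((θ M).app m) = (θ N).app ((a.app x).app m)
  unit : ((θ (QSh.unit X)).app (1 : R) = (1 : S))
  tens : ∀ (M N : QSh X) (m : (M.sec x).carrier) (n : (N.sec x).carrier),
      (θ (M.tens N)).app (m ⊗ₜ[R] n) = ((θ M).app m) ⊗ₜ[S] ((θ N).app n)

lemma nice_res {R S : Type} [CommRing R] [CommRing S] {φ : R →+* S} {x : X.Obj R}
    {y : X.Obj S} (f : X.Hom φ x y) : Nice X φ x y (fun M => M.res f) where
  nat M N a m := a.naturality f m
  unit := _root_.map_one φ
  tens M N m n := rfl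

lemma exists_of_nice (h1 : X.FFProp) {R S : Type} [CommRing R] [CommRing S] {φ : R →+* S}
    {x : X.Obj R} {y : X.Obj S} {θ : ∀ M : QSh X, Slin φ (M.sec x) (M.sec y)}
    (h : Nice X φ x y θ) : ∃ f : X.Hom φ x y, ∀ M : QSh X, M.res f = θ M :=
  (h1 φ x y θ h.nat h.unit h.tens).exists

lemma eq_of_res (h1 : X.FFProp) {R S : Type} [CommRing R] [CommRing S] {φ : R →+* S}
    {x : X.Obj R} {y : X.Obj S} (f g : X.Hom φ x y) (h : ∀ M : QSh X, M.res f = M.res g) :
    f = g := by
  have hg := nice_res g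
  exact (h1 φ x y (fun M => M.res g) hg.nat hg.unit hg.tens).unique h (fun M => rfl)

/-! ### faithful -/

lemma omega_faithful (h1 : X.FFProp) (T : Fib) : (omega X T).Faithful where
  map_injective {F G} η η' h := by
    refine Mor2.ext (funext fun R => funext fun _ => funext fun t => ?_)
    apply eq_of_res h1
    intro M
    have h2 : starMap η = starMap η' := congrArg CTF.Hom.app h
    have h3 : starApp η M = starApp η' M := congrArg (fun k : F.star ⟶ G.star => k.app M) h2
    exact congrArg (fun k : QSh.Hom (M.pb F) (M.pb G) => k.app t) h3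

/-! ### full -/

section full
variable {F G : Mor T X} (Θ : CTF.Hom F.ctf G.ctf)

/-- component -/
def cmp (M : QSh X) : QSh.Hom (M.pb F) (M.pb G) := Θ.app.app M

lemma cmp_nat {M N : QSh X} (a : QSh.Hom M N) :
    (QSh.pbHom F a).comp (cmp Θ N) = (cmp Θ M).comp (QSh.pbHom G a) :=
  Θ.app.naturality a

lemma cmp_unit : (QSh.Hom.id (QSh.unit T)).comp (cmp Θ (QSh.unit X)) =
    QSh.Hom.id (QSh.unit T) :=
  Θ.isMonoidal.unit

lemma cmp_tens (M N : QSh X) :
    (QSh.Hom.id ((M.tens N).pb F)).comp (cmp Θ (M.tens N)) =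
      ((cmp Θ M).tens (cmp Θ N)).comp (QSh.Hom.id ((M.tens N).pb G)) :=
  Θ.isMonoidal.tensor M N

lemma cmp_nice {R : Type} [CommRing R] (t : T.Obj R) :
    Nice X (RingHom.id R) (F.obj t) (G.obj t) (fun M => (cmp Θ M).app t) where
  nat M N a m :=
    (congrArg (fun k : QSh.Hom (M.pb F) (N.pb G) => (k.app t).app m) (cmp_nat Θ a)).symm
  unit := congrArg (fun k : QSh.Hom (QSh.unit T) (QSh.unit T) => (k.app t).app (1 : R))
    (cmp_unit Θ)
  tens M N m n := congrArg (fun k : QSh.Hom ((M.tens N).pb F) ((M.tens N).pb G) =>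
    (k.app t).app (m ⊗ₜ[R] n)) (cmp_tens Θ M N)

lemma full_aux (h1 : X.FFProp) : ∃ η : Mor2 F G, ∀ M, starApp η M = cmp Θ M := by
  have key : ∀ {R : Type} [CommRing R] (t : T.Obj R),
      ∃ f : X.Hom (RingHom.id R) (F.obj t) (G.obj t), ∀ M : QSh X, M.res f = (cmp Θ M).app t :=
    fun t => exists_of_nice h1 (cmp_nice Θ t)
  refine ⟨⟨fun {R} _ t => (key t).choose, ?_⟩, ?_⟩
  · intro R S _ _ φ x y f
    refine eq_of_res h1 (φ := φ) _ _ fun M => ?_
    refine (M.res_comp (F.map f) (key y).choose).trans ?_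
    refine Eq.trans ?_ (M.res_comp (key x).choose (G.map f)).symm
    rw [(key y).choose_spec M, (key x).choose_spec M]
    exact (cmp Θ M).nat f
  · intro M
    refine QSh.Hom.ext (funext fun R => funext fun _ => funext fun t => ?_)
    exact (key t).choose_spec M

end full

lemma omega_full (h1 : X.FFProp) (T : Fib) : (omega X T).Full where
  map_surjective {F G} Θ := by
    obtain ⟨η, hη⟩ := full_aux (F := F) (G := G) Θ h1
    refine ⟨η, CTF.Hom.ext (NatTrans.ext (funext fun M => ?_))⟩
    exact hη M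

/-! ### essentially surjective -/

/-- data of the fibre functor -/
structure FD (F : CTF X T) {R : Type} [CommRing R] (t : T.Obj R) where
  x : X.Obj R
  θ : ∀ M : QSh X, Slin (RingHom.id R) (M.sec x) ((F.F.obj M).sec t)
  bij : ∀ M, Function.Bijective (θ M).app
  nat : ∀ (M N : QSh X) (a : QSh.Hom M N) (m : (M.sec x).carrier),
        (QSh.Hom.app (F.F.map a) t).app ((θ M).app m) = (θ N).app ((a.app x).app m)
  unit : ((θ (QSh.unit X)).app (1 : R) =
        (QSh.Hom.app (Functor.LaxMonoidal.ε F.F) t).app (1 : R))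
  tens : ∀ (M N : QSh X) (m : (M.sec x).carrier) (n : (N.sec x).carrier),
        (θ (M.tens N)).app (m ⊗ₜ[R] n) =
          (QSh.Hom.app (Functor.LaxMonoidal.μ F.F M N) t).app
            (((θ M).app m) ⊗ₜ[R] ((θ N).app n))

lemma fd_nonempty (h2 : X.ESProp) (F : CTF X T) {R : Type} [CommRing R] (t : T.Obj R) :
    Nonempty (FD F t) := by
  obtain ⟨x, θ, a, b, c, d⟩ := h2 T F t
  exact ⟨⟨x, θ, a, b, c, d⟩⟩

section es
variable (F : CTF X T) (D : ∀ {R : Type} [CommRing R] (t : T.Obj R), FD F t)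

/-- the transition maps -/
noncomputable def rho {R S : Type} [CommRing R] [CommRing S] {φ : R →+* S} {s : T.Obj R}
    {t : T.Obj S} (f : T.Hom φ s t) (M : QSh X) : Slin φ (M.sec (D s).x) (M.sec (D t).x) :=
  ((((D s).θ M).comp ((F.F.obj M).res f)).comp (((D t).θ M).inv ((D t).bij M)))

lemma theta_rho {R S : Type} [CommRing R] [CommRing S] {φ : R →+* S} {s : T.Obj R}
    {t : T.Obj S} (f : T.Hom φ s t) (M : QSh X) (m : (M.sec (D s).x).carrier) :
    ((D t).θ M).app ((rho F D f M).app m) = ((F.F.obj M).res f).app (((D s).θ M).app m) :=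
  Slin.app_inv ((D t).bij M) _

lemma rho_nice {R S : Type} [CommRing R] [CommRing S] {φ : R →+* S} {s : T.Obj R}
    {t : T.Obj S} (f : T.Hom φ s t) : Nice X φ (D s).x (D t).x (rho F D f) where
  nat M N a m := by
    apply ((D t).bij N).1
    refine ((D t).nat M N a _).symm.trans ?_
    refine (congrArg (QSh.Hom.app (F.F.map a) t).app (theta_rho F D f M m)).trans ?_
    refine (QSh.Hom.naturality (F.F.map a) f _).trans ?_
    refine Eq.trans ?_ (theta_rho F D f N _).symm
    exact congrArg ((F.F.obj N).res f).app ((D s).nat M N a m)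
  unit := by
    apply ((D t).bij (QSh.unit X)).1
    refine (theta_rho F D f (QSh.unit X) (1 : R)).trans ?_
    refine (congrArg ((F.F.obj (QSh.unit X)).res f).app (D s).unit).trans ?_
    refine (QSh.Hom.naturality (Functor.LaxMonoidal.ε F.F) f (1 : R)).symm.trans ?_
    refine Eq.trans ?_ (D t).unit.symm
    exact congrArg (QSh.Hom.app (Functor.LaxMonoidal.ε F.F) t).app (_root_.map_one φ)
  tens M N m n := by
    apply ((D t).bij (M.tens N)).1
    refine (theta_rho F D f (M.tens N) _).trans ?_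
    refine (congrArg ((F.F.obj (M.tens N)).res f).app ((D s).tens M N m n)).trans ?_
    refine (QSh.Hom.naturality (Functor.LaxMonoidal.μ F.F M N) f
      (((D s).θ M).app m ⊗ₜ[R] ((D s).θ N).app n)).symm.trans ?_
    refine Eq.trans ?_ ((D t).tens M N _ _).symm
    refine congrArg (QSh.Hom.app (Functor.LaxMonoidal.μ F.F M N) t).app ?_
    exact congrArg₂ (fun a b => a ⊗ₜ[S] b) (theta_rho F D f M m).symm (theta_rho F D f N n).symm

/-- the maps on morphisms -/
noncomputable def gmap (h1 : X.FFProp) {R S : Type} [CommRing R] [CommRing S] {φ : R →+* S}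
    {s : T.Obj R} {t : T.Obj S} (f : T.Hom φ s t) : X.Hom φ (D s).x (D t).x :=
  (exists_of_nice h1 (rho_nice F D f)).choose

lemma gmap_res (h1 : X.FFProp) {R S : Type} [CommRing R] [CommRing S] {φ : R →+* S}
    {s : T.Obj R} {t : T.Obj S} (f : T.Hom φ s t) (M : QSh X) :
    M.res (gmap F D h1 f) = rho F D f M :=
  (exists_of_nice h1 (rho_nice F D f)).choose_spec M

lemma rho_id {R : Type} [CommRing R] (t : T.Obj R) (M : QSh X) :
    rho F D (T.id t) M = Slin.id (M.sec (D t).x) := by
  refine Slin.ext' fun m => ?_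
  apply ((D t).bij M).1
  refine (theta_rho F D (T.id t) M m).trans ?_
  exact QSh.res_id_app _ _ _

lemma rho_comp {R S U : Type} [CommRing R] [CommRing S] [CommRing U] {φ : R →+* S}
    {ψ : S →+* U} {x : T.Obj R} {y : T.Obj S} {z : T.Obj U} (f : T.Hom φ x y) (g : T.Hom ψ y z)
    (M : QSh X) : rho F D (T.comp f g) M = (rho F D f M).comp (rho F D g M) := by
  refine Slin.ext' fun m => ?_
  apply ((D z).bij M).1
  refine (theta_rho F D (T.comp f g) M m).trans ?_
  refine (QSh.res_comp_app _ f g _).trans ?_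
  refine Eq.trans ?_ (theta_rho F D g M _).symm
  exact congrArg ((F.F.obj M).res g).app (theta_rho F D f M m).symm

lemma gmap_id (h1 : X.FFProp) {R : Type} [CommRing R] (t : T.Obj R) :
    gmap F D h1 (T.id t) = X.id (D t).x := by
  refine eq_of_res h1 _ _ fun M => ?_
  exact (gmap_res F D h1 (T.id t) M).trans ((rho_id F D t M).trans (M.res_id _).symm)

lemma gmap_comp (h1 : X.FFProp) {R S U : Type} [CommRing R] [CommRing S] [CommRing U]
    {φ : R →+* S} {ψ : S →+* U} {x : T.Obj R} {y : T.Obj S} {z : T.Obj U} (f : T.Hom φ x y)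
    (g : T.Hom ψ y z) :
    gmap F D h1 (T.comp f g) = X.comp (gmap F D h1 f) (gmap F D h1 g) := by
  refine eq_of_res h1 _ _ fun M => ?_
  refine (gmap_res F D h1 (T.comp f g) M).trans ((rho_comp F D f g M).trans ?_)
  refine Eq.trans ?_ (M.res_comp _ _).symm
  exact (congrArg₂ (fun a b => Slin.comp a b) (gmap_res F D h1 f M) (gmap_res F D h1 g M)).symm

/-- the morphism of fibred categories -/
noncomputable def Gm (h1 : X.FFProp) : Mor T X where
  obj := fun t => (D t).x
  map := fun f => gmap F D h1 f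
  map_id := fun t => gmap_id F D h1 t
  map_comp := fun f g => gmap_comp F D h1 f g

lemma Gm_res (h1 : X.FFProp) {R S : Type} [CommRing R] [CommRing S] {φ : R →+* S} {s : T.Obj R}
    {t : T.Obj S} (f : T.Hom φ s t) (M : QSh X) : M.res ((Gm F D h1).map f) = rho F D f M :=
  gmap_res F D h1 f M

lemma isoApp_nat (h1 : X.FFProp) (M : QSh X) {R S : Type} [CommRing R] [CommRing S]
    {φ : R →+* S} {s : T.Obj R} {t : T.Obj S} (f : T.Hom φ s t) :
    (M.res ((Gm F D h1).map f)).comp ((D t).θ M) =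
      ((D s).θ M).comp ((F.F.obj M).res f) := by
  refine (congrArg (fun k => Slin.comp k ((D t).θ M)) (Gm_res F D h1 f M)).trans ?_
  exact Slin.ext' fun m => theta_rho F D f M m

/-- the components of the isomorphism -/
noncomputable def isoApp (h1 : X.FFProp) (M : QSh X) :
    QSh.Hom (M.pb (Gm F D h1)) (F.F.obj M) where
  app t := (D t).θ M
  nat f := isoApp_nat F D h1 M f

lemma isoApp_bij (h1 : X.FFProp) (M : QSh X) : (isoApp F D h1 M).IsBij :=
  fun {R} _ t => (D t).bij M

lemma isoApp_natural (h1 : X.FFProp) {M N : QSh X} (a : QSh.Hom M N) :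
    (QSh.pbHom (Gm F D h1) a).comp (isoApp F D h1 N) =
      (isoApp F D h1 M).comp (F.F.map a) :=
  QSh.hom_ext _ _ (fun t m => ((D t).nat M N a m).symm)

/-- the natural isomorphism -/
noncomputable def nIso (h1 : X.FFProp) : (Gm F D h1).star ≅ F.F :=
  NatIso.ofComponents (fun M => (isoApp F D h1 M).iso (isoApp_bij F D h1 M))
    (fun a => isoApp_natural F D h1 a)

lemma unit_ext {M : QSh T} {a b : QSh.Hom (QSh.unit T) M}
    (h : ∀ {R : Type} [CommRing R] (t : T.Obj R),
      (a.app t).app (1 : R) = (b.app t).app (1 : R)) : a = b := by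
  refine QSh.hom_ext _ _ (fun {R} _ t (r : R) => ?_)
  have e : (r • (1 : R)) = r := mul_one r
  have h1 : (a.app t).app (r • (1 : R) : R) = r • (a.app t).app (1 : R) :=
    (a.app t).map_smul r (1 : R)
  have h2 : (b.app t).app (r • (1 : R) : R) = r • (b.app t).app (1 : R) :=
    (b.app t).map_smul r (1 : R)
  rw [e] at h1 h2
  refine h1.trans (Eq.trans ?_ h2.symm)
  exact congrArg (fun k => r • k) (h t)

lemma nIso_unit (h1 : X.FFProp) :
    (QSh.Hom.id (QSh.unit T)).comp (isoApp F D h1 (QSh.unit X)) =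
      Functor.LaxMonoidal.ε F.F :=
  unit_ext (fun t => (D t).unit)

lemma nIso_tens (h1 : X.FFProp) (M N : QSh X) :
    (QSh.Hom.id ((M.tens N).pb (Gm F D h1))).comp (isoApp F D h1 (M.tens N)) =
      ((isoApp F D h1 M).tens (isoApp F D h1 N)).comp (Functor.LaxMonoidal.μ F.F M N) :=
  QSh.Hom.ext_tens (M := M.pb (Gm F D h1)) (N := N.pb (Gm F D h1))
    (fun t m n => (D t).tens M N m n)

instance nIso_isMonoidal (h1 : X.FFProp) : NatTrans.IsMonoidal (nIso F D h1).hom where
  unit := nIso_unit F D h1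
  tensor := nIso_tens F D h1

lemma nIso_inv_isMonoidal (h1 : X.FFProp) : NatTrans.IsMonoidal (nIso F D h1).inv :=
  haveI := nIso_isMonoidal F D h1
  inferInstance

/-- the isomorphism in the category of tensor functors -/
noncomputable def ctfIso (h1 : X.FFProp) : (Gm F D h1).ctf ≅ F where
  hom := ({ app := (nIso F D h1).hom, isMonoidal := nIso_isMonoidal F D h1 } :
    CTF.Hom (Gm F D h1).ctf F)
  inv := ({ app := (nIso F D h1).inv, isMonoidal := nIso_inv_isMonoidal F D h1 } :
    CTF.Hom F (Gm F D h1).ctf)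
  hom_inv_id := CTF.Hom.ext (nIso F D h1).hom_inv_id
  inv_hom_id := CTF.Hom.ext (nIso F D h1).inv_hom_id

end es

lemma omega_essSurj (h1 : X.FFProp) (h2 : X.ESProp) (T : Fib) : (omega X T).EssSurj where
  mem_essImage F :=
    ⟨Gm F (fun t => (fd_nonempty h2 F t).some) h1,
      ⟨ctfIso F (fun t => (fd_nonempty h2 F t).some) h1⟩⟩

end Helper111

theorem omega_isEquivalence_of {X : Fib} (h1 : X.FFProp) (h2 : X.ESProp) (T : Fib) :
    (omega X T).IsEquivalence := by
  have a := Helper111.omega_faithful h1 T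
  have b := Helper111.omega_full h1 T
  have c := Helper111.omega_essSurj h1 h2 T
  exact { }

end Pool.Agent.TH165.Tan
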