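import Pool.Agent.TH91.LG.Defs

set_option autoImplicit false
set_option linter.unusedSectionVars false

namespace Pool.Agent.TH91.LG

open Topology Filter Set
open scoped ContDiff Manifold NNReal

namespace J1256

variable {G : Type*} [Group G] [TopologicalSpace G] [IsTopologicalGroup G] {E : Type*}
  [NormedAddCommGroup E] [NormedSpace ℝ E] (L : LocLie G E)

lemma ev_norm_lt {α F : Type*} [TopologicalSpace α] [NormedAddCommGroup F] {f : α → F} {a : α}
    (hf : ContinuousAt f a) (h0 : f a = 0) {r : ℝ} (hr : 0 < r) : ∀ᶠ x in 𝓝 a, ‖f x‖ < r := by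
  have h1 : ‖f a‖ < r := by rw [h0, norm_zero]; exact hr
  exact hf.norm (Iio_mem_nhds h1)

/-- multiplication in the chart -/
def mu (p : E × E) : E := L.e (L.e.symm p.1 * L.e.symm p.2)

lemma mu_contDiffAt : ContDiffAt ℝ ∞ (mu L) (0, 0) := L.mul

lemma symm_zero : L.e.symm 0 = 1 := by
  rw [← L.map_one]
  exact L.e.left_inv L.one_mem

lemma zero_mem_target : (0 : E) ∈ L.e.target := by
  rw [← L.map_one]
  exact L.e.map_source L.one_mem

lemma cont_symm : ContinuousAt L.e.symm 0 := L.e.continuousAt_symm (zero_mem_target L)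

lemma mu_zero_right {x : E} (hx : x ∈ L.e.target) : mu L (x, 0) = x := by
  unfold mu
  simp only [symm_zero, mul_one]
  exact L.e.right_inv hx

lemma mu_zero_left {x : E} (hx : x ∈ L.e.target) : mu L (0, x) = x := by
  unfold mu
  simp only [symm_zero, one_mul]
  exact L.e.right_inv hx

/-- a radius in which everything works -/
structure Rad (r : ℝ) : Prop where
  pos : 0 < r
  tgt : ∀ x : E, ‖x‖ < r → x ∈ L.e.target
  src : ∀ x y : E, ‖x‖ < r → ‖y‖ < r → L.e.symm x * L.e.symm y ∈ L.e.source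
  diff : ∀ x y : E, ‖x‖ < r → ‖y‖ < r → DifferentiableAt ℝ (mu L) (x, y)

lemma exists_rad : ∃ r, Rad L r := by
  have h1 : ∀ᶠ x in 𝓝 (0 : E), x ∈ L.e.target := L.e.open_target.mem_nhds (zero_mem_target L)
  have h2 : ∀ᶠ p in 𝓝 ((0 : E), (0 : E)), L.e.symm p.1 * L.e.symm p.2 ∈ L.e.source := by
    have h3 : ContinuousAt (fun p : E × E => L.e.symm p.1 * L.e.symm p.2) (0, 0) := by
      have a1 : ContinuousAt (fun p : E × E => L.e.symm p.1) (0, 0) :=
        ContinuousAt.comp (f := fun p : E × E => p.1) (cont_symm L) continuousAt_fst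
      have a2 : ContinuousAt (fun p : E × E => L.e.symm p.2) (0, 0) :=
        ContinuousAt.comp (f := fun p : E × E => p.2) (cont_symm L) continuousAt_snd
      exact a1.mul a2
    apply h3.eventually
    apply L.e.open_source.mem_nhds
    simp only [symm_zero, mul_one]
    exact L.one_mem
  have h3 : ∀ᶠ p in 𝓝 ((0 : E), (0 : E)), DifferentiableAt ℝ (mu L) p := by
    have h4 : ContDiffAt ℝ 1 (mu L) (0, 0) := (mu_contDiffAt L).of_le (by exact_mod_cast le_top)
    have h5 := h4.eventually (by simp)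
    filter_upwards [h5] with p hp
    exact hp.differentiableAt (by simp)
  obtain ⟨r1, hr1, g1⟩ := Metric.eventually_nhds_iff.1 h1
  obtain ⟨r2, hr2, g2⟩ := Metric.eventually_nhds_iff.1 (h2.and h3)
  refine ⟨min r1 r2, lt_min hr1 hr2, ?_, ?_, ?_⟩
  · intro x hx
    exact g1 (by rw [dist_zero_right]; exact lt_of_lt_of_le hx (min_le_left _ _))
  · intro x y hx hy
    refine (g2 (y := (x, y)) ?_).1
    rw [Prod.dist_eq, dist_zero_right, dist_zero_right]
    exact max_lt (lt_of_lt_of_le hx (min_le_right _ _)) (lt_of_lt_of_le hy (min_le_right _ _))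
  · intro x y hx hy
    refine (g2 (y := (x, y)) ?_).2
    rw [Prod.dist_eq, dist_zero_right, dist_zero_right]
    exact max_lt (lt_of_lt_of_le hx (min_le_right _ _)) (lt_of_lt_of_le hy (min_le_right _ _))

variable {L}

lemma symm_mu {r : ℝ} (hr : Rad L r) {x y : E} (hx : ‖x‖ < r) (hy : ‖y‖ < r) :
    L.e.symm (mu L (x, y)) = L.e.symm x * L.e.symm y :=
  L.e.left_inv (hr.src x y hx hy)

lemma mu_assoc {r : ℝ} (hr : Rad L r) {x y z : E} (hx : ‖x‖ < r) (hy : ‖y‖ < r) (hz : ‖z‖ < r) :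
    mu L (x, mu L (y, z)) = mu L (mu L (x, y), z) := by
  change L.e (L.e.symm x * L.e.symm (mu L (y, z))) = L.e (L.e.symm (mu L (x, y)) * L.e.symm z)
  rw [symm_mu hr hy hz, symm_mu hr hx hy, mul_assoc]

lemma exists_small {r ρ : ℝ} (hr : Rad L r) (hρ : 0 < ρ) : ∃ r' : ℝ, 0 < r' ∧ r' ≤ r ∧
    ∀ x y : E, ‖x‖ < r' → ‖y‖ < r' → ‖mu L (x, y)‖ < ρ := by
  have h1 : ContinuousAt (mu L) (0, 0) := (mu_contDiffAt L).continuousAt
  have h0 : mu L ((0 : E), (0 : E)) = 0 := mu_zero_right L (zero_mem_target L)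
  have h2 : ∀ᶠ p in 𝓝 ((0 : E), (0 : E)), ‖mu L p‖ < ρ := ev_norm_lt h1 h0 hρ
  obtain ⟨r2, hr2, g2⟩ := Metric.eventually_nhds_iff.1 h2
  refine ⟨min r r2, lt_min hr.pos hr2, min_le_left _ _, ?_⟩
  intro x y hx hy
  refine g2 (y := (x, y)) ?_
  rw [Prod.dist_eq, dist_zero_right, dist_zero_right]
  exact max_lt (lt_of_lt_of_le hx (min_le_right _ _)) (lt_of_lt_of_le hy (min_le_right _ _))

/-- the left invariant vector field -/
noncomputable def fld (L : LocLie G E) (X x : E) : E := fderiv ℝ (mu L) (x, 0) (0, X)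

lemma fld_contDiffAt (X : E) : ContDiffAt ℝ 1 (fld L X) 0 := by
  have h1 : ContDiffAt ℝ 1 (fderiv ℝ (mu L)) ((0 : E), (0 : E)) :=
    (mu_contDiffAt L).fderiv_right (by norm_cast)
  have h2 : ContDiffAt ℝ 1 (fun x : E => fderiv ℝ (mu L) (x, 0)) 0 := by
    have h3 : ContDiffAt ℝ 1 (fun x : E => (x, (0 : E))) 0 :=
      contDiffAt_id.prodMk contDiffAt_const
    exact ContDiffAt.comp (0 : E) (g := fderiv ℝ (mu L)) (f := fun x : E => (x, (0 : E))) h1 h3
  exact h2.clm_apply contDiffAt_const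

lemma hasDerivAt_mu {a : E} {y : ℝ → E} {y' : E} {t : ℝ}
    (hd : DifferentiableAt ℝ (mu L) (a, y t)) (hy : HasDerivAt y y' t) :
    HasDerivAt (fun t => mu L (a, y t)) (fderiv ℝ (mu L) (a, y t) (0, y')) t := by
  have h1 : HasFDerivAt (mu L) (fderiv ℝ (mu L) (a, y t)) (a, y t) := hd.hasFDerivAt
  exact h1.comp_hasDerivAt t ((hasDerivAt_const t a).prodMk hy)

lemma hasDerivAt_line (X : E) : HasDerivAt (fun t : ℝ => t • X) X 0 := by
  have := (hasDerivAt_id (0 : ℝ)).smul_const X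
  simpa using this

lemma ev_line {r : ℝ} (hr : 0 < r) (X : E) : ∀ᶠ t in 𝓝 (0 : ℝ), ‖t • X‖ < r := by
  have h : Continuous (fun t : ℝ => t • X) := by fun_prop
  exact ev_norm_lt h.continuousAt (by simp) hr

lemma fld_zero (X : E) : fld L X 0 = X := by
  obtain ⟨r, hr⟩ := exists_rad L
  have h1 : HasDerivAt (fun t : ℝ => mu L (0, t • X))
      (fderiv ℝ (mu L) (0, (0 : ℝ) • X) (0, X)) 0 :=
    hasDerivAt_mu (by
      rw [zero_smul]
      exact hr.diff 0 0 (by simpa using hr.pos) (by simpa using hr.pos)) (hasDerivAt_line X)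
  rw [zero_smul] at h1
  have h2 : (fun t : ℝ => mu L (0, t • X)) =ᶠ[𝓝 0] fun t => t • X := by
    filter_upwards [ev_line hr.pos X] with t ht
    exact mu_zero_left L (hr.tgt _ ht)
  exact (h2.hasDerivAt_iff.1 h1).unique (hasDerivAt_line X)

/-- left invariance of the field -/
lemma fld_mu {r : ℝ} (hr : Rad L r) (X : E) {a b : E} (ha : ‖a‖ < r) (hb : ‖b‖ < r)
    (hab : ‖mu L (a, b)‖ < r) :
    fderiv ℝ (mu L) (a, b) (0, fld L X b) = fld L X (mu L (a, b)) := by
  have h0 : ‖(0 : E)‖ < r := by simpa using hr.pos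
  have h1 : HasDerivAt (fun t : ℝ => mu L (b, t • X)) (fld L X b) 0 := by
    have := hasDerivAt_mu (L := L) (a := b) (y := fun t : ℝ => t • X) (t := 0) (by
      rw [zero_smul]
      exact hr.diff b 0 hb h0) (hasDerivAt_line X)
    simpa [fld] using this
  have h2 : HasDerivAt (fun t : ℝ => mu L (a, mu L (b, t • X)))
      (fderiv ℝ (mu L) (a, b) (0, fld L X b)) 0 := by
    have e : mu L (b, (0 : ℝ) • X) = b := by
      rw [zero_smul]; exact mu_zero_right L (hr.tgt b hb)
    have := hasDerivAt_mu (L := L) (a := a) (y := fun t : ℝ => mu L (b, t • X)) (t := 0) (by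
      simp only [e]
      exact hr.diff a b ha hb) h1
    simp only [e] at this
    exact this
  have h3 : HasDerivAt (fun t : ℝ => mu L (mu L (a, b), t • X)) (fld L X (mu L (a, b))) 0 := by
    have := hasDerivAt_mu (L := L) (a := mu L (a, b)) (y := fun t : ℝ => t • X) (t := 0) (by
      rw [zero_smul]
      exact hr.diff _ 0 hab h0) (hasDerivAt_line X)
    simpa [fld] using this
  have h4 : (fun t : ℝ => mu L (a, mu L (b, t • X))) =ᶠ[𝓝 0]
      fun t : ℝ => mu L (mu L (a, b), t • X) := by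
    filter_upwards [ev_line hr.pos X] with t ht
    exact mu_assoc hr ha hb ht
  exact (h4.hasDerivAt_iff.1 h2).unique h3

/-- uniqueness of solutions -/
lemma unique_sol (X : E) : ∃ ρ : ℝ, 0 < ρ ∧ ∀ (f g : ℝ → E) (δ : ℝ), 0 < δ →
    (∀ t ∈ Ioo (-δ) δ, HasDerivAt f (fld L X (f t)) t ∧ ‖f t‖ < ρ) →
    (∀ t ∈ Ioo (-δ) δ, HasDerivAt g (fld L X (g t)) t ∧ ‖g t‖ < ρ) → f 0 = g 0 →
    EqOn f g (Ioo (-δ) δ) := by
  obtain ⟨K, s, hs, hK⟩ := (fld_contDiffAt (L := L) X).exists_lipschitzOnWith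
  obtain ⟨ρ, hρ, hb⟩ := Metric.mem_nhds_iff.1 hs
  refine ⟨ρ, hρ, ?_⟩
  intro f g δ hδ hf hg h0
  refine ODE_solution_unique_of_mem_Ioo (v := fun _ => fld L X) (s := fun _ => Metric.ball 0 ρ)
    (K := K) (t₀ := 0) (fun t _ => hK.mono hb) ⟨by linarith, hδ⟩ ?_ ?_ h0
  · intro t ht
    exact ⟨(hf t ht).1, by simpa using (hf t ht).2⟩
  · intro t ht
    exact ⟨(hg t ht).1, by simpa using (hg t ht).2⟩

/-- one-parameter subgroups solve the differential equation -/
lemma ode_of_hom {r : ℝ} (hr : Rad L r) {X : E} {c : ℝ → G} (h : ∀ s t, c (s + t) = c s * c t)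
    (hT : L.T c X) : ∀ᶠ t in 𝓝 (0 : ℝ), c t ∈ L.e.source ∧
      HasDerivAt (fun t => L.e (c t)) (fld L X (L.e (c t))) t := by
  obtain ⟨h0, hc, hd⟩ := hT
  have hs : ∀ᶠ t in 𝓝 (0 : ℝ), c t ∈ L.e.source := by
    apply hc.eventually
    apply L.e.open_source.mem_nhds
    rw [h0]
    exact L.one_mem
  have hn : ∀ᶠ t in 𝓝 (0 : ℝ), ‖L.e (c t)‖ < r :=
    ev_norm_lt hd.continuousAt (by rw [h0, L.map_one]) hr.pos
  filter_upwards [hs, hn] with t ht1 ht2
  refine ⟨ht1, ?_⟩
  have e0 : L.e (c 0) = 0 := by rw [h0, L.map_one]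
  have h1 : HasDerivAt (fun u => mu L (L.e (c t), L.e (c u))) (fld L X (L.e (c t))) 0 := by
    have := hasDerivAt_mu (L := L) (a := L.e (c t)) (y := fun u => L.e (c u)) (t := 0) (by
      simp only [e0]
      exact hr.diff _ 0 ht2 (by simpa using hr.pos)) hd
    simp only [e0] at this
    exact this
  have h2 : (fun u => mu L (L.e (c t), L.e (c u))) =ᶠ[𝓝 0] fun u => L.e (c (t + u)) := by
    filter_upwards [hs] with u hu
    change L.e (L.e.symm (L.e (c t)) * L.e.symm (L.e (c u))) = _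
    rw [L.e.left_inv ht1, L.e.left_inv hu, h]
  have h3 := h2.hasDerivAt_iff.1 h1
  have h4 : HasDerivAt (fun u => L.e (c (t + (u - t)))) (fld L X (L.e (c t))) t := by
    have h5 : HasDerivAt (fun u => L.e (c (t + u))) (fld L X (L.e (c t))) (t - t) := by
      rw [sub_self]; exact h3
    exact h5.comp_sub_const t t
  simpa using h4

lemma hom_pow {c : ℝ → G} (h : ∀ s t, c (s + t) = c s * c t) (t : ℝ) (n : ℕ) :
    c (n * t) = c t ^ n := by
  have h0 : c 0 = 1 := by
    have := h 0 0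
    rw [add_zero] at this
    exact left_eq_mul.1 this
  induction n with
  | zero => simp [h0]
  | succ n ih =>
    rw [pow_succ, ← ih, ← h]
    congr 1
    push_cast
    ring

/-! ### Extension of local homomorphisms -/

section ext
omit [TopologicalSpace G] [IsTopologicalGroup G]

lemma pow_indep {c0 : ℝ → G} {a : ℝ}
    (h : ∀ s t, |s| < a → |t| < a → c0 (s + t) = c0 s * c0 t) {t : ℝ} {n : ℕ}
    (hn : |t| / 2 ^ n < a) (m : ℕ) :
    c0 (t / 2 ^ (n + m)) ^ (2 ^ (n + m)) = c0 (t / 2 ^ n) ^ (2 ^ n) := by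
  induction m with
  | zero => simp
  | succ m ih =>
    rw [← ih]
    have e : t / 2 ^ (n + m) = t / 2 ^ (n + (m + 1)) + t / 2 ^ (n + (m + 1)) := by
      rw [← add_assoc, pow_succ]
      field_simp
      ring
    have hlt : |t / 2 ^ (n + (m + 1))| < a := by
      rw [abs_div, abs_of_pos (by positivity : (0 : ℝ) < 2 ^ (n + (m + 1)))]
      refine lt_of_le_of_lt ?_ hn
      apply div_le_div_of_nonneg_left (abs_nonneg t) (by positivity)
      exact pow_le_pow_right₀ (by norm_num) (by omega)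
    have e2 : (2 : ℕ) ^ (n + (m + 1)) = 2 * 2 ^ (n + m) := by ring
    rw [e, h _ _ hlt hlt, ← pow_two, ← pow_mul, e2]

/-- a local homomorphism extends to a homomorphism -/
lemma exists_ext {c0 : ℝ → G} {a : ℝ} (ha : 0 < a)
    (h : ∀ s t, |s| < a → |t| < a → c0 (s + t) = c0 s * c0 t) :
    ∃ c : ℝ → G, (∀ s t, c (s + t) = c s * c t) ∧ ∀ t, |t| < a → c t = c0 t := by
  have hN : ∀ t : ℝ, ∃ n : ℕ, |t| / 2 ^ n < a := by
    intro t
    obtain ⟨n, hn⟩ := pow_unbounded_of_one_lt (|t| / a) (by norm_num : (1 : ℝ) < 2)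
    refine ⟨n, ?_⟩
    rw [div_lt_iff₀ (by positivity)]
    rw [div_lt_iff₀ ha] at hn
    linarith
  choose N hN using hN
  have key : ∀ (t : ℝ) (n : ℕ), |t| / 2 ^ n < a →
      c0 (t / 2 ^ N t) ^ (2 ^ N t) = c0 (t / 2 ^ n) ^ (2 ^ n) := by
    intro t n hn
    have h1 := pow_indep h (hN t) n
    have h2 := pow_indep h hn (N t)
    rw [← h1, ← h2, add_comm]
  refine ⟨fun t => c0 (t / 2 ^ N t) ^ (2 ^ N t), ?_, ?_⟩
  · intro s t
    set n := max (N s) (max (N t) (N (s + t))) with hn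
    have hmono : ∀ u : ℝ, N u ≤ n → |u| / 2 ^ n < a := by
      intro u hu
      refine lt_of_le_of_lt ?_ (hN u)
      apply div_le_div_of_nonneg_left (abs_nonneg u) (by positivity)
      exact pow_le_pow_right₀ (by norm_num) hu
    have hs := hmono s (le_max_left _ _)
    have ht := hmono t ((le_max_left _ _).trans (le_max_right _ _))
    have hst := hmono (s + t) ((le_max_right _ _).trans (le_max_right _ _))
    change c0 ((s + t) / 2 ^ N (s + t)) ^ (2 ^ N (s + t)) =
      c0 (s / 2 ^ N s) ^ (2 ^ N s) * c0 (t / 2 ^ N t) ^ (2 ^ N t)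
    rw [key _ n hst, key _ n hs, key _ n ht]
    have hs' : |s / 2 ^ n| < a := by
      rwa [abs_div, abs_of_pos (by positivity : (0 : ℝ) < 2 ^ n)]
    have ht' : |t / 2 ^ n| < a := by
      rwa [abs_div, abs_of_pos (by positivity : (0 : ℝ) < 2 ^ n)]
    have hc : Commute (c0 (s / 2 ^ n)) (c0 (t / 2 ^ n)) := by
      change c0 (s / 2 ^ n) * c0 (t / 2 ^ n) = c0 (t / 2 ^ n) * c0 (s / 2 ^ n)
      rw [← h _ _ hs' ht', ← h _ _ ht' hs', add_comm]
    rw [add_div, h _ _ hs' ht', hc.mul_pow]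
  · intro t ht
    change c0 (t / 2 ^ N t) ^ (2 ^ N t) = c0 t
    rw [key t 0 (by simpa using ht)]
    simp

end ext

lemma continuous_of_hom {c : ℝ → G} (h : ∀ s t, c (s + t) = c s * c t)
    (hc : ContinuousAt c 0) : Continuous c := by
  rw [continuous_iff_continuousAt]
  intro t
  have h1 : c = fun u => c t * c (u - t) := by
    funext u
    rw [← h]
    congr 1
    ring
  rw [h1]
  have h2 : ContinuousAt (fun u => c (u - t)) t := by
    refine ContinuousAt.comp (g := c) (f := fun u => u - t) ?_ (by fun_prop)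
    rw [sub_self]
    exact hc
  exact continuousAt_const.mul h2

end J1256

open J1256

variable {G : Type*} [Group G] [TopologicalSpace G] [IsTopologicalGroup G] {E : Type*}
  [NormedAddCommGroup E] [NormedSpace ℝ E] [FiniteDimensional ℝ E] (L : LocLie G E)

/-- existence of one-parameter subgroups -/
theorem LocLie.exists_one_param (X : E) : ∃ c : ℝ → G, Continuous c ∧
    (∀ s t, c (s + t) = c s * c t) ∧ L.T c X := by
  have : CompleteSpace E := FiniteDimensional.complete ℝ E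
  obtain ⟨r, hr⟩ := exists_rad L
  obtain ⟨ρ, hρ, huniq⟩ := unique_sol (L := L) X
  obtain ⟨r', hr'0, hr'r, hr'⟩ := exists_small hr (lt_min hr.pos hρ)
  have hcd := fld_contDiffAt (L := L) X
  obtain ⟨x, hx0, ε, hε, hx⟩ :=
    hcd.exists_forall_mem_closedBall_exists_eq_forall_mem_Ioo_hasDerivAt₀ 0
  rw [zero_sub, zero_add] at hx
  have hxc : ContinuousAt x 0 := (hx 0 ⟨by linarith, hε⟩).continuousAt
  obtain ⟨δ, hδ, hsm⟩ := Metric.eventually_nhds_iff.1
    ((ev_norm_lt hxc hx0 hr'0).and (ev_norm_lt hxc hx0 hρ))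
  have hsm1 : ∀ t : ℝ, |t| < δ → ‖x t‖ < r' := fun t ht =>
    (hsm (y := t) (by rw [dist_zero_right]; exact ht)).1
  have hsm2 : ∀ t : ℝ, |t| < δ → ‖x t‖ < ρ := fun t ht =>
    (hsm (y := t) (by rw [dist_zero_right]; exact ht)).2
  set a := min ε δ with ha
  have ha0 : 0 < a := lt_min hε hδ
  have hloc : ∀ s t : ℝ, |s| < a / 2 → |t| < a / 2 → x (s + t) = mu L (x s, x t) := by
    intro s t hs ht
    have hs' : |s| < δ := by
      have := min_le_right ε δ
      linarith
    have h1 := huniq (fun t => x (s + t)) (fun t => mu L (x s, x t)) (a / 2) (by positivity)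
      ?_ ?_ ?_
    · exact h1 (abs_lt.1 ht)
    · intro u hu
      have hu' : |s + u| < a := by
        have h2 := abs_add_le s u
        have h3 : |u| < a / 2 := abs_lt.2 hu
        linarith
      refine ⟨?_, hsm2 _ (lt_of_lt_of_le hu' (min_le_right _ _))⟩
      have h2 := hx (s + u) (abs_lt.1 (lt_of_lt_of_le hu' (min_le_left _ _)))
      exact h2.comp_const_add s u
    · intro u hu
      have hu' : |u| < a := by
        have h3 : |u| < a / 2 := abs_lt.2 hu
        linarith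
      have hu2 : |u| < δ := lt_of_lt_of_le hu' (min_le_right _ _)
      have h2 := hx u (abs_lt.1 (lt_of_lt_of_le hu' (min_le_left _ _)))
      have hb := hr' (x s) (x u) (hsm1 s hs') (hsm1 u hu2)
      refine ⟨?_, lt_of_lt_of_le hb (min_le_right _ _)⟩
      have hxs := lt_of_lt_of_le (hsm1 s hs') hr'r
      have hxu := lt_of_lt_of_le (hsm1 u hu2) hr'r
      have h3 := hasDerivAt_mu (L := L) (a := x s) (y := x) (t := u)
        (hr.diff _ _ hxs hxu) h2
      rwa [fld_mu hr X hxs hxu (lt_of_lt_of_le hb (min_le_left _ _))] at h3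
    · simp only [add_zero, hx0]
      exact (mu_zero_right L (hr.tgt _ (lt_of_lt_of_le (hsm1 s hs') hr'r))).symm
  obtain ⟨c, hc, hcc⟩ := exists_ext (c0 := fun t => L.e.symm (x t)) (a := a / 2) (by positivity)
    (by
      intro s t hs ht
      have hle := min_le_right ε δ
      have hxs := lt_of_lt_of_le (hsm1 s (by linarith)) hr'r
      have hxt := lt_of_lt_of_le (hsm1 t (by linarith)) hr'r
      change L.e.symm (x (s + t)) = L.e.symm (x s) * L.e.symm (x t)
      rw [hloc s t hs ht, symm_mu hr hxs hxt])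
  have hev : ∀ᶠ t in 𝓝 (0 : ℝ), |t| < a / 2 := by
    have := Metric.ball_mem_nhds (0 : ℝ) (by positivity : 0 < a / 2)
    filter_upwards [this] with t ht
    simpa using ht
  have hcev : c =ᶠ[𝓝 0] fun t => L.e.symm (x t) := by
    filter_upwards [hev] with t ht
    exact hcc t ht
  have hcont : ContinuousAt c 0 := by
    refine ContinuousAt.congr ?_ hcev.symm
    refine ContinuousAt.comp (g := L.e.symm) (f := x) ?_ hxc
    rw [hx0]
    exact cont_symm L
  refine ⟨c, continuous_of_hom hc hcont, hc, ?_, hcont, ?_⟩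
  · rw [hcc 0 (by simpa using ha0)]
    change L.e.symm (x 0) = 1
    rw [hx0, symm_zero]
  · have h1 : (fun t => L.e (c t)) =ᶠ[𝓝 0] x := by
      filter_upwards [hev] with t ht
      rw [hcc t ht]
      refine L.e.right_inv (hr.tgt _ (lt_of_lt_of_le (hsm1 t ?_) hr'r))
      have := min_le_right ε δ
      linarith
    rw [h1.hasDerivAt_iff]
    have h2 := hx 0 ⟨by linarith, hε⟩
    rwa [hx0, fld_zero] at h2

/-- uniqueness of one-parameter subgroups -/
theorem LocLie.one_param_unique {X : E} {c c' : ℝ → G} (h : ∀ s t, c (s + t) = c s * c t)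
    (h' : ∀ s t, c' (s + t) = c' s * c' t) (hT : L.T c X) (hT' : L.T c' X) : c = c' := by
  obtain ⟨r, hr⟩ := exists_rad L
  obtain ⟨ρ, hρ, huniq⟩ := unique_sol (L := L) X
  have h1 := ode_of_hom hr h hT
  have h2 := ode_of_hom hr h' hT'
  have hn : ∀ {c : ℝ → G}, L.T c X → ∀ᶠ t in 𝓝 (0 : ℝ), ‖L.e (c t)‖ < ρ := by
    intro c hT
    exact ev_norm_lt hT.2.2.continuousAt (by rw [hT.1, L.map_one]) hρ
  obtain ⟨δ, hδ, key⟩ := Metric.eventually_nhds_iff.1 ((h1.and (hn hT)).and (h2.and (hn hT')))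
  have key' : ∀ t ∈ Ioo (-δ) δ, _ := fun t ht => key (y := t) (by
    rw [dist_zero_right, Real.norm_eq_abs, abs_lt]
    exact ht)
  have heq : EqOn (fun t => L.e (c t)) (fun t => L.e (c' t)) (Ioo (-δ) δ) :=
    huniq _ _ δ hδ (fun t ht => ⟨(key' t ht).1.1.2, (key' t ht).1.2⟩)
      (fun t ht => ⟨(key' t ht).2.1.2, (key' t ht).2.2⟩) (by simp only [hT.1, hT'.1])
  have heq' : ∀ t ∈ Ioo (-δ) δ, c t = c' t := by
    intro t ht
    exact L.e.injOn (key' t ht).1.1.1 (key' t ht).2.1.1 (heq ht)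
  funext t
  obtain ⟨n, hn⟩ := exists_nat_gt (|t| / δ)
  have hn0 : (0 : ℝ) < n := lt_of_le_of_lt (by positivity) hn
  have ht : t / n ∈ Ioo (-δ) δ := by
    rw [mem_Ioo, ← abs_lt, abs_div, abs_of_pos hn0, div_lt_iff₀ hn0]
    rw [div_lt_iff₀ hδ] at hn
    linarith
  have e : t = n * (t / n) := by field_simp
  rw [e, hom_pow h, hom_pow h', heq' _ ht]

end Pool.Agent.TH91.LG
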