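import Mathlib
import Pool.Agent.TH202.FlRes
import Pool.Agent.TH202.Cen
import Pool.Agent.TH202.RL
import Pool.Agent.TH573.C8_BPF

set_option autoImplicit false
namespace Pool.Agent.TH111.FL_PM
open Pool.Agent.H436R3.Fol Pool.Agent.TH202 MvPolynomial

variable {K : Type} [Field K] [Algebra ℂ K]

theorem free_pm {X : Model K} {m n : ℕ} {f : Fin (m + 1) → K} {g : Fin (n + 1) → K}
    (hf : ∀ j, f j ≠ 0) (hg : ∀ j, g j ≠ 0) :
    IsFree X (pm f g) ↔ IsFree X f ∧ IsFree X g := by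
  constructor
  · rintro ⟨_, h⟩
    refine ⟨⟨hf, fun x => ?_⟩, ⟨hg, fun x => ?_⟩⟩
    · obtain ⟨k, hk⟩ := h x
      obtain ⟨i, j, _, h1, _⟩ := pm_ratio hf hg k
      refine ⟨i, fun i' => ?_⟩
      obtain ⟨l', hl'⟩ := h1 i'
      rw [← hl']
      exact hk l'
    · obtain ⟨k, hk⟩ := h x
      obtain ⟨i, j, _, _, h2⟩ := pm_ratio hf hg k
      refine ⟨j, fun j' => ?_⟩
      obtain ⟨l', hl'⟩ := h2 j'
      rw [← hl']
      exact hk l'
  · rintro ⟨⟨_, h1⟩, ⟨_, h2⟩⟩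
    refine ⟨pm_ne hf hg, fun x => ?_⟩
    obtain ⟨i, hi⟩ := h1 x
    obtain ⟨j, hj⟩ := h2 x
    obtain ⟨l, hl⟩ := pm_exists f g i j
    refine ⟨l, fun l' => ?_⟩
    obtain ⟨i', j', hl'⟩ := pm_form f g l'
    have e : pm f g l' / pm f g l = (f i' / f i) * (g j' / g j) := by
      rw [hl, hl', mul_div_mul_comm]
    rw [e]
    exact x.mem_mul (hi i') (hj j')

theorem Lin_pm {m n : ℕ} {f : Fin (m + 1) → K} {g : Fin (n + 1) → K}
    (hf : ∀ j, f j ≠ 0) (hg : ∀ j, g j ≠ 0) (v : DVal K) :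
    Lin (pm f g) v = Lin f v + Lin g v := by
  apply le_antisymm
  · rw [Lin_le_iff]
    intro l
    obtain ⟨i, j, hl⟩ := pm_form f g l
    rw [hl, v.map_mul _ _ (hf i) (hg j)]
    have h1 := Lin_le f v i
    have h2 := Lin_le g v j
    push_cast
    linarith
  · obtain ⟨i, hi⟩ := exists_Lin f v
    obtain ⟨j, hj⟩ := exists_Lin g v
    obtain ⟨l, hl⟩ := pm_exists f g i j
    have h1 := Lin_le (pm f g) v l
    rw [hl, v.map_mul _ _ (hf i) (hg j)] at h1
    rw [hi, hj]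
    push_cast at h1
    linarith

theorem mor_of_free {Y Z : Model K} (h : IsFree Y Z.ξ) : IsMor Y Z := by
  intro y
  obtain ⟨k, hk⟩ := h.2 y
  have hA : Z.A k ≤ y.loc := by
    unfold Model.A
    rw [Algebra.adjoin_le_iff]
    rintro _ ⟨j, rfl⟩
    exact hk j
  have hR : Z.R k ≤ y.loc := by
    intro u hu
    have hu' : IsIntegral (Z.A k) u := hu
    obtain ⟨p, hp, h0⟩ := hu'
    refine mem_of_root' y (p.map (algebraMap (Z.A k) K)) (hp.map _) (fun j => ?_) ?_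
    · rw [Polynomial.coeff_map]
      exact hA (p.coeff j).2
    · rw [Polynomial.eval_map]
      exact h0
  have hloc : IsLocalRing y.loc.toSubring := Pool.Agent.TH573.C8_BPF.local_loc y
  let φ : Z.R k →+* y.loc.toSubring := Subring.inclusion (S := (Z.R k).toSubring) hR
  have hφ : ∀ s : Z.R k, ((φ s : y.loc.toSubring) : K) = (s : K) := fun s => rfl
  have hprime : ((IsLocalRing.maximalIdeal y.loc.toSubring).comap φ).IsPrime :=
    Ideal.comap_isPrime φ _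
  refine ⟨⟨k, (IsLocalRing.maximalIdeal y.loc.toSubring).comap φ, hprime⟩, ?_⟩
  rintro f ⟨s, hs, hsf⟩
  change s ∉ (IsLocalRing.maximalIdeal y.loc.toSubring).comap φ at hs
  rw [Ideal.mem_comap, IsLocalRing.mem_maximalIdeal, mem_nonunits_iff, not_not] at hs
  obtain ⟨t, ht⟩ := isUnit_iff_exists_inv.1 hs
  have ht' : (s : K) * (t : K) = 1 := by
    have := congrArg Subtype.val ht
    exact this
  have h1 : f = (t : K) * ((s : K) * f) := by
    rw [← mul_assoc, mul_comm (t : K), ht', one_mul]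
  rw [h1]
  exact y.mem_mul t.2 (hR hsf)

theorem rcar_of_mor {Y Z : Model K} (h : IsMor Y Z) {D : DVal K → ℝ} (hD : IsRCar Z D) :
    IsRCar Y D := by
  intro x
  obtain ⟨z, hz⟩ := h x
  obtain ⟨P, hP, h1⟩ := hD z
  exact ⟨P, hP, fun v hv => h1 v fun f hf => hv f (hz f hf)⟩

theorem free_of_mor {Y Z : Model K} (h : IsMor Y Z) {m : ℕ} {f : Fin (m + 1) → K}
    (hf : IsFree Z f) : IsFree Y f := by
  refine ⟨hf.1, fun x => ?_⟩
  obtain ⟨z, hz⟩ := h x
  obtain ⟨k, hk⟩ := hf.2 z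
  exact ⟨k, fun j => hz _ (hk j)⟩

end Pool.Agent.TH111.FL_PM
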