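import Mathlib
import Pool.Agent.TH279.MZ.Defs
import Pool.Agent.TH136.Tip.Push

/-!
# Change of variables for the two-to-one map `z ^ 2 + c` (job 1683, helper111)
-/

set_option autoImplicit false

open Set Filter Metric MeasureTheory
open Pool.Agent.TH279.MZ

namespace Pool.Agent.TH111.J1683

theorem measurable_sqt : Measurable sqt := by
  unfold sqt
  fun_prop

theorem sqt_of_pos {y : ℂ} (hy : 0 < y.re) : sqt (y ^ 2) = y := by
  unfold sqt
  have h := Complex.sq_cpow_two_inv hy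
  rw [show (1 / 2 : ℂ) = (2 : ℂ)⁻¹ by norm_num]
  convert h using 2

theorem sqt_of_neg {y : ℂ} (hy : y.re < 0) : sqt (y ^ 2) = -y := by
  have h := sqt_of_pos (y := -y) (by simpa using hy)
  rwa [neg_sq] at h

theorem diff_f (c : ℂ) : Differentiable ℂ (f c) := by
  unfold f
  fun_prop

theorem deriv_f (c y : ℂ) : deriv (f c) y = 2 * y := by
  have h : HasDerivAt (fun z : ℂ => z ^ 2 + c) (2 * y) y := by
    have := (hasDerivAt_pow 2 y).add_const c
    simpa using this
  exact HasDerivAt.deriv h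

theorem null_slit (c : ℂ) : volume {w : ℂ | w - c ∉ Complex.slitPlane} = 0 := by
  have h1 : {w : ℂ | w - c ∉ Complex.slitPlane} ⊆ (fun w => -Complex.I * (w - c)) ⁻¹' {z : ℂ | z.re = 0} := by
    intro w hw
    have h2 : (w - c).im = 0 := by
      by_contra h
      exact hw (Or.inr h)
    change (-Complex.I * (w - c)).re = 0
    simp only [Complex.mul_re, Complex.neg_re, Complex.neg_im, Complex.I_re, Complex.I_im]
    rw [h2]
    ring
  refine measure_mono_null h1 ?_
  have h3 : (fun w : ℂ => -Complex.I * (w - c)) ⁻¹' {z : ℂ | z.re = 0} =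
      (fun w : ℂ => w + -c) ⁻¹' {z : ℂ | z.im = 0} := by
    ext w
    simp [sub_eq_add_neg]
  rw [h3, measure_preimage_add_right]
  have h := Measure.addHaar_submodule (volume : Measure ℂ) (LinearMap.ker Complex.imLm) (by
    intro h
    have h1 : Complex.I ∈ LinearMap.ker Complex.imLm := by rw [h]; trivial
    simp at h1)
  convert h using 2
  ext z
  simp

theorem image_half (c : ℂ) (S : Set ℂ) (H : Set ℂ)
    (hH : ∀ s : ℂ, s.re ≠ 0 → s ∈ H ∨ -s ∈ H) (hH' : ∀ s ∈ H, s.re ≠ 0) :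
    (f c) '' ((f c) ⁻¹' S ∩ H) = S ∩ {w | w - c ∈ Complex.slitPlane} := by
  ext w
  constructor
  · rintro ⟨y, ⟨hy, hyH⟩, rfl⟩
    refine ⟨hy, ?_⟩
    have h1 : f c y - c = y ^ 2 := by
      unfold f
      ring
    change f c y - c ∈ Complex.slitPlane
    rw [h1]
    have h2 := hH' y hyH
    rw [Complex.mem_slitPlane_iff]
    by_cases h3 : y.im = 0
    · left
      rw [sq, Complex.mul_re, h3, mul_zero, sub_zero]
      exact mul_self_pos.2 h2
    · right
      rw [sq, Complex.mul_im]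
      intro h4
      have h5 : y.re * y.im = 0 := by linarith
      rcases mul_eq_zero.1 h5 with h6 | h6
      · exact h2 h6
      · exact h3 h6
  · rintro ⟨hwS, hw⟩
    have h1 := sqt_sq (w - c)
    have h2 : (sqt (w - c)).re ≠ 0 := by
      intro h3
      have hw' : w - c ∈ Complex.slitPlane := hw
      rw [← h1, Complex.mem_slitPlane_iff] at hw'
      rcases hw' with h4 | h4
      · rw [sq, Complex.mul_re, h3, mul_zero, zero_sub] at h4
        nlinarith [mul_self_nonneg (sqt (w - c)).im]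
      · apply h4
        rw [sq, Complex.mul_im, h3]
        ring
    rcases hH _ h2 with h3 | h3
    · refine ⟨sqt (w - c), ⟨?_, h3⟩, ?_⟩
      · change f c (sqt (w - c)) ∈ S
        unfold f
        rw [h1, sub_add_cancel]
        exact hwS
      · unfold f
        rw [h1, sub_add_cancel]
    · refine ⟨-sqt (w - c), ⟨?_, h3⟩, ?_⟩
      · change f c (-sqt (w - c)) ∈ S
        unfold f
        rw [neg_sq, h1, sub_add_cancel]
        exact hwS
      · unfold f
        rw [neg_sq, h1, sub_add_cancel]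

theorem inj_half (c : ℂ) (A H : Set ℂ) (hH : ∀ s ∈ H, ∀ t ∈ H, s ≠ -t) :
    InjOn (f c) (A ∩ H) := by
  rintro x ⟨_, hx⟩ y ⟨_, hy⟩ hxy
  unfold f at hxy
  have h1 : x ^ 2 = y ^ 2 := by
    have : x ^ 2 + c = y ^ 2 + c := hxy
    exact add_right_cancel this
  rcases sq_eq_sq_iff_eq_or_eq_neg.1 h1 with h | h
  · exact h
  · exact absurd h (hH x hx y hy)

theorem half (c : ℂ) {S : Set ℂ} (hS : MeasurableSet S) (ψ : ℂ → ENNReal) (H : Set ℂ)
    (hHm : MeasurableSet H) (e : ℂ → ℂ) (he : ∀ y ∈ H, e (y ^ 2) = y)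
    (hH : ∀ s : ℂ, s.re ≠ 0 → s ∈ H ∨ -s ∈ H) (hH' : ∀ s ∈ H, s.re ≠ 0)
    (hH2 : ∀ s ∈ H, ∀ t ∈ H, s ≠ -t) :
    ∫⁻ y in (f c) ⁻¹' S ∩ H, ψ y =
      ∫⁻ w in S, ψ (e (w - c)) * ENNReal.ofReal (1 / (4 * ‖w - c‖)) := by
  have hA : MeasurableSet ((f c) ⁻¹' S ∩ H) := ((diff_f c).continuous.measurable hS).inter hHm
  have h1 := Pool.Agent.TH136.Tip.lintegral_holo (diff_f c) hA (inj_half c _ H hH2)
    (fun w => ψ (e (w - c)) * ENNReal.ofReal (1 / (4 * ‖w - c‖)))
  have h2 : ∫⁻ y in (f c) ⁻¹' S ∩ H, ψ y = ∫⁻ z in (f c) ⁻¹' S ∩ H,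
      ENNReal.ofReal (‖deriv (f c) z‖ ^ 2) * (ψ (e (f c z - c)) *
        ENNReal.ofReal (1 / (4 * ‖f c z - c‖))) := by
    refine setLIntegral_congr_fun hA ?_
    rintro y ⟨_, hy⟩
    have h3 : f c y - c = y ^ 2 := by
      unfold f
      ring
    have hy0 : y ≠ 0 := by
      rintro rfl
      exact hH' _ hy (by simp)
    have hn : 0 < ‖y‖ := norm_pos_iff.2 hy0
    change ψ y = ENNReal.ofReal (‖deriv (f c) y‖ ^ 2) * (ψ (e (f c y - c)) *
        ENNReal.ofReal (1 / (4 * ‖f c y - c‖)))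
    rw [h3, he y hy, deriv_f, mul_left_comm, ← ENNReal.ofReal_mul (by positivity)]
    have h4 : ‖2 * y‖ ^ 2 * (1 / (4 * ‖y ^ 2‖)) = 1 := by
      rw [norm_mul, norm_pow, Complex.norm_ofNat]
      field_simp
      norm_num
    rw [h4, ENNReal.ofReal_one, mul_one]
  rw [h2, h1, image_half c S H hH hH']
  apply setLIntegral_congr
  have h5 : (S ∩ {w | w - c ∈ Complex.slitPlane} : Set ℂ) =ᵐ[volume] (S ∩ univ : Set ℂ) := by
    apply Filter.EventuallyEq.inter (ae_eq_refl _)
    rw [ae_eq_univ]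
    exact null_slit c
  rwa [inter_univ] at h5

theorem dual (c : ℂ) {S : Set ℂ} (hS : MeasurableSet S) {ψ : ℂ → ENNReal} (hψ : Measurable ψ) :
    ∫⁻ y in (f c) ⁻¹' S, ψ y =
      ∫⁻ w in S, (ψ (sqt (w - c)) + ψ (-sqt (w - c))) * ENNReal.ofReal (1 / (4 * ‖w - c‖)) := by
  have hP : MeasurableSet {z : ℂ | 0 < z.re} := measurableSet_lt measurable_const Complex.measurable_re
  have hN : MeasurableSet {z : ℂ | z.re < 0} := measurableSet_lt Complex.measurable_re measurable_const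
  have hpre : MeasurableSet ((f c) ⁻¹' S) := (diff_f c).continuous.measurable hS
  have h1 := half c hS ψ {z : ℂ | 0 < z.re} hP sqt (fun y hy => sqt_of_pos hy)
    (fun s hs => by
      rcases lt_or_gt_of_ne hs with h | h
      · right
        change 0 < (-s).re
        rw [Complex.neg_re]
        linarith
      · left
        exact h)
    (fun s hs => (ne_of_gt hs)) (fun s hs t ht h => by
      have hs' : 0 < s.re := hs
      have ht' : 0 < t.re := ht
      rw [h, Complex.neg_re] at hs'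
      linarith)
  have h2 := half c hS ψ {z : ℂ | z.re < 0} hN (fun z => -sqt z) (fun y hy => by
      rw [sqt_of_neg hy, neg_neg])
    (fun s hs => by
      rcases lt_or_gt_of_ne hs with h | h
      · left
        exact h
      · right
        change (-s).re < 0
        rw [Complex.neg_re]
        linarith)
    (fun s hs => (ne_of_lt hs)) (fun s hs t ht h => by
      have hs' : s.re < 0 := hs
      have ht' : t.re < 0 := ht
      rw [h, Complex.neg_re] at hs'
      linarith)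
  have h3 : ∫⁻ y in (f c) ⁻¹' S, ψ y = (∫⁻ y in (f c) ⁻¹' S ∩ {z : ℂ | 0 < z.re}, ψ y) +
      ∫⁻ y in (f c) ⁻¹' S ∩ {z : ℂ | z.re < 0}, ψ y := by
    rw [← lintegral_union (hpre.inter hN)]
    · apply setLIntegral_congr
      rw [← inter_union_distrib_left]
      have h5 : ((f c) ⁻¹' S ∩ univ : Set ℂ) =ᵐ[volume]
          ((f c) ⁻¹' S ∩ ({z | 0 < z.re} ∪ {z | z.re < 0}) : Set ℂ) := by
        apply Filter.EventuallyEq.inter (ae_eq_refl _)
        symm
        rw [ae_eq_univ]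
        refine measure_mono_null ?_ Pool.Agent.TH136.Tip.volume_re_zero
        intro z hz
        change z.re = 0
        by_contra h
        apply hz
        rcases lt_or_gt_of_ne h with h' | h'
        · exact Or.inr h'
        · exact Or.inl h'
      rwa [inter_univ] at h5
    · rw [Set.disjoint_left]
      rintro z ⟨_, hz⟩ ⟨_, hz'⟩
      have a : 0 < z.re := hz
      have b : z.re < 0 := hz'
      linarith
  rw [h3, h1, h2, ← lintegral_add_left]
  · apply lintegral_congr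
    intro w
    rw [add_mul]
  · exact (hψ.comp (measurable_sqt.comp (measurable_id.sub_const c))).mul (by fun_prop)

theorem dualQ {L k : ℕ} {c v : ℂ} (h : Orb L k c v) {S : Set ℂ} (hS : MeasurableSet S)
    {φ : ℂ → ℝ} (hφ : Measurable φ) (h0 : ∀ z, 0 ≤ φ z) :
    ∫⁻ y in (f c) ⁻¹' S, ENNReal.ofReal (φ y / ‖QQ L c v y‖) =
      ∫⁻ w in S, ENNReal.ofReal
        (TR c (fun y => ‖f c y - v‖ * ‖EE L k c v y‖ / (4 * ‖y‖ ^ 2) * φ y) w / ‖QQ L c v w‖) := by
  have hQ : Measurable (QQ L c v) := by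
    unfold QQ
    fun_prop
  rw [dual c hS (ψ := fun y => ENNReal.ofReal (φ y / ‖QQ L c v y‖)) (by fun_prop)]
  apply setLIntegral_congr_fun_ae hS
  have hfin : ({c} ∪ ((Finset.range (L + 1)).image (vv c v) : Set ℂ)).Finite :=
    (finite_singleton c).union (Finset.finite_toSet _)
  have hae : ∀ᵐ w : ℂ, w ∉ ({c} ∪ ((Finset.range (L + 1)).image (vv c v) : Set ℂ)) :=
    (hfin.countable.ae_notMem volume)
  filter_upwards [hae] with w hw _
  have hwc : w ≠ c := fun h => hw (Or.inl h)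
  have hwQ : QQ L c v w ≠ 0 := by
    unfold QQ
    rw [Finset.prod_ne_zero_iff]
    intro j hj h1
    apply hw
    right
    rw [Finset.coe_image]
    exact ⟨j, hj, (sub_eq_zero.1 h1).symm⟩
  have key : ∀ s : ℂ, s ^ 2 = w - c → φ s / ‖QQ L c v s‖ * (1 / (4 * ‖w - c‖)) =
      ‖f c s - v‖ * ‖EE L k c v s‖ / (4 * ‖s‖ ^ 2) * φ s / ‖QQ L c v w‖ := by
    intro s hs
    have e1 : f c s = w := by
      unfold f
      rw [hs, sub_add_cancel]
    have e2 := QQ_f h s
    rw [e1] at e2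
    have e3 : ‖s‖ ^ 2 = ‖w - c‖ := by rw [← norm_pow, hs]
    have e4 : ‖w - c‖ ≠ 0 := norm_ne_zero_iff.2 (sub_ne_zero.2 hwc)
    have e5 : w - v ≠ 0 ∧ QQ L c v s ≠ 0 ∧ EE L k c v s ≠ 0 := by
      refine ⟨fun h' => hwQ ?_, fun h' => hwQ ?_, fun h' => hwQ ?_⟩
      · rw [e2, h', zero_mul, zero_mul]
      · rw [e2, h', mul_zero, zero_mul]
      · rw [e2, h', mul_zero]
    have n1 : ‖w - v‖ ≠ 0 := norm_ne_zero_iff.2 e5.1
    have n2 : ‖QQ L c v s‖ ≠ 0 := norm_ne_zero_iff.2 e5.2.1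
    have n3 : ‖EE L k c v s‖ ≠ 0 := norm_ne_zero_iff.2 e5.2.2
    rw [e1, e2, norm_mul, norm_mul, e3]
    field_simp
  have hnn : ∀ s : ℂ, 0 ≤ φ s / ‖QQ L c v s‖ := fun s => div_nonneg (h0 s) (norm_nonneg _)
  have k1 := key (sqt (w - c)) (sqt_sq _)
  have k2 := key (-sqt (w - c)) (by rw [neg_sq, sqt_sq])
  change (ENNReal.ofReal (φ (sqt (w - c)) / ‖QQ L c v (sqt (w - c))‖) +
    ENNReal.ofReal (φ (-sqt (w - c)) / ‖QQ L c v (-sqt (w - c))‖)) *
      ENNReal.ofReal (1 / (4 * ‖w - c‖)) = _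
  rw [← ENNReal.ofReal_add (hnn _) (hnn _), ← ENNReal.ofReal_mul (add_nonneg (hnn _) (hnn _)),
    add_mul, k1, k2]
  unfold TR
  rw [add_div]

end Pool.Agent.TH111.J1683
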