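import Pool.Agent.TH37.SD.Defs

/-!
# Centralizers are cyclic (SD-D0)
-/

set_option autoImplicit false

namespace Pool.Agent.TH111.SDD0

open Pool.Agent.TH37.SD

/-- powers of a product with a central commutator -/
lemma pow_mul_central {C : Type} [Group C] (u v d : C) (hd : ∀ a : C, a * d = d * a)
    (h : v * u = u * v * d) (n : ℕ) :
    ∃ m : ℕ, m * 2 = n * (n - 1) ∧ (u * v) ^ n = u ^ n * v ^ n * d ^ m := by
  have hdn : ∀ (a : C) (n : ℕ), a * d ^ n = d ^ n * a := fun a n =>
    ((show Commute a d from hd a).pow_right n).eq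
  have hv : ∀ n : ℕ, v ^ n * u = u * v ^ n * d ^ n := by
    intro n
    induction n with
    | zero => simp
    | succ n ih =>
      calc v ^ (n + 1) * u = v * (v ^ n * u) := by rw [pow_succ', mul_assoc]
        _ = v * (u * v ^ n * d ^ n) := by rw [ih]
        _ = (v * u) * v ^ n * d ^ n := by simp only [mul_assoc]
        _ = (u * v * d) * v ^ n * d ^ n := by rw [h]
        _ = u * v * (d * v ^ n) * d ^ n := by simp only [mul_assoc]
        _ = u * v * (v ^ n * d) * d ^ n := by rw [hd]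
        _ = u * v ^ (n + 1) * d ^ (n + 1) := by
            rw [pow_succ' v, pow_succ' d]
            simp only [mul_assoc]
  induction n with
  | zero => exact ⟨0, by simp, by simp⟩
  | succ n ih =>
    obtain ⟨m, hm, he⟩ := ih
    refine ⟨m + n, ?_, ?_⟩
    · rcases n with _ | n
      · simpa using hm
      · rw [Nat.add_sub_cancel] at hm ⊢
        rw [add_mul, hm]
        ring
    · calc (u * v) ^ (n + 1) = (u * v) ^ n * (u * v) := pow_succ _ _
        _ = u ^ n * v ^ n * d ^ m * (u * v) := by rw [he]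
        _ = u ^ n * v ^ n * (u * v) * d ^ m := by
            rw [mul_assoc (u ^ n * v ^ n), ← hdn (u * v) m]
            simp only [mul_assoc]
        _ = u ^ n * (v ^ n * u) * v * d ^ m := by simp only [mul_assoc]
        _ = u ^ n * (u * v ^ n * d ^ n) * v * d ^ m := by rw [hv]
        _ = u ^ n * u * v ^ n * (d ^ n * v) * d ^ m := by simp only [mul_assoc]
        _ = u ^ n * u * v ^ n * (v * d ^ n) * d ^ m := by rw [hdn v n]
        _ = u ^ (n + 1) * v ^ (n + 1) * d ^ (m + n) := by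
            rw [pow_succ u, pow_succ v, add_comm m n, pow_add]
            simp only [mul_assoc]

theorem cyc : CycStmt := by
  intro p hp h3 C P _ _ π z hAE a b hab ha
  by_cases hb : b = 1
  · rw [hb]
    exact Subgroup.one_mem _
  obtain ⟨x, hx⟩ := hAE.surj a
  obtain ⟨y, hy⟩ := hAE.surj b
  obtain ⟨k, hk, hkp⟩ := hAE.pw x (by rw [hx]; exact ha)
  obtain ⟨l, hl, hlp⟩ := hAE.pw y (by rw [hy]; exact hb)
  have hpi : Prime (p : ℤ) := Nat.prime_iff_prime_int.mp hp
  obtain ⟨s, t, hst⟩ : ∃ s t : ℤ, s * k + t * p = 1 := by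
    have h1 : IsCoprime k (p : ℤ) := ((Prime.coprime_iff_not_dvd hpi).mpr hkp).symm
    exact h1
  have hzz : ∀ (c : C) (i : ℤ), c * z ^ i = z ^ i * c := fun c i =>
    ((show Commute c z from hAE.cen c).zpow_right i).eq
  have hzp : ∀ i : ℤ, z ^ ((p : ℤ) * i) = 1 := by
    intro i
    rw [zpow_mul, zpow_natCast, hAE.zp, one_zpow]
  obtain ⟨j, hj⟩ : ∃ j : ℤ, j = -(l * s) := ⟨_, rfl⟩
  have hjl : l + k * j = (p : ℤ) * (l * t) := by
    rw [hj]
    linear_combination (-l) * hst
  -- the commutator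
  have hcomm : (y * x ^ j)⁻¹ * (x ^ j * y) ∈ π.ker := by
    rw [MonoidHom.mem_ker]
    simp only [map_mul, map_inv, map_zpow, hx, hy]
    have h1 : a ^ j * b = b * a ^ j := ((show Commute a b from hab).zpow_left j).eq
    rw [h1, inv_mul_cancel]
  rw [hAE.ker, Subgroup.mem_zpowers_iff] at hcomm
  obtain ⟨m, hm⟩ := hcomm
  have h1 : x ^ j * y = y * x ^ j * z ^ m := by
    rw [hm, mul_inv_cancel_left]
  obtain ⟨n, hn2, hn⟩ := pow_mul_central y (x ^ j) (z ^ m) (fun c => hzz c m) h1 p
  have hpn : p ∣ n := by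
    have h2 : p ∣ n * 2 := by
      rw [hn2]
      exact dvd_mul_right _ _
    rcases (Nat.Prime.dvd_mul hp).mp h2 with h | h
    · exact h
    · exact absurd (Nat.le_of_dvd (by norm_num) h) (by omega)
  obtain ⟨n', rfl⟩ := hpn
  have h2 : (z ^ m) ^ (p * n') = 1 := by
    rw [pow_mul, ← zpow_natCast (z ^ m) p, ← zpow_mul, mul_comm m (p : ℤ), hzp, one_pow]
  have h3' : (x ^ j) ^ p = z ^ (k * j) := by
    rw [← zpow_natCast (x ^ j) p, ← zpow_mul, mul_comm j (p : ℤ), zpow_mul, zpow_natCast, hk,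
      ← zpow_mul]
  rw [h2, mul_one, hl, h3', ← zpow_add, hjl, hzp] at hn
  by_cases hba : b * a ^ j = 1
  · rw [Subgroup.mem_zpowers_iff]
    refine ⟨-j, ?_⟩
    rw [zpow_neg]
    exact (eq_inv_of_mul_eq_one_left hba).symm
  · exfalso
    obtain ⟨i, hi, hip⟩ := hAE.pw (y * x ^ j) (by
      rw [map_mul, map_zpow, hx, hy]
      exact hba)
    rw [hn] at hi
    haveI : Fact p.Prime := ⟨hp⟩
    have ho : orderOf z = p := orderOf_eq_prime hAE.zp hAE.z1
    apply hip
    rw [← ho]
    exact orderOf_dvd_iff_zpow_eq_one.mpr hi.symm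

end Pool.Agent.TH111.SDD0
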