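import Mathlib
import Pool.Agent.TH109.PairDef
import Pool.Agent.Helper943.LM.Aut

set_option autoImplicit false

namespace Pool.Agent.TH111.J720

open Pool.Agent.TH109
open Pool.Agent.Helper943.LM

theorem exists_pair {G : Type} [Group G] (U : Pool.Agent.Helper943.LM.UA G) (c : G) :
    Nonempty (PairUA U c) := by
  have hfA := U.finA
  have hfS := U.finS
  let _ : Fintype U.A := Fintype.ofFinite _
  let _ : Fintype U.S := Fintype.ofFinite _
  let W : DFA U.A U.S := ⟨U.step, U.s0, U.acc⟩
  have hW : ∀ w, w ∈ W.accepts ↔ w ∈ U.L := fun w => Iff.rfl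
  obtain ⟨D, hD, hD2⟩ := U.ft' c
  obtain ⟨τ, _, M, hM⟩ := autoLemma U.mu W c D hD (fun u v hu hv he t =>
    hD2 u ((hW u).1 hu) v ((hW v).1 hv) he t)
  let mu : Option U.A × Option U.A → G := fun x => (x.1.map U.mu).getD 1
  let step : τ × U.S → Option U.A × Option U.A → τ × U.S := fun q x =>
    (M.step q.1 x, match x.1 with
      | some b => U.step q.2 b
      | none => q.2)
  have hmu : ∀ w : List (Option U.A × Option U.A), (w.map mu).prod =
      U.ev (w.filterMap Prod.fst) := by
    intro w
    induction w with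
    | nil => simp [UA.ev]
    | cons x w ih =>
      obtain ⟨a, b⟩ := x
      rw [List.map_cons, List.prod_cons, ih]
      cases a with
      | none =>
        have : ((none, b) :: w).filterMap Prod.fst = w.filterMap Prod.fst := by simp
        rw [this]
        exact one_mul _
      | some a =>
        have : ((some a, b) :: w).filterMap Prod.fst = a :: w.filterMap Prod.fst := by simp
        rw [this]
        simp [UA.ev, mu]
  have hfold : ∀ (w : List (Option U.A × Option U.A)) (q : τ × U.S),
      (w.foldl step q).1 = w.foldl M.step q.1 := by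
    intro w
    induction w with
    | nil => intro q; rfl
    | cons x w ih => intro q; exact ih _
  have hacc : ∀ w : List (Option U.A × Option U.A),
      (w.foldl step (M.start, U.s0) ∈ {q : τ × U.S | q.1 ∈ M.accept}) ↔
        ∃ u v : List U.A, u ∈ U.L ∧ v ∈ U.L ∧ w = padz u v ∧ U.ev u * c = U.ev v := by
    intro w
    have h1 : (w.foldl step (M.start, U.s0) ∈ {q : τ × U.S | q.1 ∈ M.accept}) ↔
        w ∈ M.accepts := by
      rw [Set.mem_ofPred_eq, hfold]
      rfl
    rw [h1]
    exact hM w
  let P : UA G :=
    { A := Option U.A × Option U.A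
      finA := inferInstance
      mu := mu
      S := τ × U.S
      finS := inferInstance
      step := step
      s0 := (M.start, U.s0)
      acc := {q : τ × U.S | q.1 ∈ M.accept}
      surj := by
        intro g
        refine ⟨padz (nf U g) (nf U (g * c)), ?_, ?_⟩
        · exact (hacc _).2 ⟨_, _, nf_mem U _, nf_mem U _, rfl, by rw [nf_ev, nf_ev]⟩
        · rw [hmu, padz_fst, nf_ev]
      inj := by
        intro w w' hw hw' he
        obtain ⟨u, v, hu, hv, rfl, h1⟩ := (hacc w).1 hw
        obtain ⟨u', v', hu', hv', rfl, h2⟩ := (hacc w').1 hw'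
        rw [hmu, hmu, padz_fst, padz_fst] at he
        have h3 : u = u' := U.ev_inj hu hu' he
        subst h3
        have h4 : v = v' := U.ev_inj hv hv' (by rw [← h1, ← h2])
        rw [h4]
      ft := by
        intro g
        obtain ⟨E, hE, hE2⟩ := U.ft' g
        refine ⟨E, hE, ?_⟩
        intro w w' hw hw' he t
        obtain ⟨u, v, hu, hv, rfl, h1⟩ := (hacc w).1 hw
        obtain ⟨u', v', hu', hv', rfl, h2⟩ := (hacc w').1 hw'
        rw [hmu, hmu, padz_fst, padz_fst] at he
        rw [hmu, hmu, padz_take_fst, padz_take_fst]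
        exact hE2 u hu u' hu' he t }
  have hnf : ∀ g, nf P g = padz (nf U g) (nf U (g * c)) := by
    intro g
    have h1 : padz (nf U g) (nf U (g * c)) ∈ P.L :=
      (hacc _).2 ⟨_, _, nf_mem U _, nf_mem U _, rfl, by rw [nf_ev, nf_ev]⟩
    apply P.ev_inj (nf_mem P g) h1
    rw [nf_ev]
    have h2 : P.ev (padz (nf U g) (nf U (g * c))) = U.ev ((padz (nf U g)
      (nf U (g * c))).filterMap Prod.fst) := hmu _
    rw [h2, padz_fst, nf_ev]
  refine ⟨{ P := P, fst := Prod.fst, snd := Prod.snd, pr := Prod.snd, pr_s0 := rfl,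
            pr_some := ?_, pr_none := ?_, mu_some := ?_, mu_none := ?_, take_fst := ?_,
            take_snd := ?_ }⟩
  · rintro s ⟨a, b⟩ x h
    have h' : a = some x := h
    subst h'
    rfl
  · rintro s ⟨a, b⟩ h
    have h' : a = none := h
    subst h'
    rfl
  · rintro ⟨a, b⟩ x h
    have h' : a = some x := h
    subst h'
    rfl
  · rintro ⟨a, b⟩ h
    have h' : a = none := h
    subst h'
    rfl
  · intro g t
    rw [hnf]
    exact padz_take_fst _ _ t
  · intro g t
    rw [hnf]
    exact padz_take_snd _ _ t

end Pool.Agent.TH111.J720
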