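import Mathlib
import Pool.Agent.TH109.Main0

set_option autoImplicit false

open scoped Classical ENNReal

namespace Pool.Agent.TH111.J790

open Pool.Agent.TH109
open Pool.Agent.Helper943.LM (UA)
open Pool.Agent.Helper943.LM

noncomputable section

variable {G : Type} [Group G]

/-- at most one `Z0`-transition at a live state -/
theorem z0_unique (T : TX G) (U : UA G) {s : U.S} (hs : U.live s) {a a' : U.A}
    (h : Z0 T U s a) (h' : Z0 T U s a') : a = a' := by
  obtain ⟨Y, hY, hK⟩ := h
  obtain ⟨Y', hY', hK'⟩ := h'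
  have hE : Elp T.toTreeX U s := ⟨a :: Y, by simp, hY, K0_bdd hK⟩
  have h1 := closed_eq T U s hs hE (wpow (a :: Y) (a' :: Y').length)
    (wpow (a' :: Y') (a :: Y).length) (U.run_wpow hY _) (U.run_wpow hY' _)
    (by rw [wpow_length, wpow_length, mul_comm])
  rw [List.length_cons, List.length_cons, wpow_succ, wpow_succ, List.cons_append,
    List.cons_append] at h1
  exact (List.cons.inj h1).1

/-- the sum over accepted words -/
theorem sum_words (T : TX G) (U : UA G) (lw : U.S → U.A → ℝ≥0∞) (θ y B : ℝ≥0∞)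
    (hlw : ∀ s a, lw s a ≤ if Z0 T U s a then θ else y)
    (hB : 1 + (θ + (Nat.card U.A : ℝ≥0∞) * y) * B ≤ B) :
    ∀ (n : ℕ) (s : U.S) (F : Finset (List U.A)), (∃ u, U.run U.s0 u = s) →
      (∀ W ∈ F, W.length ≤ n ∧ U.run s W ∈ U.acc) → ∑ W ∈ F, wl U lw s W ≤ B := by
  have hfA := U.finA
  let _ : Fintype U.A := Fintype.ofFinite _
  have h1B : 1 ≤ B := le_trans le_self_add hB
  intro n
  induction n with
  | zero =>
    intro s F _ hF
    have h1 : F ⊆ {[]} := by
      intro W hW
      have := (hF W hW).1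
      rw [Finset.mem_singleton]
      exact List.length_eq_zero_iff.1 (Nat.le_zero.1 this)
    refine (Finset.sum_le_sum_of_subset h1).trans ?_
    rw [Finset.sum_singleton]
    exact h1B
  | succ n ih =>
    intro s F hs hF
    rw [← Finset.sum_fiberwise F (fun W => W.head?) (fun W => wl U lw s W), Fintype.sum_option]
    have hnone : ∑ W ∈ F with W.head? = none, wl U lw s W ≤ 1 := by
      have h1 : (F.filter fun W => W.head? = none) ⊆ {[]} := by
        intro W hW
        rw [Finset.mem_filter] at hW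
        rw [Finset.mem_singleton]
        exact List.head?_eq_none_iff.1 hW.2
      refine (Finset.sum_le_sum_of_subset h1).trans ?_
      rw [Finset.sum_singleton]
      exact le_refl _
    have hsome : ∀ a : U.A, ∑ W ∈ F with W.head? = some a, wl U lw s W ≤
        (if (F.filter fun W => W.head? = some a).Nonempty then lw s a else 0) * B := by
      intro a
      have h2 : ∀ W ∈ F.filter (fun W => W.head? = some a), W = a :: W.tail := by
        intro W hW
        rw [Finset.mem_filter] at hW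
        rcases W with _ | ⟨b, W⟩
        · simp at hW
        · have := hW.2
          simp only [List.head?_cons, Option.some.injEq] at this
          rw [this]
          rfl
      by_cases hne : (F.filter fun W => W.head? = some a).Nonempty
      · rw [if_pos hne]
        have h3 : ∑ W ∈ F with W.head? = some a, wl U lw s W =
            lw s a * ∑ W ∈ (F.filter fun W => W.head? = some a).image List.tail,
              wl U lw (U.step s a) W := by
          rw [Finset.sum_image, Finset.mul_sum]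
          · refine Finset.sum_congr rfl fun W hW => ?_
            have h4 : wl U lw s (a :: W.tail) = lw s a * wl U lw (U.step s a) W.tail := rfl
            rw [← h4, ← h2 W hW]
          · intro W hW W' hW' he
            rw [h2 W hW, h2 W' hW', he]
        rw [h3]
        refine mul_le_mul_right ?_ _
        apply ih
        · obtain ⟨u, hu⟩ := hs
          exact ⟨u ++ [a], by rw [UA.run_append, hu]; rfl⟩
        · intro W hW
          rw [Finset.mem_image] at hW
          obtain ⟨W', hW', rfl⟩ := hW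
          have h4 := hF W' (Finset.mem_filter.1 hW').1
          rw [h2 W' hW'] at h4
          refine ⟨?_, h4.2⟩
          have := h4.1
          rw [List.length_cons] at this
          omega
      · rw [if_neg hne, zero_mul]
        rw [Finset.not_nonempty_iff_eq_empty] at hne
        rw [hne, Finset.sum_empty]
    have hlet : ∑ a : U.A, (if (F.filter fun W => W.head? = some a).Nonempty then lw s a else 0) ≤
        θ + (Nat.card U.A : ℝ≥0∞) * y := by
      have h2 : ∀ a : U.A, (if (F.filter fun W => W.head? = some a).Nonempty then lw s a else 0) ≤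
          (if Z0 T U s a ∧ (F.filter fun W => W.head? = some a).Nonempty then θ else 0) + y := by
        intro a
        by_cases hne : (F.filter fun W => W.head? = some a).Nonempty
        · rw [if_pos hne]
          refine (hlw s a).trans ?_
          by_cases hz : Z0 T U s a
          · rw [if_pos hz, if_pos ⟨hz, hne⟩]
            exact le_self_add
          · rw [if_neg hz]
            exact le_add_self
        · rw [if_neg hne]
          exact zero_le
      refine (Finset.sum_le_sum fun a _ => h2 a).trans ?_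
      rw [Finset.sum_add_distrib]
      refine add_le_add ?_ ?_
      · by_cases hex : ∃ a, Z0 T U s a ∧ (F.filter fun W => W.head? = some a).Nonempty
        · obtain ⟨a, ha, hne⟩ := hex
          obtain ⟨W, hW⟩ := hne
          have hlive : U.live s := ⟨hs, W, (hF W (Finset.mem_filter.1 hW).1).2⟩
          have h3 : ∀ b : U.A, (if Z0 T U s b ∧ (F.filter fun W => W.head? = some b).Nonempty
              then θ else 0) ≤ if b = a then θ else 0 := by
            intro b
            by_cases hb : Z0 T U s b ∧ (F.filter fun W => W.head? = some b).Nonempty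
            · rw [if_pos hb, if_pos (z0_unique T U hlive hb.1 ha)]
            · rw [if_neg hb]
              exact zero_le
          refine (Finset.sum_le_sum fun b _ => h3 b).trans ?_
          rw [Finset.sum_ite_eq' Finset.univ a]
          simp
        · push Not at hex
          rw [Finset.sum_eq_zero]
          · exact zero_le
          · intro a _
            rw [if_neg]
            rintro ⟨h3, h4⟩
            exact Finset.nonempty_iff_ne_empty.1 h4 (hex a h3)
      · rw [Finset.sum_const, Finset.card_univ, ← Nat.card_eq_fintype_card, nsmul_eq_mul]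
    calc _ ≤ 1 + ∑ a : U.A, (if (F.filter fun W => W.head? = some a).Nonempty then lw s a else 0) *
          B := add_le_add hnone (Finset.sum_le_sum fun a _ => hsome a)
      _ ≤ 1 + (θ + (Nat.card U.A : ℝ≥0∞) * y) * B := by
        rw [← Finset.sum_mul]
        gcongr
      _ ≤ B := hB

/-- the sum over words with few non-`Z0` transitions -/
theorem few (T : TX G) (U : UA G) (T0 : ℕ) (θ : ℝ) (hθ : 0 < θ) (hθ1 : θ < 1) :
    ∃ C : ℝ, 0 < C ∧ ∀ x : ℝ, 0 ≤ x → x ≤ 1 → ∀ (s : U.S), (∃ u, U.run U.s0 u = s) →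
      ∀ S : Set (List U.A), (∀ W ∈ S, U.run s W ∈ U.acc) →
      ∑' W : S, (if c1 T U s W.1 ≤ T0 then wl U (lwU T U x θ) s W.1 else 0) ≤
        ENNReal.ofReal C := by
  set A : ℝ := (Nat.card U.A : ℝ) with hA
  have hA0 : 0 ≤ A := Nat.cast_nonneg _
  set y : ℝ := (1 - θ) / (2 * (A + 1)) with hy
  have hy0 : 0 < y := by
    have : 0 < 1 - θ := by linarith
    positivity
  have hy1 : A * y ≤ (1 - θ) / 2 := by
    rw [hy, mul_div_assoc', div_le_div_iff₀ (by positivity) (by norm_num)]
    nlinarith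
  have hr : θ + A * y ≤ (1 + θ) / 2 := by linarith
  set B : ℝ := 2 / (1 - θ) with hB
  have hB0 : 0 < B := by
    have : 0 < 1 - θ := by linarith
    positivity
  have hBB : 1 + (θ + A * y) * B ≤ B := by
    have h1 : (θ + A * y) * B ≤ (1 + θ) / 2 * B := mul_le_mul_of_nonneg_right hr hB0.le
    have h2 : 1 + (1 + θ) / 2 * B = B := by
      rw [hB]
      have : 1 - θ ≠ 0 := by linarith
      field_simp
      ring
    linarith
  have key := sum_words T U (lwU T U y θ) (ENNReal.ofReal θ) (ENNReal.ofReal y)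
    (ENNReal.ofReal B) (fun s a => le_rfl) (by
      have h1 : (Nat.card U.A : ℝ≥0∞) = ENNReal.ofReal A := by
        rw [hA, ENNReal.ofReal_natCast]
      rw [h1, ← ENNReal.ofReal_mul hA0, ← ENNReal.ofReal_add hθ.le (by positivity),
        ← ENNReal.ofReal_mul (by positivity), ← ENNReal.ofReal_one,
        ← ENNReal.ofReal_add zero_le_one (by positivity)]
      exact ENNReal.ofReal_le_ofReal hBB)
  refine ⟨(y ^ T0)⁻¹ * B, by positivity, ?_⟩
  intro x hx0 hx1 s hs S hS
  have h1 : ∀ W : S, (if c1 T U s W.1 ≤ T0 then wl U (lwU T U x θ) s W.1 else 0) ≤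
      ENNReal.ofReal (y ^ T0)⁻¹ * wl U (lwU T U y θ) s W.1 := by
    intro W
    split_ifs with h
    · rw [wl_lwU T U hx0 hθ.le, wl_lwU T U hy0.le hθ.le, ← ENNReal.ofReal_mul (by positivity)]
      apply ENNReal.ofReal_le_ofReal
      have h2 : x ^ c1 T U s W.1 ≤ 1 := pow_le_one₀ hx0 hx1
      have hyle : y ≤ 1 := by
        rw [hy, div_le_one (by positivity)]
        linarith
      have h3 : y ^ T0 ≤ y ^ c1 T U s W.1 := pow_le_pow_of_le_one hy0.le hyle h
      have h4 : 1 ≤ (y ^ T0)⁻¹ * y ^ c1 T U s W.1 := by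
        rw [inv_mul_eq_div, one_le_div (by positivity)]
        exact h3
      have h5 : 0 < θ ^ c0 T U s W.1 := by positivity
      calc θ ^ c0 T U s W.1 * x ^ c1 T U s W.1 ≤ θ ^ c0 T U s W.1 * 1 :=
            mul_le_mul_of_nonneg_left h2 h5.le
        _ ≤ θ ^ c0 T U s W.1 * ((y ^ T0)⁻¹ * y ^ c1 T U s W.1) :=
            mul_le_mul_of_nonneg_left h4 h5.le
        _ = _ := by ring
    · exact zero_le
  refine (ENNReal.tsum_le_tsum h1).trans ?_
  rw [ENNReal.tsum_mul_left, ENNReal.ofReal_mul (by positivity)]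
  refine mul_le_mul_right ?_ _
  rw [ENNReal.tsum_eq_iSup_sum]
  apply iSup_le
  intro F
  have h2 : ∑ W ∈ F, wl U (lwU T U y θ) s W.1 =
      ∑ W ∈ F.map ⟨Subtype.val, Subtype.val_injective⟩, wl U (lwU T U y θ) s W := by
    rw [Finset.sum_map]
    rfl
  rw [h2]
  apply key (F.map ⟨Subtype.val, Subtype.val_injective⟩ |>.sup List.length) s _ hs
  intro W hW
  refine ⟨Finset.le_sup (f := List.length) hW, ?_⟩
  rw [Finset.mem_map] at hW
  obtain ⟨W', _, rfl⟩ := hW
  exact hS _ W'.2

/-- many completions at non-tame nodes -/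
theorem many (T : TX G) (U : UA G) (θ : ℝ) (hθ : 0 < θ) (hθ1 : θ < 1) (z : Nd T.toTreeX U)
    (hlive : U.live z.1.1) (hz : ¬ Tame T U z.1.1 z.1.2) :
    ∃ m : ℕ, ∀ R : ℝ, ∃ x1 : ℝ, x1 < 1 ∧ ∀ x : ℝ, x1 ≤ x → θ ≤ x → x < 1 →
      ENNReal.ofReal R ≤ Kw T.toTreeX U (lwU T U x θ) m z := by
  unfold Tame at hz
  push Not at hz
  obtain ⟨m, hm⟩ := hz
  obtain ⟨C2, hC2⟩ := red_WW T U
  refine ⟨m, fun R => ?_⟩
  let S : Set (List U.A) := {W | W ∈ WW T.toTreeX U m z.1.1 z.1.2 ∧ c0 T U z.1.1 W ≤ C2}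
  have hinf : S.Infinite := by
    intro hfin
    obtain ⟨M, hM⟩ := (hfin.image (c1 T U z.1.1)).bddAbove
    obtain ⟨W, hW, hW2⟩ := hm M
    obtain ⟨W', hW', h1, h2⟩ := hC2 z.1.1 z.1.2 m hlive W hW
    have h3 := hM ⟨W', ⟨hW', h2⟩, rfl⟩
    omega
  obtain ⟨k, hk⟩ := exists_nat_gt (2 * R / θ ^ C2)
  obtain ⟨F, hFS, hFc⟩ := hinf.exists_subset_card_eq k
  set M : ℕ := F.sup (c1 T U z.1.1) with hM
  refine ⟨1 - 1 / (2 * ((M : ℝ) + 1)), ?_, ?_⟩
  · have : 0 < 1 / (2 * ((M : ℝ) + 1)) := by positivity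
    linarith
  · intro x hx1 hθx hx
    have hx0 : 0 < x := hθ.trans_le hθx
    have hxM : 1 / 2 ≤ x ^ M := by
      have h1 := one_add_mul_le_pow (a := x - 1) (by linarith) M
      have h2 : 1 + (M : ℝ) * (x - 1) ≥ 1 / 2 := by
        have h3 : 1 - x ≤ 1 / (2 * ((M : ℝ) + 1)) := by linarith
        have h4 : (M : ℝ) * (1 - x) ≤ 1 / 2 := by
          calc (M : ℝ) * (1 - x) ≤ M * (1 / (2 * ((M : ℝ) + 1))) :=
                mul_le_mul_of_nonneg_left h3 (Nat.cast_nonneg _)
            _ = (M / (M + 1)) / 2 := by field_simp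
            _ ≤ 1 / 2 := by
                have : (M : ℝ) / (M + 1) ≤ 1 := by
                  rw [div_le_one (by positivity)]
                  linarith
                linarith
        linarith
      have h3 : 1 + (x - 1) = x := by ring
      rw [h3] at h1
      linarith
    have h1 : ∀ W ∈ F, ENNReal.ofReal (θ ^ C2 / 2) ≤ wl U (lwU T U x θ) z.1.1 W := by
      intro W hW
      rw [wl_lwU T U hx0.le hθ.le]
      apply ENNReal.ofReal_le_ofReal
      have h2 : θ ^ C2 ≤ θ ^ c0 T U z.1.1 W := pow_le_pow_of_le_one hθ.le hθ1.le (hFS hW).2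
      have h3 : x ^ M ≤ x ^ c1 T U z.1.1 W :=
        pow_le_pow_of_le_one hx0.le hx.le (Finset.le_sup (f := c1 T U z.1.1) hW)
      calc θ ^ C2 / 2 = θ ^ C2 * (1 / 2) := by ring
        _ ≤ θ ^ c0 T U z.1.1 W * x ^ c1 T U z.1.1 W :=
          mul_le_mul h2 (hxM.trans h3) (by norm_num) (by positivity)
    have h2 : ∑ W ∈ F, wl U (lwU T U x θ) z.1.1 W ≤ Kw T.toTreeX U (lwU T U x θ) m z := by
      unfold Kw
      have h3 : ∀ W ∈ F, W ∈ WW T.toTreeX U m z.1.1 z.1.2 := fun W hW => (hFS hW).1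
      rw [← Finset.sum_attach]
      have h4 := ENNReal.sum_le_tsum (f := fun W : WW T.toTreeX U m z.1.1 z.1.2 =>
        wl U (lwU T U x θ) z.1.1 W.1) (F.attach.map ⟨fun W => ⟨W.1, h3 W.1 W.2⟩, by
          intro a b hab
          apply Subtype.ext
          have := congrArg Subtype.val hab
          exact this⟩)
      rw [Finset.sum_map] at h4
      exact h4
    refine le_trans ?_ h2
    refine le_trans ?_ (Finset.sum_le_sum h1)
    rw [Finset.sum_const, hFc, nsmul_eq_mul, ← ENNReal.ofReal_natCast,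
      ← ENNReal.ofReal_mul (Nat.cast_nonneg _)]
    apply ENNReal.ofReal_le_ofReal
    rw [div_lt_iff₀ (by positivity)] at hk
    linarith

/-- the mass of the non-tame part as a sum over nodes -/
theorem nts_le (T : TX G) (U : UA G) (m T0 : ℕ) (Cst : ℝ) (x θ : ℝ) (hx0 : 0 < x) (hθ : 0 < θ)
    (hC : ∀ (s : U.S), (∃ u, U.run U.s0 u = s) →
      ∀ S : Set (List U.A), (∀ W ∈ S, U.run s W ∈ U.acc) →
      ∑' W : S, (if c1 T U s W.1 ≤ T0 then wl U (lwU T U x θ) s W.1 else 0) ≤
        ENNReal.ofReal Cst) (n : ℕ) :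
    mE T U x θ (NTS T U n m T0) ≤ ∑ z : Nd T.toTreeX U,
      if (¬ Tame T U z.1.1 z.1.2 ∧ (EntZ T.toTreeX U (T.rt n) z).Nonempty) then
        Lw T.toTreeX U (lwU T U x θ) (T.rt n) (fun _ => 1) z * ENNReal.ofReal Cst else 0 := by
  have he := TreeX.rt_IsE (T := T.toTreeX) n
  have ho := TreeX.rt_one (T := T.toTreeX) n
  -- the sum over the tops
  have h1 : mE T U x θ (NTS T U n m T0) ≤
      ∑' g : {g : G // T.vx g ∈ T.Vt m (T.rt n).2},
        (if g.1 ∈ NTS T U n m T0 then ENNReal.ofReal (Wt T U x θ g.1) else 0) := by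
    have hsub : ∀ g : NTS T U n m T0, T.vx g.1 ∈ T.Vt m (T.rt n).2 := by
      rintro ⟨g, P, W, hP, hW, rfl, -, -⟩
      rw [Pool.Agent.TH109.rel, WW_shift] at hW
      exact hW.2.2
    have h2 := ENNReal.tsum_comp_le_tsum_of_injective
      (f := fun g : NTS T U n m T0 =>
        (⟨g.1, hsub g⟩ : {g : G // T.vx g ∈ T.Vt m (T.rt n).2}))
      (by intro a b hab; exact Subtype.ext (congrArg (fun g => g.1) hab))
      (fun g => if g.1 ∈ NTS T U n m T0 then ENNReal.ofReal (Wt T U x θ g.1) else 0)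
    refine le_trans (le_of_eq ?_) h2
    unfold mE
    refine tsum_congr fun g => ?_
    rw [if_pos g.2]
  refine h1.trans ?_
  rw [← (Equiv.ofBijective _ (top_bij T.toTreeX U m (T.rt n) he ho)).tsum_eq
    (fun g : {g : G // T.vx g ∈ T.Vt m (T.rt n).2} =>
      if g.1 ∈ NTS T U n m T0 then ENNReal.ofReal (Wt T U x θ g.1) else 0),
    ENNReal.tsum_sigma', tsum_fintype]
  refine Finset.sum_le_sum fun z _ => ?_
  rw [ENNReal.tsum_prod']
  -- pointwise bound
  have hpt : ∀ (P : EntZ T.toTreeX U (T.rt n) z) (W : WW T.toTreeX U m z.1.1 z.1.2),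
      (if ((Equiv.ofBijective _ (top_bij T.toTreeX U m (T.rt n) he ho)) ⟨z, (P, W)⟩).1 ∈
        NTS T U n m T0 then ENNReal.ofReal (Wt T U x θ
        ((Equiv.ofBijective _ (top_bij T.toTreeX U m (T.rt n) he ho)) ⟨z, (P, W)⟩).1) else 0) ≤
      if ¬ Tame T U z.1.1 z.1.2 then wl U (lwU T U x θ) U.s0 P.1 * 1 *
        (if c1 T U z.1.1 W.1 ≤ T0 then wl U (lwU T U x θ) z.1.1 W.1 else 0) else 0 := by
    rintro ⟨P, hP, hz⟩ ⟨W, hW⟩
    have h1 : z.1.1 = U.run U.s0 P := congrArg Prod.fst hz
    have h2 : z.1.2 = T.actE (U.ev P)⁻¹ (T.rt n) := congrArg Prod.snd hz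
    show (if U.ev (P ++ W) ∈ NTS T U n m T0 then ENNReal.ofReal (Wt T U x θ (U.ev (P ++ W))) else 0)
      ≤ _
    by_cases h3 : U.ev (P ++ W) ∈ NTS T U n m T0
    · rw [if_pos h3]
      obtain ⟨P', W', hP', hW2, he', h8, h6⟩ := h3
      have hWa := hW
      rw [h1, h2, WW_shift] at hWa
      have hWb := hW2
      rw [Pool.Agent.TH109.rel, WW_shift] at hWb
      have h7 : P' ++ W' = P ++ W := U.ev_inj hWb.1 hWa.1 he'
      obtain ⟨e1, e2⟩ := lst_unique T.toTreeX U h7 (ent_lst T.toTreeX U hP' hWb.2.1)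
        (ent_lst T.toTreeX U hP hWa.2.1)
      subst e1 e2
      have h9 : ¬ Tame T U z.1.1 z.1.2 := by
        rw [h1, h2]
        exact h8
      rw [if_pos h9]
      show _ ≤ wl U (lwU T U x θ) U.s0 P' * 1 * (if c1 T U z.1.1 W' ≤ T0 then
        wl U (lwU T U x θ) z.1.1 W' else 0)
      rw [h1, if_pos h6, ← wl_nf T U hx0.le hθ.le, nf_eq U hWa.1, wl_append, mul_one]
    · rw [if_neg h3]
      exact zero_le
  by_cases hz : ¬ Tame T U z.1.1 z.1.2
  · by_cases hne : (EntZ T.toTreeX U (T.rt n) z).Nonempty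
    · rw [if_pos ⟨hz, hne⟩]
      obtain ⟨P0, hP0, hzP⟩ := hne
      have hs : ∃ u, U.run U.s0 u = z.1.1 := ⟨P0, (congrArg Prod.fst hzP).symm⟩
      unfold Lw
      rw [← ENNReal.tsum_mul_right]
      refine ENNReal.tsum_le_tsum fun P => ?_
      refine (ENNReal.tsum_le_tsum fun W => hpt P W).trans ?_
      simp only [if_pos hz]
      rw [ENNReal.tsum_mul_left]
      exact mul_le_mul_right (hC z.1.1 hs _ (fun W hW => hW.1)) _
    · rw [if_neg (fun h => hne h.2)]
      have hemp : IsEmpty (EntZ T.toTreeX U (T.rt n) z) :=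
        ⟨fun P => hne ⟨P.1, P.2⟩⟩
      rw [tsum_empty]
  · rw [if_neg (fun h => hz h.1)]
    refine (ENNReal.tsum_le_tsum fun P => ENNReal.tsum_le_tsum fun W => hpt P W).trans ?_
    simp only [if_neg hz]
    simp

/-- non-tame entrances followed by few non-`Z0` transitions are negligible when `x → 1`
with `θ` fixed -/
theorem nts_small {G : Type} [Group G] (T : TX G) (U : Pool.Agent.Helper943.LM.UA G)
    (m T0 J : ℕ) (η θ : ℝ) (hη : 0 < η) (hθ : 0 < θ) (hθ1 : θ < 1) :
    ∃ x0 : ℝ, x0 < 1 ∧ ∀ x : ℝ, x0 ≤ x → θ ≤ x → x < 1 → ∀ n ≤ J, ∀ m' ≤ m,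
      mE T U x θ (NTS T U n m' T0) ≤ ENNReal.ofReal η * mE T U x θ (flat T.toTreeX T.o) := by
  obtain ⟨Cst, hCst, hC⟩ := few T U T0 θ hθ hθ1
  obtain ⟨D, hD⟩ := mass_rt T U
  set Z : ℝ := (Fintype.card (Nd T.toTreeX U) : ℝ) + 1 with hZ
  have hZ0 : 0 < Z := by positivity
  set ε : ℝ := η / Z with hε
  have hε0 : 0 < ε := by positivity
  -- thresholds
  have hx : ∀ z : Nd T.toTreeX U, ∃ x1 : ℝ, x1 < 1 ∧ ∀ x : ℝ, x1 ≤ x → θ ≤ x → x < 1 →
      ∀ n ≤ J, (¬ Tame T U z.1.1 z.1.2 ∧ (EntZ T.toTreeX U (T.rt n) z).Nonempty) →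
        Lw T.toTreeX U (lwU T U x θ) (T.rt n) (fun _ => 1) z * ENNReal.ofReal Cst ≤
          ENNReal.ofReal ε * mE T U x θ (flat T.toTreeX T.o) := by
    intro z
    by_cases hz : ¬ Tame T U z.1.1 z.1.2 ∧ U.live z.1.1
    · obtain ⟨mz, hmz⟩ := many T U θ hθ hθ1 z hz.2 hz.1
      set c : ℝ := (θ ^ (D * (J + 1 + mz)))⁻¹ * (T.d ^ mz + 1) with hc
      have hc0 : 0 < c := by positivity
      obtain ⟨x1, hx1, hx2⟩ := hmz (c * Cst / ε)
      refine ⟨x1, hx1, fun x hx hθx hxl n hn _ => ?_⟩
      have hx0 : 0 < x := hθ.trans_le hθx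
      have he := TreeX.rt_IsE (T := T.toTreeX) n
      have ho := TreeX.rt_one (T := T.toTreeX) n
      have h1 := top_sum T.toTreeX U (lwU T U x θ) mz (T.rt n) he ho (fun _ => 1) (fun _ => 1)
        (fun _ _ _ _ => rfl)
      have h2 : ∑' g : {g : G // T.vx g ∈ T.Vt mz (T.rt n).2},
          wl U (lwU T U x θ) U.s0 (nf U g.1) * 1 = mE T U x θ (Top T.toTreeX mz (T.rt n).2) := by
        unfold mE
        refine tsum_congr fun g => ?_
        rw [mul_one, wl_nf T U hx0.le hθ.le]
      rw [h2] at h1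
      have h3 : Lw T.toTreeX U (lwU T U x θ) (T.rt n) (fun _ => 1) z *
          Kw T.toTreeX U (lwU T U x θ) mz z ≤ mE T U x θ (Top T.toTreeX mz (T.rt n).2) := by
        rw [h1]
        exact Finset.single_le_sum (f := fun z => Lw T.toTreeX U (lwU T U x θ) (T.rt n)
          (fun _ => 1) z * Kw T.toTreeX U (lwU T U x θ) mz z) (fun _ _ => zero_le)
          (Finset.mem_univ z)
      have h4 := (hD x θ hθ hθx hxl.le n mz).2
      have h5 : mE T U x θ (Top T.toTreeX mz (T.rt n).2) ≤
          ENNReal.ofReal c * mE T U x θ (flat T.toTreeX T.o) := by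
        have e1 : ENNReal.ofReal ((θ ^ (D * (n + 1 + mz)))⁻¹) *
            ENNReal.ofReal (θ ^ (D * (n + 1 + mz))) = 1 := by
          rw [← ENNReal.ofReal_mul (by positivity), inv_mul_cancel₀ (by positivity),
            ENNReal.ofReal_one]
        calc mE T U x θ (Top T.toTreeX mz (T.rt n).2) =
              ENNReal.ofReal ((θ ^ (D * (n + 1 + mz)))⁻¹) *
                (ENNReal.ofReal (θ ^ (D * (n + 1 + mz))) *
                  mE T U x θ (Top T.toTreeX mz (T.rt n).2)) := by
              rw [← mul_assoc, e1, one_mul]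
          _ ≤ ENNReal.ofReal ((θ ^ (D * (n + 1 + mz)))⁻¹) *
                ((T.d : ℝ≥0∞) ^ mz * mE T U x θ (flat T.toTreeX T.o)) := mul_le_mul_right h4 _
          _ ≤ ENNReal.ofReal c * mE T U x θ (flat T.toTreeX T.o) := by
              rw [← mul_assoc]
              gcongr
              have e2 : (T.d : ℝ≥0∞) ^ mz = ENNReal.ofReal ((T.d : ℝ) ^ mz) := by
                rw [ENNReal.ofReal_pow (Nat.cast_nonneg _), ENNReal.ofReal_natCast]
              rw [e2, ← ENNReal.ofReal_mul (by positivity)]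
              apply ENNReal.ofReal_le_ofReal
              rw [hc]
              apply mul_le_mul
              · apply inv_anti₀ (by positivity)
                exact pow_le_pow_of_le_one hθ.le hθ1.le
                  (Nat.mul_le_mul_left _ (by omega))
              · linarith
              · positivity
              · positivity
      have h6 : Lw T.toTreeX U (lwU T U x θ) (T.rt n) (fun _ => 1) z *
          ENNReal.ofReal (c * Cst / ε) ≤ ENNReal.ofReal c * mE T U x θ (flat T.toTreeX T.o) :=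
        (mul_le_mul_right (hx2 x hx hθx hxl) _).trans (h3.trans h5)
      have e3 : ENNReal.ofReal (c * Cst / ε) * ENNReal.ofReal (ε / c) = ENNReal.ofReal Cst := by
        rw [← ENNReal.ofReal_mul (by positivity)]
        congr 1
        field_simp
      have e4 : ENNReal.ofReal c * ENNReal.ofReal (ε / c) = ENNReal.ofReal ε := by
        rw [← ENNReal.ofReal_mul (by positivity)]
        congr 1
        field_simp
      calc Lw T.toTreeX U (lwU T U x θ) (T.rt n) (fun _ => 1) z * ENNReal.ofReal Cst =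
            Lw T.toTreeX U (lwU T U x θ) (T.rt n) (fun _ => 1) z *
              ENNReal.ofReal (c * Cst / ε) * ENNReal.ofReal (ε / c) := by
            rw [mul_assoc, e3]
        _ ≤ ENNReal.ofReal c * mE T U x θ (flat T.toTreeX T.o) * ENNReal.ofReal (ε / c) := by
            gcongr
        _ = (ENNReal.ofReal c * ENNReal.ofReal (ε / c)) * mE T U x θ (flat T.toTreeX T.o) := by
            ring
        _ = _ := by rw [e4]
    · refine ⟨0, by norm_num, fun x _ _ _ n _ hn => ?_⟩
      exfalso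
      obtain ⟨h1, P, hP, hzP⟩ := hn
      apply hz
      refine ⟨h1, ⟨P, (congrArg Prod.fst hzP).symm⟩, ?_⟩
      unfold Tame at h1
      push Not at h1
      obtain ⟨m1, hm1⟩ := h1
      obtain ⟨W, hW, -⟩ := hm1 0
      exact ⟨W, hW.1⟩
  choose f hf1 hf2 using hx
  obtain ⟨x0, hx01, hx02⟩ : ∃ x0 : ℝ, x0 < 1 ∧ ∀ z, f z ≤ x0 := by
    by_cases hne : Nonempty (Nd T.toTreeX U)
    · obtain ⟨z0, hz0⟩ := Finite.exists_max f
      exact ⟨f z0, hf1 z0, hz0⟩
    · exact ⟨0, by norm_num, fun z => absurd ⟨z⟩ hne⟩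
  refine ⟨x0, hx01, fun x hx hθx hxl n hn m' _ => ?_⟩
  have hx0 : 0 < x := hθ.trans_le hθx
  refine (nts_le T U m' T0 Cst x θ hx0 hθ (hC x hx0.le hxl.le) n).trans ?_
  have h1 : ∀ z : Nd T.toTreeX U,
      (if (¬ Tame T U z.1.1 z.1.2 ∧ (EntZ T.toTreeX U (T.rt n) z).Nonempty) then
        Lw T.toTreeX U (lwU T U x θ) (T.rt n) (fun _ => 1) z * ENNReal.ofReal Cst else 0) ≤
        ENNReal.ofReal ε * mE T U x θ (flat T.toTreeX T.o) := by
    intro z
    split_ifs with h
    · exact hf2 z x ((hx02 z).trans hx) hθx hxl n hn h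
    · exact zero_le
  refine (Finset.sum_le_sum fun z _ => h1 z).trans ?_
  rw [Finset.sum_const, Finset.card_univ, nsmul_eq_mul, ← mul_assoc]
  gcongr
  rw [← ENNReal.ofReal_natCast, ← ENNReal.ofReal_mul (Nat.cast_nonneg _)]
  apply ENNReal.ofReal_le_ofReal
  rw [hε, hZ, mul_div_assoc', div_le_iff₀ (by positivity)]
  nlinarith

end

end Pool.Agent.TH111.J790
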