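import Mathlib
import Pool.Agent.TH109.Defs

set_option autoImplicit false

namespace Pool.Agent.TH111.J616

open Pool.Agent.TH109
open HNNExtension HNNExtension.NormalWord

section

variable {H : Type} [Group H] {A B : Subgroup H} (φ : A ≃* B)

/-- the product of a list -/
def pr (l : List (ℤˣ × H)) : HNNExtension H A B φ :=
  (l.map fun x => t ^ (x.1 : ℤ) * of x.2).prod

theorem pr_nil : pr φ ([] : List (ℤˣ × H)) = 1 := rfl

theorem pr_cons (x : ℤˣ × H) (l : List (ℤˣ × H)) :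
    pr φ (x :: l) = t ^ (x.1 : ℤ) * of x.2 * pr φ l := by
  simp [pr]

variable (A B) in
/-- reduced lists -/
abbrev Ch (l : List (ℤˣ × H)) : Prop :=
  l.IsChain (fun a b => a.2 ∈ toSubgroup A B a.1 → a.1 = b.1)

theorem exists_word (g : HNNExtension H A B φ) : ∃ (h : H) (l : List (ℤˣ × H)), Ch A B l ∧
    g = of h * pr φ l := by
  obtain ⟨d⟩ := TransversalPair.nonempty H A B
  refine ⟨(g • (NormalWord.empty : NormalWord d)).head,
    (g • (NormalWord.empty : NormalWord d)).toList,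
    (g • (NormalWord.empty : NormalWord d)).chain, ?_⟩
  have h1 := prod_smul φ g (NormalWord.empty : NormalWord d)
  rw [prod_empty, mul_one] at h1
  exact h1.symm

/-- uniqueness -/
theorem uniq {h h' : H} {l l' : List (ℤˣ × H)} (hl : Ch A B l) (hl' : Ch A B l')
    (he : of h * pr φ l = (of h' * pr φ l' : HNNExtension H A B φ)) :
    l.map Prod.fst = l'.map Prod.fst ∧ ∀ u ∈ l.head?.map Prod.fst,
      h⁻¹ * h' ∈ toSubgroup A B (-u) := by
  have := ReducedWord.map_fst_eq_and_of_prod_eq φ (w₁ := ⟨h, l, hl⟩) (w₂ := ⟨h', l', hl'⟩) he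
  exact this

/-- the length -/
noncomputable def nm (g : HNNExtension H A B φ) : ℕ := (exists_word φ g).choose_spec.choose.length

theorem nm_eq {h : H} {l : List (ℤˣ × H)} (hl : Ch A B l) :
    nm φ (of h * pr φ l) = l.length := by
  have h1 := (exists_word φ (of h * pr φ l)).choose_spec.choose_spec
  have h2 := (uniq φ h1.1 hl h1.2.symm).1
  have h3 := congrArg List.length h2
  rw [List.length_map, List.length_map] at h3
  exact h3

theorem nm_left (h : H) (g : HNNExtension H A B φ) : nm φ (of h * g) = nm φ g := by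
  obtain ⟨x, l, hl, rfl⟩ := exists_word φ g
  rw [← mul_assoc, ← map_mul, nm_eq φ hl, nm_eq φ hl]

theorem t_pow_mul_of (u : ℤˣ) (a : H) (ha : a ∈ toSubgroup A B u) :
    ∃ b ∈ toSubgroup A B (-u), (t ^ (u : ℤ) * of a : HNNExtension H A B φ) =
      of b * t ^ (u : ℤ) := by
  rcases Int.units_eq_one_or u with rfl | rfl
  · refine ⟨φ ⟨a, ha⟩, (φ ⟨a, ha⟩).2, ?_⟩
    have := t_mul_of (φ := φ) ⟨a, ha⟩
    simpa using this
  · refine ⟨φ.symm ⟨a, ha⟩, ?_, ?_⟩
    · rw [neg_neg]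
      exact (φ.symm ⟨a, ha⟩).2
    · have := inv_t_mul_of (φ := φ) ⟨a, ha⟩
      simpa using this

theorem of_mul_t_pow (u : ℤˣ) (a : H) (ha : a ∈ toSubgroup A B (-u)) :
    ∃ b ∈ toSubgroup A B u, (of a * t ^ (u : ℤ) : HNNExtension H A B φ) =
      t ^ (u : ℤ) * of b := by
  obtain ⟨b, hb, h1⟩ := t_pow_mul_of φ (-u) a ha
  rw [neg_neg] at hb
  refine ⟨b, hb, ?_⟩
  have h2 : ((-u : ℤˣ) : ℤ) = -(u : ℤ) := by push_cast; rfl
  rw [h2, zpow_neg, inv_mul_eq_iff_eq_mul] at h1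
  rw [h1]
  group

theorem pow_neg_mul (u : ℤˣ) : (t ^ ((-u : ℤˣ) : ℤ) * t ^ (u : ℤ) : HNNExtension H A B φ) = 1 := by
  rw [← zpow_add]
  have : ((-u : ℤˣ) : ℤ) + (u : ℤ) = 0 := by push_cast; ring
  rw [this, zpow_zero]

theorem pow_mul_neg (u : ℤˣ) : (t ^ (u : ℤ) * t ^ ((-u : ℤˣ) : ℤ) : HNNExtension H A B φ) = 1 := by
  rw [← zpow_add]
  have : (u : ℤ) + ((-u : ℤˣ) : ℤ) = 0 := by push_cast; ring
  rw [this, zpow_zero]

/-- prepending a letter -/
theorem cons_cases (u : ℤˣ) (h : H) {l : List (ℤˣ × H)} (hl : Ch A B l) :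
    Ch A B ((u, h) :: l) ∨ (h ∈ toSubgroup A B u ∧ (∃ g l', l = (-u, g) :: l') ∧
      nm φ (t ^ (u : ℤ) * (of h * pr φ l)) + 1 = l.length) := by
  rcases l with _ | ⟨⟨u1, g1⟩, l'⟩
  · exact Or.inl (List.isChain_singleton _)
  · by_cases hc : h ∈ toSubgroup A B u ∧ u1 = -u
    · right
      obtain ⟨hh, rfl⟩ := hc
      refine ⟨hh, ⟨g1, l', rfl⟩, ?_⟩
      obtain ⟨b, -, hb⟩ := t_pow_mul_of φ u h hh
      rw [pr_cons, ← mul_assoc, hb, mul_assoc (of b), mul_assoc (t ^ ((-u : ℤˣ) : ℤ)),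
        ← mul_assoc (t ^ (u : ℤ)), pow_mul_neg, one_mul, nm_left,
        nm_eq φ (show Ch A B l' from hl.tail)]
      rfl
    · left
      refine List.isChain_cons_cons.2 ⟨fun h1 => ?_, hl⟩
      have h2 : u1 ≠ -u := fun h3 => hc ⟨h1, h3⟩
      rcases Int.units_eq_one_or u with rfl | rfl <;> rcases Int.units_eq_one_or u1 with rfl | rfl
      · rfl
      · exact absurd rfl h2
      · exact absurd (neg_neg _).symm h2
      · rfl

theorem nm_cons {u : ℤˣ} {h : H} {l : List (ℤˣ × H)} (hl : Ch A B ((u, h) :: l)) :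
    nm φ (t ^ (u : ℤ) * (of h * pr φ l)) = l.length + 1 := by
  have h1 : (t ^ (u : ℤ) * (of h * pr φ l) : HNNExtension H A B φ) =
      of 1 * pr φ ((u, h) :: l) := by
    rw [pr_cons, map_one, one_mul, mul_assoc]
  rw [h1, nm_eq φ hl]
  rfl

theorem nm_step (g : HNNExtension H A B φ) (u : ℤˣ) :
    nm φ (t ^ (u : ℤ) * g) = nm φ g + 1 ∨ nm φ (t ^ (u : ℤ) * g) + 1 = nm φ g := by
  obtain ⟨h, l, hl, rfl⟩ := exists_word φ g
  rw [nm_eq φ hl]
  rcases cons_cases φ u h hl with h1 | h1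
  · left
    exact nm_cons φ h1
  · right
    exact h1.2.2

theorem nm_one : nm φ 1 = 0 := by
  have := nm_eq φ (h := 1) (l := []) List.isChain_nil
  rw [pr_nil, map_one, one_mul] at this
  exact this

theorem nm_of (h : H) : nm φ (of h) = 0 := by
  have := nm_left φ h 1
  rw [mul_one, nm_one] at this
  exact this

theorem nm_list_mul (l : List (ℤˣ × H)) : ∀ (h : H) (g : HNNExtension H A B φ),
    nm φ (of h * pr φ l * g) ≤ l.length + nm φ g := by
  induction l with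
  | nil =>
    intro h g
    rw [pr_nil, mul_one, nm_left]
    simp
  | cons x l ih =>
    intro h g
    rw [pr_cons, mul_assoc, nm_left, mul_assoc, mul_assoc]
    have h1 := ih x.2 g
    rw [mul_assoc] at h1
    have h2 := nm_step φ (of x.2 * (pr φ l * g)) x.1
    rw [List.length_cons]
    omega

theorem nm_mul (g g' : HNNExtension H A B φ) : nm φ (g * g') ≤ nm φ g + nm φ g' := by
  obtain ⟨h, l, hl, rfl⟩ := exists_word φ g
  rw [nm_eq φ hl]
  exact nm_list_mul φ l h g'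

theorem nm_tpow (u : ℤˣ) : nm φ (t ^ (u : ℤ)) = 1 := by
  have h1 := nm_cons φ (u := u) (h := 1) (l := []) (List.isChain_singleton _)
  rw [pr_nil, map_one, mul_one, mul_one] at h1
  exact h1

theorem nm_inv_le (l : List (ℤˣ × H)) : ∀ (h : H), nm φ (of h * pr φ l)⁻¹ ≤ l.length := by
  induction l with
  | nil =>
    intro h
    rw [pr_nil, mul_one, ← map_inv, nm_of]
    simp
  | cons x l ih =>
    intro h
    have h1 : (of h * pr φ (x :: l))⁻¹ = (of x.2 * pr φ l)⁻¹ *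
        (t ^ ((-x.1 : ℤˣ) : ℤ) * of h⁻¹) := by
      have h2 : ((-x.1 : ℤˣ) : ℤ) = -(x.1 : ℤ) := by push_cast; rfl
      rw [pr_cons, h2, zpow_neg, map_inv]
      group
    rw [h1]
    have h3 := nm_mul φ (of x.2 * pr φ l)⁻¹ (t ^ ((-x.1 : ℤˣ) : ℤ) * of h⁻¹)
    have h4 := nm_mul φ (t ^ ((-x.1 : ℤˣ) : ℤ)) (of h⁻¹)
    rw [nm_tpow, nm_of] at h4
    have h5 := ih x.2
    rw [List.length_cons]
    omega

theorem nm_inv (g : HNNExtension H A B φ) : nm φ g⁻¹ = nm φ g := by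
  have key : ∀ g : HNNExtension H A B φ, nm φ g⁻¹ ≤ nm φ g := by
    intro g
    obtain ⟨h, l, hl, rfl⟩ := exists_word φ g
    have := nm_inv_le φ l h
    rw [nm_eq φ hl]
    exact this
  apply le_antisymm (key g)
  have := key g⁻¹
  rwa [inv_inv] at this

theorem nm_right (h : H) (g : HNNExtension H A B φ) : nm φ (g * of h) = nm φ g := by
  rw [← nm_inv, mul_inv_rev, ← map_inv, nm_left, nm_inv]

theorem inv_mul_tpow (h : H) (u : ℤˣ) (g : HNNExtension H A B φ) :
    (of h * t ^ (u : ℤ))⁻¹ * (of h * (t ^ (u : ℤ) * g)) = g := by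
  group

/-- the characterization of the first directions -/
theorem fd_iff (h h0 : H) (u : ℤˣ) {l : List (ℤˣ × H)} (hl : Ch A B l) :
    nm φ ((of h * t ^ (u : ℤ))⁻¹ * (of h0 * pr φ l)) + 1 = l.length ↔
      (∃ g l', l = (u, g) :: l') ∧ h⁻¹ * h0 ∈ toSubgroup A B (-u) := by
  constructor
  · intro h1
    obtain ⟨x, m, hm, hx⟩ := exists_word φ ((of h * t ^ (u : ℤ))⁻¹ * (of h0 * pr φ l))
    rw [hx, nm_eq φ hm] at h1
    have h2 : (of h0 * pr φ l : HNNExtension H A B φ) = of h * (t ^ (u : ℤ) * (of x * pr φ m)) := by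
      rw [← hx]; group
    rcases cons_cases φ u x hm with h3 | h3
    · have h4 : (of h * pr φ ((u, x) :: m) : HNNExtension H A B φ) = of h0 * pr φ l := by
        rw [h2, pr_cons, mul_assoc]
      obtain ⟨h5, h6⟩ := uniq φ h3 hl h4
      rcases l with _ | ⟨⟨u1, g1⟩, l'⟩
      · simp at h5
      · simp only [List.map_cons, List.cons.injEq] at h5
        refine ⟨⟨g1, l', by rw [h5.1]⟩, h6 u (by simp)⟩
    · exfalso
      have h4 := h3.2.2
      have h5 : nm φ (of h0 * pr φ l) = nm φ (t ^ (u : ℤ) * (of x * pr φ m)) := by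
        rw [h2, nm_left]
      rw [nm_eq φ hl] at h5
      omega
  · rintro ⟨⟨g, l', rfl⟩, h1⟩
    obtain ⟨b, -, hb⟩ := of_mul_t_pow φ u _ h1
    have h2 : ((of h * t ^ (u : ℤ))⁻¹ * (of h0 * pr φ ((u, g) :: l')) : HNNExtension H A B φ) =
        of (b * g) * pr φ l' := by
      have h3 : (of h0 : HNNExtension H A B φ) = of h * of (h⁻¹ * h0) := by
        rw [← map_mul, mul_inv_cancel_left]
      rw [pr_cons, h3, mul_assoc (of h), ← mul_assoc (of (h⁻¹ * h0)), ← mul_assoc (of (h⁻¹ * h0)),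
        hb, mul_assoc, mul_assoc, inv_mul_tpow, map_mul, mul_assoc]
    rw [h2, nm_eq φ (show Ch A B l' from hl.tail)]
    rfl

/-- the junction -/
theorem join (m : List (ℤˣ × H)) : ∀ (u : ℤˣ) (g y : H) (L : List (ℤˣ × H)),
    Ch A B ((u, g) :: m) → Ch A B ((-u, y) :: L) →
    nm φ ((of g * pr φ m)⁻¹ * pr φ ((-u, y) :: L)) = m.length + (L.length + 1) := by
  induction m with
  | nil =>
    intro u g y L _ h2
    rw [pr_nil, mul_one, ← map_inv, nm_eq φ h2]
    simp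
  | cons x m ih =>
    intro u g y L h1 h2
    obtain ⟨u2, g2⟩ := x
    obtain ⟨h3, h4⟩ := List.isChain_cons_cons.1 h1
    have h5 : Ch A B ((-u2, g⁻¹) :: (-u, y) :: L) := by
      refine List.isChain_cons_cons.2 ⟨fun h6 => ?_, h2⟩
      have h7 : g ∈ toSubgroup A B (-u2) := (Subgroup.inv_mem_iff _).1 h6
      by_cases h8 : u = u2
      · rw [h8]
      · exfalso
        have h9 : u = -u2 := by
          rcases Int.units_eq_one_or u with rfl | rfl <;>
            rcases Int.units_eq_one_or u2 with rfl | rfl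
          · exact absurd rfl h8
          · rfl
          · rfl
          · exact absurd rfl h8
        rw [← h9] at h7
        exact h8 (h3 h7)
    have h6 := ih u2 g2 g⁻¹ ((-u, y) :: L) h4 h5
    have h7 : ((of g * pr φ ((u2, g2) :: m))⁻¹ * pr φ ((-u, y) :: L) : HNNExtension H A B φ) =
        (of g2 * pr φ m)⁻¹ * pr φ ((-u2, g⁻¹) :: (-u, y) :: L) := by
      have h8 : ((-u2 : ℤˣ) : ℤ) = -(u2 : ℤ) := by push_cast; rfl
      rw [pr_cons φ (u2, g2) m, pr_cons φ (-u2, g⁻¹) ((-u, y) :: L), h8, zpow_neg, map_inv]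
      group
    rw [h7, h6, List.length_cons, List.length_cons]
    omega

theorem hnn_len {H : Type} [Group H] (A B : Subgroup H) (φ : A ≃* B) : Nonempty (HLen φ) := by
  refine ⟨{
    nm := nm φ
    nm_one := nm_one φ
    nm_inv := nm_inv φ
    nm_mul := nm_mul φ
    nm_zero := ?_
    nm_t := ?_
    nm_of := ?_
    nm_step := nm_step φ
    dir_ex := ?_
    dir_unique := ?_
    dir_add := ?_ }⟩
  · intro g
    constructor
    · intro h
      obtain ⟨x, l, hl, rfl⟩ := exists_word φ g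
      rw [nm_eq φ hl] at h
      rw [List.length_eq_zero_iff.1 h]
      exact ⟨x, by rw [pr_nil, mul_one]⟩
    · rintro ⟨h, rfl⟩
      exact nm_of φ h
  · have := nm_tpow φ 1
    simpa using this
  · intro h h' g
    rw [nm_right, nm_left]
  · intro g hg
    obtain ⟨x, l, hl, rfl⟩ := exists_word φ g
    rw [nm_eq φ hl] at hg
    rcases l with _ | ⟨⟨u, y⟩, l'⟩
    · simp at hg
    · refine ⟨x, u, ?_⟩
      rw [nm_eq φ hl]
      exact (fd_iff φ x x u hl).2 ⟨⟨y, l', rfl⟩, by rw [inv_mul_cancel]; exact one_mem _⟩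
  · intro g h h' u u' h1 h2
    obtain ⟨x, l, hl, rfl⟩ := exists_word φ g
    rw [nm_eq φ hl] at h1 h2
    obtain ⟨⟨y, l', e1⟩, h3⟩ := (fd_iff φ h x u hl).1 h1
    obtain ⟨⟨y', l'', e2⟩, h4⟩ := (fd_iff φ h' x u' hl).1 h2
    rw [e1] at e2
    have h5 : u = u' := by
      simp only [List.cons.injEq, Prod.mk.injEq] at e2
      exact e2.1.1
    subst h5
    refine ⟨rfl, ?_⟩
    have h6 := mul_mem h3 (inv_mem h4)
    have h7 : h⁻¹ * x * (h'⁻¹ * x)⁻¹ = h⁻¹ * h' := by group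
    rwa [h7] at h6
  · intro g g' hno
    obtain ⟨x, l, hl, rfl⟩ := exists_word φ g
    obtain ⟨x', l', hl', rfl⟩ := exists_word φ g'
    rcases l with _ | ⟨⟨u, y⟩, m⟩
    · rw [pr_nil, mul_one, ← map_inv, nm_left, nm_of, zero_add]
    · rcases cons_cases φ (-u) (x⁻¹ * x') hl' with h1 | h1
      · have h2 := join φ m u y (x⁻¹ * x') l' hl h1
        rw [nm_eq φ hl, nm_eq φ hl']
        have h3 : ((of x * pr φ ((u, y) :: m))⁻¹ * (of x' * pr φ l') : HNNExtension H A B φ) =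
            (of y * pr φ m)⁻¹ * pr φ ((-u, x⁻¹ * x') :: l') := by
          have h8 : ((-u : ℤˣ) : ℤ) = -(u : ℤ) := by push_cast; rfl
          rw [pr_cons φ (u, y) m, pr_cons φ (-u, x⁻¹ * x') l', h8, zpow_neg, map_mul, map_inv]
          group
        rw [h3, h2, List.length_cons]
        omega
      · exfalso
        obtain ⟨h2, ⟨g1, l1, e1⟩, -⟩ := h1
        rw [neg_neg] at e1
        apply hno x u
        rw [nm_eq φ hl, nm_eq φ hl']
        exact ⟨(fd_iff φ x x u hl).2 ⟨⟨y, m, rfl⟩, by rw [inv_mul_cancel]; exact one_mem _⟩,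
          (fd_iff φ x x' u hl').2 ⟨⟨g1, l1, e1⟩, h2⟩⟩

end

end Pool.Agent.TH111.J616
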