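import Mathlib
import Pool.Agent.TH111.J616

set_option autoImplicit false

namespace Pool.Agent.TH111.J617

open Pool.Agent.TH109 HNNExtension

theorem exists_reps {H : Type} [Group H] (K : Subgroup H) (hK : K.index ≠ 0) :
    ∃ R : Finset H, R.card ≤ K.index ∧ ∀ h : H, ∃ r ∈ R, r⁻¹ * h ∈ K := by
  classical
  let _ : Fintype (H ⧸ K) := Subgroup.fintypeOfIndexNeZero hK
  refine ⟨Finset.univ.image (Quotient.out : H ⧸ K → H), ?_, ?_⟩
  · refine Finset.card_image_le.trans ?_
    rw [Finset.card_univ, ← Nat.card_eq_fintype_card]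
    rfl
  · intro h
    refine ⟨Quotient.out (h : H ⧸ K), Finset.mem_image_of_mem _ (Finset.mem_univ _), ?_⟩
    rw [← QuotientGroup.eq]
    exact QuotientGroup.out_eq' _

theorem hnn_ball {H : Type} [Group H] (A B : Subgroup H) (φ : A ≃* B)
    (hA : A.index ≠ 0) (hB : B.index ≠ 0) (E : HLen φ) (D : ℕ) :
    ∃ S : Finset (HNNExtension H A B φ), S.card ≤ (A.index + B.index + 1) ^ D ∧
      ∀ g, E.nm g ≤ D → ∃ s ∈ S, ∃ h : H, g = s * HNNExtension.of h := by
  classical
  obtain ⟨RA, hRA, hRA'⟩ := exists_reps A hA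
  obtain ⟨RB, hRB, hRB'⟩ := exists_reps B hB
  have hrep : ∀ (u : ℤˣ) (h : H), ∃ r ∈ (if u = 1 then RB else RA),
      r⁻¹ * h ∈ toSubgroup A B (-u) := by
    intro u h
    rcases Int.units_eq_one_or u with rfl | rfl
    · rw [if_pos rfl]
      exact hRB' h
    · rw [if_neg (by decide)]
      exact hRA' h
  induction D with
  | zero =>
    refine ⟨{1}, by simp, fun g hg => ⟨1, by simp, ?_⟩⟩
    obtain ⟨h, hh⟩ := (E.nm_zero g).1 (Nat.le_zero.1 hg)
    exact ⟨h, by rw [one_mul, hh]⟩
  | succ D ih =>
    obtain ⟨S, hS, hS'⟩ := ih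
    let S1 : Finset (HNNExtension H A B φ) :=
      (RB ×ˢ S).image fun x => of x.1 * t * x.2
    let S2 : Finset (HNNExtension H A B φ) :=
      (RA ×ˢ S).image fun x => of x.1 * t⁻¹ * x.2
    refine ⟨{1} ∪ (S1 ∪ S2), ?_, ?_⟩
    · have h1 : S1.card ≤ B.index * (A.index + B.index + 1) ^ D := by
        refine Finset.card_image_le.trans ?_
        rw [Finset.card_product]
        exact Nat.mul_le_mul hRB hS
      have h2 : S2.card ≤ A.index * (A.index + B.index + 1) ^ D := by
        refine Finset.card_image_le.trans ?_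
        rw [Finset.card_product]
        exact Nat.mul_le_mul hRA hS
      have h3 : 1 ≤ (A.index + B.index + 1) ^ D := Nat.one_le_pow _ _ (by omega)
      have h4 := Finset.card_union_le ({1} : Finset (HNNExtension H A B φ)) (S1 ∪ S2)
      have h5 := Finset.card_union_le S1 S2
      rw [Finset.card_singleton] at h4
      calc ({1} ∪ (S1 ∪ S2)).card ≤ 1 + (S1 ∪ S2).card := h4
        _ ≤ (A.index + B.index + 1) ^ D + (B.index * (A.index + B.index + 1) ^ D +
            A.index * (A.index + B.index + 1) ^ D) := by omega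
        _ = (A.index + B.index + 1) ^ (D + 1) := by ring
    · intro g hg
      rcases Nat.eq_zero_or_pos (E.nm g) with h0 | h0
      · obtain ⟨h, hh⟩ := (E.nm_zero g).1 h0
        exact ⟨1, Finset.mem_union_left _ (Finset.mem_singleton_self _), h, by rw [one_mul, hh]⟩
      · obtain ⟨h, u, hu⟩ := E.dir_ex g h0
        obtain ⟨r, hr, hrh⟩ := hrep u h
        obtain ⟨b, -, hb⟩ := J616.of_mul_t_pow φ u _ hrh
        obtain ⟨s, hs, h', hh'⟩ := hS' (of b * ((of h * t ^ (u : ℤ))⁻¹ * g)) (by
          have h1 := E.nm_of b 1 ((of h * t ^ (u : ℤ))⁻¹ * g)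
          rw [map_one, mul_one] at h1
          rw [h1]
          omega)
        have h2 : g = of r * t ^ (u : ℤ) * s * of h' := by
          have h3 : (of h : HNNExtension H A B φ) = of r * of (r⁻¹ * h) := by
            rw [← map_mul, mul_inv_cancel_left]
          have h4 : g = of h * t ^ (u : ℤ) * ((of h * t ^ (u : ℤ))⁻¹ * g) := by group
          rw [mul_assoc _ s, ← hh', ← mul_assoc _ (of b), mul_assoc (of r), ← hb,
            ← mul_assoc (of r), ← h3]
          exact h4
        refine ⟨of r * t ^ (u : ℤ) * s, ?_, h', h2⟩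
        apply Finset.mem_union_right
        rcases Int.units_eq_one_or u with rfl | rfl
        · rw [if_pos rfl] at hr
          apply Finset.mem_union_left
          refine Finset.mem_image.2 ⟨(r, s), Finset.mem_product.2 ⟨hr, hs⟩, ?_⟩
          simp
        · rw [if_neg (by decide)] at hr
          apply Finset.mem_union_right
          refine Finset.mem_image.2 ⟨(r, s), Finset.mem_product.2 ⟨hr, hs⟩, ?_⟩
          simp

end Pool.Agent.TH111.J617
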