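import Mathlib
import Pool.Agent.TH109.Defs

set_option autoImplicit false

namespace Pool.Agent.TH111.J623

open Pool.Agent.TH109 HNNExtension
open Pool.Agent.Helper943.LM (UA LenS lenS)

section cocycle

variable {H : Type} [Group H] {A B : Subgroup H} (φ : A ≃* B) (N : H → ℝ)

/-- The Lipschitz condition. -/
def Lip (Q : HNNExtension H A B φ → ℝ) : Prop := ∀ g, ∀ b ∈ B, |Q (g * of b) - Q g| ≤ N b

/-- pairs of a functional and a group element -/
@[ext]
structure EE where
  /-- the functional -/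
  f : (HNNExtension H A B φ → ℝ) → HNNExtension H A B φ → ℝ
  /-- the group element -/
  s : HNNExtension H A B φ

instance : Mul (EE φ) := ⟨fun a b => ⟨fun Q g => a.f Q g + b.f Q (g * a.s), a.s * b.s⟩⟩
instance : One (EE φ) := ⟨⟨fun _ _ => 0, 1⟩⟩
instance : Inv (EE φ) := ⟨fun a => ⟨fun Q g => - a.f Q (g * a.s⁻¹), a.s⁻¹⟩⟩

theorem mul_def (a b : EE φ) :
    a * b = ⟨fun Q g => a.f Q g + b.f Q (g * a.s), a.s * b.s⟩ := rfl

theorem one_def : (1 : EE φ) = ⟨fun _ _ => 0, 1⟩ := rfl

theorem inv_def (a : EE φ) : a⁻¹ = ⟨fun Q g => - a.f Q (g * a.s⁻¹), a.s⁻¹⟩ := rfl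

instance : Group (EE φ) where
  mul_assoc a b c := by
    rw [mul_def, mul_def, mul_def, mul_def]
    ext
    · dsimp only; rw [mul_assoc]; ring
    · exact mul_assoc _ _ _
  one_mul a := by
    rw [mul_def, one_def]
    ext
    · dsimp only; rw [mul_one, zero_add]
    · exact one_mul _
  mul_one a := by
    rw [mul_def, one_def]
    ext
    · dsimp only; rw [add_zero]
    · exact mul_one _
  inv_mul_cancel a := by
    rw [mul_def, one_def, inv_def]
    ext
    · dsimp only; ring
    · exact inv_mul_cancel _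

/-- the congruence -/
def cn : Con (EE φ) where
  r a b := a.s = b.s ∧ ∃ C : ℝ, ∀ Q, Lip φ N Q → ∀ g, |a.f Q g - b.f Q g| ≤ C
  iseqv := {
    refl := fun a => ⟨rfl, 0, fun Q _ g => by simp⟩
    symm := fun {a b} ⟨h1, C, h2⟩ => ⟨h1.symm, C, fun Q hQ g => by
      rw [abs_sub_comm]; exact h2 Q hQ g⟩
    trans := fun {a b c} ⟨h1, C, h2⟩ ⟨h3, C', h4⟩ => ⟨h1.trans h3, C + C', fun Q hQ g => by
      have e : a.f Q g - c.f Q g = (a.f Q g - b.f Q g) + (b.f Q g - c.f Q g) := by ring
      rw [e]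
      exact (abs_add_le _ _).trans (add_le_add (h2 Q hQ g) (h4 Q hQ g))⟩ }
  mul' := by
    rintro a b c d ⟨h1, C, h2⟩ ⟨h3, C', h4⟩
    refine ⟨by rw [mul_def, mul_def, h1, h3], C + C', fun Q hQ g => ?_⟩
    rw [mul_def, mul_def]
    dsimp only
    rw [h1]
    have e : a.f Q g + c.f Q (g * b.s) - (b.f Q g + d.f Q (g * b.s)) =
      (a.f Q g - b.f Q g) + (c.f Q (g * b.s) - d.f Q (g * b.s)) := by ring
    rw [e]
    exact (abs_add_le _ _).trans (add_le_add (h2 Q hQ g) (h4 Q hQ _))

/-- the base group -/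
def ofE : H →* EE φ where
  toFun x := ⟨fun _ _ => 0, of x⟩
  map_one' := by rw [one_def, map_one]
  map_mul' x y := by
    rw [mul_def]
    ext
    · dsimp only; rw [add_zero]
    · exact map_mul _ _ _

/-- the homomorphism -/
noncomputable def Ps : HNNExtension H A B φ →* (cn φ N).Quotient :=
  lift ((cn φ N).mk'.comp (ofE φ)) ((cn φ N).mk' ⟨fun Q g => Q g, t⟩) (by
    intro a
    rw [MonoidHom.comp_apply, MonoidHom.comp_apply, ← map_mul, ← map_mul]
    apply (Con.eq _).2
    refine ⟨t_mul_of a, N (φ a), fun Q hQ g => ?_⟩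
    show |(Q g + 0) - (0 + Q (g * of (φ a : H)))| ≤ N (φ a)
    rw [add_zero, zero_add, abs_sub_comm]
    exact hQ g _ (φ a).2)

theorem Ps_hev (w : List (H ⊕ Bool)) :
    Ps φ N (hev φ w) = (cn φ N).mk' ⟨fun Q g => hint Q w g, hev φ w⟩ := by
  induction w with
  | nil =>
    show Ps φ N 1 = (cn φ N).mk' 1
    rw [map_one, map_one]
  | cons x w ih =>
    rcases x with x | b
    · show Ps φ N (of x * hev φ w) = _
      rw [map_mul, ih]
      have h1 : Ps φ N (of x) = (cn φ N).mk' (ofE φ x) := by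
        unfold Ps; rw [lift_of]; rfl
      rw [h1, ← map_mul]
      congr 1
      rw [mul_def]
      ext
      · show 0 + hint _ w _ = hint _ w _
        rw [zero_add]
        rfl
      · rfl
    · have h1 : Ps φ N t = (cn φ N).mk' ⟨fun Q g => Q g, t⟩ := by
        unfold Ps; rw [lift_t]
      cases b
      · show Ps φ N (t⁻¹ * hev φ w) = _
        rw [map_mul, map_inv, ih, h1, ← map_inv, ← map_mul]
        rfl
      · show Ps φ N (t * hev φ w) = _
        rw [map_mul, ih, h1, ← map_mul]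
        rfl

/-- words with the same value have integrals at bounded distance -/
theorem close {w w' : List (H ⊕ Bool)} (h : hev φ w = hev φ w') :
    ∃ C : ℝ, ∀ Q, Lip φ N Q → ∀ g, |hint Q w g - hint Q w' g| ≤ C := by
  have h1 := Ps_hev φ N w
  have h2 := Ps_hev φ N w'
  rw [h, h2] at h1
  obtain ⟨-, C, hC⟩ := (Con.eq _).1 h1
  refine ⟨C, fun Q hQ g => ?_⟩
  rw [abs_sub_comm]
  exact hC Q hQ g

theorem hev_append (w w' : List (H ⊕ Bool)) : hev φ (w ++ w') = hev φ w * hev φ w' := by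
  induction w with
  | nil => exact (one_mul _).symm
  | cons x w ih =>
    rcases x with x | b
    · show of x * hev φ (w ++ w') = of x * hev φ w * hev φ w'
      rw [ih, mul_assoc]
    · cases b
      · show t⁻¹ * hev φ (w ++ w') = t⁻¹ * hev φ w * hev φ w'
        rw [ih, mul_assoc]
      · show t * hev φ (w ++ w') = t * hev φ w * hev φ w'
        rw [ih, mul_assoc]

theorem hint_append (Q : HNNExtension H A B φ → ℝ) (w w' : List (H ⊕ Bool)) :
    ∀ g, hint Q (w ++ w') g = hint Q w g + hint Q w' (g * hev φ w) := by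
  induction w with
  | nil =>
    intro g
    show hint Q w' g = 0 + hint Q w' (g * 1)
    rw [zero_add, mul_one]
  | cons x w ih =>
    intro g
    rcases x with x | b
    · show hint Q (w ++ w') (g * of x) = hint Q w (g * of x) + hint Q w' (g * (of x * hev φ w))
      rw [ih, mul_assoc]
    · cases b
      · show - Q (g * t⁻¹) + hint Q (w ++ w') (g * t⁻¹) = - Q (g * t⁻¹) + hint Q w (g * t⁻¹) +
          hint Q w' (g * (t⁻¹ * hev φ w))
        rw [ih, mul_assoc, add_assoc]
      · show Q g + hint Q (w ++ w') (g * t) = Q g + hint Q w (g * t) +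
          hint Q w' (g * (t * hev φ w))
        rw [ih, mul_assoc, add_assoc]

theorem hev_surj (g : HNNExtension H A B φ) : ∃ w, hev φ w = g := by
  induction g using HNNExtension.induction_on with
  | of x => exact ⟨[Sum.inl x], mul_one _⟩
  | t => exact ⟨[Sum.inr true], mul_one _⟩
  | mul a b ha hb =>
    obtain ⟨w, rfl⟩ := ha
    obtain ⟨w', rfl⟩ := hb
    exact ⟨w ++ w', hev_append φ w w'⟩
  | inv a ha =>
    obtain ⟨w, rfl⟩ := ha
    induction w with
    | nil => exact ⟨[], by show (1 : HNNExtension H A B φ) = 1⁻¹; rw [inv_one]⟩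
    | cons x w ih =>
      obtain ⟨v, hv⟩ := ih
      rcases x with x | b
      · refine ⟨v ++ [Sum.inl x⁻¹], ?_⟩
        rw [hev_append, hv]
        show (hev φ w)⁻¹ * (of x⁻¹ * 1) = (of x * hev φ w)⁻¹
        rw [mul_one, map_inv, mul_inv_rev]
      · cases b
        · refine ⟨v ++ [Sum.inr true], ?_⟩
          rw [hev_append, hv]
          show (hev φ w)⁻¹ * (t * 1) = (t⁻¹ * hev φ w)⁻¹
          rw [mul_one, mul_inv_rev, inv_inv]
        · refine ⟨v ++ [Sum.inr false], ?_⟩
          rw [hev_append, hv]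
          show (hev φ w)⁻¹ * (t⁻¹ * 1) = (t * hev φ w)⁻¹
          rw [mul_one, mul_inv_rev]

/-- a word for a group element -/
noncomputable def W (g : HNNExtension H A B φ) : List (H ⊕ Bool) := (hev_surj φ g).choose

theorem hev_W (g : HNNExtension H A B φ) : hev φ (W φ g) = g := (hev_surj φ g).choose_spec

variable (U : UA (HNNExtension H A B φ))

/-- translation of words -/
noncomputable def T (u : List U.A) : List (H ⊕ Bool) := u.flatMap fun a => W φ (U.mu a)

theorem hev_T (u : List U.A) : hev φ (T φ U u) = U.ev u := by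
  induction u with
  | nil => show (1 : HNNExtension H A B φ) = _; rw [UA.ev_nil]
  | cons a u ih =>
    have h1 : T φ U (a :: u) = W φ (U.mu a) ++ T φ U u := rfl
    rw [h1, hev_append, hev_W, ih]
    simp [UA.ev]

theorem T_append (u v : List U.A) : T φ U (u ++ v) = T φ U u ++ T φ U v := by
  simp [T]

/-- the ladder -/
theorem ladder (D : Set (HNNExtension H A B φ)) (hD : D.Finite) : ∃ C : ℝ, 0 ≤ C ∧
    ∀ Q, Lip φ N Q → ∀ (g : HNNExtension H A B φ) (u v : List U.A),
      (∀ n : ℕ, (U.ev (u.take n))⁻¹ * U.ev (v.take n) ∈ D) → ∀ n : ℕ,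
      |hint Q (T φ U (u.take n)) g + hint Q (W φ ((U.ev (u.take n))⁻¹ * U.ev (v.take n)))
        (g * U.ev (u.take n)) - hint Q (T φ U (v.take n)) g| ≤ C * ((n : ℝ) + 1) := by
  have hfA := U.finA
  have hfD : Finite D := hD.to_subtype
  have h1 : ∀ p : Option U.A × Option U.A × D, ∃ C : ℝ, ∀ Q, Lip φ N Q → ∀ g,
      |hint Q (T φ U p.1.toList ++ W φ ((U.ev p.1.toList)⁻¹ * p.2.2.1 * U.ev p.2.1.toList)) g -
        hint Q (W φ p.2.2.1 ++ T φ U p.2.1.toList) g| ≤ C := by
    intro p
    apply close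
    rw [hev_append, hev_append, hev_T, hev_T, hev_W, hev_W]
    group
  choose K hK using h1
  obtain ⟨C1, hC1⟩ := (Set.finite_range K).bddAbove
  obtain ⟨C0, hC0⟩ : ∃ C : ℝ, ∀ Q, Lip φ N Q → ∀ g,
      |hint Q (W φ 1) g - hint Q [] g| ≤ C := close φ N (by rw [hev_W]; rfl)
  refine ⟨max (max C0 C1) 0, le_max_right _ _, ?_⟩
  intro Q hQ g u v huv n
  induction n with
  | zero =>
    have h2 := hC0 Q hQ g
    have h3 : hint Q ([] : List (H ⊕ Bool)) g = 0 := rfl
    have h4 : T φ U ([] : List U.A) = [] := rfl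
    simp only [List.take_zero, UA.ev_nil, h4, h3, inv_one, mul_one, sub_zero,
      zero_add, Nat.cast_zero] at h2 ⊢
    exact h2.trans ((le_max_left _ _).trans (le_max_left _ _))
  | succ n ih =>
    have hu : u.take (n + 1) = u.take n ++ (u[n]?).toList := List.take_add_one
    have hv : v.take (n + 1) = v.take n ++ (v[n]?).toList := List.take_add_one
    set d := (U.ev (u.take n))⁻¹ * U.ev (v.take n) with hd
    have hdD : d ∈ D := huv n
    have h2 := hK (u[n]?, v[n]?, ⟨d, hdD⟩) Q hQ (g * U.ev (u.take n))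
    have h3 := hC1 ⟨(u[n]?, v[n]?, ⟨d, hdD⟩), rfl⟩
    have h4 : (U.ev (u.take (n + 1)))⁻¹ * U.ev (v.take (n + 1)) =
        (U.ev (u[n]?).toList)⁻¹ * d * U.ev (v[n]?).toList := by
      rw [hu, hv, UA.ev_append, UA.ev_append, hd]
      group
    rw [h4, hu, hv, T_append, T_append, hint_append, hint_append, UA.ev_append, hev_T, hev_T]
    dsimp only at h2 h3
    rw [hint_append, hint_append, hev_T, hev_W] at h2
    have h5 : g * U.ev (u.take n) * d = g * U.ev (v.take n) := by rw [hd]; group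
    rw [h5] at h2
    rw [← mul_assoc g]
    have h6 : ∀ x1 x2 x3 x4 y1 y2 : ℝ, x1 + x2 + x3 - (y1 + y2) =
        (x1 + x4 - y1) + (x2 + x3 - (x4 + y2)) := fun _ _ _ _ _ _ => by ring
    rw [h6 _ _ _ (hint Q (W φ d) (g * U.ev (u.take n)))]
    refine (abs_add_le _ _).trans ?_
    have h7 : K (u[n]?, v[n]?, ⟨d, hdD⟩) ≤ max (max C0 C1) 0 :=
      h3.trans ((le_max_right _ _).trans (le_max_left _ _))
    have h8 := ih
    push_cast
    linarith [h2.trans h7]

/-- the edge lemma -/
theorem edge (s : HNNExtension H A B φ) (w : List (H ⊕ Bool)) (hw : hev φ w = s) :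
    ∃ C : ℝ, 0 ≤ C ∧ ∀ Q, Lip φ N Q → ∀ u ∈ U.L, ∀ v ∈ U.L, U.ev u * s = U.ev v →
      |hint Q (T φ U u) 1 + hint Q w (U.ev u) - hint Q (T φ U v) 1| ≤ C * ((u.length : ℝ) + 1) ∧
      (v.length : ℝ) ≤ u.length + C := by
  obtain ⟨D, hD, hD2⟩ := U.ft' s
  obtain ⟨C1, hC1, hC1'⟩ := ladder φ N U D hD
  obtain ⟨C2, hC2⟩ := lenS U s
  obtain ⟨C3, hC3⟩ := close φ N (w := w) (w' := W φ s) (by rw [hw, hev_W])
  refine ⟨C1 * (C2 + 1) + |C3| + C2, by positivity, ?_⟩
  intro Q hQ u hu v hv huv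
  have h1 := hC2 u hu v hv huv
  have h2 := hC1' Q hQ 1 u v (hD2 u hu v hv huv) (u.length + C2)
  rw [List.take_of_length_le (by omega), List.take_of_length_le h1, one_mul] at h2
  have h3 : (U.ev u)⁻¹ * U.ev v = s := by rw [← huv]; group
  rw [h3] at h2
  have h4 := hC3 Q hQ (U.ev u)
  have hul : (0 : ℝ) ≤ u.length := by positivity
  constructor
  · have h6 : ∀ x1 x2 x3 y1 : ℝ, x1 + x2 - y1 = (x1 + x3 - y1) + (x2 - x3) :=
      fun _ _ _ _ => by ring
    rw [h6 _ _ (hint Q (W φ s) (U.ev u))]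
    refine (abs_add_le _ _).trans ?_
    push_cast at h2
    have h7 : C1 * ((u.length : ℝ) + C2 + 1) ≤ C1 * (C2 + 1) * (u.length + 1) := by
      have : (u.length : ℝ) + C2 + 1 ≤ (C2 + 1) * (u.length + 1) := by
        have : (0 : ℝ) ≤ C2 * u.length := by positivity
        nlinarith
      calc C1 * ((u.length : ℝ) + C2 + 1) ≤ C1 * ((C2 + 1) * (u.length + 1)) :=
            mul_le_mul_of_nonneg_left this hC1
        _ = _ := by ring
    have h8 : C3 ≤ |C3| * (u.length + 1) := by
      have := le_abs_self C3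
      have h9 : 0 ≤ |C3| * u.length := by positivity
      linarith
    have h9 : (0 : ℝ) ≤ C2 * (u.length + 1) := by positivity
    calc _ ≤ C1 * ((u.length : ℝ) + C2 + 1) + C3 := add_le_add h2 h4
      _ ≤ C1 * (C2 + 1) * (u.length + 1) + |C3| * (u.length + 1) + C2 * (u.length + 1) := by
          linarith
      _ = _ := by ring
  · have h5 : (v.length : ℝ) ≤ u.length + C2 := by exact_mod_cast h1
    have h6 : 0 ≤ C1 * ((C2 : ℝ) + 1) := by positivity
    have h7 := abs_nonneg C3
    linarith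

theorem areaS {H : Type} [Group H] {A B : Subgroup H} (φ : A ≃* B) (N : H → ℝ)
    (U : Pool.Agent.Helper943.LM.UA (HNNExtension H A B φ)) : AreaS φ N := by
  intro F hF
  have hfF : Finite F := hF.to_subtype
  have h1 : ∀ x : F ⊕ Bool, ∃ C : ℝ, 0 ≤ C ∧ ∀ Q, Lip φ N Q → ∀ u ∈ U.L, ∀ v ∈ U.L,
      U.ev u * hev φ [Sum.map Subtype.val id x] = U.ev v →
      |hint Q (T φ U u) 1 + hint Q [Sum.map Subtype.val id x] (U.ev u) - hint Q (T φ U v) 1| ≤
        C * ((u.length : ℝ) + 1) ∧ (v.length : ℝ) ≤ u.length + C :=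
    fun x => edge φ N U _ _ rfl
  choose K hK0 hK using h1
  obtain ⟨C', hC'⟩ := (Set.finite_range K).bddAbove
  obtain ⟨C, hC0, hC⟩ : ∃ C : ℝ, 0 ≤ C ∧ ∀ x, K x ≤ C :=
    ⟨max C' 0, le_max_right _ _, fun x => (hC' ⟨x, rfl⟩).trans (le_max_left _ _)⟩
  choose c hcL hcev using U.ev_surj
  have key : ∀ Q, Lip φ N Q → ∀ (w : List (H ⊕ Bool)) (g : HNNExtension H A B φ),
      (∀ x, Sum.inl x ∈ w → x ∈ F) →
      |hint Q (T φ U (c g)) 1 + hint Q w g - hint Q (T φ U (c (g * hev φ w))) 1| ≤
        w.length * C * ((c g).length + w.length * C + 1) := by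
    intro Q hQ w
    induction w with
    | nil =>
      intro g _
      show |hint Q (T φ U (c g)) 1 + 0 - hint Q (T φ U (c (g * 1))) 1| ≤ _
      rw [mul_one, add_zero, sub_self, abs_zero]
      simp
    | cons x w ih =>
      intro g hx
      obtain ⟨x', hx'⟩ : ∃ x' : F ⊕ Bool, Sum.map Subtype.val id x' = x := by
        rcases x with x | b
        · exact ⟨Sum.inl ⟨x, hx x (List.mem_cons_self ..)⟩, rfl⟩
        · exact ⟨Sum.inr b, rfl⟩
      have h2 := hK x' Q hQ (c g) (hcL g) (c (g * hev φ [x])) (hcL _) (by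
        rw [hcev, hcev, hx'])
      rw [hx', hcev] at h2
      have h3 := ih (g * hev φ [x]) (fun y hy => hx y (List.mem_cons_of_mem _ hy))
      have h4 : hint Q (x :: w) g = hint Q [x] g + hint Q w (g * hev φ [x]) :=
        hint_append φ Q [x] w g
      have h5 : hev φ (x :: w) = hev φ [x] * hev φ w := hev_append φ [x] w
      rw [mul_assoc, ← h5] at h3
      rw [h4]
      have h6 : ∀ x1 x2 x3 y1 z : ℝ, x1 + (x2 + x3) - y1 = (x1 + x2 - z) + (z + x3 - y1) :=
        fun _ _ _ _ _ => by ring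
      rw [h6 _ _ _ _ (hint Q (T φ U (c (g * hev φ [x]))) 1)]
      refine (abs_add_le _ _).trans ?_
      refine (add_le_add h2.1 h3).trans ?_
      have h7 := h2.2
      have h8 := hC x'
      have h9 := hK0 x'
      rw [List.length_cons]
      push_cast
      set n : ℝ := (w.length : ℝ) with hn
      have hn0 : 0 ≤ n := by positivity
      set L : ℝ := ((c g).length : ℝ) with hL
      have hL0 : 0 ≤ L := by positivity
      set L' : ℝ := ((c (g * hev φ [x])).length : ℝ) with hL'
      have e1 : K x' * (L + 1) ≤ C * (L + (n + 1) * C + 1) := by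
        have e2 : K x' * (L + 1) ≤ C * (L + 1) := mul_le_mul_of_nonneg_right h8 (by linarith)
        have e3 : 0 ≤ C * ((n + 1) * C) := by positivity
        linarith
      have e2 : n * C * (L' + n * C + 1) ≤ n * C * (L + (n + 1) * C + 1) := by
        apply mul_le_mul_of_nonneg_left _ (by positivity)
        linarith
      calc _ ≤ C * (L + (n + 1) * C + 1) + n * C * (L + (n + 1) * C + 1) := add_le_add e1 e2
        _ = _ := by ring
  refine ⟨C * ((c 1).length + C + 1), ?_⟩
  intro Q hQ w hwF hw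
  have h2 := key Q hQ w 1 hwF
  rw [hw, mul_one, add_sub_cancel_left] at h2
  refine h2.trans ?_
  set n : ℝ := (w.length : ℝ) with hn
  have hn0 : 0 ≤ n := by positivity
  set L : ℝ := ((c 1).length : ℝ) with hL
  have hL0 : 0 ≤ L := by positivity
  have e1 : L + n * C + 1 ≤ (L + C + 1) * (n + 1) := by
    have : 0 ≤ L * n := by positivity
    nlinarith
  have e2 : 0 ≤ L + n * C + 1 := by positivity
  have e3 : 0 ≤ (L + C + 1) * (n + 1) := by positivity
  calc n * C * (L + n * C + 1) ≤ (n + 1) * C * ((L + C + 1) * (n + 1)) := by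
        apply mul_le_mul _ e1 e2 (by positivity)
        apply mul_le_mul_of_nonneg_right _ hC0
        linarith
    _ = _ := by ring

end cocycle

end Pool.Agent.TH111.J623
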