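import Mathlib
import Pool.Agent.Helper943.LM.Aut

set_option autoImplicit false

namespace Pool.Agent.TH111.J629

open Pool.Agent.Helper943.LM

theorem ua_of_ft {G : Type} [Group G] (h : ∃ k : ℕ, ∃ gen : Fin k → G,
          ∃ σ : Type, ∃ _ : Fintype σ, ∃ M : DFA (Fin k) σ,
            (∀ g : G, ∃ u ∈ M.accepts, (u.map gen).prod = g) ∧
            ∃ K : ℕ, ∀ u ∈ M.accepts, ∀ v ∈ M.accepts,
              ((v.map gen).prod = (u.map gen).prod ∨
                ∃ i : Fin k, (v.map gen).prod = (u.map gen).prod * gen i) →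
              ∀ t : ℕ, ∃ w : List (Fin k), w.length ≤ K ∧
                ((u.take t).map gen).prod * (w.map gen).prod = ((v.take t).map gen).prod) :
    Nonempty (Pool.Agent.Helper943.LM.UA G) := by
  obtain ⟨k, gen, σ, _, M, hs, K, hK⟩ := h
  apply uaOfAut
  refine ⟨Fin k, inferInstance, gen, σ, inferInstance, M, hs, fun x => ?_⟩
  have hD : ((fun w : List (Fin k) => (w.map gen).prod) '' {w | w.length ≤ K}).Finite :=
    (List.finite_length_le (Fin k) K).image _
  refine autoLemma gen M _ _ hD ?_
  intro u v hu hv he t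
  have h1 : (v.map gen).prod = (u.map gen).prod ∨
      ∃ i : Fin k, (v.map gen).prod = (u.map gen).prod * gen i := by
    cases x with
    | none =>
      left
      have h2 : (u.map gen).prod * 1 = (v.map gen).prod := he
      rw [← h2, mul_one]
    | some i => exact Or.inr ⟨i, he.symm⟩
  obtain ⟨w, hw, h2⟩ := hK u hu v hv h1 t
  refine ⟨w, hw, ?_⟩
  show (w.map gen).prod = _
  rw [← h2, inv_mul_cancel_left]

theorem ua_transfer {G G' : Type} [Group G] [Group G'] (f : G ≃* G')
    (U : Pool.Agent.Helper943.LM.UA G) : Nonempty (Pool.Agent.Helper943.LM.UA G') := by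
  have hp : ∀ w : List U.A, (w.map fun a => f (U.mu a)).prod = f ((w.map U.mu).prod) := by
    intro w
    rw [map_list_prod, List.map_map]
    rfl
  refine ⟨{ A := U.A, finA := U.finA, mu := fun a => f (U.mu a), S := U.S, finS := U.finS,
            step := U.step, s0 := U.s0, acc := U.acc, surj := ?_, inj := ?_, ft := ?_ }⟩
  · intro g
    obtain ⟨w, hw, h⟩ := U.surj (f.symm g)
    refine ⟨w, hw, ?_⟩
    rw [hp, h, MulEquiv.apply_symm_apply]
  · intro w w' hw hw' h
    rw [hp, hp] at h
    exact U.inj w w' hw hw' (f.injective h)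
  · intro g
    obtain ⟨D, hD, h⟩ := U.ft (f.symm g)
    refine ⟨f '' D, hD.image _, ?_⟩
    intro w w' hw hw' he t
    rw [hp, hp] at he
    rw [hp, hp]
    have h1 : (w.map U.mu).prod * f.symm g = (w'.map U.mu).prod := by
      apply f.injective
      rw [map_mul, MulEquiv.apply_symm_apply, he]
    exact ⟨_, h w w' hw hw' h1 t, by rw [map_mul, map_inv]⟩

end Pool.Agent.TH111.J629
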