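import Mathlib
import Pool.Agent.TH109.Core
import Pool.Agent.TH111.J617

set_option autoImplicit false

namespace Pool.Agent.TH111.J630

open Pool.Agent.TH109 HNNExtension

section

variable {H : Type} [Group H] {A B : Subgroup H} {φ : A ≃* B} (E : HLen φ)

/-- the vertex stabilizer -/
abbrev KK (φ : A ≃* B) : Subgroup (HNNExtension H A B φ) := MonoidHom.range of

/-- the vertices -/
abbrev VV (φ : A ≃* B) : Type := HNNExtension H A B φ ⧸ KK φ

/-- the vertex of an element -/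
abbrev mk (g : HNNExtension H A B φ) : VV φ := (g : VV φ)

theorem mk_eq {g g' : HNNExtension H A B φ} : mk g = mk g' ↔ ∃ h : H, g' = g * of h := by
  rw [QuotientGroup.eq]
  constructor
  · rintro ⟨h, hh⟩
    exact ⟨h, by rw [hh, mul_inv_cancel_left]⟩
  · rintro ⟨h, rfl⟩
    exact ⟨h, by rw [inv_mul_cancel_left]⟩

theorem mk_surj (a : VV φ) : ∃ g, a = mk g := by
  induction a using QuotientGroup.induction_on with
  | H g => exact ⟨g, rfl⟩

theorem out_mk (g : HNNExtension H A B φ) : ∃ h : H, (mk g).out = g * of h := by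
  have h1 : mk (mk g).out = mk g := QuotientGroup.out_eq' _
  exact mk_eq.1 h1.symm

theorem nm_one_mul (h : H) (g : HNNExtension H A B φ) : E.nm (of h * g) = E.nm g := by
  have := E.nm_of h 1 g
  rwa [map_one, mul_one] at this

theorem nm_mul_one (h : H) (g : HNNExtension H A B φ) : E.nm (g * of h) = E.nm g := by
  have := E.nm_of 1 h g
  rwa [map_one, one_mul] at this

/-- the distance -/
noncomputable def dT (a b : VV φ) : ℕ := E.nm (a.out⁻¹ * b.out)

theorem dT_mk (g g' : HNNExtension H A B φ) : dT E (mk g) (mk g') = E.nm (g⁻¹ * g') := by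
  obtain ⟨h, hh⟩ := out_mk g
  obtain ⟨h', hh'⟩ := out_mk g'
  unfold dT
  rw [hh, hh']
  have : (g * of h)⁻¹ * (g' * of h') = of h⁻¹ * (g⁻¹ * g') * of h' := by
    rw [map_inv]; group
  rw [this, E.nm_of]

/-- the exponent sum -/
def tauH (φ : A ≃* B) : HNNExtension H A B φ →* Multiplicative ℤ :=
  lift 1 (Multiplicative.ofAdd 1) (fun _ => by simp)

/-- the exponent sum -/
def tau (g : HNNExtension H A B φ) : ℤ := Multiplicative.toAdd (tauH φ g)

theorem tau_mul (g g' : HNNExtension H A B φ) : tau (g * g') = tau g + tau g' := by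
  unfold tau; rw [map_mul, toAdd_mul]

theorem tau_of (h : H) : tau (of h : HNNExtension H A B φ) = 0 := by
  unfold tau tauH; rw [lift_of]; rfl

theorem tau_t : tau (t : HNNExtension H A B φ) = 1 := by
  unfold tau tauH; rw [lift_t]; rfl

theorem tau_one : tau (1 : HNNExtension H A B φ) = 0 := by
  unfold tau; rw [map_one]; rfl

theorem tau_inv (g : HNNExtension H A B φ) : tau g⁻¹ = - tau g := by
  unfold tau; rw [map_inv, toAdd_inv]

theorem tau_tpow (u : ℤˣ) : |tau (t ^ (u : ℤ) : HNNExtension H A B φ)| = 1 := by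
  rcases Int.units_eq_one_or u with rfl | rfl
  · simp [tau_t]
  · simp [tau_t, tau_inv]

theorem tau_le : ∀ (n : ℕ) (g : HNNExtension H A B φ), E.nm g = n → |tau g| ≤ (n : ℤ) := by
  intro n
  induction n with
  | zero =>
    intro g hg
    obtain ⟨h, rfl⟩ := (E.nm_zero g).1 hg
    rw [tau_of]; simp
  | succ n ih =>
    intro g hg
    obtain ⟨h, u, hu⟩ := E.dir_ex g (by omega)
    have h1 := ih ((of h * t ^ (u : ℤ))⁻¹ * g) (by omega)
    have h2 : g = of h * t ^ (u : ℤ) * ((of h * t ^ (u : ℤ))⁻¹ * g) := by group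
    have h3 : tau g = tau (t ^ (u : ℤ) : HNNExtension H A B φ) +
        tau ((of h * t ^ (u : ℤ))⁻¹ * g) := by
      conv_lhs => rw [h2]
      rw [tau_mul, tau_mul, tau_of, zero_add]
    rw [h3]
    refine (abs_add_le _ _).trans ?_
    rw [tau_tpow]
    push_cast
    linarith

/-- the height -/
noncomputable def ex (a : VV φ) : ℤ := tau a.out

theorem ex_mk (g : HNNExtension H A B φ) : ex (mk g) = tau g := by
  obtain ⟨h, hh⟩ := out_mk g
  unfold ex
  rw [hh, tau_mul, tau_of, add_zero]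

theorem nm_t_inv (g : HNNExtension H A B φ) :
    E.nm (t⁻¹ * g) = E.nm g + 1 ∨ E.nm (t⁻¹ * g) + 1 = E.nm g := by
  have := E.nm_step g (-1)
  simpa using this

theorem dir_one (g : HNNExtension H A B φ) :
    E.nm ((of (1 : H) * t ^ ((1 : ℤˣ) : ℤ))⁻¹ * g) = E.nm (t⁻¹ * g) := by
  simp

include E in
theorem mem_B_of {b k : H} (h : (of b * t : HNNExtension H A B φ) = t * of k) : b ∈ B := by
  have h1 : E.nm ((of (1 : H) * t ^ ((1 : ℤˣ) : ℤ))⁻¹ * (t : HNNExtension H A B φ)) + 1 =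
      E.nm (t : HNNExtension H A B φ) := by
    rw [dir_one, inv_mul_cancel, E.nm_one, E.nm_t]
  have h2 : E.nm ((of b * t ^ ((1 : ℤˣ) : ℤ))⁻¹ * (t : HNNExtension H A B φ)) + 1 =
      E.nm (t : HNNExtension H A B φ) := by
    have h3 : ((of b * t ^ ((1 : ℤˣ) : ℤ))⁻¹ * (t : HNNExtension H A B φ)) = of k⁻¹ := by
      rw [Units.val_one, zpow_one, h, map_inv]; group
    rw [h3, (E.nm_zero _).2 ⟨_, rfl⟩, E.nm_t]
  have h3 := (E.dir_unique _ _ _ _ _ h1 h2).2
  rw [inv_one, one_mul] at h3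
  exact h3

theorem of_mul_t' {b : H} (hb : b ∈ B) :
    ∃ k : H, (of b * t : HNNExtension H A B φ) = t * of k := by
  have := of_mul_t (φ := φ) ⟨b, hb⟩
  exact ⟨_, this⟩

theorem cross (y y' : HNNExtension H A B φ) (h1 : E.nm (t⁻¹ * y) < E.nm y)
    (h2 : ¬ E.nm (t⁻¹ * y') < E.nm y') : E.nm (y⁻¹ * y') = E.nm y + E.nm y' := by
  apply E.dir_add
  rintro h u ⟨h3, h4⟩
  have h5 : E.nm ((of (1 : H) * t ^ ((1 : ℤˣ) : ℤ))⁻¹ * y) + 1 = E.nm y := by
    rw [dir_one]
    rcases nm_t_inv E y with h6 | h6 <;> omega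
  obtain ⟨rfl, h7⟩ := E.dir_unique _ _ _ _ _ h5 h3
  rw [inv_one, one_mul] at h7
  have h7' : h ∈ B := h7
  obtain ⟨k, hk⟩ := of_mul_t' (φ := φ) h7'
  have h8 : (of h * t ^ ((1 : ℤˣ) : ℤ))⁻¹ * y' = of k⁻¹ * (t⁻¹ * y') := by
    rw [Units.val_one, zpow_one, hk, map_inv]; group
  rw [h8, nm_one_mul] at h4
  omega

/-- the positive neighbours -/
def nb (g : HNNExtension H A B φ) : H ⧸ B → VV φ :=
  Quotient.lift (fun h : H => mk (g * of h * t)) (by
    intro h h' hh
    have h1 : h⁻¹ * h' ∈ B := QuotientGroup.leftRel_apply.1 hh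
    obtain ⟨k, hk⟩ := of_mul_t' (φ := φ) h1
    apply mk_eq.2
    refine ⟨k, ?_⟩
    rw [mul_assoc _ t, ← hk, map_mul, map_inv]
    group)

include E in
theorem nb_inj (g : HNNExtension H A B φ) : Function.Injective (nb g) := by
  intro x y
  induction x using QuotientGroup.induction_on with
  | H h =>
    induction y using QuotientGroup.induction_on with
    | H h' =>
      intro hh
      have h1 : mk (g * of h * t) = mk (g * of h' * t) := hh
      obtain ⟨k, hk⟩ := mk_eq.1 h1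
      apply QuotientGroup.eq.2
      apply mem_B_of E (k := k)
      rw [map_mul, map_inv]
      have h2 : (of h' * t : HNNExtension H A B φ) = of h * t * of k := by
        have h3 : g * (of h' * t) = g * (of h * t * of k) := by
          rw [← mul_assoc, hk]; group
        exact mul_left_cancel h3
      rw [mul_assoc, h2]
      group

/-- the tree -/
noncomputable def tr (hA : A.index ≠ 0) (hB : B.index ≠ 0) (r : H) (hr : r ∉ B) :
    TreeX (HNNExtension H A B φ) where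
  V := VV φ
  dT := dT E
  dT_self a := by
    obtain ⟨g, rfl⟩ := mk_surj a
    rw [dT_mk, inv_mul_cancel, E.nm_one]
  dT_comm a b := by
    obtain ⟨g, rfl⟩ := mk_surj a
    obtain ⟨g', rfl⟩ := mk_surj b
    rw [dT_mk, dT_mk, ← E.nm_inv, mul_inv_rev, inv_inv]
  dT_tri a b c := by
    obtain ⟨g, rfl⟩ := mk_surj a
    obtain ⟨g', rfl⟩ := mk_surj b
    obtain ⟨g'', rfl⟩ := mk_surj c
    rw [dT_mk, dT_mk, dT_mk]
    have := E.nm_mul (g⁻¹ * g') (g'⁻¹ * g'')
    rwa [mul_assoc, mul_inv_cancel_left] at this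
  dT_zero a b := by
    obtain ⟨g, rfl⟩ := mk_surj a
    obtain ⟨g', rfl⟩ := mk_surj b
    rw [dT_mk]
    intro h
    obtain ⟨x, hx⟩ := (E.nm_zero _).1 h
    apply mk_eq.2
    exact ⟨x, by rw [← hx, mul_inv_cancel_left]⟩
  act g a := g • a
  act_one a := one_smul _ a
  act_mul g h a := mul_smul g h a
  act_dist g a b := by
    obtain ⟨x, rfl⟩ := mk_surj a
    obtain ⟨y, rfl⟩ := mk_surj b
    show dT E (mk (g * x)) (mk (g * y)) = _
    rw [dT_mk, dT_mk, mul_inv_rev, mul_assoc, inv_mul_cancel_left]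
  o := mk 1
  trans a := by
    obtain ⟨g, rfl⟩ := mk_surj a
    refine ⟨g, ?_⟩
    show mk (g * 1) = mk g
    rw [mul_one]
  E a b := ∃ g : HNNExtension H A B φ, a = g • mk 1 ∧ b = (g * t) • mk 1
  E_act g a b := by
    rintro ⟨x, rfl, rfl⟩
    exact ⟨g * x, (mul_smul _ _ _).symm, by rw [mul_assoc, mul_smul g]⟩
  E_one a b := by
    rintro ⟨x, rfl, rfl⟩
    show dT E (mk (x * 1)) (mk (x * t * 1)) = 1
    rw [dT_mk, mul_one, mul_one, inv_mul_cancel_left, E.nm_t]
  Hf_mem a b w := by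
    rintro ⟨x, rfl, rfl⟩
    obtain ⟨y, rfl⟩ := mk_surj w
    show dT E (mk (x * t * 1)) (mk y) < dT E (mk (x * 1)) (mk y) →
      dT E (mk (x * 1)) (mk y) = dT E (mk (x * t * 1)) (mk y) + 1
    rw [dT_mk, dT_mk, mul_one, mul_one, mul_inv_rev, mul_assoc]
    intro h
    rcases nm_t_inv E (x⁻¹ * y) with h1 | h1 <;> omega
  Hf_not a b w := by
    rintro ⟨x, rfl, rfl⟩
    obtain ⟨y, rfl⟩ := mk_surj w
    show ¬ dT E (mk (x * t * 1)) (mk y) < dT E (mk (x * 1)) (mk y) →
      dT E (mk (x * t * 1)) (mk y) = dT E (mk (x * 1)) (mk y) + 1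
    rw [dT_mk, dT_mk, mul_one, mul_one, mul_inv_rev, mul_assoc]
    intro h
    rcases nm_t_inv E (x⁻¹ * y) with h1 | h1 <;> omega
  Hf_cross a b w w' := by
    rintro ⟨x, rfl, rfl⟩
    obtain ⟨y, rfl⟩ := mk_surj w
    obtain ⟨y', rfl⟩ := mk_surj w'
    show dT E (mk (x * t * 1)) (mk y) < dT E (mk (x * 1)) (mk y) →
      ¬ dT E (mk (x * t * 1)) (mk y') < dT E (mk (x * 1)) (mk y') →
      dT E (mk y) (mk y') = dT E (mk y) (mk (x * t * 1)) + 1 + dT E (mk (x * 1)) (mk y')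
    rw [dT_mk, dT_mk, dT_mk, dT_mk, dT_mk, dT_mk, mul_one, mul_one, mul_inv_rev, mul_assoc,
      mul_assoc]
    intro h1 h2
    have h3 := cross E (x⁻¹ * y) (x⁻¹ * y') h1 h2
    have h4 : (x⁻¹ * y)⁻¹ * (x⁻¹ * y') = y⁻¹ * y' := by group
    have h5 : y⁻¹ * (x * t) = (t⁻¹ * (x⁻¹ * y))⁻¹ := by group
    rw [h4] at h3
    rw [h5, E.nm_inv, h3]
    rcases nm_t_inv E (x⁻¹ * y) with h6 | h6 <;> omega
  d := B.index
  ch_fin a := by
    obtain ⟨g, rfl⟩ := mk_surj a
    have hf : Finite (H ⧸ B) := (Nat.finite_of_card_ne_zero hB)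
    apply (Set.finite_range (nb g)).subset
    rintro _ ⟨x, hx, rfl⟩
    have hx' : mk g = mk (x * 1) := hx
    rw [mul_one] at hx'
    obtain ⟨h, rfl⟩ := mk_eq.1 hx'
    exact ⟨(h : H ⧸ B), by
      show mk (g * of h * t) = mk (g * of h * t * 1)
      rw [mul_one]⟩
  ch_card a := by
    obtain ⟨g, rfl⟩ := mk_surj a
    have h1 : {b | ∃ x : HNNExtension H A B φ, mk g = x • mk 1 ∧ b = (x * t) • mk 1} =
        Set.range (nb g) := by
      ext b
      constructor
      · rintro ⟨x, hx, rfl⟩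
        have hx' : mk g = mk (x * 1) := hx
        rw [mul_one] at hx'
        obtain ⟨h, rfl⟩ := mk_eq.1 hx'
        exact ⟨(h : H ⧸ B), by
          show mk (g * of h * t) = mk (g * of h * t * 1)
          rw [mul_one]⟩
      · rintro ⟨y, rfl⟩
        induction y using QuotientGroup.induction_on with
        | H h =>
          refine ⟨g * of h, ?_, ?_⟩
          · show mk g = mk (g * of h * 1)
            rw [mul_one]
            exact mk_eq.2 ⟨h, rfl⟩
          · show mk (g * of h * t) = mk (g * of h * t * 1)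
            rw [mul_one]
    show Set.ncard {b | ∃ x : HNNExtension H A B φ, mk g = x • mk 1 ∧ b = (x * t) • mk 1} =
      B.index
    rw [h1, ← Nat.card_coe_set_eq, Nat.card_range_of_injective (nb_inj E g)]
    rfl
  ex := ex
  ex_o := by rw [ex_mk, tau_one]
  ex_E a b := by
    rintro ⟨x, rfl, rfl⟩
    show ex (mk (x * t * 1)) = ex (mk (x * 1)) + 1
    rw [ex_mk, ex_mk, mul_one, mul_one, tau_mul, tau_t]
  ex_lip a b := by
    obtain ⟨g, rfl⟩ := mk_surj a
    obtain ⟨g', rfl⟩ := mk_surj b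
    rw [ex_mk, ex_mk, dT_mk]
    have h1 := tau_le E _ (g⁻¹ * g') rfl
    rw [tau_mul, tau_inv] at h1
    rw [abs_sub_comm]
    have h2 : tau g' - tau g = -tau g + tau g' := by ring
    rw [h2]
    exact h1
  tau := tau
  tau_mul := tau_mul
  act_ex g a := by
    obtain ⟨x, rfl⟩ := mk_surj a
    show ex (mk (g * x)) = tau g + ex (mk x)
    rw [ex_mk, ex_mk, tau_mul]
  trunk n := mk (t ^ n)
  side n := mk (t ^ n * of r * t)
  trunk_zero := by rw [pow_zero]
  trunk_E n := by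
    refine ⟨t ^ n, ?_, ?_⟩
    · show mk (t ^ n) = mk (t ^ n * 1)
      rw [mul_one]
    · show mk (t ^ (n + 1)) = mk (t ^ n * t * 1)
      rw [mul_one, pow_succ]
  side_E n := by
    refine ⟨t ^ n * of r, ?_, ?_⟩
    · show mk (t ^ n) = mk (t ^ n * of r * 1)
      rw [mul_one]
      exact mk_eq.2 ⟨r, rfl⟩
    · show mk (t ^ n * of r * t) = mk (t ^ n * of r * t * 1)
      rw [mul_one]
  side_ne n := by
    intro h
    obtain ⟨k, hk⟩ := mk_eq.1 h
    apply hr
    apply mem_B_of E (k := k⁻¹)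
    rw [pow_succ, mul_assoc, mul_assoc] at hk
    have h2 := mul_left_cancel hk
    rw [map_inv, eq_mul_inv_iff_mul_eq, mul_assoc]
    exact h2.symm
  ball_fin D := by
    obtain ⟨S, -, hS⟩ := J617.hnn_ball A B φ hA hB E D
    apply (S.finite_toSet.image (fun s => mk s)).subset
    intro v hv
    obtain ⟨g, rfl⟩ := mk_surj v
    have hv' : dT E (mk 1) (mk g) ≤ D := hv
    rw [dT_mk, inv_one, one_mul] at hv'
    obtain ⟨s, hs, h, rfl⟩ := hS g hv'
    exact ⟨s, hs, mk_eq.2 ⟨h, rfl⟩⟩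

/-- Bass-Serre tree of an HNN-extension as `TreeX` -/
theorem hnn_tree {H : Type} [Group H] (A B : Subgroup H) (φ : A ≃* B)
    (hA : A.index ≠ 0) (hB : B.index ≠ 0) (r : H) (hr : r ∉ B) (E : HLen φ) :
    ∃ T : TreeX (HNNExtension H A B φ), T.d = B.index ∧
      (∀ g, T.act g T.o = T.o ↔ ∃ h : H, g = HNNExtension.of h) ∧
      (∀ a b, T.E a b ↔ ∃ g, a = T.act g T.o ∧ b = T.act (g * HNNExtension.t) T.o) ∧
      (∀ g, T.dT T.o (T.act g T.o) = E.nm g) ∧
      (∀ h : H, T.tau (HNNExtension.of h) = 0) ∧ T.tau HNNExtension.t = 1 ∧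
      (∀ D : ℕ, {v | T.dT T.o v ≤ D}.ncard ≤ (A.index + B.index + 1) ^ D) := by
  refine ⟨tr E hA hB r hr, rfl, ?_, fun a b => Iff.rfl, ?_, tau_of, tau_t, ?_⟩
  · intro g
    show mk (g * 1) = mk 1 ↔ _
    rw [mul_one]
    constructor
    · intro h
      obtain ⟨k, hk⟩ := mk_eq.1 h.symm
      exact ⟨k, by rw [hk, one_mul]⟩
    · rintro ⟨h, rfl⟩
      exact (mk_eq.2 ⟨h, (one_mul _).symm⟩).symm
  · intro g
    show dT E (mk 1) (mk (g * 1)) = E.nm g
    rw [dT_mk, inv_one, one_mul, mul_one]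
  · intro D
    obtain ⟨S, hS1, hS⟩ := J617.hnn_ball A B φ hA hB E D
    show Set.ncard {v : VV φ | dT E (mk 1) v ≤ D} ≤ _
    have h1 : {v : VV φ | dT E (mk 1) v ≤ D} ⊆ (fun s => (mk s : VV φ)) '' (S : Set _) := by
      intro v hv
      obtain ⟨g, rfl⟩ := mk_surj v
      have hv' : dT E (mk 1) (mk g) ≤ D := hv
      rw [dT_mk, inv_one, one_mul] at hv'
      obtain ⟨s, hs, h, rfl⟩ := hS g hv'
      exact ⟨s, hs, mk_eq.2 ⟨h, rfl⟩⟩
    refine (Set.ncard_le_ncard h1 (S.finite_toSet.image _)).trans ?_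
    refine (Set.ncard_image_le S.finite_toSet).trans ?_
    rw [Set.ncard_coe_finset]
    exact hS1

end

end Pool.Agent.TH111.J630
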