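import Mathlib
import Pool.Agent.TH109.Core

set_option autoImplicit false

namespace Pool.Agent.TH111.J724

open Pool.Agent.TH109
open HNNExtension

/-- integral vectors -/
abbrev ci {n : ℕ} (x : Fin n → ℤ) : Fin n → ℚ := fun i => ((x i : ℤ) : ℚ)

theorem ci_inj {n : ℕ} {x y : Fin n → ℤ} (h : ci x = ci y) : x = y := by
  funext i
  have := congrFun h i
  exact_mod_cast this

theorem ci_add {n : ℕ} (x y : Fin n → ℤ) : ci (x + y) = ci x + ci y := by
  funext i
  simp [ci]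

/-- the box -/
theorem box (n r : ℕ) (S : Finset (Fin n → ℤ)) (hS : ∀ x ∈ S, ∀ i, |x i| ≤ (r : ℤ)) :
    S.card ≤ (2 * r + 1) ^ n := by
  have h1 : S ⊆ Fintype.piFinset fun _ : Fin n => Finset.Icc (-(r : ℤ)) r := by
    intro x hx
    rw [Fintype.mem_piFinset]
    intro i
    rw [Finset.mem_Icc]
    exact abs_le.1 (hS x hx i)
  refine (Finset.card_le_card h1).trans ?_
  rw [Fintype.card_piFinset]
  simp only [Int.card_Icc, Finset.prod_const, Finset.card_univ, Fintype.card_fin]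
  apply Nat.pow_le_pow_left
  omega

theorem box_finite (n r : ℕ) : {x : Fin n → ℤ | ∀ i, |x i| ≤ (r : ℤ)}.Finite := by
  apply (Fintype.piFinset fun _ : Fin n => Finset.Icc (-(r : ℤ)) r).finite_toSet.subset
  intro x hx
  rw [Finset.mem_coe, Fintype.mem_piFinset]
  intro i
  rw [Finset.mem_Icc]
  exact abs_le.1 (hx i)

section

variable {n : ℕ} {A B : Subgroup (Multiplicative (Fin n → ℤ))} {φ : A ≃* B}
    (T : TreeX (HNNExtension (Multiplicative (Fin n → ℤ)) A B φ))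

theorem act_inv (g : HNNExtension (Multiplicative (Fin n → ℤ)) A B φ) (a : T.V) :
    T.act g⁻¹ (T.act g a) = a := by
  rw [← T.act_mul, inv_mul_cancel, T.act_one]

theorem act_inj (g : HNNExtension (Multiplicative (Fin n → ℤ)) A B φ) {a b : T.V}
    (h : T.act g a = T.act g b) : a = b := by
  rw [← act_inv T g a, h, act_inv]

theorem same (hT1 : ∀ g, T.act g T.o = T.o ↔ ∃ h, g = HNNExtension.of h)
    {g g' : HNNExtension (Multiplicative (Fin n → ℤ)) A B φ}
    (h : T.act g' T.o = T.act g T.o) : ∃ x, g' = g * of x := by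
  have h1 : T.act (g⁻¹ * g') T.o = T.o := by
    rw [T.act_mul, h, act_inv]
  obtain ⟨x, hx⟩ := (hT1 _).1 h1
  exact ⟨x, by rw [← hx, mul_inv_cancel_left]⟩

theorem same' (hT1 : ∀ g, T.act g T.o = T.o ↔ ∃ h, g = HNNExtension.of h)
    (g : HNNExtension (Multiplicative (Fin n → ℤ)) A B φ) (x : Multiplicative (Fin n → ℤ)) :
    T.act (g * of x) T.o = T.act g T.o := by
  rw [T.act_mul, (hT1 _).2 ⟨x, rfl⟩]

/-- the fibre over a vertex -/
theorem fibre (hT1 : ∀ g, T.act g T.o = T.o ↔ ∃ h, g = HNNExtension.of h)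
    (g : HNNExtension (Multiplicative (Fin n → ℤ)) A B φ) :
    ∃ e : Multiplicative (Fin n → ℤ) ≃
      {g' : HNNExtension (Multiplicative (Fin n → ℤ)) A B φ // T.act g' T.o = T.act g T.o},
      ∀ x, (e x).1 = g * of x := by
  refine ⟨Equiv.ofBijective (fun x => ⟨g * of x, same' T hT1 g x⟩) ⟨?_, ?_⟩, fun x => rfl⟩
  · intro x y h
    have h1 : g * of x = g * of y := congrArg Subtype.val h
    exact of_injective φ (mul_left_cancel h1)
  · rintro ⟨g', hg'⟩
    obtain ⟨x, hx⟩ := same T hT1 hg'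
    exact ⟨x, Subtype.ext hx.symm⟩

variable (M : (Fin n → ℚ) ≃ₗ[ℚ] (Fin n → ℚ))
    (X : HNNExtension (Multiplicative (Fin n → ℤ)) A B φ → (Fin n → ℚ))
    (X_mul : ∀ g h, X (g * h) = X g + (M ^ (T.tau g)) (X h))

theorem tau_one : T.tau 1 = 0 := by
  have := T.tau_mul 1 1
  rw [mul_one] at this
  omega

theorem tau_inv (g : HNNExtension (Multiplicative (Fin n → ℤ)) A B φ) :
    T.tau g⁻¹ = - T.tau g := by
  have := T.tau_mul g⁻¹ g
  rw [inv_mul_cancel, tau_one] at this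
  omega

include X_mul in
theorem X_one : X 1 = 0 := by
  have := X_mul 1 1
  rw [mul_one, tau_one, zpow_zero] at this
  have h2 : X 1 = X 1 + X 1 := this
  exact (left_eq_add.1 h2)

include X_mul in
theorem X_diff (g g' : HNNExtension (Multiplicative (Fin n → ℤ)) A B φ) :
    X (g⁻¹ * g') = (M ^ (-T.tau g)) (X g' - X g) := by
  have h1 := X_mul g⁻¹ g
  rw [inv_mul_cancel, X_one T M X X_mul, tau_inv] at h1
  rw [X_mul, tau_inv, map_sub]
  have h2 : X g⁻¹ = -(M ^ (-T.tau g)) (X g) := eq_neg_of_add_eq_zero_left h1.symm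
  rw [h2]
  abel

theorem l_pow (om : ℂ) (l : (Fin n → ℚ) →ₗ[ℚ] ℂ) (hom : ‖om‖ = 1)
    (hlM : ∀ x, l (M x) = om * l x) (k : ℤ) : ∀ x, l ((M ^ k) x) = om ^ k * l x := by
  have hom0 : om ≠ 0 := by
    rintro rfl
    simp at hom
  induction k using Int.induction_on with
  | zero => intro x; rw [zpow_zero, zpow_zero, one_mul]; rfl
  | succ k ih =>
    intro x
    rw [zpow_add_one, zpow_add_one₀ hom0]
    have h1 : (M ^ (k : ℤ) * M) x = (M ^ (k : ℤ)) (M x) := rfl
    rw [h1, ih, hlM]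
    ring
  | pred k ih =>
    intro x
    rw [zpow_sub_one, zpow_sub_one₀ hom0]
    have h1 : (M ^ (-(k : ℤ)) * M⁻¹) x = (M ^ (-(k : ℤ))) (M⁻¹ x) := rfl
    have h2 : l (M⁻¹ x) = om⁻¹ * l x := by
      have h3 := hlM (M⁻¹ x)
      have h4 : M (M⁻¹ x) = x := M.apply_symm_apply x
      rw [h4] at h3
      rw [h3, inv_mul_cancel_left₀ hom0]
    rw [h1, ih, h2]
    ring

variable (N : (Fin n → ℚ) → ℝ) (N_add : ∀ x y, N (x + y) ≤ N x + N y)
    (N_neg : ∀ x, N (-x) = N x) (N_M : ∀ (k : ℤ) x, N ((M ^ k) x) = N x)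
    (N_ge : ∀ x i, |((x i : ℚ) : ℝ)| ≤ N x)
    (X_of : ∀ x, X (HNNExtension.of x) = fun i => ((Multiplicative.toAdd x i : ℤ) : ℚ))

include X_mul N_add N_neg N_M N_ge X_of in
theorem fib_le (hT1 : ∀ g, T.act g T.o = T.o ↔ ∃ h, g = HNNExtension.of h) (R : ℝ)
    (g g' : HNNExtension (Multiplicative (Fin n → ℤ)) A B φ)
    (h : T.act g' T.o = T.act g T.o) (hg : N (X g) ≤ R) (hg' : N (X g') ≤ R) :
    ∃ x : Fin n → ℤ, g' = g * of (Multiplicative.ofAdd x) ∧ ∀ i, |x i| ≤ ((⌊2 * R⌋₊ : ℕ) : ℤ) := by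
  obtain ⟨x, hx⟩ := same T hT1 h
  refine ⟨Multiplicative.toAdd x, hx, fun i => ?_⟩
  have h1 : g⁻¹ * g' = of x := by rw [hx, inv_mul_cancel_left]
  have h2 := X_diff T M X X_mul g g'
  rw [h1, X_of] at h2
  have h3 := N_ge (fun i => ((Multiplicative.toAdd x i : ℤ) : ℚ)) i
  have h4 : N (fun i => ((Multiplicative.toAdd x i : ℤ) : ℚ)) ≤ 2 * R := by
    rw [h2, N_M, sub_eq_add_neg]
    have := N_add (X g') (-X g)
    rw [N_neg] at this
    linarith
  have h5 : |(Multiplicative.toAdd x i : ℝ)| ≤ 2 * R := by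
    refine le_trans (le_of_eq ?_) (h3.trans h4)
    push_cast
    rfl
  have h6 : ((|Multiplicative.toAdd x i| : ℤ) : ℝ) ≤ 2 * R := by
    rw [Int.cast_abs]; exact h5
  have h7 : ((Multiplicative.toAdd x i).natAbs : ℝ) ≤ 2 * R := by
    rw [Nat.cast_natAbs]; exact h6
  have h8 := Nat.le_floor h7
  rw [Int.abs_eq_natAbs]
  exact_mod_cast h8

include X_mul N_add N_neg N_M N_ge X_of in
theorem cnt_fin' (hT1 : ∀ g, T.act g T.o = T.o ↔ ∃ h, g = HNNExtension.of h) (D : ℕ) (R : ℝ) :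
    {g | T.dT T.o (T.act g T.o) ≤ D ∧ N (X g) ≤ R}.Finite := by
  apply Set.Finite.of_finite_fibers (fun g => T.act g T.o)
  · apply (T.ball_fin D).subset
    rintro _ ⟨g, hg, rfl⟩
    exact hg.1
  · rintro _ ⟨g, hg, rfl⟩
    apply ((box_finite n ⌊2 * R⌋₊).image (fun x => g * of (Multiplicative.ofAdd x))).subset
    rintro g' ⟨hg', h⟩
    obtain ⟨x, hx, hx2⟩ := fib_le T M X X_mul N N_add N_neg N_M N_ge X_of hT1 R g g' h hg.2 hg'.2
    exact ⟨x, hx2, hx.symm⟩

include X_mul N_add N_neg N_M N_ge X_of in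
theorem cnt' (hT1 : ∀ g, T.act g T.o = T.o ↔ ∃ h, g = HNNExtension.of h) (ca : ℕ)
    (hT3 : ∀ D : ℕ, {v | T.dT T.o v ≤ D}.ncard ≤ ca ^ D) (D : ℕ) (R : ℝ) (hR : 0 ≤ R) :
    ({g | T.dT T.o (T.act g T.o) ≤ D ∧ N (X g) ≤ R}.ncard : ℝ) ≤
      (ca : ℝ) ^ D * (((4 ^ n : ℕ) : ℝ) * (R + 1) ^ n) := by
  classical
  have hf := cnt_fin' T M X X_mul N N_add N_neg N_M N_ge X_of hT1 D R
  have hb := T.ball_fin D
  have h1 : hf.toFinset.card ≤ (2 * ⌊2 * R⌋₊ + 1) ^ n * hb.toFinset.card := by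
    apply Finset.card_le_mul_card_image_of_maps_to (f := fun g => T.act g T.o)
    · intro g hg
      rw [Set.Finite.mem_toFinset] at hg ⊢
      exact hg.1
    · intro v _
      by_cases hne : (hf.toFinset.filter fun g => T.act g T.o = v).Nonempty
      · obtain ⟨g, hg⟩ := hne
        rw [Finset.mem_filter, Set.Finite.mem_toFinset] at hg
        obtain ⟨hg1, rfl⟩ := hg
        let S : Finset (Fin n → ℤ) := (box_finite n ⌊2 * R⌋₊).toFinset
        have h2 : (hf.toFinset.filter fun g' => T.act g' T.o = T.act g T.o) ⊆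
            S.image (fun x => g * of (Multiplicative.ofAdd x)) := by
          intro g' hg'
          rw [Finset.mem_filter, Set.Finite.mem_toFinset] at hg'
          obtain ⟨x, hx, hx2⟩ := fib_le T M X X_mul N N_add N_neg N_M N_ge X_of hT1 R g g'
            hg'.2 hg1.2 hg'.1.2
          rw [Finset.mem_image]
          exact ⟨x, (Set.Finite.mem_toFinset _).2 hx2, hx.symm⟩
        refine (Finset.card_le_card h2).trans (Finset.card_image_le.trans ?_)
        apply box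
        intro x hx
        exact (Set.Finite.mem_toFinset _).1 hx
      · rw [Finset.not_nonempty_iff_eq_empty] at hne
        rw [hne]
        simp
  have h2 : hb.toFinset.card ≤ ca ^ D := by
    rw [← Set.ncard_eq_toFinset_card _ hb]
    exact hT3 D
  rw [Set.ncard_eq_toFinset_card _ hf]
  have h3 : ((hf.toFinset.card : ℕ) : ℝ) ≤ ((2 * ⌊2 * R⌋₊ + 1 : ℕ) : ℝ) ^ n * (ca : ℝ) ^ D := by
    have := h1.trans (Nat.mul_le_mul_left _ h2)
    exact_mod_cast this
  refine h3.trans ?_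
  have h4 : ((2 * ⌊2 * R⌋₊ + 1 : ℕ) : ℝ) ≤ 4 * (R + 1) := by
    have := Nat.floor_le (show (0 : ℝ) ≤ 2 * R by linarith)
    push_cast
    linarith
  have h5 : ((2 * ⌊2 * R⌋₊ + 1 : ℕ) : ℝ) ^ n ≤ (4 * (R + 1)) ^ n :=
    pow_le_pow_left₀ (by positivity) h4 n
  rw [mul_pow] at h5
  push_cast
  calc _ ≤ (4 ^ n * (R + 1) ^ n) * (ca : ℝ) ^ D := by
        apply mul_le_mul_of_nonneg_right _ (by positivity)
        exact_mod_cast h5
    _ = _ := by ring

end

theorem hnn_TX {n : ℕ} {A B : Subgroup (Multiplicative (Fin n → ℤ))} (φ : A ≃* B)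
    (T : TreeX (HNNExtension (Multiplicative (Fin n → ℤ)) A B φ)) (ca : ℕ)
    (hT1 : ∀ g, T.act g T.o = T.o ↔ ∃ h, g = HNNExtension.of h)
    (hT2 : ∀ a b, T.E a b ↔ ∃ g, a = T.act g T.o ∧ b = T.act (g * HNNExtension.t) T.o)
    (hT3 : ∀ D : ℕ, {v | T.dT T.o v ≤ D}.ncard ≤ ca ^ D)
    (tau_of : ∀ x, T.tau (HNNExtension.of x) = 0) (tau_t : T.tau HNNExtension.t = 1)
    (M : (Fin n → ℚ) ≃ₗ[ℚ] (Fin n → ℚ))
    (hφ : ∀ x : A, (fun i => ((Multiplicative.toAdd (φ x : Multiplicative (Fin n → ℤ)) i : ℤ) : ℚ)) =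
      M (fun i => ((Multiplicative.toAdd (x : Multiplicative (Fin n → ℤ)) i : ℤ) : ℚ)))
    (X : HNNExtension (Multiplicative (Fin n → ℤ)) A B φ → (Fin n → ℚ))
    (X_mul : ∀ g h, X (g * h) = X g + (M ^ (T.tau g)) (X h))
    (X_of : ∀ x, X (HNNExtension.of x) = fun i => ((Multiplicative.toAdd x i : ℤ) : ℚ))
    (X_t : X HNNExtension.t = 0)
    (N : (Fin n → ℚ) → ℝ) (C : ℝ) (N_add : ∀ x y, N (x + y) ≤ N x + N y)
    (N_neg : ∀ x, N (-x) = N x) (N_M : ∀ (k : ℤ) x, N ((M ^ k) x) = N x)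
    (N_ge : ∀ x i, |((x i : ℚ) : ℝ)| ≤ N x) (N_le : ∀ x, N x ≤ C * ∑ j, |((x j : ℚ) : ℝ)|)
    (β : Multiplicative (Fin n → ℤ) ≃ Multiplicative (Fin n → ℤ))
    (Q1 : Set (HNNExtension (Multiplicative (Fin n → ℤ)) A B φ)) (hQ1 : Q1.Finite)
    (hβ : ∀ x, (HNNExtension.of x)⁻¹ * HNNExtension.t * HNNExtension.of (β x) ∈ Q1)
    (om : ℂ) (l : (Fin n → ℚ) →ₗ[ℚ] ℂ) (hl : l ≠ 0) (hom : ‖om‖ = 1)
    (hroot : ∀ m : ℕ, 0 < m → om ^ m ≠ 1) (hlM : ∀ x, l (M x) = om * l x)
    (Λ0 : AddSubgroup (Fin n → ℤ)) (hΛ : ∀ x ∈ Λ0, Multiplicative.ofAdd x ∈ A)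
    (hΛ1 : ∀ x ∈ Λ0, ∃ y ∈ Λ0, (fun i => ((y i : ℤ) : ℚ)) = M (fun i => ((x i : ℤ) : ℚ)))
    (hΛ2 : ∀ y ∈ Λ0, ∃ x ∈ Λ0, (fun i => ((y i : ℤ) : ℚ)) = M (fun i => ((x i : ℤ) : ℚ)))
    (hΛ3 : ∀ x ∈ Λ0, ∃ k : ℤ, k ≠ 0 ∧
        (M ^ k) (fun i => ((x i : ℤ) : ℚ)) = (fun i => ((x i : ℤ) : ℚ)))
    (hΛ4 : ∀ x : Fin n → ℤ, (∃ k : ℤ, k ≠ 0 ∧
        (M ^ k) (fun i => ((x i : ℤ) : ℚ)) = (fun i => ((x i : ℤ) : ℚ))) →
        ∃ m : ℕ, 0 < m ∧ m • x ∈ Λ0) :
    Nonempty (TX (HNNExtension (Multiplicative (Fin n → ℤ)) A B φ)) := by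
  have hom0 : om ≠ 0 := by
    rintro rfl
    simp at hom
  have hlk := l_pow M om l hom hlM
  -- a basis vector not killed by `l`
  obtain ⟨i0, hi0⟩ : ∃ i : Fin n, l (Pi.single i 1) ≠ 0 := by
    by_contra h
    push Not at h
    apply hl
    apply LinearMap.pi_ext'
    intro i
    apply LinearMap.ext_ring
    exact h i
  -- the normal subgroup
  let N0 : Subgroup (HNNExtension (Multiplicative (Fin n → ℤ)) A B φ) :=
    (AddSubgroup.toSubgroup Λ0).map of
  have hN0 : ∀ z, z ∈ N0 ↔ ∃ x ∈ Λ0, z = of (Multiplicative.ofAdd x) := by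
    intro z
    constructor
    · rintro ⟨x, hx, rfl⟩
      exact ⟨Multiplicative.toAdd x, hx, rfl⟩
    · rintro ⟨x, hx, rfl⟩
      exact ⟨Multiplicative.ofAdd x, hx, rfl⟩
  have hconj : ∀ g : HNNExtension (Multiplicative (Fin n → ℤ)) A B φ,
      ∀ z ∈ N0, g * z * g⁻¹ ∈ N0 ∧ g⁻¹ * z * g ∈ N0 := by
    intro g
    induction g using HNNExtension.induction_on with
    | of y =>
      intro z hz
      obtain ⟨x, hx, rfl⟩ := (hN0 z).1 hz
      have h1 : of y * of (Multiplicative.ofAdd x) * (of y)⁻¹ =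
          (of (Multiplicative.ofAdd x) : HNNExtension (Multiplicative (Fin n → ℤ)) A B φ) := by
        rw [← map_inv, ← map_mul, ← map_mul, mul_inv_cancel_comm]
      have h2 : (of y)⁻¹ * of (Multiplicative.ofAdd x) * of y =
          (of (Multiplicative.ofAdd x) : HNNExtension (Multiplicative (Fin n → ℤ)) A B φ) := by
        rw [← map_inv, ← map_mul, ← map_mul, mul_assoc, mul_comm (Multiplicative.ofAdd x),
          inv_mul_cancel_left]
      rw [h1, h2]
      exact ⟨hz, hz⟩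
    | t =>
      intro z hz
      obtain ⟨x, hx, rfl⟩ := (hN0 z).1 hz
      constructor
      · obtain ⟨y, hy, hxy⟩ := hΛ1 x hx
        have h1 := t_mul_of (φ := φ) ⟨Multiplicative.ofAdd x, hΛ x hx⟩
        have h2 := hφ ⟨Multiplicative.ofAdd x, hΛ x hx⟩
        have h3 : Multiplicative.toAdd (φ ⟨Multiplicative.ofAdd x, hΛ x hx⟩ :
            Multiplicative (Fin n → ℤ)) = y := ci_inj (h2.trans hxy.symm)
        rw [h1, mul_inv_cancel_right]
        exact (hN0 _).2 ⟨y, hy, by rw [← h3]; rfl⟩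
      · obtain ⟨y, hy, hxy⟩ := hΛ2 x hx
        have h1 := t_mul_of (φ := φ) ⟨Multiplicative.ofAdd y, hΛ y hy⟩
        have h2 := hφ ⟨Multiplicative.ofAdd y, hΛ y hy⟩
        have h3 : Multiplicative.toAdd (φ ⟨Multiplicative.ofAdd y, hΛ y hy⟩ :
            Multiplicative (Fin n → ℤ)) = x := ci_inj (h2.trans hxy.symm)
        have h4 : (φ ⟨Multiplicative.ofAdd y, hΛ y hy⟩ : Multiplicative (Fin n → ℤ)) =
          Multiplicative.ofAdd x := by rw [← h3]; rfl
        rw [h4] at h1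
        rw [mul_assoc, ← h1, inv_mul_cancel_left]
        exact (hN0 _).2 ⟨y, hy, rfl⟩
    | mul a b ha hb =>
      intro z hz
      constructor
      · have := (ha _ (hb z hz).1).1
        have e : a * (b * z * b⁻¹) * a⁻¹ = a * b * z * (a * b)⁻¹ := by group
        rwa [e] at this
      · have := (hb _ (ha z hz).2).2
        have e : b⁻¹ * (a⁻¹ * z * a) * b = (a * b)⁻¹ * z * (a * b) := by group
        rwa [e] at this
    | inv a ha =>
      intro z hz
      rw [inv_inv]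
      exact ⟨(ha z hz).2, (ha z hz).1⟩
  -- the floor
  let fl : HNNExtension (Multiplicative (Fin n → ℤ)) A B φ → Multiplicative (Fin n → ℤ) :=
    fun g => Multiplicative.ofAdd fun i => ⌊X g i⌋
  refine ⟨{ toTreeX := T
            om := om
            om_norm := hom
            om_pow := hroot
            p := fun g => l (X g)
            p_mul := ?_
            N := fun g => N (X g)
            N_mul := ?_
            ca := ca
            kap := 4 ^ n
            dim := n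
            cnt_fin := cnt_fin' T M X X_mul N N_add N_neg N_M N_ge X_of hT1
            cnt := cnt' T M X X_mul N N_add N_neg N_M N_ge X_of hT1 ca hT3
            c := of (Multiplicative.ofAdd (Pi.single i0 1))
            c_o := (hT1 _).2 ⟨_, rfl⟩
            c_p := ?_
            loc := fun g => of (fl g)
            loc_o := fun g => (hT1 _).2 ⟨_, rfl⟩
            loc_loc := ?_
            loc_fin := ?_
            Q1 := Q1
            Q1_fin := hQ1
            adj := ?_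
            N0 := N0
            N0_normal := ⟨fun z hz g => (hconj g z hz).1⟩
            N0_act := ?_
            N0_p := ?_
            hov := ?_ }⟩
  · intro g h
    rw [X_mul, map_add, hlk]
  · intro g h
    rw [X_mul]
    refine (N_add _ _).trans ?_
    rw [N_M]
  · show l (X _) ≠ 0
    rw [X_of]
    have : (fun i => (((Pi.single i0 1 : Fin n → ℤ) i : ℤ) : ℚ)) = Pi.single i0 1 := by
      funext i
      by_cases h : i = i0
      · subst h; simp
      · simp [h]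
    have h2 : (fun i => ((Multiplicative.toAdd (Multiplicative.ofAdd (Pi.single i0 1 : Fin n → ℤ)) i
      : ℤ) : ℚ)) = Pi.single i0 1 := this
    rw [h2]
    exact hi0
  · intro g
    show of (fl (of (fl g))) = of (fl g)
    have h1 : fl (of (fl g)) = fl g := by
      apply Multiplicative.toAdd.injective
      funext i
      show ⌊X (of (fl g)) i⌋ = ⌊X g i⌋
      rw [X_of]
      show ⌊((⌊X g i⌋ : ℤ) : ℚ)⌋ = _
      rw [Int.floor_intCast]
    rw [h1]
  · intro ρ
    refine ⟨{g | T.dT T.o (T.act g T.o) ≤ ρ ∧ N (X g) ≤ |C| * n},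
      cnt_fin' T M X X_mul N N_add N_neg N_M N_ge X_of hT1 ρ _, ?_⟩
    intro g g' hgg' hd
    constructor
    · rw [T.act_mul, ← T.act_dist g, ← T.act_mul, mul_inv_cancel, T.act_one]
      exact hd
    · rw [X_diff T M X X_mul, N_M]
      refine (N_le _).trans ?_
      have h1 : fl g = fl g' := of_injective φ hgg'
      have h2 : ∀ j, |(((X g' - X g) j : ℚ) : ℝ)| ≤ 1 := by
        intro j
        have h3 : ⌊X g j⌋ = ⌊X g' j⌋ := congrFun (congrArg Multiplicative.toAdd h1) j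
        have h4 := Int.abs_sub_lt_one_of_floor_eq_floor h3
        rw [abs_sub_comm] at h4
        have h5 : |((X g' - X g) j : ℚ)| ≤ 1 := h4.le
        exact_mod_cast h5
      have h3 : ∑ j, |(((X g' - X g) j : ℚ) : ℝ)| ≤ n := by
        refine (Finset.sum_le_sum fun j _ => h2 j).trans ?_
        simp
      have h4 : 0 ≤ ∑ j, |(((X g' - X g) j : ℚ) : ℝ)| := Finset.sum_nonneg fun j _ => abs_nonneg _
      calc C * ∑ j, |(((X g' - X g) j : ℚ) : ℝ)| ≤ |C| * ∑ j, |(((X g' - X g) j : ℚ) : ℝ)| :=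
            mul_le_mul_of_nonneg_right (le_abs_self _) h4
        _ ≤ |C| * n := mul_le_mul_of_nonneg_left h3 (abs_nonneg _)
  · intro a b hab
    obtain ⟨g, rfl, rfl⟩ := (hT2 a b).1 hab
    obtain ⟨e1, he1⟩ := fibre T hT1 g
    obtain ⟨e2, he2⟩ := fibre T hT1 (g * t)
    refine ⟨e1.symm.trans (β.trans e2), ?_⟩
    intro x
    obtain ⟨y, rfl⟩ := e1.surjective x
    have h1 : ((e1.symm.trans (β.trans e2)) (e1 y)) = e2 (β y) := by simp
    rw [h1, he1, he2]
    have h2 : (g * of y)⁻¹ * (g * t * of (β y)) = (of y)⁻¹ * t * of (β y) := by group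
    rw [h2]
    exact hβ y
  · intro z hz a
    obtain ⟨g, rfl⟩ := T.trans a
    obtain ⟨x, hx, hx2⟩ := (hN0 _).1 (hconj g z hz).2
    have h1 : z * g = g * (g⁻¹ * z * g) := by group
    rw [← T.act_mul, h1, T.act_mul, hx2, (hT1 _).2 ⟨_, rfl⟩]
  · intro z hz
    obtain ⟨x, hx, rfl⟩ := (hN0 _).1 hz
    obtain ⟨k, hk, hk2⟩ := hΛ3 x hx
    show l (X (of (Multiplicative.ofAdd x))) = 0
    rw [X_of]
    have h1 := hlk k (fun i => ((x i : ℤ) : ℚ))
    rw [hk2] at h1
    have h2 : om ^ k ≠ 1 := by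
      intro h
      rcases lt_or_gt_of_ne hk with h3 | h3
      · apply hroot k.natAbs (by omega)
        have h4 : k = -(k.natAbs : ℤ) := by omega
        rw [h4, zpow_neg, inv_eq_one, zpow_natCast] at h
        exact h
      · apply hroot k.natAbs (by omega)
        have h4 : k = (k.natAbs : ℤ) := by omega
        rw [h4, zpow_natCast] at h
        exact h
    have h3 : (om ^ k - 1) * l (fun i => ((x i : ℤ) : ℚ)) = 0 := by
      linear_combination -h1
    exact (mul_eq_zero.1 h3).resolve_left (sub_ne_zero.2 h2)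
  · intro g δ hb hδ hcomm
    obtain ⟨C', hC'⟩ := hb
    have hfin : ({v | T.dT T.o v ≤ C'} : Set T.V).Finite := T.ball_fin C'
    have h1 : ∃ i j : ℕ, i < j ∧ T.act (g ^ i) T.o = T.act (g ^ j) T.o := by
      have hf : Finite {v | T.dT T.o v ≤ C'} := hfin.to_subtype
      obtain ⟨i, j, hij, h⟩ := Finite.exists_ne_map_eq_of_infinite
        (fun j : ℕ => (⟨T.act (g ^ j) T.o, hC' j⟩ : {v | T.dT T.o v ≤ C'}))
      have h' : T.act (g ^ i) T.o = T.act (g ^ j) T.o := congrArg Subtype.val h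
      rcases lt_or_gt_of_ne hij with h2 | h2
      · exact ⟨i, j, h2, h'⟩
      · exact ⟨j, i, h2, h'.symm⟩
    obtain ⟨i, j, hij, h2⟩ := h1
    obtain ⟨k, rfl⟩ := Nat.exists_eq_add_of_lt hij
    have h3 : T.act (g ^ (k + 1)) T.o = T.o := by
      have h4 : g ^ (i + k + 1) = g ^ i * g ^ (k + 1) := by rw [← pow_add, add_assoc]
      rw [h4, T.act_mul] at h2
      exact (act_inj T _ h2).symm
    obtain ⟨x, hx⟩ := (hT1 _).1 h3
    have h4 : Commute (of x) δ := by
      rw [← hx]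
      exact Commute.pow_left hcomm (k + 1)
    have h5 := congrArg X h4.eq
    rw [X_mul, X_mul, tau_of, zpow_zero, X_of] at h5
    have h6 : (M ^ T.tau δ) (fun i => ((Multiplicative.toAdd x i : ℤ) : ℚ)) =
        fun i => ((Multiplicative.toAdd x i : ℤ) : ℚ) := by
      have h7 : ((1 : (Fin n → ℚ) ≃ₗ[ℚ] (Fin n → ℚ)) (X δ)) = X δ := rfl
      rw [h7, add_comm] at h5
      exact (add_left_cancel h5).symm
    obtain ⟨m, hm, hm2⟩ := hΛ4 (Multiplicative.toAdd x) ⟨T.tau δ, hδ, h6⟩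
    refine ⟨(k + 1) * m, by positivity, ?_⟩
    rw [pow_mul, hx, ← map_pow]
    exact (hN0 _).2 ⟨m • Multiplicative.toAdd x, hm2, rfl⟩

end Pool.Agent.TH111.J724
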