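import Pool.Agent.TH43.AB.Ext

set_option autoImplicit false

namespace Pool.Agent.TH111.J573

open Pool.Agent.TH43.AB

/-- apply `f` to all coordinates -/
def mp {k : Type} [Field k] (f : k →+ k) : SR k →+ SR k where
  toFun s := ⟨f s.u, f s.a, f s.x, f s.y, f s.v, f s.w, f s.z, f s.o, f s.ax, f s.ay, f s.av,
    f s.aw, f s.az, f s.ao⟩
  map_zero' := by ext <;> simp
  map_add' s t := by ext <;> simp

theorem coord_mp {k : Type} [Field k] (f : k →+ k) (s : SR k) (l : Fin 14) :
    SR.coord (mp f s) l = f (SR.coord s l) := by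
  fin_cases l <;> rfl

theorem mp_mul {k : Type} [Field k] (F : Subfield k) (f : k →+ k)
    (hf : ∀ c ∈ F, ∀ x, f (c * x) = c * f x) (s t : SR k) (hs : s.Mem F) :
    mp f (s * t) = s * mp f t := by
  obtain ⟨h1, h2, h3, h4, h5, h6, h7, h8, h9, h10, h11, h12, h13, h14⟩ := hs
  ext <;> simp [mp, hf _ h1, hf _ h2, hf _ h3, hf _ h4, hf _ h5, hf _ h6, hf _ h7, hf _ h8,
    hf _ h9, hf _ h10, hf _ h11, hf _ h12, hf _ h13, hf _ h14]

/-- the kernel of a matrix with entries in `F` is generated by vectors with entries in `F` -/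
theorem rational_kernel {k : Type} [Field k] (F : Subfield k) {m n : ℕ}
    (P : Matrix (Fin m) (Fin n) (SR k)) (hP : ∀ i j, (P i j).Mem F) :
    LinearMap.ker P.mulVecLin =
      Submodule.span (SR k) {v | P.mulVec v = 0 ∧ ∀ i, (v i).Mem F} := by
  classical
  apply le_antisymm
  · intro v hv
    have hv' : P.mulVec v = 0 := hv
    let β := Module.Basis.ofVectorSpace F k
    let g : Module.Basis.ofVectorSpaceIndex F k → k →+ k := fun j =>
      (F.subtype : F →+ k).comp (β.coord j).toAddMonoidHom
    have hg : ∀ j, ∀ c ∈ F, ∀ x, g j (c * x) = c * g j x := by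
      intro j c hc x
      show ((β.coord j (c * x) : F) : k) = c * ((β.coord j x : F) : k)
      have h1 : c * x = (⟨c, hc⟩ : F) • x := rfl
      rw [h1, map_smul]
      rfl
    have hgF : ∀ j x, g j x ∈ F := fun j x => (β.coord j x).2
    let T : Finset (Module.Basis.ofVectorSpaceIndex F k) :=
      Finset.univ.biUnion fun i : Fin n => Finset.univ.biUnion fun l : Fin 14 =>
        (β.repr (SR.coord (v i) l)).support
    have hsum : ∀ (i : Fin n) (l : Fin 14),
        SR.coord (v i) l = ∑ j ∈ T, (β j : k) * g j (SR.coord (v i) l) := by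
      intro i l
      have h1 := β.linearCombination_repr (SR.coord (v i) l)
      rw [Finsupp.linearCombination_apply, Finsupp.sum_of_support_subset _ (s := T) _ _ (by simp)]
        at h1
      · rw [← h1]
        refine Finset.sum_congr rfl fun j _ => ?_
        rw [h1, mul_comm]
        rfl
      · intro j hj
        exact Finset.mem_biUnion.2 ⟨i, Finset.mem_univ _, Finset.mem_biUnion.2
          ⟨l, Finset.mem_univ _, hj⟩⟩
    have hv2 : v = ∑ j ∈ T, algebraMap k (SR k) (β j) • fun i => mp (g j) (v i) := by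
      funext i
      apply SR.coord.injective
      funext l
      rw [hsum i l, Finset.sum_apply, map_sum, Finset.sum_apply]
      refine Finset.sum_congr rfl fun j _ => ?_
      rw [Pi.smul_apply, smul_eq_mul, ← Algebra.smul_def, map_smul, Pi.smul_apply, coord_mp]
      rfl
    rw [hv2]
    refine Submodule.sum_mem _ fun j _ => Submodule.smul_mem _ _ (Submodule.subset_span ⟨?_, ?_⟩)
    · funext i
      have h1 : (P.mulVec fun i => mp (g j) (v i)) i = mp (g j) (P.mulVec v i) := by
        show ∑ l, P i l * mp (g j) (v l) = mp (g j) (∑ l, P i l * v l)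
        rw [map_sum]
        refine Finset.sum_congr rfl fun l _ => ?_
        rw [mp_mul F (g j) (hg j) _ _ (hP i l)]
      rw [h1, hv', Pi.zero_apply, map_zero]
    · intro i
      exact ⟨hgF j _, hgF j _, hgF j _, hgF j _, hgF j _, hgF j _, hgF j _, hgF j _, hgF j _,
        hgF j _, hgF j _, hgF j _, hgF j _, hgF j _⟩
  · rw [Submodule.span_le]
    rintro v ⟨hv, -⟩
    exact hv

end Pool.Agent.TH111.J573
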