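import Pool.Agent.TH43.AB.Ext

set_option autoImplicit false

namespace Pool.Agent.TH111.J575

open Pool.Agent.TH43.AB

section

variable {k : Type} [Field k]

/-- the matrix `[[a + c x, p v], [q z, a]]` -/
def EM (c p q : k) : Matrix (Fin 2) (Fin 2) (SR k) :=
  !![⟨0, 1, c, 0, 0, 0, 0, 0, 0, 0, 0, 0, 0, 0⟩, ⟨0, 0, 0, 0, p, 0, 0, 0, 0, 0, 0, 0, 0, 0⟩;
    ⟨0, 0, 0, 0, 0, 0, q, 0, 0, 0, 0, 0, 0, 0⟩, ⟨0, 1, 0, 0, 0, 0, 0, 0, 0, 0, 0, 0, 0, 0⟩]

theorem em_mul0 (c p q : k) (s : Fin 2 → SR k) : (EM c p q).mulVec s 0 =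
    ⟨0, (s 0).u, c * (s 0).u, 0, p * (s 1).u, 0, 0, c * (s 0).y + p * (s 1).w,
      (s 0).x + c * (s 0).a, (s 0).y + p * (s 1).w,
      (s 0).v + c * (s 0).v + p * (s 1).a + p * (s 1).x,
      (s 0).w + c * (s 0).w, (s 0).z, (s 0).o + c * (s 0).ay + p * (s 1).aw⟩ := by
  simp only [EM, Matrix.mulVec, dotProduct, Fin.sum_univ_two]
  ext <;> simp
  ring

theorem em_mul1 (c p q : k) (s : Fin 2 → SR k) : (EM c p q).mulVec s 1 =
    ⟨0, (s 1).u, 0, 0, 0, 0, q * (s 0).u, q * (s 0).z,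
      (s 1).x, (s 1).y, (s 1).v, (s 1).w, q * (s 0).a + (s 1).z, q * (s 0).az + (s 1).o⟩ := by
  simp only [EM, Matrix.mulVec, dotProduct, Fin.sum_univ_two]
  ext <;> simp

theorem em_exact (c p q : k) (hc1 : c ≠ 1) (hc2 : c ≠ -1) (s : Fin 2 → SR k) :
    (EM c p q).mulVec s = 0 ↔ ∃ w, (EM (-c) (-(p / (1 + c))) (-q)).mulVec w = s := by
  have h1 : 1 + c ≠ 0 := fun h => hc2 (by linear_combination h)
  have h2 : 1 - c ≠ 0 := fun h => hc1 (by linear_combination -h)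
  constructor
  · intro h
    have e0 := congrFun h 0
    have e1 := congrFun h 1
    rw [em_mul0, SR.ext_iff] at e0
    rw [em_mul1, SR.ext_iff] at e1
    simp only [Pi.zero_apply, SR.zero_u, SR.zero_a, SR.zero_x, SR.zero_y, SR.zero_v, SR.zero_w,
      SR.zero_z, SR.zero_o, SR.zero_ax, SR.zero_ay, SR.zero_av, SR.zero_aw, SR.zero_az,
      SR.zero_ao] at e0 e1
    obtain ⟨-, a1, a2, -, a3, -, -, a4, a5, a6, a7, a8, a9, a10⟩ := e0
    obtain ⟨-, b1, -, -, -, -, b2, b3, b4, b5, b6, b7, b8, b9⟩ := e1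
    refine ⟨![⟨(s 0).a, 0, (s 0).ax, (s 0).ay + p * (s 1).aw / (1 + c),
      ((s 0).av + p * (s 1).ax / (1 + c)) / (1 - c), (s 0).aw / (1 - c), (s 0).az, (s 0).ao,
      0, 0, 0, 0, 0, 0⟩, ⟨(s 1).a, 0, (s 1).ax, (s 1).ay, (s 1).av, (s 1).aw, (s 1).az, (s 1).ao,
      0, 0, 0, 0, 0, 0⟩], ?_⟩
    funext i
    fin_cases i
    · show (EM (-c) (-(p / (1 + c))) (-q)).mulVec _ 0 = s 0
      rw [em_mul0]
      have w0 : (s 0).w = 0 := by
        have : (1 + c) * (s 0).w = 0 := by linear_combination a8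
        exact (mul_eq_zero.1 this).resolve_left h1
      have y0 : (s 0).y = 0 := by linear_combination a6 - p * b7
      ext
      · exact a1.symm
      · rfl
      · show -c * (s 0).a = (s 0).x
        linear_combination -a5
      · exact y0.symm
      · show -(p / (1 + c)) * (s 1).a = (s 0).v
        field_simp
        linear_combination -a7 + p * b4
      · exact w0.symm
      · exact a9.symm
      · show -c * ((s 0).ay + p * (s 1).aw / (1 + c)) + -(p / (1 + c)) * (s 1).aw = (s 0).o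
        field_simp
        linear_combination -(1 + c) * a10
      · show (s 0).ax + -c * 0 = (s 0).ax
        ring
      · show (s 0).ay + p * (s 1).aw / (1 + c) + -(p / (1 + c)) * (s 1).aw = (s 0).ay
        ring
      · show ((s 0).av + p * (s 1).ax / (1 + c)) / (1 - c) +
          -c * (((s 0).av + p * (s 1).ax / (1 + c)) / (1 - c)) + -(p / (1 + c)) * 0 +
          -(p / (1 + c)) * (s 1).ax = (s 0).av
        field_simp
        ring
      · show (s 0).aw / (1 - c) + -c * ((s 0).aw / (1 - c)) = (s 0).aw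
        field_simp
        ring
      · rfl
      · show (s 0).ao + -c * 0 + -(p / (1 + c)) * 0 = (s 0).ao
        ring
    · show (EM (-c) (-(p / (1 + c))) (-q)).mulVec _ 1 = s 1
      rw [em_mul1]
      ext
      · exact b1.symm
      · rfl
      · exact b4.symm
      · exact b5.symm
      · exact b6.symm
      · exact b7.symm
      · show -q * (s 0).a = (s 1).z
        linear_combination -b8
      · show -q * (s 0).az = (s 1).o
        linear_combination -b9
      · rfl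
      · rfl
      · rfl
      · rfl
      · show -q * 0 + (s 1).az = (s 1).az
        ring
      · show -q * 0 + (s 1).ao = (s 1).ao
        ring
  · rintro ⟨w, rfl⟩
    funext i
    fin_cases i
    · show (EM c p q).mulVec _ 0 = 0
      rw [em_mul0, em_mul0, em_mul1]
      ext <;> simp
      all_goals (field_simp; ring)
    · show (EM c p q).mulVec _ 1 = 0
      rw [em_mul1, em_mul0, em_mul1]
      ext <;> simp

/-- the cokernel -/
abbrev CM (c p q : k) : Type := (Fin 2 → SR k) ⧸ LinearMap.range (EM c p q).mulVecLin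

/-- the injection of the next cokernel -/
def inj (c p q : k) (hc1 : c ≠ 1) (hc2 : c ≠ -1) :
    CM (-c) (-(p / (1 + c))) (-q) →ₗ[SR k] (Fin 2 → SR k) :=
  Submodule.liftQ _ (EM c p q).mulVecLin (by
    rintro _ ⟨w, rfl⟩
    exact (em_exact c p q hc1 hc2 _).2 ⟨w, rfl⟩)

theorem inj_mk (c p q : k) (hc1 : c ≠ 1) (hc2 : c ≠ -1) (s : Fin 2 → SR k) :
    inj c p q hc1 hc2 (Submodule.Quotient.mk s) = (EM c p q).mulVec s := rfl

theorem inj_injective (c p q : k) (hc1 : c ≠ 1) (hc2 : c ≠ -1) :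
    Function.Injective (inj c p q hc1 hc2) := by
  rw [← LinearMap.ker_eq_bot, LinearMap.ker_eq_bot']
  intro m
  induction m using Submodule.Quotient.induction_on with
  | H s =>
    intro hs
    rw [Submodule.Quotient.mk_eq_zero]
    obtain ⟨w, hw⟩ := (em_exact c p q hc1 hc2 s).1 hs
    exact ⟨w, hw⟩

theorem inj_exact (c p q : k) (hc1 : c ≠ 1) (hc2 : c ≠ -1) :
    Function.Exact (inj c p q hc1 hc2) (LinearMap.range (EM c p q).mulVecLin).mkQ := by
  intro y
  rw [Submodule.mkQ_apply, Submodule.Quotient.mk_eq_zero]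
  constructor
  · rintro ⟨s, rfl⟩
    exact ⟨Submodule.Quotient.mk s, rfl⟩
  · rintro ⟨m, rfl⟩
    induction m using Submodule.Quotient.induction_on with
    | H s => exact ⟨s, rfl⟩

theorem ev_step (c p q : k) (hc1 : c ≠ 1) (hc2 : c ≠ -1) (N : Type) [AddCommGroup N]
    [Module (SR k) N] (i : ℕ) (hi : 1 ≤ i) :
    EV (SR k) (CM c p q) N (i + 1) ↔ EV (SR k) (CM (-c) (-(p / (1 + c))) (-q)) N i :=
  ev_left (inj c p q hc1 hc2) (LinearMap.range (EM c p q).mulVecLin).mkQ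
    (inj_exact c p q hc1 hc2) (inj_injective c p q hc1 hc2) (Submodule.mkQ_surjective _) i hi

theorem ev_one' (c p q : k) (hc1 : c ≠ 1) (hc2 : c ≠ -1) (N : Type) [AddCommGroup N]
    [Module (SR k) N] :
    EV (SR k) (CM c p q) N 1 ↔ ∀ φ : CM (-c) (-(p / (1 + c))) (-q) →ₗ[SR k] N,
      ∃ ψ : (Fin 2 → SR k) →ₗ[SR k] N, ψ ∘ₗ inj c p q hc1 hc2 = φ :=
  ev_one (inj c p q hc1 hc2) (LinearMap.range (EM c p q).mulVecLin).mkQ
    (inj_exact c p q hc1 hc2) (inj_injective c p q hc1 hc2) (Submodule.mkQ_surjective _)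

/-! ### the module `N` -/

/-- the module `k^2` -/
@[ext]
structure NN (c : k) where
  /-- the first coordinate -/
  p : k
  /-- the second coordinate -/
  q : k

/-- the functional -/
def ff (c : k) (s : SR k) : k := s.a + c⁻¹ * s.x + 2 * s.v + s.z

instance (c : k) : Zero (NN c) := ⟨⟨0, 0⟩⟩
instance (c : k) : Add (NN c) := ⟨fun n m => ⟨n.p + m.p, n.q + m.q⟩⟩
instance (c : k) : Neg (NN c) := ⟨fun n => ⟨-n.p, -n.q⟩⟩
instance (c : k) : SMul (SR k) (NN c) := ⟨fun s n => ⟨s.u * n.p, s.u * n.q + ff c s * n.p⟩⟩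

@[simp] theorem smul_p (c : k) (s : SR k) (n : NN c) : (s • n).p = s.u * n.p := rfl
@[simp] theorem smul_q (c : k) (s : SR k) (n : NN c) :
    (s • n).q = s.u * n.q + ff c s * n.p := rfl
@[simp] theorem add_p (c : k) (n n' : NN c) : (n + n').p = n.p + n'.p := rfl
@[simp] theorem add_q (c : k) (n n' : NN c) : (n + n').q = n.q + n'.q := rfl
@[simp] theorem neg_p (c : k) (n : NN c) : (-n).p = -n.p := rfl
@[simp] theorem neg_q (c : k) (n : NN c) : (-n).q = -n.q := rfl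
@[simp] theorem zero_p (c : k) : (0 : NN c).p = 0 := rfl
@[simp] theorem zero_q (c : k) : (0 : NN c).q = 0 := rfl

instance (c : k) : AddCommGroup (NN c) where
  add_assoc s t r := by ext <;> simp <;> ring
  zero_add s := by ext <;> simp
  add_zero s := by ext <;> simp
  add_comm s t := by ext <;> simp <;> ring
  neg_add_cancel s := by ext <;> simp
  nsmul := nsmulRec
  zsmul := zsmulRec

instance (c : k) : Module (SR k) (NN c) where
  one_smul n := by ext <;> simp [ff]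
  mul_smul s t n := by
    ext
    · simp; ring
    · simp [ff]; ring
  smul_zero s := by ext <;> simp
  smul_add s n n' := by ext <;> simp <;> ring
  add_smul s t n := by
    ext
    · simp; ring
    · simp [ff]; ring
  zero_smul n := by ext <;> simp [ff]

/-- the linear map with given values -/
def lmap (c : k) (n0 n1 : NN c) : (Fin 2 → SR k) →ₗ[SR k] NN c where
  toFun s := s 0 • n0 + s 1 • n1
  map_add' s t := by
    rw [Pi.add_apply, Pi.add_apply, add_smul, add_smul]; abel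
  map_smul' r s := by
    rw [Pi.smul_apply, Pi.smul_apply, smul_eq_mul, smul_eq_mul, mul_smul, mul_smul,
      ← smul_add]
    rfl

theorem lmap_apply (c : k) (n0 n1 : NN c) (s : Fin 2 → SR k) :
    lmap c n0 n1 s = s 0 • n0 + s 1 • n1 := rfl

theorem eq_lmap (c : k) (φ : (Fin 2 → SR k) →ₗ[SR k] NN c) :
    φ = lmap c (φ (Pi.single 0 1)) (φ (Pi.single 1 1)) := by
  apply LinearMap.ext
  intro s
  rw [lmap_apply, ← map_smul, ← map_smul, ← map_add]
  congr 1
  funext i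
  fin_cases i <;> simp

instance (c : k) : Module.Finite (SR k) (NN c) := by
  apply Module.Finite.of_surjective (lmap c ⟨1, 0⟩ ⟨0, 1⟩)
  intro n
  refine ⟨![algebraMap k (SR k) n.p, algebraMap k (SR k) n.q], ?_⟩
  rw [lmap_apply]
  ext <;> simp [ff]

/-- The composition with the differential. -/
theorem lmap_comp (d c p q : k) (n0 n1 : NN d) (s : Fin 2 → SR k) :
    lmap d n0 n1 ((EM c p q).mulVec s) =
      ⟨0, (s 0).u * ((1 + d⁻¹ * c) * n0.p + q * n1.p) + (s 1).u * (2 * p * n0.p + n1.p)⟩ := by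
  rw [lmap_apply, em_mul0, em_mul1]
  ext
  · simp
  · simp [ff]; ring

/-- the determinant of the reduced matrix -/
def dt (d c p q : k) : k := 1 + d⁻¹ * c - 2 * p * q

theorem ev_pos (d c p q : k) (hc1 : c ≠ 1) (hc2 : c ≠ -1) (h0 : dt d c p q ≠ 0)
    (h1 : dt d (-c) (-(p / (1 + c))) (-q) ≠ 0) : EV (SR k) (CM c p q) (NN d) 1 := by
  rw [ev_one' c p q hc1 hc2]
  intro φ
  have e1 := eq_lmap d (φ ∘ₗ (LinearMap.range (EM (-c) (-(p / (1 + c))) (-q)).mulVecLin).mkQ)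
  set n0 := (φ ∘ₗ (LinearMap.range (EM (-c) (-(p / (1 + c))) (-q)).mulVecLin).mkQ)
    (Pi.single 0 1)
  set n1 := (φ ∘ₗ (LinearMap.range (EM (-c) (-(p / (1 + c))) (-q)).mulVecLin).mkQ)
    (Pi.single 1 1)
  have e2 : ∀ s, lmap d n0 n1 ((EM (-c) (-(p / (1 + c))) (-q)).mulVec s) = 0 := by
    intro s
    rw [← e1]
    show φ (Submodule.Quotient.mk ((EM (-c) (-(p / (1 + c))) (-q)).mulVec s)) = 0
    have : (Submodule.Quotient.mk ((EM (-c) (-(p / (1 + c))) (-q)).mulVec s) :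
        CM (-c) (-(p / (1 + c))) (-q)) = 0 := by
      rw [Submodule.Quotient.mk_eq_zero]
      exact ⟨s, rfl⟩
    rw [this, map_zero]
  have e3 := e2 ![1, 0]
  have e4 := e2 ![0, 1]
  rw [lmap_comp] at e3 e4
  have e5 : (1 + d⁻¹ * (-c)) * n0.p + (-q) * n1.p = 0 := by
    have := congrArg NN.q e3
    simpa using this
  have e6 : 2 * (-(p / (1 + c))) * n0.p + n1.p = 0 := by
    have := congrArg NN.q e4
    simpa using this
  have e7 : n0.p = 0 := by
    have : dt d (-c) (-(p / (1 + c))) (-q) * n0.p = 0 := by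
      unfold dt
      linear_combination e5 - (-q) * e6
    exact (mul_eq_zero.1 this).resolve_left h1
  have e8 : n1.p = 0 := by
    rw [e7] at e6
    simpa using e6
  -- solve
  let m0 : NN d := ⟨(n0.q - q * n1.q) / dt d c p q, 0⟩
  let m1 : NN d := ⟨n1.q - 2 * p * ((n0.q - q * n1.q) / dt d c p q), 0⟩
  refine ⟨lmap d m0 m1, ?_⟩
  apply LinearMap.ext
  intro x
  induction x using Submodule.Quotient.induction_on with
  | H s =>
    have e9 : φ (Submodule.Quotient.mk s) = lmap d n0 n1 s := LinearMap.congr_fun e1 s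
    rw [e9, LinearMap.comp_apply, inj_mk, lmap_comp, lmap_apply]
    have e10 : (1 + d⁻¹ * c) * ((n0.q - q * n1.q) / dt d c p q) +
      q * (n1.q - 2 * p * ((n0.q - q * n1.q) / dt d c p q)) = n0.q := by
      have e11 : (1 + d⁻¹ * c) * ((n0.q - q * n1.q) / dt d c p q) +
        q * (n1.q - 2 * p * ((n0.q - q * n1.q) / dt d c p q)) =
        dt d c p q * ((n0.q - q * n1.q) / dt d c p q) + q * n1.q := by
        unfold dt
        ring
      rw [e11, mul_div_cancel₀ _ h0]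
      ring
    ext
    · simp [e7, e8]
    · simp only [add_q, smul_q, e7, e8, m0, m1]
      rw [e10]
      ring

theorem ev_neg (d c p q : k) (hc1 : c ≠ 1) (hc2 : c ≠ -1)
    (h : dt d c p q = 0 ∨ dt d (-c) (-(p / (1 + c))) (-q) = 0) :
    ¬ EV (SR k) (CM c p q) (NN d) 1 := by
  rw [ev_one' c p q hc1 hc2]
  intro hφ
  rcases h with h | h
  · let φ : CM (-c) (-(p / (1 + c))) (-q) →ₗ[SR k] NN d :=
      Submodule.liftQ _ (lmap d ⟨0, 1⟩ ⟨0, 0⟩) (by
      rintro _ ⟨w, rfl⟩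
      show lmap d ⟨0, 1⟩ ⟨0, 0⟩ ((EM (-c) (-(p / (1 + c))) (-q)).mulVec w) = 0
      rw [lmap_comp]
      ext <;> simp)
    obtain ⟨ψ, hψ⟩ := hφ φ
    have e1 := LinearMap.congr_fun hψ (Submodule.Quotient.mk ![1, 0])
    have e2 := LinearMap.congr_fun hψ (Submodule.Quotient.mk ![0, 1])
    have e3 : φ (Submodule.Quotient.mk ![1, 0]) = lmap d ⟨0, 1⟩ ⟨0, 0⟩ ![1, 0] := rfl
    have e4 : φ (Submodule.Quotient.mk ![0, 1]) = lmap d ⟨0, 1⟩ ⟨0, 0⟩ ![0, 1] := rfl
    rw [eq_lmap d ψ, LinearMap.comp_apply, inj_mk, lmap_comp] at e1 e2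
    rw [e3, lmap_apply] at e1
    rw [e4, lmap_apply] at e2
    have e5 := congrArg NN.q e1
    have e6 := congrArg NN.q e2
    simp at e5 e6
    unfold dt at h
    have : (1 : k) = 0 := by
      linear_combination -e5 + q * e6 + (ψ (Pi.single 0 1)).p * h
    exact one_ne_zero this
  · let φ : CM (-c) (-(p / (1 + c))) (-q) →ₗ[SR k] NN d :=
      Submodule.liftQ _ (lmap d ⟨1, 0⟩ ⟨-(2 * -(p / (1 + c))), 0⟩) (by
      rintro _ ⟨w, rfl⟩
      show lmap d ⟨1, 0⟩ ⟨-(2 * -(p / (1 + c))), 0⟩ ((EM (-c) (-(p / (1 + c))) (-q)).mulVec w) = 0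
      rw [lmap_comp]
      unfold dt at h
      ext
      · simp
      · simp only [zero_q]
        linear_combination (w 0).u * h)
    obtain ⟨ψ, hψ⟩ := hφ φ
    have e1 := LinearMap.congr_fun hψ (Submodule.Quotient.mk ![1, 0])
    have e3 : φ (Submodule.Quotient.mk ![1, 0]) =
      lmap d ⟨1, 0⟩ ⟨-(2 * -(p / (1 + c))), 0⟩ ![1, 0] := rfl
    rw [eq_lmap d ψ, LinearMap.comp_apply, inj_mk, lmap_comp] at e1
    rw [e3, lmap_apply] at e1
    have e5 := congrArg NN.p e1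
    simp at e5

/-! ### the sequence of matrices -/

/-- the parameters -/
def sq (c : k) : ℕ → k × k × k
  | 0 => (c, 1, 1)
  | l + 1 => (-(sq c l).1, -((sq c l).2.1 / (1 + (sq c l).1)), -(sq c l).2.2)

theorem sq_ne (c : k) (hc1 : c ≠ 1) (hc2 : c ≠ -1) : ∀ l, (sq c l).1 ≠ 1 ∧ (sq c l).1 ≠ -1
  | 0 => ⟨hc1, hc2⟩
  | l + 1 => by
    have h := sq_ne c hc1 hc2 l
    refine ⟨fun h1 => h.2 ?_, fun h1 => h.1 ?_⟩
    · have h2 : -(sq c l).1 = 1 := h1
      linear_combination -h2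
    · have h2 : -(sq c l).1 = -1 := h1
      linear_combination -h2

theorem sq_ev (c : k) (hc1 : c ≠ 1) (hc2 : c ≠ -1) (N : Type) [AddCommGroup N]
    [Module (SR k) N] : ∀ l j : ℕ,
    EV (SR k) (CM (sq c j).1 (sq c j).2.1 (sq c j).2.2) N (l + 1) ↔
      EV (SR k) (CM (sq c (j + l)).1 (sq c (j + l)).2.1 (sq c (j + l)).2.2) N 1
  | 0, _ => Iff.rfl
  | l + 1, j => by
    have h := sq_ne c hc1 hc2 j
    rw [ev_step _ _ _ h.1 h.2 N (l + 1) (by omega)]
    have h1 := sq_ev c hc1 hc2 N l (j + 1)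
    have h2 : j + (l + 1) = j + 1 + l := by omega
    rw [h2]
    exact h1

theorem sq_even (c : k) (hc1 : c ≠ 1) (hc2 : c ≠ -1) : ∀ i : ℕ, (sq c (2 * i)).1 = c ∧
    (sq c (2 * i)).2.1 * (1 - c ^ 2) ^ i = 1 ∧ (sq c (2 * i)).2.2 = 1
  | 0 => by simp [sq]
  | i + 1 => by
    obtain ⟨h1, h2, h3⟩ := sq_even c hc1 hc2 i
    have e1 : 1 + c ≠ 0 := fun h => hc2 (by linear_combination h)
    have e2 : 1 - c ≠ 0 := fun h => hc1 (by linear_combination -h)
    have e3 : 1 + -c ≠ 0 := fun h => hc1 (by linear_combination -h)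
    have e4 : sq c (2 * (i + 1)) = (-(-(sq c (2 * i)).1),
      -(-((sq c (2 * i)).2.1 / (1 + (sq c (2 * i)).1)) / (1 + -(sq c (2 * i)).1)),
      -(-(sq c (2 * i)).2.2)) := rfl
    rw [e4]
    refine ⟨?_, ?_, ?_⟩
    · rw [h1]; ring
    · show -(-((sq c (2 * i)).2.1 / (1 + (sq c (2 * i)).1)) / (1 + -(sq c (2 * i)).1)) *
        (1 - c ^ 2) ^ (i + 1) = 1
      rw [h1, pow_succ]
      have e5 : -(-((sq c (2 * i)).2.1 / (1 + c)) / (1 + -c)) * ((1 - c ^ 2) ^ i * (1 - c ^ 2)) =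
        (sq c (2 * i)).2.1 * (1 - c ^ 2) ^ i := by
        field_simp
        ring
      rw [e5, h2]
    · rw [h3]; ring

/-- the determinants -/
def de (c : k) (l : ℕ) : k := dt c (sq c l).1 (sq c l).2.1 (sq c l).2.2

theorem de_even (c : k) (hc : c ≠ 0) (hc1 : c ≠ 1) (hc2 : c ≠ -1) (i : ℕ) :
    de c (2 * i) * (1 - c ^ 2) ^ i = 2 * ((1 - c ^ 2) ^ i - 1) := by
  obtain ⟨h1, h2, h3⟩ := sq_even c hc1 hc2 i
  unfold de dt
  rw [h1, h3, inv_mul_cancel₀ hc]
  linear_combination -2 * h2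

theorem de_odd (c : k) (h2' : (2 : k) ≠ 0) (hc : c ≠ 0) (hc1 : c ≠ 1) (hc2 : c ≠ -1) (i : ℕ) :
    de c (2 * i + 1) ≠ 0 := by
  obtain ⟨h1, h2, h3⟩ := sq_even c hc1 hc2 i
  have e1 : 1 + c ≠ 0 := fun h => hc2 (by linear_combination h)
  have e4 : sq c (2 * i + 1) = (-(sq c (2 * i)).1,
      -((sq c (2 * i)).2.1 / (1 + (sq c (2 * i)).1)), -(sq c (2 * i)).2.2) := rfl
  unfold de dt
  rw [e4, h1, h3]
  intro h
  have h4 : 1 + c⁻¹ * -c - 2 * -((sq c (2 * i)).2.1 / (1 + c)) * -1 = 0 := h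
  have h5 : c⁻¹ * -c = -1 := by rw [mul_neg, inv_mul_cancel₀ hc]
  rw [h5] at h4
  have h6 : 2 * (sq c (2 * i)).2.1 = 0 := by
    field_simp at h4
    linear_combination -h4
  have h7 : (2 : k) = 0 := by
    linear_combination -2 * h2 + (1 - c ^ 2) ^ i * h6
  exact h2' h7

theorem gap (h2 : (2 : k) ≠ 0) (c : k) (hc : c ≠ 0) (hc1 : c ≠ 1)
    (hc2 : c ≠ -1) (L : ℕ) (hL : 0 < L) (h1 : (1 - c ^ 2) ^ L = 1)
    (h3 : ∀ i, 0 < i → i < L → (1 - c ^ 2) ^ i ≠ 1) :
    ∃ (N : Type) (_ : AddCommGroup N) (_ : Module (SR k) N), Module.Finite (SR k) N ∧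
      ¬ EV (SR k) (MM c (1 : k)) N 1 ∧ ¬ EV (SR k) (MM c (1 : k)) N (2 * L) ∧
      ∀ i, 1 < i → i < 2 * L → EV (SR k) (MM c (1 : k)) N i := by
  have key : ∀ l, EV (SR k) (MM c (1 : k)) (NN c) (l + 1) ↔
      EV (SR k) (CM (sq c l).1 (sq c l).2.1 (sq c l).2.2) (NN c) 1 := by
    intro l
    have := sq_ev c hc1 hc2 (NN c) l 0
    rw [zero_add] at this
    exact this
  have pos : ∀ l, de c l ≠ 0 → de c (l + 1) ≠ 0 → EV (SR k) (MM c (1 : k)) (NN c) (l + 1) := by
    intro l h4 h5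
    rw [key]
    exact ev_pos c _ _ _ (sq_ne c hc1 hc2 l).1 (sq_ne c hc1 hc2 l).2 h4 h5
  have neg : ∀ l, de c l = 0 ∨ de c (l + 1) = 0 →
      ¬ EV (SR k) (MM c (1 : k)) (NN c) (l + 1) := by
    intro l h4
    rw [key]
    exact ev_neg c _ _ _ (sq_ne c hc1 hc2 l).1 (sq_ne c hc1 hc2 l).2 h4
  have hz : ∀ i, (1 - c ^ 2) ^ i = 1 → de c (2 * i) = 0 := by
    intro i hi
    have := de_even c hc hc1 hc2 i
    rw [hi] at this
    simpa using this
  have hnz : ∀ i, 0 < i → i < 2 * L → de c i ≠ 0 := by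
    intro i hi hi2
    obtain ⟨j, hj | hj⟩ := Nat.even_or_odd' i
    · subst hj
      intro h4
      have := de_even c hc hc1 hc2 j
      rw [h4, zero_mul] at this
      have h5 := (mul_eq_zero.1 this.symm).resolve_left h2
      exact h3 j (by omega) (by omega) (by linear_combination h5)
    · subst hj
      exact de_odd c h2 hc hc1 hc2 j
  refine ⟨NN c, inferInstance, inferInstance, inferInstance, neg 0 (Or.inl (hz 0 (pow_zero _))),
    ?_, ?_⟩
  · obtain ⟨l, hl⟩ : ∃ l, 2 * L = l + 1 := ⟨2 * L - 1, by omega⟩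
    rw [hl]
    apply neg l
    right
    rw [← hl]
    exact hz L h1
  · intro i hi hi2
    obtain ⟨l, rfl⟩ : ∃ l, i = l + 1 := ⟨i - 1, by omega⟩
    exact pos l (hnz l (by omega) (by omega)) (hnz (l + 1) (by omega) hi2)

end

end Pool.Agent.TH111.J575
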