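import Mathlib
import Pool.Agent.TH313.SC.Lad

/-!
# A connected locally compact space which is not σ-compact, with a continuous injection in a
compact metric space (job 1518, helper111)
-/

set_option autoImplicit false

namespace Pool.Agent.TH111.SC4
open Set Filter Topology Pool.Agent.TH313.SC

/-! ### the comb -/

/-- the comb: the spine `(0, ∞) × {0}` (its part `(0, 1] × {0}` is the intake) and the teeth
`{n + 1} × [0, 1]`, `n ≥ 1`. -/
def Comb : Set (ℝ × ℝ) :=
  {p | 0 < p.1 ∧ 0 ≤ p.2 ∧ p.2 ≤ 1 ∧ (p.2 = 0 ∨ ∃ n : ℕ, 0 < n ∧ p.1 = n + 1)}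

/-- the half-open interval -/
abbrev T := ↥(Set.Ioc (0 : ℝ) 1)

/-- points of the spine -/
def spine (x : ℝ) (hx : 0 < x) : ↥Comb := ⟨(x, 0), hx, le_rfl, zero_le_one, Or.inl rfl⟩

/-- points of the teeth -/
def tooth (n : ℕ) (hn : 0 < n) (t : T) : ↥Comb :=
  ⟨((n : ℝ) + 1, (t : ℝ)), by positivity, t.2.1.le, t.2.2, Or.inr ⟨n, hn, rfl⟩⟩

/-- points of the intake -/
def intake (t : T) : ↥Comb := spine t t.2.1

theorem tooth_fst (n : ℕ) (hn : 0 < n) (t : T) : (tooth n hn t).1.1 = (n : ℝ) + 1 := rfl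
theorem tooth_snd (n : ℕ) (hn : 0 < n) (t : T) : (tooth n hn t).1.2 = (t : ℝ) := rfl
theorem intake_fst (t : T) : (intake t).1.1 = (t : ℝ) := rfl
theorem intake_snd (t : T) : (intake t).1.2 = 0 := rfl

theorem tooth_ge (n : ℕ) (hn : 0 < n) : (2 : ℝ) ≤ (n : ℝ) + 1 := by
  have : (1 : ℝ) ≤ n := by exact_mod_cast hn
  linarith

theorem cont_tooth (n : ℕ) (hn : 0 < n) : Continuous (tooth n hn) := by
  apply Continuous.subtype_mk
  fun_prop

theorem cont_intake : Continuous intake := by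
  apply Continuous.subtype_mk
  fun_prop

theorem comb_snd_of_lt {b : ↥Comb} (h : b.1.1 < 2) : b.1.2 = 0 := by
  rcases b.2.2.2.2 with h1 | ⟨n, hn, h1⟩
  · exact h1
  · have := tooth_ge n hn
    linarith

/-- the points of the intake -/
theorem eq_intake {b : ↥Comb} (h : b.1.1 ≤ 1) : b = intake ⟨b.1.1, b.2.1, h⟩ := by
  apply Subtype.ext
  apply Prod.ext
  · rfl
  · exact comb_snd_of_lt (by linarith)

theorem eq_tooth {b : ↥Comb} (h : b.1.2 ≠ 0) : ∃ (n : ℕ) (hn : 0 < n) (t : T), b = tooth n hn t := by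
  rcases b.2.2.2.2 with h1 | ⟨n, hn, h1⟩
  · exact absurd h1 h
  · refine ⟨n, hn, ⟨b.1.2, lt_of_le_of_ne b.2.2.1 (Ne.symm h), b.2.2.2.1⟩, ?_⟩
    apply Subtype.ext
    apply Prod.ext
    · exact h1
    · rfl

/-- the open tops of the teeth are open -/
theorem isOpen_tops (n : ℕ) (r : ℝ) (hr : 0 < r) :
    IsOpen {b : ↥Comb | b.1.1 = (n : ℝ) + 1 ∧ r < b.1.2} := by
  have e : {b : ↥Comb | b.1.1 = (n : ℝ) + 1 ∧ r < b.1.2} =
      {b : ↥Comb | |b.1.1 - ((n : ℝ) + 1)| < 1 / 2 ∧ r < b.1.2} := by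
    ext b
    constructor
    · rintro ⟨h1, h2⟩
      refine ⟨?_, h2⟩
      rw [h1]
      norm_num
    · rintro ⟨h1, h2⟩
      refine ⟨?_, h2⟩
      obtain ⟨m, hm, t, rfl⟩ := eq_tooth (b := b) (by linarith)
      rw [tooth_fst] at h1 ⊢
      have h3 : |((m : ℤ) : ℝ) - ((n : ℤ) : ℝ)| < 1 := by
        push_cast
        rw [show (m : ℝ) - n = (m : ℝ) + 1 - ((n : ℝ) + 1) by ring]
        linarith
      rw [← Int.cast_sub, ← Int.cast_abs] at h3
      have h4 : |(m : ℤ) - n| < 1 := by exact_mod_cast h3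
      have h5 : (m : ℤ) = n := by
        rw [Int.abs_lt_one_iff] at h4
        omega
      have h6 : m = n := by exact_mod_cast h5
      rw [h6]
  have c1 : Continuous (fun b : ↥Comb => |b.1.1 - ((n : ℝ) + 1)|) :=
    ((continuous_fst.comp continuous_subtype_val).sub continuous_const).abs
  have c2 : Continuous (fun b : ↥Comb => b.1.2) := continuous_snd.comp continuous_subtype_val
  rw [e]
  exact (isOpen_lt c1 continuous_const).inter (isOpen_lt continuous_const c2)

/-- compact pieces of the comb -/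
theorem isCompact_piece (l u : ℝ) (hl : 0 < l) : IsCompact {b : ↥Comb | l ≤ b.1.1 ∧ b.1.1 ≤ u} := by
  rw [Subtype.isCompact_iff]
  have e : (Subtype.val '' {b : ↥Comb | l ≤ b.1.1 ∧ b.1.1 ≤ u}) =
      (Icc l u ×ˢ Icc (0 : ℝ) 1) ∩ ({p : ℝ × ℝ | p.2 = 0} ∪
        {p : ℝ × ℝ | p.1 ∈ (Nat.cast '' {m : ℕ | 2 ≤ m} : Set ℝ)}) := by
    ext p
    constructor
    · rintro ⟨b, ⟨h1, h2⟩, rfl⟩
      refine ⟨⟨⟨h1, h2⟩, ⟨b.2.2.1, b.2.2.2.1⟩⟩, ?_⟩
      rcases b.2.2.2.2 with h | ⟨n, hn, h⟩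
      · left
        exact h
      · right
        refine ⟨n + 1, ?_, ?_⟩
        · change 2 ≤ n + 1
          omega
        · rw [h]
          push_cast
          rfl
    · rintro ⟨⟨⟨h1, h2⟩, ⟨h3, h4⟩⟩, h5⟩
      refine ⟨⟨p, lt_of_lt_of_le hl h1, h3, h4, ?_⟩, ⟨h1, h2⟩, rfl⟩
      rcases h5 with h | ⟨m, hm, h⟩
      · left
        exact h
      · right
        have hm' : 2 ≤ m := hm
        refine ⟨m - 1, by omega, ?_⟩
        rw [← h, Nat.cast_sub (by omega)]
        push_cast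
        ring
  rw [e]
  apply IsCompact.inter_right (isCompact_Icc.prod isCompact_Icc)
  apply IsClosed.union
  · exact isClosed_eq continuous_snd continuous_const
  · apply IsClosed.preimage continuous_fst
    exact Nat.isClosedEmbedding_coe_real.isClosedMap _ (isClosed_discrete _)

/-- the comb is connected -/
theorem comb_const (f : ↥Comb → Bool) (hf : Continuous f) (b b' : ↥Comb) : f b = f b' := by
  have h1 : ∀ x (hx : 0 < x) y (hy : 0 < y), f (spine x hx) = f (spine y hy) := by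
    intro x hx y hy
    have : PreconnectedSpace ↥(Ioi (0 : ℝ)) :=
      isPreconnected_iff_preconnectedSpace.1 isPreconnected_Ioi
    have hc : Continuous (fun x : ↥(Ioi (0 : ℝ)) => f (spine x.1 x.2)) := by
      apply hf.comp
      apply Continuous.subtype_mk
      fun_prop
    exact PreconnectedSpace.constant inferInstance hc (x := ⟨x, hx⟩) (y := ⟨y, hy⟩)
  have h2 : ∀ b : ↥Comb, f b = f (spine b.1.1 b.2.1) := by
    intro b
    by_cases h : b.1.2 = 0
    · congr 1
      apply Subtype.ext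
      apply Prod.ext
      · rfl
      · exact h
    · obtain ⟨n, hn, t, rfl⟩ := eq_tooth h
      have : PreconnectedSpace ↥(Icc (0 : ℝ) 1) :=
        isPreconnected_iff_preconnectedSpace.1 isPreconnected_Icc
      have hc : Continuous (fun y : ↥(Icc (0 : ℝ) 1) => f ⟨((n : ℝ) + 1, y.1),
          by positivity, y.2.1, y.2.2, Or.inr ⟨n, hn, rfl⟩⟩) := by
        apply hf.comp
        apply Continuous.subtype_mk
        fun_prop
      exact PreconnectedSpace.constant inferInstance hc (x := ⟨t.1, t.2.1.le, t.2.2⟩)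
        (y := ⟨0, le_rfl, zero_le_one⟩)
  rw [h2 b, h2 b']
  exact h1 _ _ _ _

/-! ### the space -/

variable {I : Type} [LinearOrder I]

/-- the space: copies of the comb indexed by `I` -/
structure Om (L : Lad I) where
  blk : I
  pt : ↥Comb

variable {L : Lad I}

/-- the points of the strips -/
def strip (L : Lad I) (α : I) (i : ℕ) (t : T) : Om L :=
  ⟨L.a α i, tooth (L.n α i) (L.n_pos α i) t⟩

instance : TopologicalSpace (Om L) where
  IsOpen U := (∀ α, IsOpen {b : ↥Comb | (⟨α, b⟩ : Om L) ∈ U}) ∧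
    ∀ α, (∃ β, β < α) → ∀ t : T, (⟨α, intake t⟩ : Om L) ∈ U →
      ∀ᶠ p : ℕ × T in atTop ×ˢ 𝓝 t, strip L α p.1 p.2 ∈ U
  isOpen_univ := ⟨fun α => isOpen_univ, fun α _ t _ => Eventually.of_forall fun _ => mem_univ _⟩
  isOpen_inter U V hU hV := ⟨fun α => (hU.1 α).inter (hV.1 α), fun α hα t ht =>
    (hU.2 α hα t ht.1).and (hV.2 α hα t ht.2)⟩
  isOpen_sUnion S hS := by
    refine ⟨fun α => ?_, fun α hα t ht => ?_⟩
    · have e : {b : ↥Comb | (⟨α, b⟩ : Om L) ∈ ⋃₀ S} =
          ⋃ U ∈ S, {b : ↥Comb | (⟨α, b⟩ : Om L) ∈ U} := by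
        ext b
        simp
      rw [e]
      exact isOpen_biUnion fun U hU => (hS U hU).1 α
    · obtain ⟨U, hU, hU'⟩ := ht
      exact ((hS U hU).2 α hα t hU').mono fun p hp => ⟨U, hU, hp⟩

theorem isOpen_def {U : Set (Om L)} : IsOpen U ↔ (∀ α, IsOpen {b : ↥Comb | (⟨α, b⟩ : Om L) ∈ U}) ∧
    ∀ α, (∃ β, β < α) → ∀ t : T, (⟨α, intake t⟩ : Om L) ∈ U →
      ∀ᶠ p : ℕ × T in atTop ×ˢ 𝓝 t, strip L α p.1 p.2 ∈ U := Iff.rfl

theorem cont_mk (α : I) : Continuous (fun b : ↥Comb => (⟨α, b⟩ : Om L)) :=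
  ⟨fun _ hU => hU.1 α⟩

theorem tendsto_strip (α : I) (hα : ∃ β, β < α) (t : T) :
    Tendsto (fun p : ℕ × T => strip L α p.1 p.2) (atTop ×ˢ 𝓝 t) (𝓝 (⟨α, intake t⟩ : Om L)) := by
  rw [tendsto_nhds]
  intro U hU ht
  exact hU.2 α hα t ht

theorem cont_of {Y : Type*} [TopologicalSpace Y] (g : Om L → Y)
    (h1 : ∀ α, Continuous (fun b : ↥Comb => g ⟨α, b⟩))
    (h2 : ∀ α, (∃ β, β < α) → ∀ t : T, Tendsto (fun p : ℕ × T => g (strip L α p.1 p.2))
      (atTop ×ˢ 𝓝 t) (𝓝 (g ⟨α, intake t⟩))) : Continuous g := by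
  refine ⟨fun V hV => ⟨fun α => hV.preimage (h1 α), fun α hα t ht => ?_⟩⟩
  exact (h2 α hα t).eventually (hV.mem_nhds ht)

/-- the closed strip -/
noncomputable def cstrip (L : Lad I) (α : I) (p : OnePoint ℕ × T) : Om L :=
  p.1.elim ⟨α, intake p.2⟩ (fun i => strip L α i p.2)

theorem cont_cstrip (α : I) (hα : ∃ β, β < α) : Continuous (cstrip L α) := by
  rw [continuous_iff_continuousAt]
  rintro ⟨s, t⟩
  rw [ContinuousAt, nhds_prod_eq]
  induction s using OnePoint.rec with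
  | infty =>
    rw [OnePoint.nhds_infty_eq, sup_prod, tendsto_sup]
    constructor
    · rw [coclosedCompact_eq_cocompact, cocompact_eq_cofinite, Nat.cofinite_eq_atTop]
      have h1 : (map OnePoint.some (atTop : Filter ℕ)) ×ˢ 𝓝 t =
          map (fun p : ℕ × T => ((p.1 : OnePoint ℕ), p.2)) (atTop ×ˢ 𝓝 t) := by
        have := Filter.prod_map_map_eq (f₁ := (atTop : Filter ℕ)) (f₂ := 𝓝 t)
          (m₁ := (OnePoint.some : ℕ → OnePoint ℕ)) (m₂ := (id : T → T))
        rw [map_id] at this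
        exact this
      rw [h1, tendsto_map'_iff]
      exact tendsto_strip α hα t
    · rw [pure_prod, tendsto_map'_iff]
      exact ((cont_mk α).comp cont_intake).tendsto t
  | coe i =>
    rw [OnePoint.nhds_coe_eq, nhds_discrete, map_pure, pure_prod, tendsto_map'_iff]
    exact ((cont_mk (L.a α i)).comp (cont_tooth (L.n α i) (L.n_pos α i))).tendsto t

theorem isCompact_block (α : I) (l u : ℝ) (hl : 0 < l) :
    IsCompact ((fun b : ↥Comb => (⟨α, b⟩ : Om L)) '' {b : ↥Comb | l ≤ b.1.1 ∧ b.1.1 ≤ u}) :=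
  (isCompact_piece l u hl).image (cont_mk α)

theorem isCompact_strip (α : I) (hα : ∃ β, β < α) (r : ℝ) (hr : 0 < r) :
    IsCompact (cstrip L α '' (univ ×ˢ {t : T | r ≤ t})) := by
  apply IsCompact.image _ (cont_cstrip α hα)
  apply isCompact_univ.prod
  rw [Subtype.isCompact_iff]
  have e : (Subtype.val '' {t : T | r ≤ t}) = Icc r 1 := by
    ext s
    constructor
    · rintro ⟨t, ht, rfl⟩
      exact ⟨ht, t.2.2⟩
    · rintro ⟨h1, h2⟩
      exact ⟨⟨s, lt_of_lt_of_le hr h1, h2⟩, h1, rfl⟩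
  rw [e]
  exact isCompact_Icc

/-! ### open sets -/

theorem cfst : Continuous (fun b : ↥Comb => b.1.1) := continuous_fst.comp continuous_subtype_val

theorem csnd : Continuous (fun b : ↥Comb => b.1.2) := continuous_snd.comp continuous_subtype_val

theorem isOpen_block (α : I) (V : Set ↥Comb) (hV : IsOpen V)
    (h : (∃ β, β < α) → ∀ t, intake t ∉ V) : IsOpen {p : Om L | p.blk = α ∧ p.pt ∈ V} := by
  rw [isOpen_def]
  constructor
  · intro β
    by_cases hβ : β = α
    · have e : {b : ↥Comb | (⟨β, b⟩ : Om L) ∈ {p : Om L | p.blk = α ∧ p.pt ∈ V}} = V := by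
        ext b
        simp [hβ]
      rw [e]
      exact hV
    · have e : {b : ↥Comb | (⟨β, b⟩ : Om L) ∈ {p : Om L | p.blk = α ∧ p.pt ∈ V}} = ∅ := by
        ext b
        simp [hβ]
      rw [e]
      exact isOpen_empty
  · rintro β hβ t ⟨ht1, ht2⟩
    exfalso
    have ht1' : β = α := ht1
    subst ht1'
    exact h hβ t ht2

theorem isOpen_nbhd (α : I) (hα : ∃ β, β < α) (r : ℝ) (hr : 0 < r) :
    IsOpen {p : Om L | (p.blk = α ∧ r < p.pt.1.1 ∧ p.pt.1.1 < 3 / 2) ∨
      ∃ i, ∃ t : T, r < t ∧ p = strip L α i t} := by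
  rw [isOpen_def]
  constructor
  · intro β
    have e : {b : ↥Comb | (⟨β, b⟩ : Om L) ∈ {p : Om L | (p.blk = α ∧ r < p.pt.1.1 ∧ p.pt.1.1 < 3 / 2) ∨
        ∃ i, ∃ t : T, r < t ∧ p = strip L α i t}} =
        {b : ↥Comb | β = α ∧ r < b.1.1 ∧ b.1.1 < 3 / 2} ∪ ⋃ i : ℕ,
          {b : ↥Comb | β = L.a α i ∧ b.1.1 = (L.n α i : ℝ) + 1 ∧ r < b.1.2} := by
      ext b
      constructor
      · rintro (h | ⟨i, t, ht, h⟩)
        · left
          exact h
        · right
          rw [mem_iUnion]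
          refine ⟨i, ?_⟩
          have h1 : β = L.a α i := congrArg Om.blk h
          have h2 : b = tooth (L.n α i) (L.n_pos α i) t := congrArg Om.pt h
          refine ⟨h1, ?_, ?_⟩
          · rw [h2, tooth_fst]
          · rw [h2, tooth_snd]
            exact ht
      · rintro (h | h)
        · left
          exact h
        · right
          rw [mem_iUnion] at h
          obtain ⟨i, h1, h2, h3⟩ := h
          refine ⟨i, ⟨b.1.2, hr.trans h3, b.2.2.2.1⟩, h3, ?_⟩
          unfold strip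
          congr 1
          apply Subtype.ext
          apply Prod.ext
          · exact h2
          · rfl
    rw [e]
    apply IsOpen.union
    · by_cases h : β = α
      · have e2 : {b : ↥Comb | β = α ∧ r < b.1.1 ∧ b.1.1 < 3 / 2} =
            {b : ↥Comb | r < b.1.1 ∧ b.1.1 < 3 / 2} := by
          ext b
          simp [h]
        rw [e2]
        exact (isOpen_lt continuous_const cfst).inter (isOpen_lt cfst continuous_const)
      · have e2 : {b : ↥Comb | β = α ∧ r < b.1.1 ∧ b.1.1 < 3 / 2} = ∅ := by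
          ext b
          simp [h]
        rw [e2]
        exact isOpen_empty
    · apply isOpen_iUnion
      intro i
      by_cases h : β = L.a α i
      · have e2 : {b : ↥Comb | β = L.a α i ∧ b.1.1 = (L.n α i : ℝ) + 1 ∧ r < b.1.2} =
            {b : ↥Comb | b.1.1 = (L.n α i : ℝ) + 1 ∧ r < b.1.2} := by
          ext b
          simp [h]
        rw [e2]
        exact isOpen_tops _ r hr
      · have e2 : {b : ↥Comb | β = L.a α i ∧ b.1.1 = (L.n α i : ℝ) + 1 ∧ r < b.1.2} = ∅ := by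
          ext b
          simp [h]
        rw [e2]
        exact isOpen_empty
  · rintro β hβ t (⟨h1, h2, h3⟩ | ⟨i, s, hs, h⟩)
    · have h1' : β = α := h1
      subst h1'
      have h4 : ∀ᶠ s : T in 𝓝 t, r < s := by
        apply IsOpen.mem_nhds (isOpen_lt continuous_const continuous_subtype_val)
        exact h2
      refine (h4.prod_inr (atTop : Filter ℕ)).mono fun p hp => ?_
      right
      exact ⟨p.1, p.2, hp, rfl⟩
    · exfalso
      have h5 : intake t = tooth (L.n α i) (L.n_pos α i) s := congrArg Om.pt h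
      have h6 := congrArg (fun b : ↥Comb => b.1.2) h5
      simp only [intake_snd, tooth_snd] at h6
      exact s.2.1.ne h6

/-- every point has a compact neighbourhood -/
theorem wlc : WeaklyLocallyCompactSpace (Om L) := by
  constructor
  rintro ⟨α, b⟩
  by_cases hα : ∃ β, β < α
  · by_cases hb : b.1.1 ≤ 1
    · -- a point of the intake
      set r := b.1.1 / 2 with hr
      have hb0 : 0 < b.1.1 := b.2.1
      have hr0 : 0 < r := by positivity
      refine ⟨((fun b : ↥Comb => (⟨α, b⟩ : Om L)) '' {b : ↥Comb | r ≤ b.1.1 ∧ b.1.1 ≤ 3 / 2}) ∪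
        (cstrip L α '' (univ ×ˢ {t : T | r ≤ t})),
        (isCompact_block α r (3 / 2) hr0).union (isCompact_strip α hα r hr0), ?_⟩
      refine mem_of_superset ((isOpen_nbhd α hα r hr0).mem_nhds (Or.inl ⟨rfl, ?_, ?_⟩)) ?_
      · change r < b.1.1
        linarith
      · change b.1.1 < 3 / 2
        linarith
      · rintro p (⟨h1, h2, h3⟩ | ⟨i, t, ht, h⟩)
        · left
          exact ⟨p.pt, ⟨h2.le, h3.le⟩, by rw [← h1]⟩
        · right
          refine ⟨((i : OnePoint ℕ), t), ⟨mem_univ _, ht.le⟩, ?_⟩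
          rw [h]
          rfl
    · have hb1 : 1 < b.1.1 := not_le.1 hb
      refine ⟨(fun b : ↥Comb => (⟨α, b⟩ : Om L)) '' {b' : ↥Comb | 1 ≤ b'.1.1 ∧ b'.1.1 ≤ b.1.1 + 1},
        isCompact_block α 1 (b.1.1 + 1) one_pos, ?_⟩
      refine mem_of_superset ((isOpen_block α {b' : ↥Comb | 1 < b'.1.1 ∧ b'.1.1 < b.1.1 + 1}
        ((isOpen_lt continuous_const cfst).inter (isOpen_lt cfst continuous_const)) ?_).mem_nhds
          ⟨rfl, hb1, ?_⟩) ?_
      · intro _ t ht
        have h1 : 1 < (t : ℝ) := ht.1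
        exact absurd h1 (not_lt.2 t.2.2)
      · change b.1.1 < b.1.1 + 1
        linarith
      · rintro p ⟨h1, h2, h3⟩
        exact ⟨p.pt, ⟨h2.le, h3.le⟩, by rw [← h1]⟩
  · have hb0 : 0 < b.1.1 := b.2.1
    refine ⟨(fun b : ↥Comb => (⟨α, b⟩ : Om L)) ''
      {b' : ↥Comb | b.1.1 / 2 ≤ b'.1.1 ∧ b'.1.1 ≤ b.1.1 + 1},
      isCompact_block α (b.1.1 / 2) (b.1.1 + 1) (by positivity), ?_⟩
    refine mem_of_superset ((isOpen_block α {b' : ↥Comb | b.1.1 / 2 < b'.1.1 ∧ b'.1.1 < b.1.1 + 1}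
      ((isOpen_lt continuous_const cfst).inter (isOpen_lt cfst continuous_const)) ?_).mem_nhds
        ⟨rfl, ?_, ?_⟩) ?_
    · intro h
      exact absurd h hα
    · change b.1.1 / 2 < b.1.1
      linarith
    · change b.1.1 < b.1.1 + 1
      linarith
    · rintro p ⟨h1, h2, h3⟩
      exact ⟨p.pt, ⟨h2.le, h3.le⟩, by rw [← h1]⟩

/-- connectedness -/
theorem om_const [WellFoundedLT I] [OrderBot I] (hcof : ∀ α : I, α ≠ ⊥ → ∃ β, β < α)
    (f : Om L → Bool) (hf : Continuous f) (α : I) (b b' : ↥Comb) :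
    f ⟨α, b⟩ = f ⟨⊥, b'⟩ := by
  induction α using WellFoundedLT.induction generalizing b with
  | _ α ih =>
    have h0 : ∀ b b' : ↥Comb, f ⟨α, b⟩ = f ⟨α, b'⟩ := fun b b' =>
      comb_const (fun b => f ⟨α, b⟩) (hf.comp (cont_mk α)) b b'
    by_cases hα : α = ⊥
    · subst hα
      exact h0 b b'
    · have hα' := hcof α hα
      let t : T := ⟨1, one_pos, le_rfl⟩
      rw [h0 b (intake t)]
      have h1 := (hf.tendsto (⟨α, intake t⟩ : Om L)).comp (tendsto_strip α hα' t)
      have h2 : Tendsto (fun p : ℕ × T => f ⟨⊥, b'⟩) (atTop ×ˢ 𝓝 t) (𝓝 (f ⟨α, intake t⟩)) := by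
        refine h1.congr fun p => ?_
        exact ih (L.a α p.1) (L.a_lt α hα' p.1) _
      exact (tendsto_nhds_unique h2 tendsto_const_nhds)

theorem isOpen_lt_blk (γ : I) : IsOpen {p : Om L | p.blk < γ} := by
  rw [isOpen_def]
  constructor
  · intro β
    by_cases h : β < γ
    · have e : {b : ↥Comb | (⟨β, b⟩ : Om L) ∈ {p : Om L | p.blk < γ}} = univ := by
        ext b
        simp [h]
      rw [e]
      exact isOpen_univ
    · have e : {b : ↥Comb | (⟨β, b⟩ : Om L) ∈ {p : Om L | p.blk < γ}} = ∅ := by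
        ext b
        simp [h]
      rw [e]
      exact isOpen_empty
  · intro β hβ t ht
    refine Eventually.of_forall fun p => ?_
    change L.a β p.1 < γ
    exact (L.a_lt β hβ p.1).trans ht

theorem exists_gt_compact (hb : ∀ s : Set I, s.Countable → ∃ a, ∀ b ∈ s, b < a)
    (K : Set (Om L)) (hK : IsCompact K) : ∃ γ, ∀ p ∈ K, p.blk < γ := by
  obtain ⟨γ₀, -⟩ := hb ∅ countable_empty
  have : Nonempty I := ⟨γ₀⟩
  obtain ⟨γ, hγ⟩ := hK.elim_directed_cover (fun γ : I => {p : Om L | p.blk < γ})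
    (fun γ => isOpen_lt_blk γ) (by
      intro p _
      rw [mem_iUnion]
      obtain ⟨γ, hγ⟩ := hb {p.blk} (countable_singleton _)
      exact ⟨γ, hγ _ rfl⟩) (by
      intro γ γ'
      refine ⟨max γ γ', ?_, ?_⟩
      · intro p hp
        exact lt_of_lt_of_le hp (le_max_left _ _)
      · intro p hp
        exact lt_of_lt_of_le hp (le_max_right _ _))
  exact ⟨γ, fun p hp => hγ hp⟩

theorem exists_gt_compacts (hb : ∀ s : Set I, s.Countable → ∃ a, ∀ b ∈ s, b < a)
    (K : ℕ → Set (Om L)) (hK : ∀ n, IsCompact (K n)) : ∃ γ, ∀ n, ∀ p ∈ K n, p.blk < γ := by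
  choose g hg using fun n => exists_gt_compact hb (K n) (hK n)
  obtain ⟨γ, hγ⟩ := hb (range g) (countable_range g)
  exact ⟨γ, fun n p hp => (hg n p hp).trans (hγ _ ⟨n, rfl⟩)⟩

/-! ### the coordinates -/

noncomputable def tent (x : ℝ) : ℝ := max 0 (min x (2 - x))
noncomputable def sf (x : ℝ) : ℝ := max 0 (min ((x - 1) / 2) (1 / x))
noncomputable def bump (x : ℝ) : ℝ := max 0 (min (x - 1) (2 - x))
noncomputable def qf (L : Lad I) (b : ↥Comb) : ℝ := L.q (⌊b.1.1⌋₊ - 1) * b.1.2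

theorem tent_A {x : ℝ} (h0 : 0 < x) (h : x ≤ 1) : tent x = x := by
  unfold tent
  rw [min_eq_left (by linarith), max_eq_right h0.le]

theorem tent_B {x : ℝ} (h1 : 1 ≤ x) (h : x ≤ 2) : tent x = 2 - x := by
  unfold tent
  rw [min_eq_right (by linarith), max_eq_right (by linarith)]

theorem tent_C {x : ℝ} (h : 2 ≤ x) : tent x = 0 := by
  unfold tent
  rw [min_eq_right (by linarith), max_eq_left (by linarith)]

theorem sf_A {x : ℝ} (h : x ≤ 1) : sf x = 0 := by
  unfold sf
  exact max_eq_left ((min_le_left _ _).trans (by linarith))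

theorem sf_B {x : ℝ} (h1 : 1 ≤ x) (h : x ≤ 2) : sf x = (x - 1) / 2 := by
  unfold sf
  rw [min_eq_left, max_eq_right (by linarith)]
  rw [div_le_div_iff₀ (by norm_num) (by linarith)]
  nlinarith

theorem sf_C {x : ℝ} (h : 2 ≤ x) : sf x = 1 / x := by
  unfold sf
  rw [min_eq_right, max_eq_right (by positivity)]
  rw [div_le_div_iff₀ (by linarith) (by norm_num)]
  nlinarith

theorem bump_A {x : ℝ} (h : x ≤ 1) : bump x = 0 := by
  unfold bump
  exact max_eq_left ((min_le_left _ _).trans (by linarith))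

theorem bump_C {x : ℝ} (h : 2 ≤ x) : bump x = 0 := by
  unfold bump
  exact max_eq_left ((min_le_right _ _).trans (by linarith))

theorem bump_pos {x : ℝ} (h1 : 1 < x) (h : x < 2) : 0 < bump x := by
  unfold bump
  exact lt_max_of_lt_right (lt_min (by linarith) (by linarith))

theorem tent_nonneg (x : ℝ) : 0 ≤ tent x := le_max_left _ _
theorem sf_nonneg (x : ℝ) : 0 ≤ sf x := le_max_left _ _
theorem bump_nonneg (x : ℝ) : 0 ≤ bump x := le_max_left _ _

theorem tent_le {x : ℝ} : tent x ≤ 1 := by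
  unfold tent
  refine max_le zero_le_one ?_
  rcases le_total x 1 with h | h
  · exact (min_le_left _ _).trans h
  · exact (min_le_right _ _).trans (by linarith)

theorem sf_le {x : ℝ} (h0 : 0 < x) : sf x ≤ 1 := by
  rcases le_total x 1 with h | h
  · rw [sf_A h]
    exact zero_le_one
  rcases le_total x 2 with h2 | h2
  · rw [sf_B h h2]
    linarith
  · rw [sf_C h2, div_le_one h0]
    exact h

theorem bump_le {x : ℝ} : bump x ≤ 1 := by
  unfold bump
  refine max_le zero_le_one ?_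
  rcases le_total x 2 with h | h
  · exact (min_le_left _ _).trans (by linarith)
  · exact (min_le_right _ _).trans (by linarith)

theorem sf_pos {x : ℝ} (h1 : 1 < x) : 0 < sf x := by
  rcases le_total x 2 with h2 | h2
  · rw [sf_B h1.le h2]
    linarith
  · rw [sf_C h2]
    positivity

/-- the coordinates of the injection -/
noncomputable def Fv (L : Lad I) (p : Om L) : Fin 5 → ℝ :=
  ![tent p.pt.1.1 + p.pt.1.2, sf p.pt.1.1, L.c p.blk * sf p.pt.1.1,
    L.c p.blk * tent p.pt.1.1 + qf L p.pt, bump p.pt.1.1]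

theorem Fv0 (p : Om L) : Fv L p 0 = tent p.pt.1.1 + p.pt.1.2 := rfl
theorem Fv1 (p : Om L) : Fv L p 1 = sf p.pt.1.1 := rfl
theorem Fv2 (p : Om L) : Fv L p 2 = L.c p.blk * sf p.pt.1.1 := rfl
theorem Fv3 (p : Om L) : Fv L p 3 = L.c p.blk * tent p.pt.1.1 + qf L p.pt := rfl
theorem Fv4 (p : Om L) : Fv L p 4 = bump p.pt.1.1 := rfl

theorem Fv_mem (p : Om L) (i : Fin 5) : 0 ≤ Fv L p i ∧ Fv L p i ≤ 1 := by
  obtain ⟨α, b⟩ := p
  have hx : 0 < b.1.1 := b.2.1
  have hy0 : 0 ≤ b.1.2 := b.2.2.1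
  have hy1 : b.1.2 ≤ 1 := b.2.2.2.1
  have hc := L.c_mem α
  have hq := L.q_mem (⌊b.1.1⌋₊ - 1)
  have hs0 := sf_nonneg b.1.1
  have ht0 := tent_nonneg b.1.1
  have hs1 := sf_le hx
  have ht1 := tent_le (x := b.1.1)
  have hq0 : 0 ≤ qf L b := mul_nonneg hq.1 hy0
  have hq1 : qf L b ≤ 1 := mul_le_one₀ hq.2 hy0 hy1
  have h2 : b.1.2 = 0 ∨ tent b.1.1 = 0 := by
    rcases lt_or_ge b.1.1 2 with h | h
    · left
      exact comb_snd_of_lt h
    · right
      exact tent_C h
  fin_cases i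
  · change 0 ≤ tent b.1.1 + b.1.2 ∧ tent b.1.1 + b.1.2 ≤ 1
    rcases h2 with h | h <;> rw [h] <;> constructor <;> linarith
  · exact ⟨hs0, hs1⟩
  · exact ⟨mul_nonneg hc.1.le hs0, mul_le_one₀ hc.2.le hs0 hs1⟩
  · change 0 ≤ L.c α * tent b.1.1 + qf L b ∧ L.c α * tent b.1.1 + qf L b ≤ 1
    have h3 : 0 ≤ L.c α * tent b.1.1 := mul_nonneg hc.1.le ht0
    have h4 : L.c α * tent b.1.1 ≤ 1 := mul_le_one₀ hc.2.le ht0 ht1
    rcases h2 with h | h
    · have h5 : qf L b = 0 := by
        unfold qf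
        rw [h, mul_zero]
      rw [h5]
      constructor <;> linarith
    · rw [h, mul_zero, zero_add]
      exact ⟨hq0, hq1⟩
  · exact ⟨bump_nonneg _, bump_le⟩

theorem Fv_inj : Function.Injective (Fv L) := by
  rintro ⟨α, b⟩ ⟨β, b'⟩ h
  have e0 : tent b.1.1 + b.1.2 = tent b'.1.1 + b'.1.2 := congrFun h 0
  have e1 : sf b.1.1 = sf b'.1.1 := congrFun h 1
  have e2 : L.c α * sf b.1.1 = L.c β * sf b'.1.1 := congrFun h 2
  have e3 : L.c α * tent b.1.1 + qf L b = L.c β * tent b'.1.1 + qf L b' := congrFun h 3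
  have e4 : bump b.1.1 = bump b'.1.1 := congrFun h 4
  have hx : 0 < b.1.1 := b.2.1
  have hx' : 0 < b'.1.1 := b'.2.1
  have key : α = β ∧ b.1.1 = b'.1.1 ∧ b.1.2 = b'.1.2 := by
    by_cases hA : b.1.1 ≤ 1
    · have hA' : b'.1.1 ≤ 1 := by
        by_contra hcon
        have := sf_pos (not_le.1 hcon)
        rw [← e1, sf_A hA] at this
        exact lt_irrefl _ this
      have hy := comb_snd_of_lt (b := b) (by linarith)
      have hy' := comb_snd_of_lt (b := b') (by linarith)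
      rw [hy, hy', tent_A hx hA, tent_A hx' hA', add_zero, add_zero] at e0
      unfold qf at e3
      rw [hy, hy', tent_A hx hA, tent_A hx' hA', mul_zero, mul_zero, add_zero, add_zero, e0] at e3
      exact ⟨L.c_inj (mul_right_cancel₀ hx'.ne' e3), e0, by rw [hy, hy']⟩
    · have hB := not_le.1 hA
      have hB' : 1 < b'.1.1 := by
        by_contra hcon
        have := sf_pos hB
        rw [e1, sf_A (not_lt.1 hcon)] at this
        exact lt_irrefl _ this
      have hsp := sf_pos hB'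
      rw [e1] at e2
      refine ⟨L.c_inj (mul_right_cancel₀ hsp.ne' e2), ?_⟩
      rcases lt_or_ge b.1.1 2 with h2 | h2
      · have h2' : b'.1.1 < 2 := by
          by_contra hcon
          have := bump_pos hB h2
          rw [e4, bump_C (not_lt.1 hcon)] at this
          exact lt_irrefl _ this
        have hy := comb_snd_of_lt h2
        have hy' := comb_snd_of_lt h2'
        rw [hy, hy', tent_B hB.le h2.le, tent_B hB'.le h2'.le] at e0
        exact ⟨by linarith, by rw [hy, hy']⟩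
      · have h2' : 2 ≤ b'.1.1 := by
          by_contra hcon
          have := bump_pos hB' (not_le.1 hcon)
          rw [← e4, bump_C h2] at this
          exact lt_irrefl _ this
        rw [sf_C h2, sf_C h2'] at e1
        rw [tent_C h2, tent_C h2', zero_add, zero_add] at e0
        refine ⟨?_, e0⟩
        rw [one_div, one_div] at e1
        exact inv_injective e1
  obtain ⟨k1, k2, k3⟩ := key
  subst k1
  congr 1
  exact Subtype.ext (Prod.ext k2 k3)

theorem cont_qf : Continuous (qf L) := by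
  rw [continuous_iff_continuousAt]
  intro b₀
  obtain ⟨C, hC⟩ : ∃ C : ℝ, ∀ b : ↥Comb, |b.1.1 - b₀.1.1| < 1 / 2 → qf L b = C * b.1.2 := by
    by_cases h : ∃ m : ℕ, 0 < m ∧ |(m : ℝ) + 1 - b₀.1.1| < 1 / 2
    · obtain ⟨m, hm, hm'⟩ := h
      refine ⟨L.q m, fun b hb => ?_⟩
      by_cases hy : b.1.2 = 0
      · unfold qf
        rw [hy, mul_zero, mul_zero]
      · obtain ⟨n, hn, t, rfl⟩ := eq_tooth hy
        rw [tooth_fst] at hb
        have h1 : |((n : ℤ) : ℝ) - ((m : ℤ) : ℝ)| < 1 := by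
          push_cast
          rw [abs_lt] at hb hm' ⊢
          constructor <;> linarith [hb.1, hb.2, hm'.1, hm'.2]
        rw [← Int.cast_sub, ← Int.cast_abs] at h1
        have h4 : |(n : ℤ) - m| < 1 := by exact_mod_cast h1
        have h5 : (n : ℤ) = m := by
          rw [Int.abs_lt_one_iff] at h4
          omega
        have h6 : n = m := by exact_mod_cast h5
        unfold qf
        rw [tooth_fst, tooth_snd]
        have h7 : ⌊(n : ℝ) + 1⌋₊ - 1 = m := by
          rw [show (n : ℝ) + 1 = ((n + 1 : ℕ) : ℝ) by push_cast; rfl, Nat.floor_natCast, h6]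
          rfl
        rw [h7]
    · refine ⟨0, fun b hb => ?_⟩
      by_cases hy : b.1.2 = 0
      · unfold qf
        rw [hy, mul_zero, mul_zero]
      · obtain ⟨n, hn, t, rfl⟩ := eq_tooth hy
        rw [tooth_fst] at hb
        exact absurd ⟨n, hn, hb⟩ h
  have h1 : ContinuousAt (fun b : ↥Comb => C * b.1.2) b₀ := (continuous_const.mul csnd).continuousAt
  refine h1.congr ?_
  have h2 : ∀ᶠ b : ↥Comb in 𝓝 b₀, |b.1.1 - b₀.1.1| < 1 / 2 := by
    apply IsOpen.mem_nhds (isOpen_lt ((cfst.sub continuous_const).abs) continuous_const)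
    change |b₀.1.1 - b₀.1.1| < 1 / 2
    rw [sub_self, abs_zero]
    norm_num
  exact h2.mono fun b hb => (hC b hb).symm

theorem cont_tent : Continuous tent := by
  unfold tent
  fun_prop

theorem cont_bump : Continuous bump := by
  unfold bump
  fun_prop

theorem cont_sf : Continuous (fun b : ↥Comb => sf b.1.1) := by
  unfold sf
  refine continuous_const.max (Continuous.min ?_ ?_)
  · exact (cfst.sub continuous_const).div_const _
  · exact continuous_const.div cfst (fun b => (b.2.1).ne')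

theorem cont_Fv : Continuous (Fv L) := by
  rw [continuous_pi_iff]
  intro i
  apply cont_of
  · intro α
    fin_cases i
    · exact (cont_tent.comp cfst).add csnd
    · exact cont_sf
    · change Continuous (fun b : ↥Comb => L.c α * sf b.1.1)
      exact continuous_const.mul cont_sf
    · change Continuous (fun b : ↥Comb => L.c α * tent b.1.1 + qf L b)
      exact (continuous_const.mul (cont_tent.comp cfst)).add cont_qf
    · exact cont_bump.comp cfst
  · intro α hα t
    have hn : Tendsto (fun p : ℕ × T => L.n α p.1) (atTop ×ˢ 𝓝 t) atTop :=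
      ((L.n_mono α).tendsto_atTop).comp tendsto_fst
    have hsf : Tendsto (fun p : ℕ × T => 1 / ((L.n α p.1 : ℝ) + 1)) (atTop ×ˢ 𝓝 t) (𝓝 0) :=
      tendsto_one_div_add_atTop_nhds_zero_nat.comp hn
    have hsnd : Tendsto (fun p : ℕ × T => (p.2 : ℝ)) (atTop ×ˢ 𝓝 t) (𝓝 (t : ℝ)) :=
      (continuous_subtype_val.tendsto t).comp tendsto_snd
    have hq : Tendsto (fun p : ℕ × T => L.q (L.n α p.1)) (atTop ×ˢ 𝓝 t) (𝓝 (L.c α)) :=
      (L.lim α).comp tendsto_fst
    have hge : ∀ p : ℕ × T, (2 : ℝ) ≤ (L.n α p.1 : ℝ) + 1 := fun p => tooth_ge _ (L.n_pos α p.1)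
    have ht0 : 0 < (t : ℝ) := t.2.1
    have ht1 : (t : ℝ) ≤ 1 := t.2.2
    fin_cases i
    · change Tendsto (fun p : ℕ × T => tent ((L.n α p.1 : ℝ) + 1) + (p.2 : ℝ)) _
        (𝓝 (tent (t : ℝ) + 0))
      rw [tent_A ht0 ht1, add_zero]
      refine hsnd.congr fun p => ?_
      rw [tent_C (hge p), zero_add]
    · change Tendsto (fun p : ℕ × T => sf ((L.n α p.1 : ℝ) + 1)) _ (𝓝 (sf (t : ℝ)))
      rw [sf_A ht1]
      refine hsf.congr fun p => ?_
      rw [sf_C (hge p)]
    · change Tendsto (fun p : ℕ × T => L.c (L.a α p.1) * sf ((L.n α p.1 : ℝ) + 1)) _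
        (𝓝 (L.c α * sf (t : ℝ)))
      rw [sf_A ht1, mul_zero]
      refine squeeze_zero (fun p => mul_nonneg (L.c_mem _).1.le (sf_nonneg _)) (fun p => ?_) hsf
      rw [sf_C (hge p)]
      exact mul_le_of_le_one_left (by positivity) (L.c_mem _).2.le
    · change Tendsto (fun p : ℕ × T => L.c (L.a α p.1) * tent ((L.n α p.1 : ℝ) + 1) +
        L.q (⌊(L.n α p.1 : ℝ) + 1⌋₊ - 1) * (p.2 : ℝ)) _
        (𝓝 (L.c α * tent (t : ℝ) + L.q (⌊(t : ℝ)⌋₊ - 1) * 0))
      rw [tent_A ht0 ht1, mul_zero, add_zero]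
      refine (hq.mul hsnd).congr fun p => ?_
      rw [tent_C (hge p), mul_zero, zero_add]
      congr 2
      rw [show (L.n α p.1 : ℝ) + 1 = ((L.n α p.1 + 1 : ℕ) : ℝ) by push_cast; rfl,
        Nat.floor_natCast]
      rfl
    · change Tendsto (fun p : ℕ × T => bump ((L.n α p.1 : ℝ) + 1)) _ (𝓝 (bump (t : ℝ)))
      rw [bump_A ht1]
      refine tendsto_const_nhds.congr fun p => ?_
      rw [bump_C (hge p)]

/-! ### the cut-off functions -/

open Classical in
/-- the cut-off -/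
noncomputable def cut (γ : I) (p : Om L) : ℝ :=
  if p.blk < γ then 1 else if p.blk = γ then max 0 (min 1 (3 - 2 * p.pt.1.1)) else 0

theorem cut_mem (γ : I) (p : Om L) : 0 ≤ cut γ p ∧ cut γ p ≤ 1 := by
  unfold cut
  split_ifs
  · exact ⟨zero_le_one, le_rfl⟩
  · exact ⟨le_max_left _ _, max_le zero_le_one (min_le_left _ _)⟩
  · exact ⟨le_rfl, zero_le_one⟩

theorem cont_cut (γ : I) : Continuous (cut (L := L) γ) := by
  apply cont_of
  · intro α
    unfold cut
    by_cases h1 : α < γ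
    · simp only [h1, if_true]
      exact continuous_const
    by_cases h2 : α = γ
    · simp only [h2, lt_irrefl, if_true, if_false]
      exact continuous_const.max (continuous_const.min
        (continuous_const.sub (continuous_const.mul cfst)))
    · simp only [h1, h2, if_false]
      exact continuous_const
  · intro α hα t
    rcases lt_trichotomy α γ with h | h | h
    · have e1 : cut γ (⟨α, intake t⟩ : Om L) = 1 := if_pos h
      rw [e1]
      refine tendsto_const_nhds.congr fun p => ?_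
      have h2 : L.a α p.1 < γ := (L.a_lt α hα p.1).trans h
      exact (if_pos h2).symm
    · subst h
      have e1 : cut α (⟨α, intake t⟩ : Om L) = 1 := by
        unfold cut
        have ht1 : (t : ℝ) ≤ 1 := t.2.2
        rw [if_neg (lt_irrefl _), if_pos rfl]
        change max 0 (min 1 (3 - 2 * (t : ℝ))) = 1
        rw [min_eq_left (by linarith), max_eq_right zero_le_one]
      rw [e1]
      refine tendsto_const_nhds.congr fun p => ?_
      have h2 : L.a α p.1 < α := L.a_lt α hα p.1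
      exact (if_pos h2).symm
    · have e1 : cut γ (⟨α, intake t⟩ : Om L) = 0 := by
        unfold cut
        change (if α < γ then (1 : ℝ) else if α = γ then _ else 0) = 0
        rw [if_neg h.not_gt, if_neg h.ne']
      rw [e1]
      have h3 : ∀ᶠ p : ℕ × T in atTop ×ˢ 𝓝 t, γ ≤ L.a α p.1 := (L.cof α γ h).prod_inl _
      refine tendsto_const_nhds.congr' (h3.mono fun p hp => ?_)
      unfold cut
      change 0 = (if L.a α p.1 < γ then (1 : ℝ) else if L.a α p.1 = γ then
        max 0 (min 1 (3 - 2 * ((L.n α p.1 : ℝ) + 1))) else 0)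
      rw [if_neg hp.not_gt]
      split_ifs
      · have := tooth_ge _ (L.n_pos α p.1)
        exact (max_eq_left ((min_le_right _ _).trans (by linarith))).symm
      · rfl

/-- a countable union of blocks is σ-compact -/
theorem blocks_sigma (γ : I) (hc : (Set.Iio γ).Countable) :
    ∃ K' : ℕ → Set (Om L), (∀ n, IsCompact (K' n)) ∧ ∀ p : Om L, p.blk ≤ γ → ∃ n, p ∈ K' n := by
  have h1 : (Set.Iic γ).Countable := by
    rw [← Iio_insert]
    exact hc.insert γ
  obtain ⟨e, he⟩ := h1.exists_eq_range ⟨γ, le_rfl⟩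
  refine ⟨fun n => (fun b : ↥Comb => (⟨e n.unpair.1, b⟩ : Om L)) ''
    {b : ↥Comb | 1 / ((n.unpair.2 : ℝ) + 1) ≤ b.1.1 ∧ b.1.1 ≤ n.unpair.2}, fun n =>
    isCompact_block _ _ _ (by positivity), fun p hp => ?_⟩
  have h2 : p.blk ∈ range e := by
    rw [← he]
    exact hp
  obtain ⟨i, hi⟩ := h2
  have hx : 0 < p.pt.1.1 := p.pt.2.1
  obtain ⟨m, hm⟩ := exists_nat_ge (max p.pt.1.1 (1 / p.pt.1.1))
  refine ⟨Nat.pair i m, ?_⟩
  simp only [Nat.unpair_pair]
  refine ⟨p.pt, ⟨?_, (le_max_left _ _).trans hm⟩, by rw [hi]⟩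
  have h3 : 1 / p.pt.1.1 ≤ (m : ℝ) + 1 := by
    have := (le_max_right _ _).trans hm
    linarith
  rw [div_le_iff₀ hx] at h3
  rw [div_le_iff₀ (by positivity), mul_comm]
  exact h3

theorem exists_space {I : Type} [LinearOrder I] [WellFoundedLT I] [OrderBot I] (hc : ∀ a : I, (Set.Iio a).Countable)
    (hb : ∀ s : Set I, s.Countable → ∃ a, ∀ b ∈ s, b < a) (L : Lad I) :
    ∃ (Ω : Type) (_ : TopologicalSpace Ω) (M : Type) (_ : MetricSpace M) (F : Ω → M),
      LocallyCompactSpace Ω ∧ T2Space Ω ∧ ConnectedSpace Ω ∧ CompactSpace M ∧ Continuous F ∧ Function.Injective F ∧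
      (∀ K : ℕ → Set Ω, (∀ n, IsCompact (K n)) → ∃ t, ∀ n, t ∉ K n) ∧
      (∀ K : ℕ → Set Ω, (∀ n, IsCompact (K n)) → ∃ g : Ω → ℝ, Continuous g ∧ (∀ t, 0 ≤ g t ∧ g t ≤ 1) ∧
        (∀ n, ∀ t ∈ K n, g t = 1) ∧ ∃ K' : ℕ → Set Ω, (∀ n, IsCompact (K' n)) ∧ ∀ t, g t ≠ 0 → ∃ n, t ∈ K' n) := by
  have hT2 : T2Space (Om L) := T2Space.of_injective_continuous Fv_inj cont_Fv
  have hwlc : WeaklyLocallyCompactSpace (Om L) := wlc
  have hcof : ∀ α : I, α ≠ ⊥ → ∃ β, β < α := fun α hα => ⟨⊥, bot_lt_iff_ne_bot.2 hα⟩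
  have hpre : PreconnectedSpace (Om L) := by
    apply preconnectedSpace_of_forall_constant
    rintro f hf ⟨α, b⟩ ⟨β, b'⟩
    rw [om_const hcof f hf α b b, om_const hcof f hf β b' b]
  have hne : Nonempty (Om L) := ⟨⟨⊥, spine 1 one_pos⟩⟩
  refine ⟨Om L, inferInstance, ↥(Set.Icc (0 : Fin 5 → ℝ) 1), inferInstance,
    fun p => ⟨Fv L p, fun i => (Fv_mem p i).1, fun i => (Fv_mem p i).2⟩, inferInstance, hT2,
    { toPreconnectedSpace := hpre, toNonempty := hne }, inferInstance,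
    Continuous.subtype_mk cont_Fv _, fun p p' h => Fv_inj (congrArg Subtype.val h), ?_, ?_⟩
  · intro K hK
    obtain ⟨γ, hγ⟩ := exists_gt_compacts hb K hK
    exact ⟨⟨γ, spine 1 one_pos⟩, fun n hn => lt_irrefl γ (hγ n _ hn)⟩
  · intro K hK
    obtain ⟨γ, hγ⟩ := exists_gt_compacts hb K hK
    obtain ⟨K', hK', hcov⟩ := blocks_sigma (L := L) γ (hc γ)
    refine ⟨cut γ, cont_cut γ, cut_mem γ, fun n p hp => if_pos (hγ n p hp), K', hK', ?_⟩
    intro p hp
    apply hcov
    by_contra hcon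
    apply hp
    have h1 := not_le.1 hcon
    unfold cut
    rw [if_neg h1.not_gt, if_neg h1.ne']

end Pool.Agent.TH111.SC4
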