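import Mathlib
import Pool.Agent.TH91.RF.Core
import Pool.Agent.TH91.RF.Ex1

/-!
# The shift lemma in filtered nilpotent algebras

For a filtered nilpotent `ℚ`-algebra with a derivation `δ` raising the filtration,
`w⁻¹ * exp(δ)(w) = exp (w⁻¹ * δ w + j)`.
-/

set_option autoImplicit false

namespace Pool.Agent.TH111.J1372
open Finset Pool.Agent.TH91.RF

variable {A : Type*} [Ring A] [Algebra ℚ A] {N : ℕ}

/-- the filtration of the endomorphisms of `F 0` -/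
noncomputable def endo (Φ : Filt A N) : Filt (Module.End ℚ ↥(Φ.F 0)) N where
  F k :=
    { carrier := {T | ∀ v, ∀ x : ↥(Φ.F 0), (x : A) ∈ Φ.F v → ((T x : ↥(Φ.F 0)) : A) ∈ Φ.F (v + k)}
      add_mem' := by
        intro a b ha hb v x hx
        have := Submodule.add_mem _ (ha v x hx) (hb v x hx)
        simpa using this
      zero_mem' := by
        intro v x hx
        simp
      smul_mem' := by
        intro c a ha v x hx
        have := Submodule.smul_mem _ c (ha v x hx)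
        simpa using this }
  anti := by
    intro i j hij T hT v x hx
    exact Φ.anti (by omega) (hT v x hx)
  mul := by
    intro i j T S hT hS v x hx
    have h1 := hT _ _ (hS v x hx)
    rw [Module.End.mul_apply]
    rwa [show v + (i + j) = v + j + i by omega]
  bot := by
    intro T hT
    ext x
    have h1 := hT 0 x x.2
    rw [zero_add] at h1
    simpa using Φ.bot _ h1

theorem mem_endo {Φ : Filt A N} {k : ℕ} {T : Module.End ℚ ↥(Φ.F 0)} :
    T ∈ (endo Φ).F k ↔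
      ∀ v, ∀ x : ↥(Φ.F 0), (x : A) ∈ Φ.F v → ((T x : ↥(Φ.F 0)) : A) ∈ Φ.F (v + k) := Iff.rfl

/-- left multiplication on `F 0` -/
noncomputable def lm (Φ : Filt A N) : ↥(Φ.F 0) →ₗ[ℚ] Module.End ℚ ↥(Φ.F 0) :=
  LinearMap.mk₂ ℚ (fun a x => (⟨(a : A) * x, Φ.mul a.2 x.2⟩ : ↥(Φ.F 0)))
    (by
      intro a b x
      apply Subtype.ext
      simp [add_mul])
    (by
      intro c a x
      apply Subtype.ext
      simp)
    (by
      intro a b x
      apply Subtype.ext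
      simp [mul_add])
    (by
      intro c a x
      apply Subtype.ext
      simp)

theorem lm_apply (Φ : Filt A N) (a x : ↥(Φ.F 0)) : ((lm Φ a x : ↥(Φ.F 0)) : A) = (a : A) * x := rfl

/-- the restriction of `δ` to `F 0` -/
noncomputable def dd (Φ : Filt A N) (δ : A →ₗ[ℚ] A)
    (hδF : ∀ k, ∀ x ∈ Φ.F k, δ x ∈ Φ.F (k + 1)) : Module.End ℚ ↥(Φ.F 0) :=
  δ.restrict (fun x hx => Φ.anti (Nat.zero_le _) (hδF 0 x hx))

theorem dd_apply (Φ : Filt A N) (δ : A →ₗ[ℚ] A)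
    (hδF : ∀ k, ∀ x ∈ Φ.F k, δ x ∈ Φ.F (k + 1)) (x : ↥(Φ.F 0)) :
    ((dd Φ δ hδF x : ↥(Φ.F 0)) : A) = δ x := rfl

theorem lm_mem (Φ : Filt A N) {k : ℕ} {a : ↥(Φ.F 0)} (ha : (a : A) ∈ Φ.F k) :
    lm Φ a ∈ (endo Φ).F k := by
  intro v x hx
  rw [lm_apply, add_comm]
  exact Φ.mul ha hx

theorem dd_mem (Φ : Filt A N) (δ : A →ₗ[ℚ] A)
    (hδF : ∀ k, ∀ x ∈ Φ.F k, δ x ∈ Φ.F (k + 1)) : dd Φ δ hδF ∈ (endo Φ).F 1 := by
  intro v x hx
  rw [dd_apply]
  exact hδF v x hx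

/-- the abstract form -/
theorem core {B : Type*} [Ring B] [Algebra ℚ B] {N : ℕ} (Ψ : Filt B N) (T J : Submodule ℚ B)
    (d : B) (hT1 : ∀ x ∈ T, x ∈ Ψ.F 1) (hd : d ∈ Ψ.F 1) (hJT : J ≤ T)
    (hTT : ∀ x ∈ T, ∀ y ∈ T, x * y - y * x ∈ J) (hdT : ∀ x ∈ T, d * x - x * d ∈ J)
    {W W' f : B} (hWW' : W * W' = 1) (hW'W : W' * W = 1) (hf : f ∈ T)
    (hWd : W' * d * W = d + f) :
    ∃ j ∈ J, W' * IsNilpotent.exp d * W * IsNilpotent.exp (-d) = IsNilpotent.exp (f + j) := by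
  let T' : AddSubgroup B :=
    { carrier := {b | ∃ t ∈ T, ∃ q : ℚ, b = t + q • d}
      add_mem' := by
        rintro a b ⟨t, ht, q, rfl⟩ ⟨s, hs, r, rfl⟩
        refine ⟨t + s, T.add_mem ht hs, q + r, ?_⟩
        rw [add_smul]
        abel
      zero_mem' := ⟨0, T.zero_mem, 0, by simp⟩
      neg_mem' := by
        rintro a ⟨t, ht, q, rfl⟩
        refine ⟨-t, T.neg_mem ht, -q, ?_⟩
        rw [_root_.neg_smul]
        abel }
  have hJT' : J.toAddSubgroup ≤ T' := by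
    intro b hb
    exact ⟨b, hJT hb, 0, by simp⟩
  have hbrJ : ∀ u ∈ T', ∀ v ∈ T', (bigM N : ℚ)⁻¹ • (u * v - v * u) ∈ J.toAddSubgroup := by
    rintro u ⟨t, ht, q, rfl⟩ v ⟨s, hs, r, rfl⟩
    have e1 : (t + q • d) * (s + r • d) - (s + r • d) * (t + q • d) =
        (t * s - s * t) + q • (d * s - s * d) - r • (d * t - t * d) := by
      simp only [add_mul, mul_add, smul_mul_assoc, mul_smul_comm, smul_sub, smul_add]
      rw [smul_comm r q (d * d)]
      abel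
    rw [e1]
    exact J.smul_mem _ (J.sub_mem (J.add_mem (hTT _ ht _ hs) (J.smul_mem _ (hdT _ hs)))
      (J.smul_mem _ (hdT _ ht)))
  have hLat : LieLat Ψ T' := by
    refine ⟨?_, fun u hu v hv => hJT' (hbrJ u hu v hv)⟩
    rintro u ⟨t, ht, q, rfl⟩
    exact Submodule.add_mem _ (hT1 _ ht) (Submodule.smul_mem _ _ hd)
  have hIdl : LieIdl N T' J.toAddSubgroup := ⟨hJT', fun u hu v hv => hbrJ u hu v (hJT' hv)⟩
  have hx : d + f ∈ T' := ⟨f, hf, 1, by rw [one_smul, add_comm]⟩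
  have hy : -d ∈ T' := ⟨0, T.zero_mem, -1, by simp⟩
  obtain ⟨j, hj, hexp⟩ := hLat.exp_mul_add hIdl hx hy (hbrJ _ hx _ hy)
  refine ⟨j, hj, ?_⟩
  have e5 := exp_conj hW'W hWW' (Ψ.nilp hd)
  rw [hWd] at e5
  rw [← e5, hexp]
  congr 1
  abel

/-- **Shift lemma.** `w⁻¹ * exp(δ)(w) = exp (w⁻¹ * δ w + j)` with `j ∈ J`. -/
theorem shift {A : Type*} [Ring A] [Algebra ℚ A] {N : ℕ} (Φ : Filt A N) (h1 : (1 : A) ∈ Φ.F 0)
    (δ : A →ₗ[ℚ] A) (hδ : ∀ x y, δ (x * y) = δ x * y + x * δ y)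
    (hδF : ∀ k, ∀ x ∈ Φ.F k, δ x ∈ Φ.F (k + 1)) (T J : Submodule ℚ A)
    (hT1 : ∀ x ∈ T, x ∈ Φ.F 1) (hJT : J ≤ T) (hTT : ∀ x ∈ T, ∀ y ∈ T, x * y - y * x ∈ J)
    (hδT : ∀ x ∈ T, δ x ∈ J) {w w' : A} (hw : w - 1 ∈ Φ.F 1) (hww' : w * w' = 1)
    (hw'w : w' * w = 1) (hf : w' * δ w ∈ T) :
    ∃ j ∈ J, w' * (∑ k ∈ range (N + 1), (k.factorial : ℚ)⁻¹ • (δ ^ k) w) =
      IsNilpotent.exp (w' * δ w + j) := by
  have h01 : ∀ x, x ∈ Φ.F 1 → x ∈ Φ.F 0 := fun x hx => Φ.anti (Nat.zero_le _) hx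
  have hw0 : w ∈ Φ.F 0 := by
    have := Submodule.add_mem _ (h01 _ hw) h1
    simpa using this
  have hw'0 : w' ∈ Φ.F 0 := by
    have hu : 1 - w ∈ Φ.F 1 := by
      have := Submodule.neg_mem _ hw
      simpa using this
    have h2 : (∑ i ∈ range (N + 1), (1 - w) ^ i) * w = 1 := by
      have h3 := geom_sum_mul_neg (1 - w) (N + 1)
      rw [sub_sub_cancel, Φ.pow_eq_zero hu _ (by omega) (by omega), sub_zero] at h3
      exact h3
    have h4 : w' = ∑ i ∈ range (N + 1), (1 - w) ^ i := by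
      calc w' = 1 * w' := (one_mul _).symm
        _ = (∑ i ∈ range (N + 1), (1 - w) ^ i) * w * w' := by rw [h2]
        _ = _ := by rw [mul_assoc, hww', mul_one]
    rw [h4]
    refine Submodule.sum_mem _ fun i _ => ?_
    rcases Nat.eq_zero_or_pos i with rfl | hi
    · simpa using h1
    · exact Φ.anti (Nat.zero_le _) (Φ.pow_mem hu i hi)
  have hδ1 : δ 1 = 0 := by
    have := hδ 1 1
    simp only [mul_one, one_mul] at this
    exact left_eq_add.1 this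
  -- the elements of `F 0`
  set W : ↥(Φ.F 0) := ⟨w, hw0⟩ with hW
  set W' : ↥(Φ.F 0) := ⟨w', hw'0⟩ with hW'
  set e : ↥(Φ.F 0) := ⟨1, h1⟩ with he
  set f : ↥(Φ.F 0) := ⟨w' * δ w, h01 _ (hT1 _ hf)⟩ with hfdef
  set d := dd Φ δ hδF with hd
  have hdm : d ∈ (endo Φ).F 1 := dd_mem Φ δ hδF
  have hbr : ∀ a : ↥(Φ.F 0), d * lm Φ a - lm Φ a * d = lm Φ (d a) := by
    intro a
    ext x
    simp only [LinearMap.sub_apply, Module.End.mul_apply, Submodule.coe_sub, lm_apply, hd, dd_apply]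
    rw [hδ]
    abel
  have hmul : ∀ a b : ↥(Φ.F 0), lm Φ a * lm Φ b = lm Φ ⟨(a : A) * b, Φ.mul a.2 b.2⟩ := by
    intro a b
    ext x
    simp only [Module.End.mul_apply, lm_apply]
    rw [mul_assoc]
  have hlme : lm Φ e = 1 := by
    ext x
    simp [lm_apply, he]
  have e2 : lm Φ W' * d * lm Φ W = d + lm Φ f := by
    have e3 : d * lm Φ W = lm Φ W * d + lm Φ (d W) := by
      rw [← hbr]
      abel
    rw [mul_assoc, e3, mul_add, ← mul_assoc, hmul, hmul]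
    have e4 : (⟨(W' : A) * W, Φ.mul W'.2 W.2⟩ : ↥(Φ.F 0)) = e := Subtype.ext hw'w
    rw [e4, hlme, one_mul]
    rfl
  have hc1 : lm Φ W' * lm Φ W = 1 := by
    rw [hmul, ← hlme]
    congr 1
    exact Subtype.ext hw'w
  have hc2 : lm Φ W * lm Φ W' = 1 := by
    rw [hmul, ← hlme]
    congr 1
    exact Subtype.ext hww'
  obtain ⟨_, ⟨j, hj, rfl⟩, hexp⟩ := core (endo Φ)
    ((T.comap (Φ.F 0).subtype).map (lm Φ)) ((J.comap (Φ.F 0).subtype).map (lm Φ)) d
    (by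
      rintro _ ⟨t, ht, rfl⟩
      exact lm_mem Φ (hT1 _ ht))
    hdm (Submodule.map_mono (Submodule.comap_mono hJT))
    (by
      rintro _ ⟨t, ht, rfl⟩ _ ⟨s, hs, rfl⟩
      rw [hmul, hmul]
      refine ⟨⟨(t : A) * s, Φ.mul t.2 s.2⟩ - ⟨(s : A) * t, Φ.mul s.2 t.2⟩, hTT _ ht _ hs, ?_⟩
      rw [map_sub])
    (by
      rintro _ ⟨t, ht, rfl⟩
      rw [hbr]
      exact ⟨d t, hδT _ ht, rfl⟩)
    hc2 hc1 (f := lm Φ f) ⟨f, hf, rfl⟩ e2
  refine ⟨j, hj, ?_⟩
  rw [← map_add] at hexp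
  have hfj : ((f + j : ↥(Φ.F 0)) : A) ∈ Φ.F 1 := by
    rw [Submodule.coe_add]
    exact Submodule.add_mem _ (hT1 _ hf) (hT1 _ (hJT hj))
  have hev := congrArg (fun b : Module.End ℚ ↥(Φ.F 0) => ((b e : ↥(Φ.F 0)) : A)) hexp
  simp only [Module.End.mul_apply] at hev
  have e7 : (IsNilpotent.exp (-d)) e = e := by
    have hdm' : -d ∈ (endo Φ).F 1 := by
      intro v x hx
      rw [LinearMap.neg_apply, Submodule.coe_neg, hd, dd_apply]
      exact Submodule.neg_mem _ (hδF v x hx)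
    rw [(endo Φ).exp_eq hdm', LinearMap.sum_apply, sum_range_succ']
    have hz : ∀ k : ℕ, ((((k + 1).factorial : ℚ)⁻¹) • (-d) ^ (k + 1)) e = 0 := by
      intro k
      rw [LinearMap.smul_apply, pow_succ, Module.End.mul_apply]
      have : (-d) e = 0 := by
        apply Subtype.ext
        rw [LinearMap.neg_apply, Submodule.coe_neg, hd, dd_apply]
        change -(δ 1) = 0
        rw [hδ1, neg_zero]
      rw [this, map_zero, smul_zero]
    rw [sum_eq_zero (fun k _ => hz k)]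
    simp
  rw [e7] at hev
  have e8 : (lm Φ W) e = W := by
    apply Subtype.ext
    rw [lm_apply]
    change w * 1 = w
    rw [mul_one]
  rw [e8, lm_apply] at hev
  have e9 : ((IsNilpotent.exp d W : ↥(Φ.F 0)) : A) =
      ∑ k ∈ range (N + 1), (k.factorial : ℚ)⁻¹ • (δ ^ k) w := by
    rw [(endo Φ).exp_eq hdm, LinearMap.sum_apply, Submodule.coe_sum]
    refine sum_congr rfl fun k hk => ?_
    clear hk
    rw [LinearMap.smul_apply, Submodule.coe_smul]
    congr 1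
    induction k with
    | zero => simp [hW]
    | succ k ih =>
      rw [pow_succ', pow_succ', Module.End.mul_apply, Module.End.mul_apply, ← ih, hd, dd_apply]
  have e10 : ((IsNilpotent.exp (lm Φ (f + j)) e : ↥(Φ.F 0)) : A) =
      IsNilpotent.exp ((f + j : ↥(Φ.F 0)) : A) := by
    rw [(endo Φ).exp_eq (lm_mem Φ hfj), Φ.exp_eq hfj, LinearMap.sum_apply, Submodule.coe_sum]
    refine sum_congr rfl fun k hk => ?_
    clear hk
    rw [LinearMap.smul_apply, Submodule.coe_smul]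
    congr 1
    induction k with
    | zero => simp [he]
    | succ k ih =>
      rw [pow_succ', pow_succ', Module.End.mul_apply, lm_apply, ih]
  rw [e9, e10] at hev
  exact hev

end Pool.Agent.TH111.J1372
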