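import Pool.Agent.TH605.AP.WF

/-!
Final facts for MP_cc6c48_an (job 2854): words of group elements, the orbit is not closed, it is not
dense, and the separation statement.
-/

set_option autoImplicit false

open Set Topology Filter

namespace Pool.Agent.TH111.AP

open Pool.Agent.TH605.AP

theorem GT_word (W : WF) (M : MF) (T : Set (Option (List (Fin 4))))
    (γ : Matrix.GeneralLinearGroup (Fin 2) ℂ)
    (hγ : γ ∈ GT T) : ∃ u : List (Fin 4), ∀ z : OnePoint ℂ, γ • z = sg u z := by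
  unfold GT at hγ
  induction hγ using Subgroup.closure_induction with
  | mem x hx =>
    obtain ⟨t, -, rfl⟩ := hx
    exact ⟨_, M.gen_smul t⟩
  | one => exact ⟨[], fun z => by rw [one_smul]; rfl⟩
  | mul a b _ _ ha hb =>
    obtain ⟨u, hu⟩ := ha
    obtain ⟨v, hv⟩ := hb
    exact ⟨u ++ v, fun z => by rw [mul_smul, hv, hu, W.sg_append]⟩
  | inv a _ ha =>
    obtain ⟨u, hu⟩ := ha
    refine ⟨u.reverse, fun z => ?_⟩
    have h := W.sg_reverse u (a⁻¹ • z)
    rw [← hu, smul_inv_smul] at h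
    exact h.symm

/-! ### elementary facts -/

theorem infty_mem_RL : (OnePoint.infty : OnePoint ℂ) ∈ RL := Set.mem_insert _ _

theorem real_mem_RL (x : ℝ) : (((x : ℝ) : ℂ) : OnePoint ℂ) ∈ RL :=
  Set.mem_insert_of_mem _ ⟨x, rfl⟩

theorem CC_eq (K : KF) : CC = insert ((xi : ℂ) : OnePoint ℂ) {z | fx z = 1} :=
  K.uu_RL 1 one_ne_zero

theorem CC_subset_KK (K : KF) : CC ⊆ KK := by
  rw [CC_eq K]
  rintro z (rfl | hz)
  · exact Or.inl (real_mem_RL xi)
  · refine Or.inr ⟨0, ?_⟩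
    rw [zpow_zero]
    exact hz

theorem lam_pos (K : KF) : 0 < lam := zero_lt_one.trans K.lam_gt

theorem fx_coe (z : ℂ) : fx (z : OnePoint ℂ) = (1 / (z - (xi : ℂ))).im := rfl

theorem fx_infty : fx (OnePoint.infty : OnePoint ℂ) = 0 := rfl

theorem fx_coe' (z : ℂ) :
    fx (z : OnePoint ℂ) = -z.im / Complex.normSq (z - (xi : ℂ)) := by
  rw [fx_coe, one_div, Complex.inv_im, Complex.sub_im, Complex.ofReal_im, sub_zero]

theorem fx_neg_of_im_pos {z : ℂ} (hz : 0 < z.im) : fx (z : OnePoint ℂ) < 0 := by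
  rw [fx_coe']
  have h : z - (xi : ℂ) ≠ 0 := by
    intro h
    have := congrArg Complex.im h
    rw [Complex.sub_im, Complex.ofReal_im, sub_zero, Complex.zero_im] at this
    exact hz.ne' this
  exact div_neg_of_neg_of_pos (neg_neg_of_pos hz) (Complex.normSq_pos.2 h)

theorem im_pos_of_fx_neg {z : OnePoint ℂ} (hz : fx z < 0) :
    z ∈ (OnePoint.some '' {z : ℂ | 0 < z.im} : Set (OnePoint ℂ)) := by
  induction z using OnePoint.rec with
  | infty => exact absurd hz (by rw [fx_infty]; exact lt_irrefl _)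
  | coe z =>
    refine ⟨z, ?_, rfl⟩
    rw [fx_coe'] at hz
    show 0 < z.im
    by_contra h
    have : 0 ≤ -z.im / Complex.normSq (z - (xi : ℂ)) :=
      div_nonneg (by linarith) (Complex.normSq_nonneg _)
    linarith

theorem im_neg_of_fx_pos {z : OnePoint ℂ} (hz : 0 < fx z) :
    z ∈ (OnePoint.some '' {z : ℂ | z.im < 0} : Set (OnePoint ℂ)) := by
  induction z using OnePoint.rec with
  | infty => exact absurd hz (by rw [fx_infty]; exact lt_irrefl _)
  | coe z =>
    refine ⟨z, ?_, rfl⟩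
    rw [fx_coe'] at hz
    show z.im < 0
    by_contra h
    have : -z.im / Complex.normSq (z - (xi : ℂ)) ≤ 0 :=
      div_nonpos_of_nonpos_of_nonneg (by linarith) (Complex.normSq_nonneg _)
    linarith

theorem E_coe (V : HV) (z : ℂ) : E V (z : OnePoint ℂ) =
    V.k * (z.re ^ 2 + z.im ^ 2) - 2 * (V.p * z.re + V.q * z.im) + V.c := rfl

theorem E_infty (V : HV) : E V (OnePoint.infty : OnePoint ℂ) = V.k := rfl

theorem mem_Disc {i : Fin 4} {z : OnePoint ℂ} : z ∈ Disc i ↔ E (vD i) z ≤ 0 := Iff.rfl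

/-- no dual disc contains the real line -/
theorem not_RL_subset (i : Fin 4) : ¬ RL ⊆ Disc i := by
  intro h
  fin_cases i
  · have h1 := mem_Disc.1 (h (real_mem_RL 0))
    rw [E_coe] at h1
    simp [vD] at h1
    linarith
  · have h1 := mem_Disc.1 (h (real_mem_RL 1))
    rw [E_coe] at h1
    simp [vD] at h1
    linarith
  · have h1 := mem_Disc.1 (h (real_mem_RL 0))
    rw [E_coe] at h1
    simp [vD] at h1
    linarith
  · have h1 := mem_Disc.1 (h infty_mem_RL)
    rw [E_infty] at h1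
    simp [vD] at h1
    linarith

theorem uu_mem (K : KF) (T : Set (Option (List (Fin 4)))) (hT : Good T) (n : ℤ) :
    uu (lam ^ n) ∈ {h : Matrix.GeneralLinearGroup (Fin 2) ℂ | ∃ γ ∈ GT T,
      (fun w : OnePoint ℂ => h • w) '' RL = (fun w : OnePoint ℂ => γ • w) '' CC} := by
  refine ⟨gen none ^ n, ?_, ?_⟩
  · have h : gen none ∈ GT T := Subgroup.subset_closure (Set.mem_image_of_mem gen hT.none_mem)
    exact Subgroup.zpow_mem _ h n
  · rw [K.gen_zpow_CC n, K.uu_RL _ (zpow_pos (lam_pos K) n).ne']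

theorem not_closed (K : KF) (T : Set (Option (List (Fin 4)))) (hT : Good T)
    (hpp : ∀ γ ∈ GT T, (∃ n : ℤ, γ = gen none ^ n) ∨
      ∃ i, (fun w : OnePoint ℂ => γ • w) '' KK ⊆ Disc i) :
    ¬ IsClosed {h : Matrix.GeneralLinearGroup (Fin 2) ℂ | ∃ γ ∈ GT T,
      (fun w : OnePoint ℂ => h • w) '' RL = (fun w : OnePoint ℂ => γ • w) '' CC} := by
  intro hcl
  have h1 := hcl.mem_of_tendsto K.uu_tendsto
    (Eventually.of_forall fun n => uu_mem K T hT (-(n : ℤ)))
  obtain ⟨γ, hγ, h2⟩ := h1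
  have h3 : RL = (fun w : OnePoint ℂ => γ • w) '' CC := by
    rw [← h2]
    simp
  rcases hpp γ hγ with ⟨n, rfl⟩ | ⟨i, hi⟩
  · rw [K.gen_zpow_CC n] at h3
    have h4 := infty_mem_RL
    rw [h3] at h4
    rcases h4 with h4 | h4
    · exact OnePoint.infty_ne_coe _ h4
    · have h5 : fx (OnePoint.infty : OnePoint ℂ) = lam ^ n := h4
      rw [fx_infty] at h5
      exact (zpow_pos (lam_pos K) n).ne h5
  · apply not_RL_subset i
    rw [h3]
    exact (Set.image_mono (CC_subset_KK K)).trans hi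

/-- the base point of the test neighbourhood -/
noncomputable def h0 : Matrix.GeneralLinearGroup (Fin 2) ℂ :=
  Matrix.GeneralLinearGroup.mkOfDetNeZero !![Complex.I, 1 / 2; 0, 1]
    (by rw [Matrix.det_fin_two_of]; simp)

theorem h0_00 : h0 0 0 = Complex.I := rfl
theorem h0_01 : h0 0 1 = 1 / 2 := rfl
theorem h0_10 : h0 1 0 = 0 := rfl
theorem h0_11 : h0 1 1 = 1 := rfl

theorem cont_entry (i j : Fin 2) :
    Continuous fun h : Matrix.GeneralLinearGroup (Fin 2) ℂ => h i j := by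
  have h1 : Continuous fun h : Matrix.GeneralLinearGroup (Fin 2) ℂ =>
      (h : Matrix (Fin 2) (Fin 2) ℂ) := Units.continuous_val
  exact (continuous_apply_apply i j).comp h1

/-- the test neighbourhood in the plane -/
def OO : Set ℂ := {z : ℂ | 0 < z.im ∧ ∀ i : Fin 4, 0 < E (vD i) (z : OnePoint ℂ)}

theorem cont_E (V : HV) : Continuous fun z : ℂ => E V (z : OnePoint ℂ) := by
  simp only [E_coe]
  have := Complex.continuous_re
  have := Complex.continuous_im
  fun_prop

theorem OO_open : IsOpen OO := by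
  have h : OO = {z : ℂ | 0 < z.im} ∩ ⋂ i : Fin 4, {z : ℂ | 0 < E (vD i) (z : OnePoint ℂ)} := by
    ext z
    simp [OO]
  rw [h]
  exact (isOpen_lt continuous_const Complex.continuous_im).inter
    (isOpen_iInter_of_finite fun i => isOpen_lt continuous_const (cont_E _))

theorem mem_OO : (Complex.I * 2 + 1 / 2) / (0 * 2 + 1) ∈ OO := by
  have e : (Complex.I * 2 + 1 / 2) / (0 * 2 + 1) = (⟨1 / 2, 2⟩ : ℂ) := by
    apply Complex.ext <;> simp
  rw [e]
  refine ⟨by norm_num, fun i => ?_⟩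
  rw [E_coe]
  fin_cases i <;> simp [vD] <;> norm_num

theorem not_dense (K : KF) (T : Set (Option (List (Fin 4)))) (hT : Good T)
    (hpp : ∀ γ ∈ GT T, (∃ n : ℤ, γ = gen none ^ n) ∨
      ∃ i, (fun w : OnePoint ℂ => γ • w) '' KK ⊆ Disc i) :
    ∃ h : Matrix.GeneralLinearGroup (Fin 2) ℂ,
      (OnePoint.infty : OnePoint ℂ) ∈ (fun w : OnePoint ℂ => h • w) '' RL ∧
      h ∉ closure {h' : Matrix.GeneralLinearGroup (Fin 2) ℂ | ∃ γ ∈ GT T,
        (fun w : OnePoint ℂ => h' • w) '' RL = (fun w : OnePoint ℂ => γ • w) '' CC} := by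
  refine ⟨h0, ⟨OnePoint.infty, infty_mem_RL, ?_⟩, ?_⟩
  · show h0 • (OnePoint.infty : OnePoint ℂ) = OnePoint.infty
    rw [OnePoint.smul_infty_eq_self_iff]
    exact h0_10
  · intro hcl
    rw [mem_closure_iff_frequently] at hcl
    have hden : Continuous fun h : Matrix.GeneralLinearGroup (Fin 2) ℂ => h 1 0 * 2 + h 1 1 :=
      ((cont_entry 1 0).mul continuous_const).add (cont_entry 1 1)
    have hnum : Continuous fun h : Matrix.GeneralLinearGroup (Fin 2) ℂ => h 0 0 * 2 + h 0 1 :=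
      ((cont_entry 0 0).mul continuous_const).add (cont_entry 0 1)
    have hd0 : h0 1 0 * 2 + h0 1 1 ≠ 0 := by
      rw [h0_10, h0_11]; simp
    have hev1 : ∀ᶠ h : Matrix.GeneralLinearGroup (Fin 2) ℂ in 𝓝 h0, h 1 0 * 2 + h 1 1 ≠ 0 :=
      hden.continuousAt.eventually_ne hd0
    have hev2 : ∀ᶠ h : Matrix.GeneralLinearGroup (Fin 2) ℂ in 𝓝 h0,
        (h 0 0 * 2 + h 0 1) / (h 1 0 * 2 + h 1 1) ∈ OO := by
      have hc : ContinuousAt (fun h : Matrix.GeneralLinearGroup (Fin 2) ℂ =>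
          (h 0 0 * 2 + h 0 1) / (h 1 0 * 2 + h 1 1)) h0 :=
        hnum.continuousAt.div hden.continuousAt hd0
      apply hc.eventually_mem
      apply OO_open.mem_nhds
      rw [h0_00, h0_01, h0_10, h0_11]
      exact mem_OO
    obtain ⟨h, ⟨γ, hγ, h2⟩, h3, h4⟩ := (hcl.and_eventually (hev1.and hev2)).exists
    have h5 : h • ((2 : ℂ) : OnePoint ℂ) =
        (((h 0 0 * 2 + h 0 1) / (h 1 0 * 2 + h 1 1) : ℂ) : OnePoint ℂ) := by
      rw [OnePoint.smul_some_eq_ite, if_neg h3]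
    have h6 : h • ((2 : ℂ) : OnePoint ℂ) ∈ (fun w : OnePoint ℂ => γ • w) '' CC := by
      rw [← h2]
      refine ⟨((2 : ℂ) : OnePoint ℂ), ?_, rfl⟩
      have := real_mem_RL 2
      simpa using this
    rw [h5] at h6
    set φ : ℂ := (h 0 0 * 2 + h 0 1) / (h 1 0 * 2 + h 1 1) with hφ
    rcases hpp γ hγ with ⟨n, rfl⟩ | ⟨i, hi⟩
    · rw [K.gen_zpow_CC n] at h6
      rcases h6 with h6 | h6
      · have h7 : φ = (xi : ℂ) := OnePoint.coe_injective h6
        have h8 := h4.1
        rw [h7, Complex.ofReal_im] at h8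
        exact lt_irrefl _ h8
      · have h7 : fx (φ : OnePoint ℂ) = lam ^ n := h6
        have h8 := fx_neg_of_im_pos h4.1
        have h9 := zpow_pos (lam_pos K) n
        linarith
    · have h7 : (φ : OnePoint ℂ) ∈ Disc i :=
        hi (Set.image_mono (CC_subset_KK K) h6)
      exact absurd (mem_Disc.1 h7) (not_le.2 (h4.2 i))

theorem uu_mul_neg : uu 1 * uu (-1) = 1 := by
  apply Matrix.GeneralLinearGroup.ext
  intro i j
  rw [Matrix.GeneralLinearGroup.coe_mul, Matrix.mul_apply, Fin.sum_univ_two]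
  fin_cases i <;> fin_cases j <;>
    simp [uu, Matrix.GeneralLinearGroup.mkOfDetNeZero] <;> ring

theorem xi_pos : 0 < xi := by
  unfold xi
  have : 1 < Real.sqrt 2 := by
    rw [Real.lt_sqrt zero_le_one]
    norm_num
  linarith

theorem xi_lt_one : xi < 1 := by
  unfold xi
  have : Real.sqrt 2 < 2 := by
    rw [Real.sqrt_lt' two_pos]
    norm_num
  linarith

theorem separates (K : KF) :
    ((2 : ℂ) : OnePoint ℂ) ∈ (fun w : OnePoint ℂ => uu 1 • w) '' (OnePoint.some '' {z : ℂ | 0 < z.im})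
    ∧ (((1 - Complex.I) / 2 : ℂ) : OnePoint ℂ) ∈
      (fun w : OnePoint ℂ => uu 1 • w) '' (OnePoint.some '' {z : ℂ | z.im < 0}) := by
  have key : ∀ z : OnePoint ℂ, uu 1 • (uu (-1) • z) = z := fun z => by
    rw [← mul_smul, uu_mul_neg, one_smul]
  constructor
  · refine ⟨uu (-1) • ((2 : ℂ) : OnePoint ℂ), im_pos_of_fx_neg ?_, key _⟩
    rw [K.fx_uu]
    · have h : fx ((2 : ℂ) : OnePoint ℂ) = 0 := by
        rw [K.fx_eq_zero]
        have := real_mem_RL 2
        simpa using this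
      rw [h]
      norm_num
    · intro h
      have h1 := congrArg Complex.re (OnePoint.coe_injective h)
      rw [Complex.ofReal_re] at h1
      have h2 : (2 : ℂ).re = 2 := rfl
      rw [h2] at h1
      linarith [xi_lt_one]
  · refine ⟨uu (-1) • (((1 - Complex.I) / 2 : ℂ) : OnePoint ℂ), im_neg_of_fx_pos ?_, key _⟩
    have e : ((1 - Complex.I) / 2 : ℂ) = ⟨1 / 2, -1 / 2⟩ := by
      apply Complex.ext <;> simp
    rw [K.fx_uu]
    · rw [e, fx_coe', Complex.normSq_apply]
      simp only [Complex.sub_re, Complex.sub_im, Complex.ofReal_re, Complex.ofReal_im]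
      have h1 := xi_pos
      have h2 := xi_lt_one
      have h3 : 0 < (1 / 2 - xi) * (1 / 2 - xi) + (-1 / 2 - 0) * (-1 / 2 - 0) := by nlinarith
      have h4 : 1 < -(-1 / 2) / ((1 / 2 - xi) * (1 / 2 - xi) + (-1 / 2 - 0) * (-1 / 2 - 0)) := by
        rw [lt_div_iff₀ h3]
        nlinarith
      linarith
    · intro h
      have h1 := congrArg Complex.im (OnePoint.coe_injective h)
      rw [Complex.ofReal_im, e] at h1
      norm_num at h1

end Pool.Agent.TH111.AP
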