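import Pool.Agent.TH722.AF.Defs

/-!
# Haar measure facts for a short exact sequence of compact abelian groups
-/

set_option autoImplicit false

namespace Pool.Agent.TH111.AFC

open MeasureTheory Set Filter Pool.Agent.TH722.FI Pool.Agent.TH722.AF
open scoped Topology ENNReal

universe u

theorem haar_map {L M : Type*} [CommGroup L] [TopologicalSpace L] [IsTopologicalGroup L]
    [CompactSpace L] [T2Space L] [MeasurableSpace L] [BorelSpace L]
    [CommGroup M] [TopologicalSpace M] [IsTopologicalGroup M]
    [CompactSpace M] [T2Space M] [MeasurableSpace M] [BorelSpace M]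
    (π : L →ₜ* M) (hπ : Function.Surjective π) :
    MeasurePreserving π (MeasureTheory.Measure.haarMeasure (⊤ : TopologicalSpace.PositiveCompacts L))
      (MeasureTheory.Measure.haarMeasure (⊤ : TopologicalSpace.PositiveCompacts M)) := by
  refine MonoidHom.measurePreserving (f := (π : L →* M)) π.continuous_toFun hπ ?_
  have h1 := MeasureTheory.Measure.haarMeasure_self
    (K₀ := (⊤ : TopologicalSpace.PositiveCompacts L))
  have h2 := MeasureTheory.Measure.haarMeasure_self
    (K₀ := (⊤ : TopologicalSpace.PositiveCompacts M))
  rw [TopologicalSpace.PositiveCompacts.coe_top] at h1 h2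
  rw [h1, h2]

theorem compact_setup {K L M : Type*} [CommGroup K] [TopologicalSpace K] [IsTopologicalGroup K]
    [CompactSpace K] [T2Space K] [SecondCountableTopology K] [MeasurableSpace K] [BorelSpace K]
    [CommGroup L] [TopologicalSpace L] [IsTopologicalGroup L]
    [CompactSpace L] [T2Space L] [SecondCountableTopology L] [MeasurableSpace L] [BorelSpace L]
    [CommGroup M] [TopologicalSpace M] [IsTopologicalGroup M]
    [CompactSpace M] [T2Space M] [SecondCountableTopology M] [MeasurableSpace M] [BorelSpace M]
    (ι : K →ₜ* L) (π : L →ₜ* M) (hι : Function.Injective ι) (hπ : Function.Surjective π)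
    (hex : ∀ x, π x = 1 ↔ ∃ k, ι k = x)
    (μK : Measure K) (μL : Measure L) [μK.IsHaarMeasure] [μL.IsHaarMeasure]
    [IsProbabilityMeasure μK] [IsProbabilityMeasure μL] :
    MeasurePreserving (fun p : L × K => p.1 * ι p.2) (μL.prod μK) μL ∧
    (∃ d : L × L → K, Measurable d ∧ ∀ b c, d (b, b * ι c) = c) ∧
    (∀ E : Set L, MeasurableSet E → ∃ f : M → ℝ, Measurable f ∧
      ∀ b, μK.real {c | b * ι c ∈ E} = f (π b)) := by
  have hιc : Continuous ι := ι.continuous_toFun
  have hπc : Continuous π := π.continuous_toFun
  have hcont : Continuous fun p : L × K => p.1 * ι p.2 :=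
    continuous_fst.mul (hιc.comp continuous_snd)
  refine ⟨?_, ?_, ?_⟩
  · let g : L × K →* L :=
      { toFun := fun p => p.1 * ι p.2
        map_one' := by simp
        map_mul' := fun p q => by
          simp only [Prod.fst_mul, Prod.snd_mul, map_mul]
          exact mul_mul_mul_comm _ _ _ _ }
    have h := MonoidHom.measurePreserving (μ := μL.prod μK) (ν := μL) (f := g) hcont
      (fun b => ⟨(b, 1), by change b * ι 1 = b; rw [map_one, mul_one]⟩) (by
        rw [measure_univ, measure_univ])
    exact h
  · have hemb : MeasurableEmbedding ι := (hιc.isClosedEmbedding hι).measurableEmbedding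
    obtain ⟨d0, hd0, hd⟩ := hemb.exists_measurable_extend (g := (id : K → K)) measurable_id
      (fun _ => ⟨1⟩)
    refine ⟨fun p => d0 (p.1⁻¹ * p.2), hd0.comp (measurable_fst.inv.mul measurable_snd), ?_⟩
    intro b c
    have h := congrFun hd c
    simp only [Function.comp_apply, id] at h
    simp only [inv_mul_cancel_left]
    exact h
  · intro E hE
    have hFm : Measurable fun b : L => μK.real {c | b * ι c ∈ E} := by
      have h1 : MeasurableSet {p : L × K | p.1 * ι p.2 ∈ E} := hcont.measurable hE
      have h2 := measurable_measure_prodMk_left (ν := μK) h1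
      exact h2.ennreal_toReal
    have hinv : ∀ b b' : L, π b = π b' → μK.real {c | b * ι c ∈ E} = μK.real {c | b' * ι c ∈ E} := by
      intro b b' hbb
      obtain ⟨k, hk⟩ := (hex (b'⁻¹ * b)).1 (by rw [map_mul, map_inv, hbb, inv_mul_cancel])
      have hb : b = b' * ι k := by rw [hk, mul_inv_cancel_left]
      have hset : {c | b * ι c ∈ E} = (fun c => k * c) ⁻¹' {c | b' * ι c ∈ E} := by
        ext c
        simp only [mem_ofPred_eq, mem_preimage, hb, map_mul, mul_assoc]
      rw [hset, Measure.real, Measure.real, measure_preimage_mul]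
    refine ⟨fun m => μK.real {c | (Function.surjInv hπ m) * ι c ∈ E}, ?_, ?_⟩
    · have hP : PolishSpace L := by
        letI := TopologicalSpace.metrizableSpaceMetric L
        infer_instance
      rw [← hπc.measurable.measurable_comp_iff_of_surjective hπ]
      have h3 : (fun m => μK.real {c | (Function.surjInv hπ m) * ι c ∈ E}) ∘ π =
          fun b : L => μK.real {c | b * ι c ∈ E} := by
        funext b
        exact hinv _ _ (Function.surjInv_eq hπ (π b))
      rw [h3]
      exact hFm
    · intro b
      exact hinv _ _ (Function.surjInv_eq hπ (π b)).symm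

end Pool.Agent.TH111.AFC
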