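import Mathlib
import Pool.Agent.TH328.BM.Stm
import Pool.Agent.W687.RotUltra

/-!
# Ultrapower of a transitive Banach space (job 1727, helper111)
-/

set_option autoImplicit false

namespace Pool.Agent.TH111.BMUltra

open Filter Topology Pool.Agent.W687.Rot Pool.TH328.BM

section

variable (E : Type) [NormedAddCommGroup E] [NormedSpace ℝ E]

/-- bounded sequences -/
abbrev BB := BoundedContinuousFunction ℕ E

/-- the ultrafilter -/
noncomputable abbrev UU : Filter ℕ := (hyperfilter ℕ : Filter ℕ)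

/-- the null sequences -/
def N0 : Submodule ℝ (BB E) where
  carrier := {f | Tendsto (fun n => f n) UU (𝓝 0)}
  add_mem' := by
    intro f g hf hg
    have h : Tendsto (fun n => f n + g n) UU (𝓝 (0 + 0)) := Tendsto.add hf hg
    rw [add_zero] at h
    exact h
  zero_mem' := by
    change Tendsto (fun n => (0 : E)) UU (𝓝 0)
    exact tendsto_const_nhds
  smul_mem' := by
    intro c f hf
    have h : Tendsto (fun n => c • f n) UU (𝓝 (c • 0)) := Tendsto.const_smul hf c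
    rw [smul_zero] at h
    exact h

variable {E}

theorem mem_N0 {f : BB E} : f ∈ N0 E ↔ Tendsto (fun n => f n) UU (𝓝 0) := Iff.rfl

theorem mem_N0' {f : BB E} : f ∈ N0 E ↔ Tendsto (fun n => ‖f n‖) UU (𝓝 0) := by
  rw [mem_N0, tendsto_zero_iff_norm_tendsto_zero]

/-- the limit of the norms -/
noncomputable def nb (f : BB E) : ℝ := ul (fun n => ‖f n‖)

theorem nb_tendsto (f : BB E) : Tendsto (fun n => ‖f n‖) UU (𝓝 (nb f)) :=
  ul_spec (C := ‖f‖) (fun n => by
    rw [abs_of_nonneg (norm_nonneg _)]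
    exact f.norm_coe_le_norm n)

theorem nb_le (f : BB E) : nb f ≤ ‖f‖ :=
  le_of_tendsto (nb_tendsto f) (Eventually.of_forall fun n => f.norm_coe_le_norm n)

theorem nb_nonneg (f : BB E) : 0 ≤ nb f :=
  ge_of_tendsto (nb_tendsto f) (Eventually.of_forall fun n => norm_nonneg _)

theorem nb_sub_le (f g : BB E) : nb f ≤ nb (f - g) + nb g := by
  refine le_of_tendsto_of_tendsto' (nb_tendsto f) ((nb_tendsto (f - g)).add (nb_tendsto g))
    fun n => ?_
  have := norm_add_le (f n - g n) (g n)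
  rwa [sub_add_cancel] at this

theorem nb_N0 {f : BB E} (hf : f ∈ N0 E) : nb f = 0 :=
  tendsto_nhds_unique (nb_tendsto f) (mem_N0'.1 hf)

variable (E) in
theorem isClosed_N0 : IsClosed (N0 E : Set (BB E)) := by
  rw [← isSeqClosed_iff_isClosed]
  intro u f hu hf
  change f ∈ N0 E
  rw [mem_N0']
  have h1 : nb f = 0 := by
    refine le_antisymm (le_of_forall_pos_le_add fun ε hε => ?_) (nb_nonneg f)
    obtain ⟨k, hk⟩ := ((tendsto_iff_norm_sub_tendsto_zero.1 hf).eventually (Iio_mem_nhds hε)).exists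
    have h2 := nb_sub_le f (u k)
    rw [nb_N0 (hu k), add_zero] at h2
    have h3 : nb (f - u k) ≤ ‖f - u k‖ := nb_le _
    have h4 : ‖u k - f‖ < ε := hk
    rw [norm_sub_rev] at h4
    linarith
  rw [← h1]
  exact nb_tendsto f

variable (E) in
/-- the ultrapower -/
def FF : Type := BB E ⧸ N0 E

noncomputable instance instNACG : NormedAddCommGroup (FF E) :=
  haveI : IsClosed (N0 E : Set (BB E)) := isClosed_N0 E
  Submodule.Quotient.normedAddCommGroup (N0 E)

noncomputable instance instNS : NormedSpace ℝ (FF E) :=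
  haveI : IsClosed (N0 E : Set (BB E)) := isClosed_N0 E
  Submodule.Quotient.normedSpace (N0 E) ℝ

instance instComplete [CompleteSpace E] : CompleteSpace (FF E) :=
  haveI : IsClosed (N0 E : Set (BB E)) := isClosed_N0 E
  Submodule.Quotient.completeSpace (N0 E)

/-- the class of a bounded sequence -/
noncomputable def mk : BB E →ₗ[ℝ] FF E := (N0 E).mkQ

theorem mk_surj : Function.Surjective (mk (E := E)) := Submodule.mkQ_surjective _

theorem mk_eq {f g : BB E} : mk f = mk g ↔ f - g ∈ N0 E := Submodule.Quotient.eq _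

/-- bounded sequences -/
noncomputable def ofB (f : ℕ → E) (C : ℝ) (h : ∀ n, ‖f n‖ ≤ C) : BB E :=
  BoundedContinuousFunction.ofNormedAddCommGroupDiscrete f C h

theorem ofB_apply (f : ℕ → E) (C : ℝ) (h : ∀ n, ‖f n‖ ≤ C) (n : ℕ) : ofB f C h n = f n := rfl

theorem norm_mk (f : BB E) : ‖mk f‖ = nb f := by
  have h0 : ‖mk f‖ = Metric.infDist f (N0 E : Set (BB E)) := QuotientAddGroup.norm_mk f
  apply le_antisymm
  · refine le_of_forall_pos_le_add fun δ hδ => ?_
    have h1 : ∀ᶠ n in UU, ‖f n‖ < nb f + δ :=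
      (nb_tendsto f).eventually (Iio_mem_nhds (by linarith))
    classical
    set g : BB E := ofB (fun n => if ‖f n‖ < nb f + δ then 0 else f n) ‖f‖ (by
      intro n
      split_ifs
      · rw [norm_zero]
        exact norm_nonneg _
      · exact f.norm_coe_le_norm n) with hg
    have hgN : g ∈ N0 E := by
      rw [mem_N0]
      refine tendsto_const_nhds.congr' (h1.mono fun n hn => ?_)
      change 0 = g n
      rw [hg, ofB_apply, if_pos hn]
    rw [h0]
    refine (Metric.infDist_le_dist_of_mem hgN).trans ?_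
    rw [dist_eq_norm, BoundedContinuousFunction.norm_le (by linarith [nb_nonneg f])]
    intro n
    change ‖f n - g n‖ ≤ nb f + δ
    rw [hg, ofB_apply]
    split_ifs with h
    · rw [sub_zero]
      exact h.le
    · rw [sub_self, norm_zero]
      linarith [nb_nonneg f]
  · rw [h0]
    refine (Metric.le_infDist ⟨0, (N0 E).zero_mem⟩).2 fun g hg => ?_
    rw [dist_eq_norm]
    have h2 := nb_sub_le f g
    rw [nb_N0 hg, add_zero] at h2
    exact h2.trans (nb_le _)

theorem norm_tendsto (f : BB E) : Tendsto (fun n => ‖f n‖) UU (𝓝 ‖mk f‖) := by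
  rw [norm_mk]
  exact nb_tendsto f

theorem norm_unique {f : BB E} {a : ℝ} (h : Tendsto (fun n => ‖f n‖) UU (𝓝 a)) : ‖mk f‖ = a :=
  tendsto_nhds_unique (norm_tendsto f) h

/-- termwise application of operators, on sequences -/
noncomputable def tw0 (A : ℕ → E →L[ℝ] E) (C : ℝ) (hA : ∀ n x, ‖A n x‖ ≤ C * ‖x‖) (hC : 0 ≤ C) :
    BB E →ₗ[ℝ] BB E where
  toFun f := ofB (fun n => A n (f n)) (C * ‖f‖) (fun n => (hA n _).trans
    (mul_le_mul_of_nonneg_left (f.norm_coe_le_norm n) hC))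
  map_add' f g := by
    ext n
    exact map_add (A n) _ _
  map_smul' c f := by
    ext n
    exact map_smul (A n) _ _

theorem tw0_apply (A : ℕ → E →L[ℝ] E) (C : ℝ) (hA : ∀ n x, ‖A n x‖ ≤ C * ‖x‖) (hC : 0 ≤ C)
    (f : BB E) (n : ℕ) : tw0 A C hA hC f n = A n (f n) := rfl

theorem tw0_N0 (A : ℕ → E →L[ℝ] E) (C : ℝ) (hA : ∀ n x, ‖A n x‖ ≤ C * ‖x‖) (hC : 0 ≤ C) :
    N0 E ≤ (N0 E).comap (tw0 A C hA hC) := by
  intro f hf
  rw [Submodule.mem_comap, mem_N0']
  have h1 : Tendsto (fun n => C * ‖f n‖) UU (𝓝 (C * 0)) := (mem_N0'.1 hf).const_mul C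
  rw [mul_zero] at h1
  exact squeeze_zero (fun n => norm_nonneg _) (fun n => hA n (f n)) h1

/-- termwise application of operators -/
noncomputable def tw1 (A : ℕ → E →L[ℝ] E) (C : ℝ) (hA : ∀ n x, ‖A n x‖ ≤ C * ‖x‖) (hC : 0 ≤ C) :
    FF E →ₗ[ℝ] FF E :=
  (N0 E).mapQ (N0 E) (tw0 A C hA hC) (tw0_N0 A C hA hC)

theorem tw1_mk (A : ℕ → E →L[ℝ] E) (C : ℝ) (hA : ∀ n x, ‖A n x‖ ≤ C * ‖x‖) (hC : 0 ≤ C)
    (f : BB E) : tw1 A C hA hC (mk f) = mk (tw0 A C hA hC f) := rfl

theorem norm_tw1 (A : ℕ → E →L[ℝ] E) (C : ℝ) (hA : ∀ n x, ‖A n x‖ ≤ C * ‖x‖) (hC : 0 ≤ C)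
    (x : FF E) : ‖tw1 A C hA hC x‖ ≤ C * ‖x‖ := by
  obtain ⟨f, rfl⟩ := mk_surj x
  rw [tw1_mk]
  exact le_of_tendsto_of_tendsto' (norm_tendsto _) ((norm_tendsto f).const_mul C)
    fun n => hA n (f n)

/-- termwise application of operators, continuous -/
noncomputable def tw (A : ℕ → E →L[ℝ] E) (C : ℝ) (hA : ∀ n x, ‖A n x‖ ≤ C * ‖x‖) (hC : 0 ≤ C) :
    FF E →L[ℝ] FF E :=
  (tw1 A C hA hC).mkContinuous C (norm_tw1 A C hA hC)

theorem tw_mk (A : ℕ → E →L[ℝ] E) (C : ℝ) (hA : ∀ n x, ‖A n x‖ ≤ C * ‖x‖) (hC : 0 ≤ C)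
    (f : BB E) : tw A C hA hC (mk f) = mk (tw0 A C hA hC f) := rfl

/-- termwise application of isometries -/
noncomputable def twi (T : ℕ → E ≃ₗᵢ[ℝ] E) : FF E ≃ₗᵢ[ℝ] FF E where
  toLinearEquiv := LinearEquiv.ofLinearMap
    (tw1 (fun n => ((T n).toContinuousLinearEquiv : E →L[ℝ] E)) 1 (fun n x => by
      rw [one_mul]
      exact ((T n).norm_map x).le) zero_le_one)
    (tw1 (fun n => ((T n).symm.toContinuousLinearEquiv : E →L[ℝ] E)) 1 (fun n x => by
      rw [one_mul]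
      exact ((T n).symm.norm_map x).le) zero_le_one)
    (by
      apply LinearMap.ext
      intro x
      obtain ⟨f, rfl⟩ := mk_surj x
      rw [LinearMap.comp_apply, tw1_mk, tw1_mk]
      change mk _ = mk f
      congr 1
      ext n
      exact (T n).apply_symm_apply (f n))
    (by
      apply LinearMap.ext
      intro x
      obtain ⟨f, rfl⟩ := mk_surj x
      rw [LinearMap.comp_apply, tw1_mk, tw1_mk]
      change mk _ = mk f
      congr 1
      ext n
      exact (T n).symm_apply_apply (f n))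
  norm_map' := by
    intro x
    obtain ⟨f, rfl⟩ := mk_surj x
    refine norm_unique ?_
    have h := norm_tendsto f
    refine h.congr fun n => ?_
    exact ((T n).norm_map (f n)).symm

theorem twi_mk (T : ℕ → E ≃ₗᵢ[ℝ] E) (f : BB E) (g : BB E) (hg : ∀ n, g n = T n (f n)) :
    twi T (mk f) = mk g := by
  change mk _ = mk g
  congr 1
  ext n
  exact (hg n).symm

variable (E) in
/-- constant sequences -/
noncomputable def iota : E →ₗᵢ[ℝ] FF E where
  toFun x := mk (ofB (fun _ => x) ‖x‖ (fun _ => le_rfl))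
  map_add' x y := by
    rw [← map_add]
    rfl
  map_smul' c x := by
    rw [RingHom.id_apply, ← map_smul]
    rfl
  norm_map' x := norm_unique tendsto_const_nhds

theorem iota_eq (x : E) (f : BB E) (h : Tendsto (fun n => f n) UU (𝓝 x)) : mk f = iota E x := by
  change mk f = mk _
  rw [mk_eq, mem_N0]
  have := h.sub_const x
  rw [sub_self] at this
  exact this

/-- transitivity of the ultrapower -/
theorem trans_FF (htr : Trans E) : Trans (FF E) := by
  intro x y hx hy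
  obtain ⟨f, rfl⟩ := mk_surj x
  obtain ⟨g, rfl⟩ := mk_surj y
  have hf := norm_tendsto f
  have hg := norm_tendsto g
  rw [hx] at hf
  rw [hy] at hg
  have key : ∀ n, ∃ T : E ≃ₗᵢ[ℝ] E, f n ≠ 0 → g n ≠ 0 → T (f n) = (‖f n‖ / ‖g n‖) • g n := by
    intro n
    by_cases h : f n ≠ 0 ∧ g n ≠ 0
    · obtain ⟨T, hT⟩ := htr (‖f n‖⁻¹ • f n) (‖g n‖⁻¹ • g n) (norm_smul_inv_norm h.1)
        (norm_smul_inv_norm h.2)
      refine ⟨T, fun _ _ => ?_⟩
      have h1 : ‖f n‖ ≠ 0 := norm_ne_zero_iff.2 h.1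
      rw [map_smul] at hT
      have h2 := congrArg (fun z => ‖f n‖ • z) hT
      simp only [smul_smul] at h2
      rw [mul_inv_cancel₀ h1, one_smul] at h2
      rw [h2]
      rfl
    · refine ⟨LinearIsometryEquiv.refl ℝ E, fun h1 h2 => absurd ⟨h1, h2⟩ h⟩
  choose T hT using key
  refine ⟨twi T, ?_⟩
  rw [twi_mk T f (ofB (fun n => T n (f n)) ‖f‖ (fun n => by
    rw [(T n).norm_map]
    exact f.norm_coe_le_norm n)) (fun n => rfl), mk_eq, mem_N0']
  have hne : ∀ᶠ n in UU, f n ≠ 0 ∧ g n ≠ 0 := by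
    have h1 : ∀ᶠ n in UU, 0 < ‖f n‖ := hf.eventually (Ioi_mem_nhds one_pos)
    have h2 : ∀ᶠ n in UU, 0 < ‖g n‖ := hg.eventually (Ioi_mem_nhds one_pos)
    filter_upwards [h1, h2] with n h3 h4
    exact ⟨norm_pos_iff.1 h3, norm_pos_iff.1 h4⟩
  have h5 : Tendsto (fun n => |‖f n‖ - ‖g n‖|) UU (𝓝 0) := by
    have := (hf.sub hg).abs
    rw [sub_self, abs_zero] at this
    exact this
  refine h5.congr' ?_
  filter_upwards [hne] with n hn
  change |‖f n‖ - ‖g n‖| = ‖T n (f n) - g n‖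
  rw [hT n hn.1 hn.2]
  have h6 : ‖g n‖ ≠ 0 := norm_ne_zero_iff.2 hn.2
  have h7 : (‖f n‖ / ‖g n‖) • g n - g n = ((‖f n‖ - ‖g n‖) / ‖g n‖) • g n := by
    rw [sub_div, div_self h6, sub_smul, one_smul]
  rw [h7, norm_smul, Real.norm_eq_abs, abs_div, abs_of_nonneg (norm_nonneg (g n))]
  field_simp

/-- compactness is inherited -/
theorem compact_FF (T : E ≃ₗᵢ[ℝ] E) (hK : IsCompactOperator (fun x => T x - x)) :
    IsCompactOperator (fun x => twi (fun _ => T) x - x) := by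
  set K : E →ₗ[ℝ] E := (T : E →ₗ[ℝ] E) - LinearMap.id with hKdef
  have hK' : IsCompactOperator K := hK
  have hc := hK'.isCompact_closure_image_closedBall 2
  refine ⟨iota E '' closure (K '' Metric.closedBall 0 2), hc.image (iota E).continuous, ?_⟩
  refine mem_of_superset (Metric.ball_mem_nhds (0 : FF E) one_pos) ?_
  intro x hx
  rw [mem_ball_zero_iff] at hx
  obtain ⟨f, rfl⟩ := mk_surj x
  have h1 : ∀ᶠ n in UU, ‖f n‖ < 2 :=
    (norm_tendsto f).eventually (Iio_mem_nhds (by linarith))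
  have h2 : ∀ᶠ n in UU, K (f n) ∈ closure (K '' Metric.closedBall 0 2) := by
    refine h1.mono fun n hn => subset_closure ⟨f n, ?_, rfl⟩
    rw [mem_closedBall_zero_iff]
    exact hn.le
  obtain ⟨k, hk, hkU⟩ := hc.ultrafilter_le_nhds ((hyperfilter ℕ).map fun n => K (f n)) (by
    rw [Ultrafilter.coe_map, le_principal_iff]
    exact h2)
  refine ⟨k, hk, ?_⟩
  have h3 : Tendsto (fun n => K (f n)) UU (𝓝 k) := hkU
  have h4 : twi (fun _ => T) (mk f) - mk f = mk (ofB (fun n => T (f n)) ‖f‖ (fun n => by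
      rw [T.norm_map]
      exact f.norm_coe_le_norm n) - f) := by
    rw [map_sub]
    rfl
  change iota E k = twi (fun _ => T) (mk f) - mk f
  rw [h4]
  exact (iota_eq k _ h3).symm

/-- compact operators of an infinite-dimensional space are not bounded below -/
theorem exists_small [CompleteSpace E] (hinf : ¬ FiniteDimensional ℝ E) (X : E →L[ℝ] E)
    (hX : IsCompactOperator X) (ε : ℝ) (hε : 0 < ε) : ∃ z : E, ‖z‖ = 1 ∧ ‖X z‖ ≤ ε := by
  by_contra hcon
  push Not at hcon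
  apply hinf
  have h1 : ∀ x : E, ‖x‖ ≤ ((⟨ε⁻¹, by positivity⟩ : NNReal) : ℝ) * ‖X x‖ := by
    intro x
    by_cases hx : x = 0
    · rw [hx]
      simp
    have h2 := hcon (‖x‖⁻¹ • x) (norm_smul_inv_norm hx)
    have h3 : 0 < ‖x‖ := norm_pos_iff.2 hx
    rw [map_smul, norm_smul, norm_inv, norm_norm] at h2
    change ‖x‖ ≤ ε⁻¹ * ‖X x‖
    rw [lt_inv_mul_iff₀ h3] at h2
    rw [le_inv_mul_iff₀ hε, mul_comm]
    exact h2.le
  have h2 := (X.antilipschitz_of_bound h1).isClosedEmbedding X.uniformContinuous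
  have h3 : IsCompact (closure ((X : E →ₗ[ℝ] E) '' Metric.closedBall 0 1)) :=
    IsCompactOperator.isCompact_closure_image_closedBall (f := (X : E →ₗ[ℝ] E)) hX 1
  have h4 := h2.isCompact_preimage h3
  refine FiniteDimensional.of_isCompact_closedBall₀ ℝ one_pos (h4.of_isClosed_subset
    Metric.isClosed_closedBall ?_)
  intro x hx
  exact subset_closure ⟨x, hx, rfl⟩

theorem sh_of_bound {F : Type} [NormedAddCommGroup F] [NormedSpace ℝ F] (A : F →L[ℝ] F)
    (h : ∀ t : ℝ, |t| ≤ 1 / 4 → ∀ x, ‖x + t • A x‖ ≤ (1 + 4 * t ^ 2) * ‖x‖) : SH A := by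
  intro x
  have h1 : ∀ t : ℝ, |t| ≤ 1 / 4 → |‖x + t • A x‖ - ‖x‖| ≤ 4 * ‖x‖ * t ^ 2 := by
    intro t ht
    have u1 := h t ht x
    have u2 := h (-t) (by rwa [abs_neg]) x
    have u3 : 2 * ‖x‖ ≤ ‖x + t • A x‖ + ‖x + (-t) • A x‖ := by
      have := norm_add_le (x + t • A x) (x + (-t) • A x)
      have e : (x + t • A x) + (x + (-t) • A x) = (2 : ℝ) • x := by
        rw [neg_smul, two_smul]
        abel
      rw [e, norm_smul, Real.norm_ofNat] at this
      exact this
    rw [neg_sq] at u2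
    rw [abs_le]
    constructor <;> nlinarith
  rw [hasDerivAt_iff_isLittleO]
  have h2 : (fun t : ℝ => ‖x + t • A x‖ - ‖x + (0 : ℝ) • A x‖ - (t - 0) • (0 : ℝ)) =O[𝓝 0]
      fun t : ℝ => t ^ 2 := by
    apply Asymptotics.IsBigO.of_bound (4 * ‖x‖)
    have h3 : ∀ᶠ t : ℝ in 𝓝 0, |t| < 1 / 4 := by
      have : Tendsto (fun t : ℝ => |t|) (𝓝 0) (𝓝 |0|) := (continuous_abs).tendsto 0
      rw [abs_zero] at this
      exact this.eventually (Iio_mem_nhds (by norm_num))
    refine h3.mono fun t ht => ?_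
    rw [smul_zero, sub_zero, zero_smul, add_zero, Real.norm_eq_abs, Real.norm_of_nonneg (sq_nonneg t)]
    exact h1 t ht.le
  refine h2.trans_isLittleO ?_
  have h4 : (fun t : ℝ => t ^ 2) =o[𝓝 0] fun t : ℝ => t ^ 1 :=
    Asymptotics.isLittleO_pow_pow one_lt_two
  refine h4.congr (fun _ => rfl) (fun t => ?_)
  rw [pow_one, sub_zero]

end

theorem ultra (E : Type) [NormedAddCommGroup E] [NormedSpace ℝ E] [CompleteSpace E] (htr : Trans E)
    (hinf : ¬ FiniteDimensional ℝ E) (T : E ≃ₗᵢ[ℝ] E) (hT : ∃ x, T x ≠ x)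
    (hK : IsCompactOperator (fun x => T x - x)) (X : ℕ → E →L[ℝ] E) (hXn : ∀ n, ‖X n‖ = 1)
    (hXc : ∀ n, IsCompactOperator (X n)) (ε : ℕ → ℝ) (hε : Filter.Tendsto ε Filter.atTop (nhds 0))
    (hX : ∀ n (t : ℝ), |t| ≤ 1 / 4 → ∀ x, ‖x + t • X n x‖ ≤ (1 + 4 * t ^ 2 + 4 * ε n) * ‖x‖) :
    ∃ (F : Type) (_ : NormedAddCommGroup F) (_ : NormedSpace ℝ F) (_ : CompleteSpace F)
      (_ : E →ₗᵢ[ℝ] F), Trans F ∧ ¬ FiniteDimensional ℝ F ∧ ∃ T' : F ≃ₗᵢ[ℝ] F, (∃ x, T' x ≠ x) ∧
      IsCompactOperator (fun x => T' x - x) ∧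
      ∃ X' : F →L[ℝ] F, SH X' ∧ X' ≠ 0 ∧ ∃ z, z ≠ 0 ∧ X' z = 0 := by
  have hA : ∀ n x, ‖X n x‖ ≤ 1 * ‖x‖ := fun n x => by
    have := (X n).le_opNorm x
    rwa [hXn n] at this
  refine ⟨FF E, instNACG, instNS, instComplete, iota E, trans_FF htr, ?_, twi (fun _ => T), ?_,
    compact_FF T hK, tw X 1 hA zero_le_one, ?_, ?_, ?_⟩
  · intro h
    exact hinf (FiniteDimensional.of_injective (iota E).toLinearMap (iota E).injective)
  · obtain ⟨x, hx⟩ := hT
    refine ⟨iota E x, fun h => hx ?_⟩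
    have h1 : twi (fun _ => T) (iota E x) = iota E (T x) := by
      change mk _ = mk _
      congr 1
    rw [h1] at h
    exact (iota E).injective h
  · apply sh_of_bound
    intro t ht x
    obtain ⟨f, rfl⟩ := mk_surj x
    rw [tw_mk, ← map_smul, ← map_add]
    have h1 : Tendsto (fun n => (1 + 4 * t ^ 2 + 4 * ε n) * ‖f n‖) UU
        (𝓝 ((1 + 4 * t ^ 2 + 4 * 0) * ‖mk f‖)) :=
      ((hε.mono_left Nat.hyperfilter_le_atTop).const_mul 4 |>.const_add _).mul (norm_tendsto f)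
    rw [mul_zero, add_zero] at h1
    exact le_of_tendsto_of_tendsto' (norm_tendsto _) h1 fun n => hX n t ht (f n)
  · choose y hy1 hy2 using fun n => (X n).exists_lt_apply_of_lt_opNorm (r := 1 / 2) (by
      rw [hXn n]
      norm_num)
    intro h
    have h1 := congrArg (fun A : FF E →L[ℝ] FF E => ‖A (mk (ofB y 1 (fun n => (hy1 n).le)))‖) h
    simp only [tw_mk, zero_apply, norm_zero] at h1
    have h2 := ge_of_tendsto (norm_tendsto (tw0 X 1 hA zero_le_one (ofB y 1 (fun n => (hy1 n).le))))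
      (Eventually.of_forall fun n => (hy2 n).le)
    rw [h1] at h2
    norm_num at h2
  · choose z hz1 hz2 using fun n : ℕ => exists_small hinf (X n) (hXc n) (1 / ((n : ℝ) + 1))
      (by positivity)
    refine ⟨mk (ofB z 1 (fun n => (hz1 n).le)), ?_, ?_⟩
    · rw [← norm_ne_zero_iff, norm_unique (a := 1)]
      · norm_num
      · refine tendsto_const_nhds.congr fun n => ?_
        exact (hz1 n).symm
    · rw [tw_mk, ← norm_eq_zero]
      apply norm_unique
      refine squeeze_zero (fun n => norm_nonneg _) (fun n => hz2 n) ?_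
      exact tendsto_one_div_add_atTop_nhds_zero_nat.mono_left Nat.hyperfilter_le_atTop

end Pool.Agent.TH111.BMUltra
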