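import Pool.Agent.TH64.Fill

/-!
# Centralizers of powers of `x` modulo a large power subgroup (helper111, job of helper64)
-/

set_option autoImplicit false

namespace Pool.Agent.TH64

variable {G : Type*} [Group G]

/-- the statement of `pmin` -/
def PMinStmt {H : Hyp G} {x : G} (A : Ax H x) : Prop := ∃ c' N0 : ℕ, ∀ N ≥ N0, ∀ M : Subgroup G,
    Fill A N M → ∀ u v : G, (∀ m ∈ M, H.d u v ≤ H.d u (m * v)) →
    ∀ w : G, 2 * |A.s w u v| ≤ N + c'

/-- the statement of `comm_small` -/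
def CommSmallStmt {H : Hyp G} {x : G} (A : Ax H x) : Prop := ∀ R : ℕ, ∃ N0 : ℕ, ∀ N ≥ N0,
    ∀ M : Subgroup G, Fill A N M → ∀ a g : G, H.len a ≤ R → a⁻¹ * g * a * g⁻¹ ∈ M →
    ∃ n ∈ M, (n * g) * a = a * (n * g)

/-- an element commuting with a nontrivial power of `x` is a power of `x` -/
theorem mem_zpowers_of_comm {H : Hyp G} {x : G} (A : Ax H x) {j : ℤ} (hj : j ≠ 0) {g : G}
    (h : g * x ^ j = x ^ j * g) : g ∈ Subgroup.zpowers x := by
  by_contra hg
  have h1 := A.ov g hg (j * (A.c + 1)) 0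
  have h2 : g * x ^ (j * ((A.c : ℤ) + 1)) = x ^ (j * ((A.c : ℤ) + 1)) * g := by
    rw [zpow_mul]
    exact Commute.zpow_right h _
  rw [h2, A.shift, zpow_zero, mul_one, add_sub_cancel_left, abs_mul] at h1
  have h3 : (1 : ℤ) ≤ |j| := Int.one_le_abs hj
  have h4 : |(A.c : ℤ) + 1| = A.c + 1 := abs_of_nonneg (by positivity)
  rw [h4] at h1
  have h5 : (1 : ℤ) * (A.c + 1) ≤ |j| * (A.c + 1) :=
    mul_le_mul_of_nonneg_right h3 (by positivity)
  omega

theorem len_zpow_le {H : Hyp G} (x : G) (k : ℤ) : H.len (x ^ k) ≤ k.natAbs * H.len x := by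
  have aux : ∀ n : ℕ, H.len (x ^ n) ≤ n * H.len x := by
    intro n
    induction n with
    | zero => simp [H.len_one]
    | succ n ih =>
      rw [pow_succ]
      have := H.len_mul (x ^ n) x
      rw [Nat.succ_mul]
      omega
  rcases Int.natAbs_eq k with h | h
  · conv_lhs => rw [h, zpow_natCast]
    exact aux _
  · conv_lhs => rw [h, zpow_neg, zpow_natCast, H.len_inv]
    exact aux _

/-- the core of the argument, for `g` of minimal length in `⟨x⟩ M g ⟨x⟩` and `2 |j| ≤ N` -/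
theorem comm_x_core {H : Hyp G} {x : G} (A : Ax H x) {c' N : ℕ} {M : Subgroup G}
    (hF : Fill A N M)
    (hN : 2 * c' + 40 * A.th + 8 * A.c + 4 * (A.c * A.c) + 8 ≤ N)
    (hpm : ∀ u v : G, (∀ m ∈ M, H.d u v ≤ H.d u (m * v)) → ∀ w : G, 2 * |A.s w u v| ≤ N + c')
    (hcs : ∀ a g : G, H.len a ≤ 2 * A.th * H.len x → a⁻¹ * g * a * g⁻¹ ∈ M →
      ∃ n ∈ M, (n * g) * a = a * (n * g))
    {j : ℤ} (hj0 : j ≠ 0) (hj : 2 * |j| ≤ N) {g : G}
    (hmin : ∀ m ∈ M, ∀ b : ℤ, H.len g ≤ H.len (m * g * x ^ b))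
    (hg : x ^ (-j) * g * x ^ j * g⁻¹ ∈ M) :
    ∃ n ∈ M, ∃ k : ℤ, g = n * x ^ k := by
  classical
  have hth : (A.th : ℤ) = A.c * A.c + 3 * A.c + 1 := by unfold PAx.th; push_cast; ring
  have hcc : (0 : ℤ) ≤ (A.c : ℤ) * A.c := by positivity
  have hN' : 2 * (c' : ℤ) + 40 * A.th + 8 * A.c + 4 * ((A.c : ℤ) * A.c) + 8 ≤ N := by
    exact_mod_cast hN
  by_cases hgx : g ∈ Subgroup.zpowers x
  · obtain ⟨k, hk⟩ := hgx
    exact ⟨1, M.one_mem, k, by rw [one_mul]; exact hk.symm⟩
  by_cases hn0 : x ^ (-j) * g * x ^ j * g⁻¹ = 1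
  · exfalso
    apply hgx
    apply mem_zpowers_of_comm A hj0
    have h1 : x ^ (-j) * g * x ^ j = g := by rwa [mul_inv_eq_one] at hn0
    rw [zpow_neg] at h1
    calc g * x ^ j = x ^ j * ((x ^ j)⁻¹ * g * x ^ j) := by group
      _ = x ^ j * g := by rw [h1]
  -- the bound for minimal elements
  have hpm1 : ∀ w : G, 2 * |A.s w 1 g| ≤ N + c' := by
    apply hpm
    intro m hm
    rw [H.d_one, H.d_one]
    have := hmin m hm 0
    rwa [zpow_zero, mul_one] at this
  obtain ⟨w, hw⟩ := hF.gr _ hg hn0 g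
  have e0 : x ^ (-j) * g * x ^ j * g⁻¹ * g = x ^ (-j) * g * x ^ j := by group
  rw [e0] at hw
  have p1 := A.s_add w g 1 (x ^ (-j) * g * x ^ j)
  have p2 := A.s_add w 1 (x ^ (-j)) (x ^ (-j) * g * x ^ j)
  have p3 := A.s_add w (x ^ (-j)) (x ^ (-j) * g) (x ^ (-j) * g * x ^ j)
  have t1 : A.s w g 1 = - A.s w 1 g := A.s_symm w 1 g
  have t3 : A.s w (x ^ (-j)) (x ^ (-j) * g) = A.s (x ^ j * w) 1 g := by
    have := A.s_mul (x ^ (-j)) (x ^ j * w) 1 g
    rw [mul_one, ← mul_assoc, ← zpow_add, neg_add_cancel, zpow_zero, one_mul] at this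
    exact this
  have b1 := hpm1 w
  have b3 := hpm1 (x ^ j * w)
  have hs1 : ∀ p q : G, A.s 1 p q = A.κ q - A.κ p := by
    intro p q
    unfold PAx.s
    simp
  by_cases hwx : w ∈ Subgroup.zpowers x
  · -- case (B)
    exfalso
    obtain ⟨a, ha⟩ := hwx
    have ha' : x ^ a = w := ha
    have q : ∀ p q : G, A.s w p q = A.s 1 p q := by
      intro p q
      rw [← ha', ← one_mul (x ^ a), A.s_base]
    have q' : A.s (x ^ j * w) 1 g = A.s 1 1 g := by
      rw [← ha', ← zpow_add, ← one_mul (x ^ (j + a)), A.s_base]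
    have h4 : |A.κ (g * x ^ j) - A.κ (g * x ^ (0 : ℤ))| ≤ A.c := A.ov g hgx j 0
    rw [zpow_zero, mul_one] at h4
    rw [q, hs1] at p1 t1
    rw [q, hs1] at p2
    rw [q, hs1] at p3
    rw [q', hs1] at t3
    rw [q, hs1] at t3 hw
    have e1 : A.κ (x ^ (-j) * g * x ^ j) = A.κ (g * x ^ j) - j := by
      rw [mul_assoc, A.shift]; ring
    have e2 : A.κ (x ^ (-j) * g) = A.κ g - j := by rw [A.shift]; ring
    rw [e1] at hw
    have hh : |A.κ (g * x ^ j) - j - A.κ g| ≤ A.c + |j| := by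
      have : A.κ (g * x ^ j) - j - A.κ g = (A.κ (g * x ^ j) - A.κ g) - j := by ring
      rw [this]
      exact (abs_sub _ _).trans (by omega)
    omega
  · have hbeh1 := A.beh (u := 1) (w := w) (by rwa [inv_one, one_mul]) g
    have hov1 : |A.s w 1 (x ^ (-j))| ≤ A.c := by
      have := A.ov_s (u := w) (w := 1) (by
        rw [mul_one]
        intro h
        apply hwx
        have := (Subgroup.zpowers x).inv_mem h
        rwa [inv_inv] at this) 0 (-j)
      rwa [zpow_zero, mul_one, one_mul] at this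
    by_cases hw2 : (x ^ (-j) * g)⁻¹ * w ∈ Subgroup.zpowers x
    · -- case (C)
      exfalso
      obtain ⟨b, hb⟩ := hw2
      have hb' : x ^ b = (x ^ (-j) * g)⁻¹ * w := hb
      have hwe : w = x ^ (-j) * g * x ^ b := by rw [hb']; group
      have t4 : A.s w (x ^ (-j) * g) (x ^ (-j) * g * x ^ j) = j := by
        rw [hwe, A.s_base]
        unfold PAx.s
        rw [inv_mul_cancel, inv_mul_cancel_left, A.κ_one, A.κ_zpow]
        ring
      have t3' : A.s (x ^ j * w) 1 g = - A.κ g⁻¹ := by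
        have : x ^ j * w = g * x ^ b := by
          rw [hwe, ← mul_assoc, ← mul_assoc, ← zpow_add, add_neg_cancel, zpow_zero, one_mul]
        rw [this, A.s_base]
        unfold PAx.s
        rw [inv_mul_cancel, mul_one, A.κ_one]
        ring
      -- the coordinate of `g⁻¹` is bounded
      have hk : |A.κ g⁻¹| ≤ A.c * A.c + A.c := by
        by_contra hcon
        push Not at hcon
        have h1 := A.proj g⁻¹ 1 (by rw [A.κ_one, sub_zero]; omega)
        rw [A.κ_one, sub_zero, zpow_zero, H.d_self] at h1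
        have h2 : H.d g⁻¹ (x ^ A.κ g⁻¹) = H.len (1 * g * x ^ A.κ g⁻¹) := by
          unfold Hyp.d
          rw [inv_inv, one_mul]
        have h3 := hmin 1 M.one_mem (A.κ g⁻¹)
        have h4 : H.d g⁻¹ 1 = H.len g := by rw [H.d_one', H.len_inv]
        have h5 := A.len_le_of (A.κ g⁻¹) A.c (by omega)
        omega
      have hj' := hj
      rcases hbeh1 with hb1 | hb1
      · have h1 := hb1 (-b)
        have h2 : w * x ^ (-b) = x ^ (-j) * g := by
          rw [hwe, mul_assoc, ← zpow_add, add_neg_cancel, zpow_zero, mul_one]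
        rw [h2, hs1, A.shift] at h1
        have h3 : |j| ≤ A.th := by
          have : A.κ g + -j - A.κ g = -j := by ring
          rw [this, abs_neg] at h1
          exact h1
        rw [← p1, ← p2, ← p3, t1, t3, t3', t4] at hw
        have h6 : |-A.s w 1 g + (A.s w 1 (x ^ (-j)) + (-A.κ g⁻¹ + j))| ≤
            |A.s w 1 g| + (|A.s w 1 (x ^ (-j))| + (|A.κ g⁻¹| + |j|)) := by
          refine (abs_add_le _ _).trans ?_
          rw [abs_neg]
          gcongr
          refine (abs_add_le _ _).trans ?_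
          gcongr
          refine (abs_add_le _ _).trans ?_
          rw [abs_neg]
        omega
      · have h1 := hb1 0
        rw [zpow_zero, mul_one, t1, abs_neg] at h1
        rw [← p1, ← p2, ← p3, t1, t3, t3', t4] at hw
        have h6 : |-A.s w 1 g + (A.s w 1 (x ^ (-j)) + (-A.κ g⁻¹ + j))| ≤
            |A.s w 1 g| + (|A.s w 1 (x ^ (-j))| + (|A.κ g⁻¹| + |j|)) := by
          refine (abs_add_le _ _).trans ?_
          rw [abs_neg]
          gcongr
          refine (abs_add_le _ _).trans ?_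
          gcongr
          refine (abs_add_le _ _).trans ?_
          rw [abs_neg]
        omega
    · -- case (A)
      have hov2 : |A.s w (x ^ (-j) * g) (x ^ (-j) * g * x ^ j)| ≤ A.c := by
        have := A.ov_s (u := w) (w := x ^ (-j) * g) (by
          intro h
          apply hw2
          have := (Subgroup.zpowers x).inv_mem h
          rwa [mul_inv_rev, inv_inv] at this) 0 j
        rwa [zpow_zero, mul_one] at this
      have hwj : x ^ j * w ∉ Subgroup.zpowers x := by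
        intro h
        apply hwx
        have := (Subgroup.zpowers x).mul_mem (Subgroup.zpow_mem_zpowers x (-j)) h
        rwa [← mul_assoc, ← zpow_add, neg_add_cancel, zpow_zero, one_mul] at this
      have hbeh2 := A.beh (u := 1) (w := x ^ j * w) (by rwa [inv_one, one_mul]) g
      rw [← p1, ← p2, ← p3, t1, t3] at hw
      have h6 : |-A.s w 1 g + (A.s w 1 (x ^ (-j)) + (A.s (x ^ j * w) 1 g +
            A.s w (x ^ (-j) * g) (x ^ (-j) * g * x ^ j)))| ≤
          |A.s w 1 g| + (|A.s w 1 (x ^ (-j))| + (|A.s (x ^ j * w) 1 g| +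
            |A.s w (x ^ (-j) * g) (x ^ (-j) * g * x ^ j)|)) := by
        refine (abs_add_le _ _).trans ?_
        rw [abs_neg]
        gcongr
        refine (abs_add_le _ _).trans ?_
        gcongr
        exact abs_add_le _ _
      have k1 : |A.κ w - A.κ g| ≤ A.th := by
        rcases hbeh1 with hb1 | hb1
        · have := hb1 0
          rwa [zpow_zero, mul_one, hs1] at this
        · exfalso
          have := hb1 0
          rw [zpow_zero, mul_one, t1, abs_neg] at this
          omega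
      have k2 : |A.κ w + j - A.κ g| ≤ A.th := by
        rcases hbeh2 with hb1 | hb1
        · have := hb1 0
          rwa [zpow_zero, mul_one, hs1, A.shift] at this
        · exfalso
          have := hb1 0
          rw [zpow_zero, mul_one, A.s_symm, abs_neg] at this
          omega
      have k3 : |j| ≤ 2 * A.th := by
        have : j = (A.κ w + j - A.κ g) - (A.κ w - A.κ g) := by ring
        rw [this]
        exact (abs_sub _ _).trans (by omega)
      obtain ⟨n, hn, hcomm⟩ := hcs (x ^ j) g (by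
        refine (len_zpow_le x j).trans ?_
        apply Nat.mul_le_mul_right
        rw [PAx.natAbs_abs] at k3
        exact_mod_cast k3) (by rwa [zpow_neg] at hg)
      obtain ⟨k, hk⟩ := mem_zpowers_of_comm A hj0 hcomm
      have hk' : x ^ k = n * g := hk
      exact ⟨n⁻¹, M.inv_mem hn, k, by rw [hk']; group⟩

theorem comm_x_of {H : Hyp G} {x : G} (A : Ax H x) (hp : PMinStmt A) (hc : CommSmallStmt A) :
    ∃ N0 : ℕ, ∀ N ≥ N0, ∀ M : Subgroup G,
    Fill A N M → ∀ (j : ℤ) (g : G), ¬ (N : ℤ) ∣ j → x ^ (-j) * g * x ^ j * g⁻¹ ∈ M →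
    ∃ n ∈ M, ∃ k : ℤ, g = n * x ^ k := by
  classical
  obtain ⟨c', N1, hp⟩ := hp
  obtain ⟨N2, hc⟩ := hc (2 * A.th * H.len x)
  refine ⟨max (max N1 N2) (2 * c' + 40 * A.th + 8 * A.c + 4 * (A.c * A.c) + 8), ?_⟩
  intro N hN M hF j g hj hg
  have hN1 : N1 ≤ N := (le_max_left _ _).trans ((le_max_left _ _).trans hN)
  have hN2 : N2 ≤ N := (le_max_right _ _).trans ((le_max_left _ _).trans hN)
  have hN3 : 2 * c' + 40 * A.th + 8 * A.c + 4 * (A.c * A.c) + 8 ≤ N :=
    (le_max_right _ _).trans hN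
  have := hF.normal
  obtain ⟨q, r, hjr, hr⟩ : ∃ q r : ℤ, j = N * q + r ∧ 2 * |r| ≤ N := by
    have hpos : (0 : ℤ) < N := by omega
    have h1 := Int.mul_ediv_add_emod j N
    have h2 := Int.emod_nonneg j hpos.ne'
    have h3 := Int.emod_lt_of_pos j hpos
    by_cases h4 : 2 * (j % N) ≤ N
    · exact ⟨j / N, j % N, by omega, by rw [abs_of_nonneg h2]; exact h4⟩
    · refine ⟨j / N + 1, j % N - N, by rw [mul_add, mul_one]; omega, ?_⟩
      rw [abs_of_nonpos (by omega)]
      omega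
  have hr0 : r ≠ 0 := by
    rintro rfl
    exact hj ⟨q, by omega⟩
  set φ := QuotientGroup.mk' M with hφ
  have hmem : ∀ y : G, y ∈ M ↔ φ y = 1 := fun y => (QuotientGroup.eq_one_iff y).symm
  have hxN : ∀ k : ℤ, φ x ^ ((N : ℤ) * k) = 1 := by
    intro k
    have := hF.rot 1 k
    rw [PAx.rt, one_mul, inv_one, mul_one, hmem, map_zpow] at this
    exact this
  have hxj : φ x ^ j = φ x ^ r := by rw [hjr, zpow_add, hxN, one_mul]
  have hcomm : φ g * φ x ^ r = φ x ^ r * φ g := by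
    rw [hmem] at hg
    simp only [map_mul, map_inv, map_zpow] at hg
    rw [zpow_neg, hxj] at hg
    have h1 : (φ x ^ r)⁻¹ * φ g * φ x ^ r = φ g := by rwa [mul_inv_eq_one] at hg
    calc φ g * φ x ^ r = φ x ^ r * ((φ x ^ r)⁻¹ * φ g * φ x ^ r) := by group
      _ = φ x ^ r * φ g := by rw [h1]
  have hne : ∃ n, ∃ m ∈ M, ∃ a b : ℤ, H.len (x ^ a * m * g * x ^ b) = n :=
    ⟨_, 1, M.one_mem, 0, 0, rfl⟩
  obtain ⟨m, hm, a, b, hmab⟩ := Nat.find_spec hne
  have hmin0 : ∀ m' ∈ M, ∀ a' b' : ℤ, H.len (x ^ a * m * g * x ^ b) ≤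
      H.len (x ^ a' * m' * g * x ^ b') := by
    intro m' hm' a' b'
    rw [hmab]
    exact Nat.find_min' hne ⟨m', hm', a', b', rfl⟩
  set g' := x ^ a * m * g * x ^ b with hg'
  have hmin : ∀ m' ∈ M, ∀ b' : ℤ, H.len g' ≤ H.len (m' * g' * x ^ b') := by
    intro m' hm' b'
    have h1 : m' * g' * x ^ b' = x ^ a * ((x ^ a)⁻¹ * m' * x ^ a * m) * g * x ^ (b + b') := by
      rw [hg', zpow_add]
      group
    rw [h1]
    apply hmin0
    refine M.mul_mem ?_ hm
    have := hF.normal.conj_mem m' hm' (x ^ a)⁻¹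
    rwa [inv_inv] at this
  have hφg' : φ g' = φ x ^ a * φ g * φ x ^ b := by
    rw [hg']
    simp only [map_mul, map_zpow]
    rw [(hmem m).1 hm, mul_one]
  have hg1 : x ^ (-r) * g' * x ^ r * g'⁻¹ ∈ M := by
    rw [hmem]
    simp only [map_mul, map_inv, map_zpow]
    rw [mul_inv_eq_one, hφg', zpow_neg]
    have h1 : (φ x ^ r)⁻¹ * (φ x ^ a * φ g * φ x ^ b) * φ x ^ r =
        φ x ^ a * ((φ x ^ r)⁻¹ * (φ g * φ x ^ r)) * φ x ^ b := by
      rw [← zpow_neg]
      have e1 : ∀ s t : ℤ, φ x ^ s * φ x ^ t = φ x ^ t * φ x ^ s := fun s t => by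
        rw [← zpow_add, ← zpow_add, add_comm]
      calc φ x ^ (-r) * (φ x ^ a * φ g * φ x ^ b) * φ x ^ r
          = (φ x ^ (-r) * φ x ^ a) * φ g * (φ x ^ b * φ x ^ r) := by group
        _ = (φ x ^ a * φ x ^ (-r)) * φ g * (φ x ^ r * φ x ^ b) := by rw [e1 (-r) a, e1 b r]
        _ = φ x ^ a * (φ x ^ (-r) * (φ g * φ x ^ r)) * φ x ^ b := by group
    rw [h1, hcomm, inv_mul_cancel_left]
  obtain ⟨n, hn, k, hk⟩ := comm_x_core A hF hN3 (hp N hN1 M hF) (hc N hN2 M hF) hr0 hr hmin hg1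
  refine ⟨g * x ^ (-(k - a - b)), ?_, k - a - b, ?_⟩
  · rw [hmem]
    simp only [map_mul, map_zpow]
    have h1 : φ g' = φ x ^ k := by
      rw [hk]
      simp only [map_mul, map_zpow]
      rw [(hmem n).1 hn, one_mul]
    have h2 : φ g = φ x ^ (-a) * (φ x ^ a * φ g * φ x ^ b) * φ x ^ (-b) := by
      rw [zpow_neg, zpow_neg]
      group
    rw [h2, ← hφg', h1, ← zpow_add, ← zpow_add, ← zpow_add]
    have : -a + k + -b + -(k - a - b) = 0 := by ring
    rw [this, zpow_zero]
  · rw [mul_assoc, ← zpow_add, neg_add_cancel, zpow_zero, mul_one]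

end Pool.Agent.TH64
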