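import Mathlib
import Pool.Agent.TH371.Harm.Defs

/-!
# The plane minus two horizontal half-lines directed to the left

`Slit a b` is open, and it is simply connected (it is even contractible: push every point far to
the right, into a half plane, and contract the half plane).
-/

set_option autoImplicit false

namespace Pool.Agent.TH111.Harm

open Pool.Agent.TH371.Harm
open Complex Filter Topology Set

theorem slit_isOpen (a b : ℝ) : IsOpen (Slit a b) := by
  have h1 : IsClosed {w : ℂ | w.im = 0 ∧ w.re ≤ a} :=
    (isClosed_eq Complex.continuous_im continuous_const).inter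
      (isClosed_le Complex.continuous_re continuous_const)
  have h2 : IsClosed {w : ℂ | w.im = Real.pi ∧ w.re ≤ b} :=
    (isClosed_eq Complex.continuous_im continuous_const).inter
      (isClosed_le Complex.continuous_re continuous_const)
  have h3 : Slit a b = {w : ℂ | w.im = 0 ∧ w.re ≤ a}ᶜ ∩ {w : ℂ | w.im = Real.pi ∧ w.re ≤ b}ᶜ := by
    ext w
    rfl
  rw [h3]
  exact h1.isOpen_compl.inter h2.isOpen_compl

/-- moving a point of the slit plane to the right keeps it in the slit plane -/
theorem slit_add (a b : ℝ) {w : ℂ} (hw : w ∈ Slit a b) {r : ℝ} (hr : 0 ≤ r) :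
    w + (r : ℂ) ∈ Slit a b := by
  obtain ⟨h1, h2⟩ := hw
  refine ⟨?_, ?_⟩
  · rintro ⟨h3, h4⟩
    simp only [Complex.add_im, Complex.ofReal_im, add_zero, Complex.add_re,
      Complex.ofReal_re] at h3 h4
    exact h1 ⟨h3, by linarith⟩
  · rintro ⟨h3, h4⟩
    simp only [Complex.add_im, Complex.ofReal_im, add_zero, Complex.add_re,
      Complex.ofReal_re] at h3 h4
    exact h2 ⟨h3, by linarith⟩

/-- the half plane to the right of both slits -/
theorem slit_of_re (a b : ℝ) {w : ℂ} (hw : |a| + |b| < w.re) : w ∈ Slit a b := by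
  refine ⟨?_, ?_⟩
  · rintro ⟨-, h4⟩
    linarith [le_abs_self a, abs_nonneg b]
  · rintro ⟨-, h4⟩
    linarith [le_abs_self b, abs_nonneg a]

/-- how far a point is pushed -/
noncomputable def push (a b : ℝ) (w : ℂ) : ℝ := ‖w‖ + |a| + |b| + 1

theorem push_nonneg (a b : ℝ) (w : ℂ) : 0 ≤ push a b w := by
  unfold push
  positivity

theorem push_continuous (a b : ℝ) : Continuous (push a b) := by
  unfold push
  fun_prop

theorem push_re (a b : ℝ) (w : ℂ) : |a| + |b| + 1 ≤ (w + (push a b w : ℂ)).re := by
  rw [Complex.add_re, Complex.ofReal_re]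
  unfold push
  have := (abs_le.mp (Complex.abs_re_le_norm w)).1
  linarith

/-- the end of the first homotopy -/
noncomputable def gg (a b : ℝ) : C(Slit a b, Slit a b) where
  toFun w := ⟨(w : ℂ) + (push a b w : ℂ), slit_add a b w.2 (push_nonneg a b w)⟩
  continuous_toFun := by
    refine Continuous.subtype_mk ?_ _
    exact continuous_subtype_val.add
      (Complex.continuous_ofReal.comp ((push_continuous a b).comp continuous_subtype_val))

/-- the base point -/
noncomputable def base (a b : ℝ) : Slit a b :=
  ⟨((|a| + |b| + 1 : ℝ) : ℂ), slit_of_re a b (by rw [Complex.ofReal_re]; linarith)⟩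

/-- the first homotopy -/
noncomputable def hom1 (a b : ℝ) :
    ContinuousMap.Homotopy (ContinuousMap.id (Slit a b)) (gg a b) where
  toFun p := ⟨(p.2 : ℂ) + (((p.1 : ℝ) * push a b p.2 : ℝ) : ℂ),
    slit_add a b p.2.2 (mul_nonneg p.1.2.1 (push_nonneg a b p.2))⟩
  continuous_toFun := by
    refine Continuous.subtype_mk ?_ _
    have h1 : Continuous fun p : unitInterval × Slit a b => (p.2 : ℂ) :=
      continuous_subtype_val.comp continuous_snd
    have h2 : Continuous fun p : unitInterval × Slit a b => (p.1 : ℝ) :=
      continuous_subtype_val.comp continuous_fst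
    exact h1.add (Complex.continuous_ofReal.comp (h2.mul ((push_continuous a b).comp h1)))
  map_zero_left w := by
    apply Subtype.ext
    simp
  map_one_left w := by
    apply Subtype.ext
    simp [gg]

/-- the second homotopy -/
noncomputable def hom2 (a b : ℝ) :
    ContinuousMap.Homotopy (gg a b) (ContinuousMap.const (Slit a b) (base a b)) where
  toFun p := ⟨((1 - (p.1 : ℝ) : ℝ) : ℂ) * ((gg a b p.2 : Slit a b) : ℂ)
      + (((p.1 : ℝ) : ℝ) : ℂ) * ((base a b : Slit a b) : ℂ), by
    apply slit_of_re
    have h1 : |a| + |b| + 1 ≤ ((gg a b p.2 : Slit a b) : ℂ).re := push_re a b p.2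
    have h2 : ((base a b : Slit a b) : ℂ).re = |a| + |b| + 1 := Complex.ofReal_re _
    have h3 : (((1 - (p.1 : ℝ) : ℝ) : ℂ) * ((gg a b p.2 : Slit a b) : ℂ)
      + (((p.1 : ℝ) : ℝ) : ℂ) * ((base a b : Slit a b) : ℂ)).re
        = (1 - (p.1 : ℝ)) * ((gg a b p.2 : Slit a b) : ℂ).re
          + (p.1 : ℝ) * ((base a b : Slit a b) : ℂ).re := by
      rw [Complex.add_re, Complex.re_ofReal_mul, Complex.re_ofReal_mul]
    rw [h3, h2]
    have h4 : 0 ≤ 1 - (p.1 : ℝ) := by linarith [p.1.2.2]
    nlinarith [mul_le_mul_of_nonneg_left h1 h4]⟩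
  continuous_toFun := by
    refine Continuous.subtype_mk ?_ _
    have h1 : Continuous fun p : unitInterval × Slit a b => ((gg a b p.2 : Slit a b) : ℂ) :=
      continuous_subtype_val.comp ((gg a b).continuous.comp continuous_snd)
    have h2 : Continuous fun p : unitInterval × Slit a b => (p.1 : ℝ) :=
      continuous_subtype_val.comp continuous_fst
    exact ((Complex.continuous_ofReal.comp (continuous_const.sub h2)).mul h1).add
      ((Complex.continuous_ofReal.comp h2).mul continuous_const)
  map_zero_left w := by
    apply Subtype.ext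
    simp
  map_one_left w := by
    apply Subtype.ext
    simp

theorem slit_contractible (a b : ℝ) : ContractibleSpace (Slit a b) := by
  rw [contractible_iff_id_nullhomotopic]
  exact ⟨base a b, ⟨(hom1 a b).trans (hom2 a b)⟩⟩

theorem slit_simplyConnected (a b : ℝ) : SimplyConnectedSpace (Slit a b) := by
  have := slit_contractible a b
  infer_instance

end Pool.Agent.TH111.Harm
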