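import Pool.Agent.TH630.Tor.Cx

set_option autoImplicit false

open scoped InnerProductSpace Topology Matrix CompactlySupported

noncomputable section

namespace Pool.Agent.TH630.Tor

open Pool.Agent.Helper993.FK

/-- block sum of two matrices -/
def blkSum {R : Type} [Zero R] {r s r' s' : ℕ} (A : Matrix (Fin r) (Fin r') R)
    (B : Matrix (Fin s) (Fin s') R) : Matrix (Fin (r + s)) (Fin (r' + s')) R :=
  (Matrix.fromBlocks A 0 0 B).submatrix finSumFinEquiv.symm finSumFinEquiv.symm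

namespace J1089

open MeasureTheory Polynomial

set_option linter.unusedSectionVars false

section finite
variable {Q : Type} [Group Q] [Fintype Q] [DecidableEq Q]

/-- the integral matrix of `rMul` -/
def mz {r : ℕ} (S : Matrix (Fin r) (Fin r) (MonoidAlgebra ℤ Q)) :
    Matrix (Fin r × Q) (Fin r × Q) ℤ :=
  Matrix.of fun q p => (S p.1 q.1).coeff (p.2⁻¹ * q.2)

theorem toMatrix_eq {r : ℕ} (SZ : Matrix (Fin r) (Fin r) (MonoidAlgebra ℤ Q)) :
    LinearMap.toMatrix (stdB Q r).toBasis (stdB Q r).toBasis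
        (rMul (SZ.map toQ) : L2Pow Q r →ₗ[ℂ] L2Pow Q r) = (mz SZ).map (Int.castRingHom ℂ) := by
  ext q p
  rw [LinearMap.toMatrix_apply]
  rw [OrthonormalBasis.coe_toBasis, ContinuousLinearMap.coe_coe, rMul_stdB]
  rw [map_sum, Finsupp.finsetSum_apply]
  simp only [map_smul, Finsupp.smul_apply, smul_eq_mul, Matrix.map_apply, mz, Matrix.of_apply]
  rw [Finset.sum_eq_single q]
  · rw [← OrthonormalBasis.coe_toBasis, Module.Basis.repr_self, Finsupp.single_eq_same, mul_one,
      toQ_coeff]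
    simp
  · intro q' _ hq'
    rw [← OrthonormalBasis.coe_toBasis, Module.Basis.repr_self, Finsupp.single_eq_of_ne hq'.symm,
      mul_zero]
  · simp

theorem package {r : ℕ} [NeZero r] (SZ : Matrix (Fin r) (Fin r) (MonoidAlgebra ℤ Q))
    (hS : 0 ≤ rMul (SZ.map toQ)) :
    ∃ (n : ℕ) (lam : Fin n → ℝ), (∀ k, 0 ≤ lam k) ∧
      (∀ h : ℝ → ℝ, traceVal unitVec (rMul (SZ.map toQ)) h
        = ∑ k, (1 / (Fintype.card Q : ℝ)) * h (lam k)) ∧
      ((mz SZ).map (Int.castRingHom ℂ)).charpoly = ∏ k, (X - C ((lam k : ℝ) : ℂ)) := by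
  have hfin : FiniteDimensional ℂ (L2Pow Q r) := (stdB Q r).toBasis.finiteDimensional_of_finite
  set S := SZ.map toQ with hSdef
  set T := rMul S with hTdef
  have hpos : T.IsPositive := (ContinuousLinearMap.nonneg_iff_isPositive T).mp hS
  have hT : (T : L2Pow Q r →ₗ[ℂ] L2Pow Q r).IsSymmetric := hpos.isSymmetric
  have hnt : Nontrivial (L2Pow Q r) := by
    refine ⟨unitVec 0, 0, ?_⟩
    intro h
    have h1 := norm_unitVec (G := Q) (r := r) 0
    rw [h] at h1
    simp at h1
  let U : Q → L2Pow Q r →L[ℂ] L2Pow Q r := fun q =>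
    (((stdB Q r).equiv (stdB Q r) (Equiv.prodCongr (Equiv.refl _)
      (Equiv.mulLeft q))).toContinuousLinearEquiv : L2Pow Q r →L[ℂ] L2Pow Q r)
  have hUb : ∀ q (p : Fin r × Q), U q (stdB Q r p) = stdB Q r (p.1, q * p.2) := by
    intro q p
    simp [U]
    rfl
  have hUi : ∀ q x y, ⟪U q x, U q y⟫_ℂ = ⟪x, y⟫_ℂ := by
    intro q x y
    exact ((stdB Q r).equiv (stdB Q r) _).inner_map_map x y
  have hUT : ∀ q, Commute T (U q) := by
    intro q
    have : (T ∘L U q) = (U q ∘L T) := by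
      apply ContinuousLinearMap.coe_injective
      apply (stdB Q r).toBasis.ext
      intro p
      simp only [OrthonormalBasis.coe_toBasis, ContinuousLinearMap.coe_coe,
        ContinuousLinearMap.comp_apply]
      rw [hUb, hTdef, rMul_stdB, rMul_stdB, map_sum]
      simp_rw [map_smul, hUb]
      refine (Fintype.sum_equiv (Equiv.prodCongr (Equiv.refl _) (Equiv.mulLeft q)) _ _ ?_).symm
      rintro ⟨j, y⟩
      simp
    exact this
  have htr := traceVal_finite (stdB Q r) T hT unitVec U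
    (fun q i => by rw [unitVec_stdB, hUb]; simp) hUi hUT
  have hnonneg : ∀ k, 0 ≤ hT.eigenvalues rfl k := by
    intro k
    apply eigenvalue_nonneg_of_nonneg (hT.hasEigenvalue_eigenvalues rfl k)
    intro x
    exact hpos.re_inner_nonneg_right x
  refine ⟨_, hT.eigenvalues rfl, hnonneg, fun h => htr h, ?_⟩
  have h2 := LinearMap.charpoly_toMatrix (T : L2Pow Q r →ₗ[ℂ] L2Pow Q r) (stdB Q r).toBasis
  have h3 := hT.charpoly_eq rfl
  rw [← toMatrix_eq, h2, h3]
  rfl

/-- the package, also in rank zero -/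
theorem package' {r : ℕ} (SZ : Matrix (Fin r) (Fin r) (MonoidAlgebra ℤ Q))
    (hS : 0 ≤ rMul (SZ.map toQ)) :
    ∃ (n : ℕ) (lam : Fin n → ℝ), (∀ k, 0 ≤ lam k) ∧
      (∀ h : ℝ → ℝ, traceVal unitVec (rMul (SZ.map toQ)) h
        = ∑ k, (1 / (Fintype.card Q : ℝ)) * h (lam k)) ∧
      ((mz SZ).map (Int.castRingHom ℂ)).charpoly = ∏ k, (X - C ((lam k : ℝ) : ℂ)) := by
  by_cases hr : r = 0
  · subst hr
    refine ⟨0, fun k => 0, fun k => le_refl _, fun h => ?_, ?_⟩
    · simp [traceVal]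
    · rw [Finset.univ_eq_empty, Finset.prod_empty]
      unfold Matrix.charpoly
      exact Matrix.det_isEmpty
  · have : NeZero r := ⟨hr⟩
    exact package SZ hS

/-- the sum of the logarithms of the roots of the characteristic polynomial -/
def lsum (p : ℂ[X]) : ℝ := (p.roots.map (fun z : ℂ => Real.log z.re)).sum

theorem lsum_mul {p q : ℂ[X]} (hp : p.Monic) (hq : q.Monic) : lsum (p * q) = lsum p + lsum q := by
  unfold lsum
  rw [Polynomial.roots_mul (hp.mul hq).ne_zero, Multiset.map_add, Multiset.sum_add]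

theorem lsum_prod {n : ℕ} (lam : Fin n → ℝ) :
    lsum (∏ k, (X - C ((lam k : ℝ) : ℂ))) = ∑ k, Real.log (lam k) := by
  unfold lsum
  have h := Polynomial.roots_multiset_prod_X_sub_C
    ((Finset.univ : Finset (Fin n)).val.map fun k => ((lam k : ℝ) : ℂ))
  rw [Multiset.map_map] at h
  have h2 : (∏ k, (X - C ((lam k : ℝ) : ℂ)) : ℂ[X])
      = (Multiset.map ((fun a => X - C a) ∘ fun k => ((lam k : ℝ) : ℂ))
        (Finset.univ : Finset (Fin n)).val).prod := rfl
  rw [h2, h, Multiset.map_map]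
  rfl

theorem spectral_eq {r n : ℕ} (T : L2Pow Q r →L[ℂ] L2Pow Q r) (lam : Fin n → ℝ)
    (h : ∀ h : ℝ → ℝ, traceVal unitVec T h = ∑ k, (1 / (Fintype.card Q : ℝ)) * h (lam k)) :
    spectralMeasure unitVec T = atomic (1 / (Fintype.card Q : ℝ)) lam := by
  unfold spectralMeasure
  apply MeasureTheory.Measure.ext_of_integral_eq_on_compactlySupported
  intro f
  rw [RealRMK.integral_rieszMeasure]
  refine Eq.trans ?_ ((integral_atomic (by positivity) _ f).2).symm
  exact h f

theorem log_atomic' {n : ℕ} {c : ℝ} (hc : 0 ≤ c) (lam : Fin n → ℝ) (hpos : ∀ i, 0 ≤ lam i) :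
    ∫ x in Set.Ioi (0 : ℝ), Real.log x ∂(atomic c lam) = ∑ i, c * Real.log (lam i) := by
  rw [← MeasureTheory.integral_indicator measurableSet_Ioi, (integral_atomic hc lam _).2]
  apply Finset.sum_congr rfl
  intro i _
  by_cases h : lam i = 0
  · rw [h]; simp
  · rw [Set.indicator_of_mem]
    exact lt_of_le_of_ne (hpos i) (Ne.symm h)

/-- the logarithm of the determinant -/
theorem log_fkDet {r : ℕ} (A : Matrix (Fin r) (Fin r) (MonoidAlgebra ℤ Q)) :
    Real.log (fkDet (rMul (A.map toQ)))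
      = 1 / 2 * ((1 / (Fintype.card Q : ℝ)) *
        lsum ((mz (A * adjZ A)).map (Int.castRingHom ℂ)).charpoly) := by
  have hS : 0 ≤ rMul ((A * adjZ A).map toQ) := by
    rw [mul_adjZ_toQ]; exact rMul_self_nonneg _
  obtain ⟨n, lam, h0, h, hc⟩ := package' _ hS
  have h1 := spectral_eq _ lam h
  have e : specMeas unitVec (rMul (A.map toQ)) = atomic (1 / (Fintype.card Q : ℝ)) lam := by
    unfold specMeas
    rw [adjoint_comp_rMul, ← mul_adjZ_toQ, h1]
  have h2 : MeasureTheory.IntegrableOn Real.log (Set.Ioi 0)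
      (specMeas unitVec (rMul (A.map toQ))) := by
    rw [e]
    exact (integral_atomic (by positivity) _ _).1.integrableOn
  unfold fkDet detOf
  rw [if_pos h2, Real.log_exp, e, log_atomic' (by positivity) lam h0, hc, lsum_prod,
    ← Finset.mul_sum]

end finite

section blk
variable {R : Type} {r s r' s' r'' s'' : ℕ}

theorem blkSum_mul [NonUnitalNonAssocSemiring R] (A : Matrix (Fin r) (Fin r') R)
    (B : Matrix (Fin s) (Fin s') R) (A' : Matrix (Fin r') (Fin r'') R)
    (B' : Matrix (Fin s') (Fin s'') R) :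
    blkSum A B * blkSum A' B' = blkSum (A * A') (B * B') := by
  unfold blkSum
  rw [Matrix.submatrix_mul_equiv, Matrix.fromBlocks_multiply]
  simp

theorem blkSum_adj {G : Type} [Group G] (A : Matrix (Fin r) (Fin r') (MonoidAlgebra ℤ G))
    (B : Matrix (Fin s) (Fin s') (MonoidAlgebra ℤ G)) :
    adjZ (blkSum A B) = blkSum (adjZ A) (adjZ B) := by
  unfold adjZ blkSum
  rw [Matrix.transpose_submatrix, Matrix.fromBlocks_transpose, ← Matrix.submatrix_map,
    Matrix.fromBlocks_map]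
  have h0 : ((0 : Matrix (Fin r) (Fin s') (MonoidAlgebra ℤ G))ᵀ).map
      (MonoidAlgebra.mapDomain fun g : G => g⁻¹) = 0 := by
    ext1 i j
    simp [MonoidAlgebra.mapDomain]
  have h1 : ((0 : Matrix (Fin s) (Fin r') (MonoidAlgebra ℤ G))ᵀ).map
      (MonoidAlgebra.mapDomain fun g : G => g⁻¹) = 0 := by
    ext1 i j
    simp [MonoidAlgebra.mapDomain]
  rw [h0, h1]

end blk

section
variable {Q : Type} [Group Q] [Fintype Q] [DecidableEq Q] {r s : ℕ}

/-- the equivalence of index sets -/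
def eqv (Q : Type) (r s : ℕ) : Fin (r + s) × Q ≃ (Fin r × Q) ⊕ (Fin s × Q) :=
  (Equiv.prodCongr finSumFinEquiv.symm (Equiv.refl Q)).trans (Equiv.sumProdDistrib _ _ _)

theorem mz_blk (A : Matrix (Fin r) (Fin r) (MonoidAlgebra ℤ Q))
    (B : Matrix (Fin s) (Fin s) (MonoidAlgebra ℤ Q)) :
    Matrix.reindex (eqv Q r s) (eqv Q r s) (mz (blkSum A B))
      = Matrix.fromBlocks (mz A) 0 0 (mz B) := by
  ext p q
  rcases p with ⟨i, x⟩ | ⟨i, x⟩ <;> rcases q with ⟨j, y⟩ | ⟨j, y⟩ <;>
    simp [eqv, mz, blkSum]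

theorem charpoly_blk (A : Matrix (Fin r) (Fin r) (MonoidAlgebra ℤ Q))
    (B : Matrix (Fin s) (Fin s) (MonoidAlgebra ℤ Q)) :
    ((mz (blkSum A B)).map (Int.castRingHom ℂ)).charpoly
      = ((mz A).map (Int.castRingHom ℂ)).charpoly * ((mz B).map (Int.castRingHom ℂ)).charpoly := by
  rw [← Matrix.charpoly_reindex (eqv Q r s)]
  have h : Matrix.reindex (eqv Q r s) (eqv Q r s) ((mz (blkSum A B)).map (Int.castRingHom ℂ))
      = (Matrix.reindex (eqv Q r s) (eqv Q r s) (mz (blkSum A B))).map (Int.castRingHom ℂ) := rfl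
  rw [h, mz_blk, Matrix.fromBlocks_map]
  have h0 : (0 : Matrix (Fin r × Q) (Fin s × Q) ℤ).map (Int.castRingHom ℂ) = 0 := by
    ext; simp
  have h0' : (0 : Matrix (Fin s × Q) (Fin r × Q) ℤ).map (Int.castRingHom ℂ) = 0 := by
    ext; simp
  rw [h0, h0', Matrix.charpoly_fromBlocks_zero₁₂]

end

end J1089

section
variable {Q : Type} [Group Q] [Finite Q] {r s : ℕ}

/-- over a finite group the logarithm of the Fuglede-Kadison determinant is additive -/
theorem log_fkDet_blkSum (A : Matrix (Fin r) (Fin r) (MonoidAlgebra ℤ Q))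
    (B : Matrix (Fin s) (Fin s) (MonoidAlgebra ℤ Q)) :
    Real.log (fkDet (rMul ((blkSum A B).map toQ)))
      = Real.log (fkDet (rMul (A.map toQ))) + Real.log (fkDet (rMul (B.map toQ))) := by
  classical
  have := Fintype.ofFinite Q
  rw [J1089.log_fkDet, J1089.log_fkDet, J1089.log_fkDet, J1089.blkSum_adj, J1089.blkSum_mul,
    J1089.charpoly_blk, J1089.lsum_mul (Matrix.charpoly_monic _) (Matrix.charpoly_monic _)]
  ring

end

end Pool.Agent.TH630.Tor
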