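import Pool.Agent.TH28.FL.Dat

/-!
# A nilpotent element lies in the nilradical of a datum
-/

set_option autoImplicit false

universe u v

namespace Pool.Agent.TH111.J1777

open Module Pool.Agent.TH28.FL

section basic

variable {K : Type u} [Field K] {L : Type v} [LieRing L] [LieAlgebra K L]

theorem lie_mem_dg {w x y : L} {i j : ℤ} (hx : x ∈ dg K w i) (hy : y ∈ dg K w j) :
    ⁅x, y⁆ ∈ dg K w (i + j) := by
  rw [mem_dg] at *
  rw [leibniz_lie, hx, hy, smul_lie, lie_smul, ← add_smul, Int.cast_add]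

/-- the Killing form pairs `dg i` and `dg j` trivially unless `i + j = 0` -/
theorem killing_dg [CharZero K] {w x y : L} {i j : ℤ} (hij : i + j ≠ 0)
    (hx : x ∈ dg K w i) (hy : y ∈ dg K w j) : killingForm K L x y = 0 := by
  have h := LieModule.traceForm_apply_lie_apply K L L x w y
  have h2 : killingForm K L ⁅w, x⁆ y = - killingForm K L x ⁅w, y⁆ := by
    rw [← lie_skew, map_neg, LinearMap.neg_apply]
    congr 1
  rw [mem_dg] at hx hy
  rw [hx, hy, map_smul, map_smul, LinearMap.smul_apply, smul_eq_mul, smul_eq_mul] at h2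
  have h3 : ((i : K) + (j : K)) * killingForm K L x y = 0 := by linear_combination h2
  rcases mul_eq_zero.1 h3 with h4 | h4
  · exfalso
    apply hij
    exact_mod_cast h4
  · exact h4

theorem exists_pair [CharZero K] [FiniteDimensional K L] [LieAlgebra.IsKilling K L] {w : L}
    (htop : ⨆ j : ℤ, dg K w j = ⊤) {j : ℤ} {e : L} (he : e ∈ dg K w j) (he0 : e ≠ 0) :
    ∃ f ∈ dg K w (-j), killingForm K L e f ≠ 0 := by
  by_contra hcon
  push Not at hcon
  have hle : (⊤ : Submodule K L) ≤ LinearMap.ker (killingForm K L e) := by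
    rw [← htop]
    refine iSup_le fun i x hx => ?_
    rw [LinearMap.mem_ker]
    by_cases hij : j + i = 0
    · have : i = -j := by omega
      subst this
      exact hcon x hx
    · exact killing_dg hij he hx
  apply he0
  have h1 : killingForm K L e = 0 := by
    ext x
    exact hle (Submodule.mem_top)
  have h2 := LieAlgebra.IsKilling.ker_killingForm_eq_bot K L
  rw [← Submodule.mem_bot K, ← h2, LinearMap.mem_ker]
  exact h1

theorem dg_map (ψ : L ≃ₗ⁅K⁆ L) (w : L) (j : ℤ) :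
    dg K (ψ w) j = (dg K w j).map (ψ : L →ₗ[K] L) := by
  ext x
  constructor
  · intro hx
    refine ⟨ψ.symm x, ?_, by simp⟩
    rw [SetLike.mem_coe, mem_dg]
    rw [mem_dg] at hx
    apply ψ.injective
    change ψ ⁅w, ψ.symm x⁆ = ψ ((j : K) • ψ.symm x)
    rw [LieEquiv.map_lie, map_smul, LieEquiv.apply_symm_apply, hx]
  · rintro ⟨x, hx, rfl⟩
    rw [SetLike.mem_coe, mem_dg] at hx
    rw [mem_dg]
    change ⁅ψ w, ψ x⁆ = (j : K) • ψ x
    rw [← LieEquiv.map_lie, hx, map_smul]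

theorem nn_map (ψ : L ≃ₗ⁅K⁆ L) (w : L) :
    nn K (ψ w) = (nn K w).map (ψ : L →ₗ[K] L) := by
  unfold nn
  simp only [Submodule.map_iSup, dg_map]

theorem dat_map (ψ : L ≃ₗ⁅K⁆ L) {w : L} {M : ℤ} (h : Dat K w M) : Dat K (ψ w) M where
  pos := h.pos
  top := by
    simp only [dg_map]
    rw [← Submodule.map_iSup, h.top, Submodule.map_top, LinearMap.range_eq_top]
    exact ψ.surjective
  gap := by
    intro j hj hjM
    rw [dg_map, h.gap j hj hjM, Submodule.map_bot]
  one := by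
    intro j hj
    rw [dg_map]
    refine le_trans ?_ (h.one j hj)
    exact (LinearEquiv.finrank_map_eq ψ.toLinearEquiv (dg K w j)).le
  comm := by
    intro x hx y hy
    rw [dg_map] at hx hy
    obtain ⟨x, hx, rfl⟩ := hx
    obtain ⟨y, hy, rfl⟩ := hy
    change ⁅ψ x, ψ y⁆ = 0
    rw [← LieEquiv.map_lie, h.comm x hx y hy, map_zero]
  gen := by
    intro j hj z hz
    rw [dg_map] at hz
    obtain ⟨z, hz, rfl⟩ := hz
    have h1 := h.gen j hj z hz
    have h2 := Submodule.mem_map_of_mem (f := (ψ : L →ₗ[K] L)) h1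
    rw [Submodule.map_span] at h2
    refine Submodule.span_mono ?_ h2
    rintro _ ⟨_, ⟨c, hc1, hc2, hc3, x, hx, y, hy, rfl⟩, rfl⟩
    refine ⟨c, hc1, hc2, hc3, ψ x, ?_, ψ y, ?_, ?_⟩
    · rw [dg_map]; exact ⟨x, hx, rfl⟩
    · rw [dg_map]; exact ⟨y, hy, rfl⟩
    · exact LieEquiv.map_lie ψ x y

/-- an element commuting with `w` acts on each `dg K w j` -/
theorem lie_stable {w s x : L} {j : ℤ} (hs : s ∈ dg K w 0) (hx : x ∈ dg K w j) :
    ⁅s, x⁆ ∈ dg K w j := by
  have := lie_mem_dg hs hx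
  rwa [zero_add] at this

theorem exists_eig [FiniteDimensional K L] {w : L} {M : ℤ} (h : Dat K w M) {s : L}
    (hs : s ∈ dg K w 0) (j : ℤ) :
    ∃ μ : K, ∀ x ∈ dg K w j, ⁅s, x⁆ = μ • x := by
  by_cases hj : j = 0
  · subst hj
    refine ⟨0, fun x hx => ?_⟩
    rw [zero_smul]
    exact h.comm s hs x hx
  · have h1 := h.one j hj
    rw [finrank_le_one_iff] at h1
    obtain ⟨⟨v, hv⟩, hv2⟩ := h1
    obtain ⟨μ, hμ⟩ := hv2 ⟨⁅s, v⁆, lie_stable hs hv⟩
    refine ⟨μ, fun x hx => ?_⟩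
    obtain ⟨t, ht⟩ := hv2 ⟨x, hx⟩
    have hμ' : μ • v = ⁅s, v⁆ := congrArg Subtype.val hμ
    have ht' : t • v = x := congrArg Subtype.val ht
    rw [← ht', lie_smul, ← hμ', smul_comm]

/-- the space of eigenvectors of `ad s` -/
def eg (s : L) (μ : K) : Submodule K L := Module.End.eigenspace (LieAlgebra.ad K L s) μ

theorem mem_eg {s x : L} {μ : K} : x ∈ eg s μ ↔ ⁅s, x⁆ = μ • x := by
  unfold eg
  rw [Module.End.mem_eigenspace_iff, LieAlgebra.ad_apply]

/-- the sum of the eigenspaces with eigenvalue in `A` -/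
def sg (s : L) (A : Set K) : Submodule K L := ⨆ μ ∈ A, eg s μ

theorem sg_disjoint (s : L) {A B : Set K} (h : Disjoint A B) {x : L} (hA : x ∈ sg s A)
    (hB : x ∈ sg s B) : x = 0 := by
  have h1 : iSupIndep (fun μ : K => eg s μ) :=
    Module.End.eigenspaces_iSupIndep (LieAlgebra.ad K L s)
  have h2 : Disjoint (sg s A) (sg s B) := h1.disjoint_biSup_biSup h
  exact Submodule.disjoint_def.1 h2 x hA hB

theorem sg_le {s : L} {A : Set K} {μ : K} (hμ : μ ∈ A) : eg s μ ≤ sg s A :=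
  le_iSup₂_of_le (f := fun (μ : K) (_ : μ ∈ A) => eg s μ) μ hμ le_rfl

/-- the eigenvalues are additive -/
theorem eig_add {s x y : L} {a b : K} (hx : ⁅s, x⁆ = a • x) (hy : ⁅s, y⁆ = b • y) :
    ⁅s, ⁅x, y⁆⁆ = (a + b) • ⁅x, y⁆ := by
  rw [leibniz_lie, hx, hy, smul_lie, lie_smul, ← add_smul]

theorem eig_pair {s x y : L} {a b : K} (hx : ⁅s, x⁆ = a • x) (hy : ⁅s, y⁆ = b • y)
    (h0 : killingForm K L x y ≠ 0) : b = -a := by
  have h := LieModule.traceForm_apply_lie_apply K L L x s y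
  have h2 : killingForm K L ⁅s, x⁆ y = - killingForm K L x ⁅s, y⁆ := by
    rw [← lie_skew, map_neg, LinearMap.neg_apply]
    congr 1
  rw [hx, hy, map_smul, map_smul, LinearMap.smul_apply, smul_eq_mul, smul_eq_mul] at h2
  have h3 : (a + b) * killingForm K L x y = 0 := by linear_combination h2
  rcases mul_eq_zero.1 h3 with h4 | h4
  · linear_combination h4
  · exact absurd h4 h0

theorem eg_eq_dg (w : L) (j : ℤ) : eg w (j : K) = dg K w j := by
  ext x
  rw [mem_eg, mem_dg]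

theorem dg_disjoint [CharZero K] (w : L) {A B : Set ℤ} (h : Disjoint A B) {x : L}
    (hA : x ∈ ⨆ j ∈ A, dg K w j) (hB : x ∈ ⨆ j ∈ B, dg K w j) : x = 0 := by
  have h1 : iSupIndep (fun μ : K => eg w μ) :=
    Module.End.eigenspaces_iSupIndep (LieAlgebra.ad K L w)
  have h2 : iSupIndep (fun j : ℤ => dg K w j) := by
    have h3 := h1.comp (f := fun j : ℤ => (j : K)) Int.cast_injective
    have h4 : (fun μ : K => eg w μ) ∘ (fun j : ℤ => (j : K)) = fun j : ℤ => dg K w j := by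
      funext j
      exact eg_eq_dg w j
    rwa [h4] at h3
  have h3 : Disjoint (⨆ j ∈ A, dg K w j) (⨆ j ∈ B, dg K w j) := h2.disjoint_biSup_biSup h
  exact Submodule.disjoint_def.1 h3 x hA hB

end basic

section main

variable {K : Type u} [Field K] [CharZero K] {L : Type v} [LieRing L] [LieAlgebra K L]
  [FiniteDimensional K L] [LieAlgebra.IsKilling K L]

omit [CharZero K] in
/-- `ad y` nilpotent implies `y ∈ [L, y]` -/
theorem exists_h {y : L} (hy : IsNilpotent (LieAlgebra.ad K L y)) : ∃ h : L, ⁅h, y⁆ = y := by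
  have hnd : (killingForm K L).Nondegenerate := LieAlgebra.IsKilling.killingForm_nondegenerate K L
  have hrefl : (killingForm K L).IsRefl := (LieModule.traceForm_isSymm K L L).isRefl
  set R : Submodule K L := LinearMap.range (LieAlgebra.ad K L y) with hR
  have h1 : LinearMap.BilinForm.orthogonal (killingForm K L)
      (LinearMap.BilinForm.orthogonal (killingForm K L) R) = R :=
    LinearMap.BilinForm.orthogonal_orthogonal hnd hrefl R
  have h2 : y ∈ LinearMap.BilinForm.orthogonal (killingForm K L)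
      (LinearMap.BilinForm.orthogonal (killingForm K L) R) := by
    rw [LinearMap.BilinForm.mem_orthogonal_iff]
    intro z hz
    rw [LinearMap.BilinForm.mem_orthogonal_iff] at hz
    have h3 : ⁅z, y⁆ = 0 := by
      have h4 : killingForm K L ⁅z, y⁆ = 0 := by
        ext x
        have h5 := hz ⁅y, x⁆ ⟨x, rfl⟩
        have h6 := LieModule.traceForm_apply_lie_apply K L L z y x
        have h7 : killingForm K L ⁅y, x⁆ z = killingForm K L z ⁅y, x⁆ :=
          LieModule.traceForm_comm K L L _ _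
        have h8 : killingForm K L ⁅y, x⁆ z = 0 := h5
        rw [LinearMap.zero_apply]
        calc killingForm K L ⁅z, y⁆ x = killingForm K L z ⁅y, x⁆ := h6
          _ = 0 := by rw [← h7, h8]
      have h6 := LieAlgebra.IsKilling.ker_killingForm_eq_bot K L
      rw [← Submodule.mem_bot K, ← h6, LinearMap.mem_ker]
      exact h4
    have h7 : Commute (LieAlgebra.ad K L z) (LieAlgebra.ad K L y) := by
      ext x
      have h8 := leibniz_lie z y x
      rw [h3, zero_lie, zero_add] at h8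
      exact h8
    have h8 : IsNilpotent (LieAlgebra.ad K L z * LieAlgebra.ad K L y) :=
      h7.isNilpotent_mul_left hy
    change LinearMap.trace K L (LieAlgebra.ad K L z * LieAlgebra.ad K L y) = 0
    exact (LinearMap.isNilpotent_trace_of_isNilpotent h8).eq_zero
  rw [h1, hR] at h2
  obtain ⟨h, hh⟩ := h2
  refine ⟨-h, ?_⟩
  rw [neg_lie, lie_skew]
  exact hh

end main

theorem exists_phi (K : Type u) [Field K] [CharZero K] : ∃ φ : K →+ ℚ, φ 1 = 1 := by
  have hinj : LinearMap.ker (Algebra.linearMap ℚ K) = ⊥ := by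
    rw [LinearMap.ker_eq_bot]
    exact (algebraMap ℚ K).injective
  obtain ⟨g, hg⟩ := (Algebra.linearMap ℚ K).exists_leftInverse_of_injective hinj
  refine ⟨g.toAddMonoidHom, ?_⟩
  have h := congrArg (fun f : ℚ →ₗ[ℚ] ℚ => f 1) hg
  simpa using h

/-- the step: if a simple line has a negative eigenvalue then the dimension increases -/
theorem step (hR : S_REF.{u, v}) {K : Type u} [Field K] [CharZero K] {L : Type v} [LieRing L]
    [LieAlgebra K L] [FiniteDimensional K L] [LieAlgebra.IsKilling K L] (φ : K →+ ℚ)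
    {w s : L} {M : ℤ} (hD : Dat K w M) (hs : s ∈ dg K w 0) {c : ℤ} (hc1 : M ≤ c)
    (hc2 : c < 2 * M) {e : L} (he : e ∈ dg K w c) (he0 : e ≠ 0) {μ : K} (hμ : ⁅s, e⁆ = μ • e)
    (hneg : φ μ < 0) :
    ∃ w' : L, Dat K w' M ∧ s ∈ dg K w' 0 ∧
      finrank K (nn K w ⊓ sg s {μ : K | 0 < φ μ} : Submodule K L) <
      finrank K (nn K w' ⊓ sg s {μ : K | 0 < φ μ} : Submodule K L) := by
  have hcpos : 0 < c := lt_of_lt_of_le hD.pos hc1
  obtain ⟨f, hf, hef⟩ := exists_pair hD.top he he0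
  have hf0 : f ≠ 0 := by
    rintro rfl
    exact hef (by rw [map_zero])
  obtain ⟨ν, hν⟩ := exists_eig hD hs (-c)
  have hνf := hν f hf
  have hνμ : ν = -μ := eig_pair hμ hνf hef
  obtain ⟨ψ, -, hψ0, hψn⟩ := hR K L w M hD c hc1 hc2 f hf hf0
  refine ⟨ψ w, dat_map ψ hD, ?_, ?_⟩
  · rw [dg_map, hψ0]; exact hs
  rw [nn_map, hψn]
  set A : Submodule K L := ⨆ j : ℤ, ⨆ _ : 0 < j ∧ j ≠ c, dg K w j with hA
  set P : Submodule K L := sg s {μ : K | 0 < φ μ} with hP
  set Q : Submodule K L := sg s {μ : K | φ μ ≤ 0} with hQ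
  have hPQ : Disjoint {μ : K | 0 < φ μ} {μ : K | φ μ ≤ 0} := by
    rw [Set.disjoint_left]
    intro a ha hb
    exact absurd (show 0 < φ a from ha) (not_lt.2 hb)
  have hfP : f ∈ P := by
    have : eg s ν ≤ P := by
      refine sg_le ?_
      change 0 < φ ν
      rw [hνμ, map_neg]
      linarith
    exact this (mem_eg.2 hνf)
  have hfA : f ∉ A := by
    intro hfA
    apply hf0
    refine dg_disjoint w (A := {j | 0 < j ∧ j ≠ c}) (B := {-c}) ?_ hfA ?_
    · rw [Set.disjoint_left]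
      rintro a ⟨ha, -⟩ hb
      rw [Set.mem_singleton_iff] at hb
      omega
    · simpa using hf
  -- `A` is the sum of its parts in `P` and `Q`
  have hAPQ : A ≤ (A ⊓ P) ⊔ (A ⊓ Q) := by
    rw [hA]
    refine iSup₂_le fun j hj => ?_
    rw [← hA]
    have hjA : dg K w j ≤ A := by
      rw [hA]
      exact le_iSup₂_of_le (f := fun (j : ℤ) (_ : 0 < j ∧ j ≠ c) => dg K w j) j hj le_rfl
    obtain ⟨ρ, hρ⟩ := exists_eig hD hs j
    by_cases h0 : 0 < φ ρ
    · refine le_trans ?_ le_sup_left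
      refine le_inf hjA fun x hx => ?_
      exact sg_le (A := {μ : K | 0 < φ μ}) h0 (mem_eg.2 (hρ x hx))
    · refine le_trans ?_ le_sup_right
      refine le_inf hjA fun x hx => ?_
      exact sg_le (A := {μ : K | φ μ ≤ 0}) (not_lt.1 h0) (mem_eg.2 (hρ x hx))
  have hcQ : dg K w c ≤ Q := by
    obtain ⟨ρ, hρ⟩ := exists_eig hD hs c
    have h1 : ρ = μ := by
      have h2 := hρ e he
      rw [hμ] at h2
      have h3 : (μ - ρ) • e = 0 := by rw [sub_smul, h2, sub_self]
      rcases smul_eq_zero.1 h3 with h4 | h4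
      · exact (sub_eq_zero.1 h4).symm
      · exact absurd h4 he0
    intro x hx
    refine sg_le (A := {μ : K | φ μ ≤ 0}) ?_ (mem_eg.2 (hρ x hx))
    rw [h1]
    exact hneg.le
  have hnn : nn K w ≤ A ⊔ dg K w c := by
    unfold nn
    refine iSup₂_le fun j hj => ?_
    by_cases hjc : j = c
    · subst hjc
      exact le_sup_right
    · refine le_trans ?_ le_sup_left
      rw [hA]
      exact le_iSup₂_of_le (f := fun (j : ℤ) (_ : 0 < j ∧ j ≠ c) => dg K w j) j ⟨hj, hjc⟩ le_rfl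
  have hle : nn K w ⊓ P ≤ A ⊓ P := by
    rintro x ⟨hx1, hx2⟩
    obtain ⟨a, ha, b, hb, rfl⟩ := Submodule.mem_sup.1 (hnn hx1)
    obtain ⟨a1, ha1, a2, ha2, rfl⟩ := Submodule.mem_sup.1 (hAPQ ha)
    have h1 : a2 + b ∈ P := by
      have h2 := P.sub_mem hx2 ha1.2
      have h3 : a1 + a2 + b - a1 = a2 + b := by abel
      rwa [h3] at h2
    have h2 : a2 + b ∈ Q := Q.add_mem ha2.2 (hcQ hb)
    have h3 : a2 + b = 0 := sg_disjoint s hPQ h1 h2
    rw [add_assoc, h3, add_zero]
    exact ha1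
  have hlt : A ⊓ P < (A ⊔ Submodule.span K {f}) ⊓ P := by
    refine lt_of_le_of_ne (inf_le_inf_right P le_sup_left) ?_
    intro heq
    have hfm : f ∈ (A ⊔ Submodule.span K {f}) ⊓ P :=
      ⟨Submodule.mem_sup_right (Submodule.mem_span_singleton_self f), hfP⟩
    rw [← heq] at hfm
    exact hfA hfm.1
  exact Submodule.finrank_lt_finrank_of_lt (lt_of_le_of_lt hle hlt)

theorem dat2 (hR : Pool.Agent.TH28.FL.S_REF.{u,v}) (hJ : Pool.Agent.TH28.FL.S_JORD.{u,v})
    (h3 : Pool.Agent.TH28.FL.S_DAT3.{u,v}) : Pool.Agent.TH28.FL.S_DAT2.{u,v} := by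
  intro K _ _ _ L _ _ _ _ y hy
  obtain ⟨h, hh⟩ := exists_h hy
  obtain ⟨s, n, -, -, hss, -, hsy⟩ := hJ K L h
  have hsy1 : ⁅s, y⁆ = (1 : K) • y := hsy y 1 (by rw [hh, one_smul])
  obtain ⟨w0, M, hD0, hs0⟩ := h3 K L s hss
  obtain ⟨φ, hφ⟩ := exists_phi K
  -- choose a datum with maximal dimension
  set S : Set ℕ := {k | ∃ w : L, Dat K w M ∧ s ∈ dg K w 0 ∧
    finrank K (nn K w ⊓ sg s {μ : K | 0 < φ μ} : Submodule K L) = k} with hS
  have hne : S.Nonempty := ⟨_, w0, hD0, hs0, rfl⟩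
  have hbdd : BddAbove S := by
    refine ⟨finrank K L, ?_⟩
    rintro k ⟨w, -, -, rfl⟩
    exact Submodule.finrank_le _
  obtain ⟨w, hD, hs, hk⟩ := Nat.sSup_mem hne hbdd
  have hmax : ∀ w' : L, Dat K w' M → s ∈ dg K w' 0 →
      finrank K (nn K w' ⊓ sg s {μ : K | 0 < φ μ} : Submodule K L) ≤
      finrank K (nn K w ⊓ sg s {μ : K | 0 < φ μ} : Submodule K L) := by
    intro w' h1 h2
    rw [hk]
    exact le_csSup hbdd ⟨w', h1, h2, rfl⟩
  have hlam : ∀ j : ℤ, ∃ μ : K, ∀ x ∈ dg K w j, ⁅s, x⁆ = μ • x := exists_eig hD hs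
  choose lam hlam using hlam
  have huniq : ∀ j : ℤ, ∀ x ∈ dg K w j, x ≠ 0 → ∀ μ : K, ⁅s, x⁆ = μ • x → lam j = μ := by
    intro j x hx hx0 μ hμ
    have h2 := hlam j x hx
    rw [hμ] at h2
    have h3 : (μ - lam j) • x = 0 := by rw [sub_smul, h2, sub_self]
    rcases smul_eq_zero.1 h3 with h4 | h4
    · exact (sub_eq_zero.1 h4).symm
    · exact absurd h4 hx0
  -- simple lines
  have hsimple : ∀ c : ℤ, M ≤ c → c < 2 * M → dg K w c ≠ ⊥ → 0 ≤ φ (lam c) := by
    intro c hc1 hc2 hc3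
    by_contra hneg
    push Not at hneg
    obtain ⟨e, he, he0⟩ := Submodule.exists_mem_ne_zero_of_ne_bot hc3
    obtain ⟨w', hw1, hw2, hw3⟩ := step hR φ hD hs hc1 hc2 he he0 (hlam c e he) hneg
    exact absurd (hmax w' hw1 hw2) (not_le.2 hw3)
  have hpos : ∀ k : ℕ, ∀ j : ℤ, 0 < j → j.toNat = k → dg K w j ≠ ⊥ → 0 ≤ φ (lam j) := by
    intro k
    induction k using Nat.strong_induction_on with
    | _ k ih =>
      intro j hj hjk hbot
      by_cases h1 : j < M
      · exact absurd (hD.gap j hj.ne' (by rwa [abs_of_pos hj])) hbot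
      by_cases h2 : j < 2 * M
      · exact hsimple j (not_lt.1 h1) h2 hbot
      obtain ⟨x, hx, hx0⟩ := Submodule.exists_mem_ne_zero_of_ne_bot hbot
      have hgen := hD.gen j (by rw [abs_of_pos hj]; exact not_lt.1 h2) x hx
      have hex : ∃ z, (∃ c : ℤ, M ≤ |c| ∧ |c| < 2 * M ∧ 0 < c * j ∧
          ∃ x ∈ dg K w c, ∃ y ∈ dg K w (j - c), z = ⁅x, y⁆) ∧ z ≠ 0 := by
        by_contra hcon
        push Not at hcon
        apply hx0
        have : Submodule.span K {z | ∃ c : ℤ, M ≤ |c| ∧ |c| < 2 * M ∧ 0 < c * j ∧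
          ∃ x ∈ dg K w c, ∃ y ∈ dg K w (j - c), z = ⁅x, y⁆} ≤ ⊥ := by
          rw [Submodule.span_le]
          intro z hz
          exact hcon z hz
        exact (Submodule.mem_bot K).1 (this hgen)
      obtain ⟨z, ⟨c, hc1, hc2, hc3, a, ha, b, hb, rfl⟩, hz0⟩ := hex
      have hcpos : 0 < c := (pos_iff_pos_of_mul_pos hc3).2 hj
      rw [abs_of_pos hcpos] at hc1 hc2
      have hz : ⁅a, b⁆ ∈ dg K w j := by
        have := lie_mem_dg ha hb
        rwa [add_sub_cancel] at this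
      have hsum : lam j = lam c + lam (j - c) :=
        huniq j _ hz hz0 _ (eig_add (hlam c a ha) (hlam (j - c) b hb))
      have ha0 : a ≠ 0 := by rintro rfl; exact hz0 (zero_lie b)
      have hb0 : b ≠ 0 := by rintro rfl; exact hz0 (lie_zero a)
      have hcb : dg K w c ≠ ⊥ := fun hbt => ha0 (by rw [hbt] at ha; exact (Submodule.mem_bot K).1 ha)
      have hjcb : dg K w (j - c) ≠ ⊥ :=
        fun hbt => hb0 (by rw [hbt] at hb; exact (Submodule.mem_bot K).1 hb)
      have h5 : 0 ≤ φ (lam c) := hsimple c hc1 hc2 hcb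
      have h6 : 0 ≤ φ (lam (j - c)) := ih (j - c).toNat (by omega) (j - c) (by omega) rfl hjcb
      rw [hsum, map_add]
      exact add_nonneg h5 h6
  have hnonpos : ∀ j : ℤ, j ≤ 0 → dg K w j ≠ ⊥ → φ (lam j) ≤ 0 := by
    intro j hj hbot
    obtain ⟨x, hx, hx0⟩ := Submodule.exists_mem_ne_zero_of_ne_bot hbot
    rcases hj.lt_or_eq with hj | hj
    · obtain ⟨f, hf, hxf⟩ := exists_pair hD.top hx hx0
      have hf0 : f ≠ 0 := by rintro rfl; exact hxf (by rw [map_zero])
      have hfb : dg K w (-j) ≠ ⊥ :=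
        fun hbt => hf0 (by rw [hbt] at hf; exact (Submodule.mem_bot K).1 hf)
      have h1 := hpos _ (-j) (by omega) rfl hfb
      have h2 : lam (-j) = - lam j := eig_pair (hlam j x hx) (hlam (-j) f hf) hxf
      rw [h2, map_neg] at h1
      linarith
    · subst hj
      have h1 : lam 0 = 0 := huniq 0 x hx hx0 0 (by rw [zero_smul]; exact hD.comm s hs x hx)
      rw [h1, map_zero]
  refine ⟨w, M, hD, ?_⟩
  have htop : (⊤ : Submodule K L) ≤ (nn K w ⊓ sg s {(1 : K)}) ⊔ sg s {μ : K | μ ≠ 1} := by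
    rw [← hD.top]
    refine iSup_le fun j => ?_
    by_cases hbot : dg K w j = ⊥
    · rw [hbot]; exact bot_le
    by_cases h1 : lam j = 1
    · refine le_trans ?_ le_sup_left
      have hj : 0 < j := by
        by_contra hj
        have h2 := hnonpos j (not_lt.1 hj) hbot
        rw [h1, hφ] at h2
        linarith
      refine le_inf ?_ ?_
      · unfold nn
        exact le_iSup₂_of_le (f := fun (j : ℤ) (_ : 0 < j) => dg K w j) j hj le_rfl
      · intro x hx
        exact sg_le (A := {(1 : K)}) (Set.mem_singleton _) (mem_eg.2 (h1 ▸ hlam j x hx))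
    · refine le_trans ?_ le_sup_right
      intro x hx
      exact sg_le (A := {μ : K | μ ≠ 1}) h1 (mem_eg.2 (hlam j x hx))
  obtain ⟨a, ha, b, hb, hab⟩ := Submodule.mem_sup.1 (htop (Submodule.mem_top (x := y)))
  have hy1 : y ∈ sg s {(1 : K)} := sg_le (A := {(1 : K)}) (Set.mem_singleton _) (mem_eg.2 hsy1)
  have hb1 : b ∈ sg s {(1 : K)} := by
    have : b = y - a := by rw [← hab]; abel
    rw [this]
    exact Submodule.sub_mem _ hy1 ha.2
  have hb0 : b = 0 := by
    refine sg_disjoint s ?_ hb1 hb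
    rw [Set.disjoint_left]
    intro t ht1 ht2
    exact ht2 ht1
  rw [← hab, hb0, add_zero]
  exact ha.1

end Pool.Agent.TH111.J1777
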