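import Pool.Agent.TH111.J2343c
import Pool.Agent.TH209.J2153
import Pool.Agent.TH359.J2342

set_option autoImplicit false

open Finset MeasureTheory ProbabilityTheory Filter Topology
open scoped ENNReal NNReal

namespace Pool.Agent.TH111.IHG7

open Pool.Agent.TH974.IH

theorem GM (D m : ℕ) (hD : 1 ≤ D) (hm : 4 ≤ m) :
    ∃ x0 ∈ Fc (D + 1) (KK m), ∀ x ∈ Fc (D + 1) (KK m), x ≠ x0 → ∃ p,
      IsP (Rm (D + 1) (KK m)) p x x0 ∧ p.length ≤ 2 * (D + 1) * (KK m + 2) ^ D + c0 + 20 ∧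
      ∀ q : ℕ, q.Prime → c0 < q → q ≤ 4 ^ (m ^ (D + 1)) →
        ∃ S E, GD adjd S E x x0 ((p.length : ℚ) - 1) q ∧
          (∀ v ∈ S, v = x ∨ v = x0 ∨ v ∈ Rm (D + 1) (KK m)) ∧
          ∀ e ∈ E, e.1 ∈ Rm (D + 1) (KK m) ∨ e.2 ∈ Rm (D + 1) (KK m) :=
  GM_core D m hm (Pool.Agent.TH359.J2342.inner D m hD hm)
    fun w0 v e h0 hw hv he hvw hew =>
      Pool.Agent.TH209.IH2.shell D (KK m) hD (by unfold KK; omega) w0 v e h0 hw hv he hvw hew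

end Pool.Agent.TH111.IHG7
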