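import Pool.Agent.TH974.IH.Box
import Pool.Agent.TH731.J2148
import Pool.Agent.TH558.J2149

set_option autoImplicit false

open Finset MeasureTheory ProbabilityTheory Filter Topology
open scoped ENNReal NNReal

namespace Pool.Agent.TH111.IHG7

open Pool.Agent.TH974.IH

theorem mem_cube {d : ℕ} {a b : ℤ} {x : Zd d} : x ∈ cube d a b ↔ ∀ i, a ≤ x i ∧ x i ≤ b := by
  simp [cube, Fintype.mem_piFinset, Finset.mem_Icc]

theorem adjd_irr {d : ℕ} (x : Zd d) : ¬ adjd x x := by
  rintro ⟨i, h | h⟩
  · have := congrFun h i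
    simp at this
  · have := congrFun h i
    simp at this

theorem cube_sub {d K : ℕ} {x : Zd d} (h : x ∈ cube d 3 ((K : ℤ) + 2)) : x ∈ Rm d K := by
  rw [mem_cube] at h
  rw [Rm, mem_cube]
  intro i
  have := h i
  omega

theorem lay_sub {d K : ℕ} {x : Zd d} (h : x ∈ Lay d K) : x ∈ Rm d K := by
  rw [Lay, Finset.mem_sdiff] at h
  exact h.1

theorem lay_not {d K : ℕ} {x : Zd d} (h : x ∈ Lay d K) : x ∉ cube d 3 ((K : ℤ) + 2) := by
  rw [Lay, Finset.mem_sdiff] at h
  exact h.2

theorem fc_not {d K : ℕ} {x : Zd d} (h : x ∈ Fc d K) : x ∉ Rm d K := by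
  intro h1
  rw [Fc, Finset.mem_filter] at h
  rw [Rm, mem_cube] at h1
  have h2 : nex K x = 0 := by
    unfold nex
    rw [Finset.card_eq_zero, Finset.filter_eq_empty_iff]
    intro i _ h3
    have := h1 i
    omega
  omega

/-- the neighbour of a point of a face in the layer -/
theorem nbr (D K : ℕ) (hK : 2 ≤ K) (x0 w0 x : Zd (D + 1)) (hx : x ∈ Fc (D + 1) K) (hne : x ≠ x0)
    (hw0 : w0 0 = 2) (hw : ∀ i, i ≠ 0 → 3 ≤ w0 i ∧ w0 i ≤ K + 2) (hx0 : x0 0 = 1)
    (hx0i : ∀ i, i ≠ 0 → x0 i = w0 i) :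
    ∃ w ∈ Lay (D + 1) K, adjd x w ∧ w ≠ w0 := by
  rw [Fc, Finset.mem_filter] at hx
  obtain ⟨hc, hn⟩ := hx
  rw [mem_cube] at hc
  unfold nex at hn
  rw [Finset.card_eq_one] at hn
  obtain ⟨i, hi⟩ := hn
  have h1 : x i = 1 ∨ x i = (K : ℤ) + 4 := by
    have : i ∈ ({i} : Finset (Fin (D + 1))) := Finset.mem_singleton_self i
    rw [← hi, Finset.mem_filter] at this
    exact this.2
  have h2 : ∀ j, j ≠ i → 2 ≤ x j ∧ x j ≤ (K : ℤ) + 3 := by
    intro j hj
    have h3 : ¬ (x j = 1 ∨ x j = (K : ℤ) + 4) := by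
      intro h4
      have : j ∈ Finset.univ.filter fun i => x i = 1 ∨ x i = (K : ℤ) + 4 :=
        Finset.mem_filter.2 ⟨Finset.mem_univ _, h4⟩
      rw [hi, Finset.mem_singleton] at this
      exact hj this
    have := hc j
    omega
  rcases h1 with h1 | h1
  · refine ⟨x + Pi.single i 1, ?_, ⟨i, Or.inl rfl⟩, ?_⟩
    · rw [Lay, Finset.mem_sdiff, mem_cube, mem_cube]
      constructor
      · intro j
        by_cases hj : j = i
        · subst hj
          rw [Pi.add_apply, Pi.single_eq_same]
          omega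
        · rw [Pi.add_apply, Pi.single_eq_of_ne hj]
          have := h2 j hj
          omega
      · intro h3
        have := h3 i
        rw [Pi.add_apply, Pi.single_eq_same] at this
        omega
    · intro h3
      have h4 := congrFun h3 i
      rw [Pi.add_apply, Pi.single_eq_same] at h4
      by_cases hi0 : i = 0
      · subst hi0
        apply hne
        funext j
        by_cases hj : j = 0
        · subst hj
          rw [h1, hx0]
        · have h5 := congrFun h3 j
          rw [Pi.add_apply, Pi.single_eq_of_ne hj, add_zero] at h5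
          rw [h5, hx0i j hj]
      · have := hw i hi0
        omega
  · refine ⟨x - Pi.single i 1, ?_, ⟨i, Or.inr (by rw [sub_add_cancel])⟩, ?_⟩
    · rw [Lay, Finset.mem_sdiff, mem_cube, mem_cube]
      constructor
      · intro j
        by_cases hj : j = i
        · subst hj
          rw [Pi.sub_apply, Pi.single_eq_same]
          omega
        · rw [Pi.sub_apply, Pi.single_eq_of_ne hj]
          have := h2 j hj
          omega
      · intro h3
        have := h3 i
        rw [Pi.sub_apply, Pi.single_eq_same] at this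
        omega
    · intro h3
      have h4 := congrFun h3 i
      rw [Pi.sub_apply, Pi.single_eq_same] at h4
      by_cases hi0 : i = 0
      · subst hi0
        rw [hw0] at h4
        omega
      · have := hw i hi0
        omega

theorem head_mem {α : Type*} {p : List α} {a : α} (h : p.head? = some a) : a ∈ p :=
  List.mem_of_mem_head? h

theorem last_mem {α : Type*} {p : List α} {a : α} (h : p.getLast? = some a) : a ∈ p :=
  List.mem_of_getLast? h

theorem ends_ne {α : Type*} {p : List α} {a b : α} (hn : p.Nodup) (ha : p.head? = some a)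
    (hb : p.getLast? = some b) (hl : 2 ≤ p.length) : a ≠ b := by
  intro hab
  subst hab
  match p, hn, ha, hb, hl with
  | x :: y :: l, hn, ha, hb, _ =>
    rw [List.head?_cons, Option.some.injEq] at ha
    subst ha
    rw [List.getLast?_cons_cons] at hb
    exact (List.nodup_cons.1 hn).1 (last_mem hb)

theorem infix_pair {α : Type*} {p : List α} {a b : α} (hn : p.Nodup) (h : [a, b] <:+: p) :
    a ∈ p ∧ b ∈ p ∧ a ≠ b := by
  refine ⟨h.subset (by simp), h.subset (by simp), ?_⟩
  intro hab
  subst hab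
  have := hn.sublist h.sublist
  simp at this

theorem GM_core (D m : ℕ) (hm : 4 ≤ m)
    (hin : ∃ a b : Zd (D + 1), a 0 = 3 ∧ b 0 = 3 ∧
      (∃ p : List (Zd (D + 1)), p.Nodup ∧ List.IsChain adjd p ∧ p.head? = some a ∧
        p.getLast? = some b ∧ p.length = c0 + 10 ∧ ∀ v ∈ p, v ∈ cube (D + 1) 3 (KK m + 2)) ∧
      ∀ q : ℕ, q.Prime → c0 < q → q ≤ 4 ^ (m ^ (D + 1)) →
        ∃ S E, GD adjd S E a b (c0 + 9) q ∧ ∀ v ∈ S, v ∈ cube (D + 1) 3 (KK m + 2))
    (hsh : ∀ (w0 v e : Zd (D + 1)) (_ : w0 0 = 2)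
      (_ : ∀ i, i ≠ 0 → 3 ≤ w0 i ∧ w0 i ≤ KK m + 2) (_ : v ∈ Lay (D + 1) (KK m))
      (_ : e ∈ Lay (D + 1) (KK m)) (_ : v ≠ w0) (_ : e ≠ w0),
      ∃ p : List (Zd (D + 1)), p.Nodup ∧ List.IsChain adjd p ∧ p.head? = some v ∧
      p.getLast? = some e ∧ (∀ x ∈ p, x ∈ Lay (D + 1) (KK m) ∧ x ≠ w0) ∧
      p.length ≤ 2 * (D + 1) * (KK m + 2) ^ D) :
    ∃ x0 ∈ Fc (D + 1) (KK m), ∀ x ∈ Fc (D + 1) (KK m), x ≠ x0 → ∃ p,
      IsP (Rm (D + 1) (KK m)) p x x0 ∧ p.length ≤ 2 * (D + 1) * (KK m + 2) ^ D + c0 + 20 ∧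
      ∀ q : ℕ, q.Prime → c0 < q → q ≤ 4 ^ (m ^ (D + 1)) →
        ∃ S E, GD adjd S E x x0 ((p.length : ℚ) - 1) q ∧
          (∀ v ∈ S, v = x ∨ v = x0 ∨ v ∈ Rm (D + 1) (KK m)) ∧
          ∀ e ∈ E, e.1 ∈ Rm (D + 1) (KK m) ∨ e.2 ∈ Rm (D + 1) (KK m) := by
  have hK : 2 ≤ KK m := by
    unfold KK
    omega
  obtain ⟨a, b, ha0, hb0, ⟨pc, pcn, pcc, pch, pcl, pclen, pcm⟩, hq⟩ := hin
  generalize KK m = K at *
  have hac := pcm a (head_mem pch)
  have hbc := pcm b (last_mem pcl)
  have hab : a ≠ b := ends_ne pcn pch pcl (by omega)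
  have hac' := mem_cube.1 hac
  have hbc' := mem_cube.1 hbc
  set s : Zd (D + 1) := Pi.single 0 1 with hs
  have hs0 : s 0 = 1 := Pi.single_eq_same _ _
  have hsi : ∀ i, i ≠ 0 → s i = 0 := fun i hi => Pi.single_eq_of_ne hi _
  obtain ⟨w0, hw0⟩ : ∃ w0 : Zd (D + 1), w0 = b - s := ⟨_, rfl⟩
  obtain ⟨ea, hea⟩ : ∃ ea : Zd (D + 1), ea = a - s := ⟨_, rfl⟩
  obtain ⟨x0, hx0⟩ : ∃ x0 : Zd (D + 1), x0 = w0 - s := ⟨_, rfl⟩
  have w00 : w0 0 = 2 := by rw [hw0, Pi.sub_apply, hb0, hs0]; norm_num
  have w0i : ∀ i, i ≠ 0 → w0 i = b i := fun i hi => by rw [hw0, Pi.sub_apply, hsi i hi, sub_zero]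
  have ea0 : ea 0 = 2 := by rw [hea, Pi.sub_apply, ha0, hs0]; norm_num
  have eai : ∀ i, i ≠ 0 → ea i = a i := fun i hi => by rw [hea, Pi.sub_apply, hsi i hi, sub_zero]
  have x00 : x0 0 = 1 := by rw [hx0, Pi.sub_apply, w00, hs0]; norm_num
  have x0i : ∀ i, i ≠ 0 → x0 i = w0 i := fun i hi => by rw [hx0, Pi.sub_apply, hsi i hi, sub_zero]
  have hwb : ∀ i, i ≠ 0 → 3 ≤ w0 i ∧ w0 i ≤ (K : ℤ) + 2 := fun i hi => by
    rw [w0i i hi]
    exact hbc' i
  have heaw : ea ≠ w0 := by
    intro h
    apply hab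
    rw [hea, hw0] at h
    exact sub_left_injective h
  have lay0 : ∀ y : Zd (D + 1), y 0 = 2 → (∀ i, i ≠ 0 → 3 ≤ y i ∧ y i ≤ (K : ℤ) + 2) →
      y ∈ Lay (D + 1) K := by
    intro y hy0 hyi
    rw [Lay, Finset.mem_sdiff, mem_cube, mem_cube]
    constructor
    · intro i
      by_cases hi : i = 0
      · subst hi
        omega
      · have := hyi i hi
        omega
    · intro h
      have := h 0
      omega
  have w0L : w0 ∈ Lay (D + 1) K := lay0 w0 w00 hwb
  have eaL : ea ∈ Lay (D + 1) K := lay0 ea ea0 fun i hi => by rw [eai i hi]; exact hac' i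
  have x0F : x0 ∈ Fc (D + 1) K := by
    rw [Fc, Finset.mem_filter, mem_cube]
    constructor
    · intro i
      by_cases hi : i = 0
      · subst hi
        omega
      · have := hwb i hi
        rw [x0i i hi]
        omega
    · unfold nex
      rw [Finset.card_eq_one]
      refine ⟨0, ?_⟩
      ext i
      rw [Finset.mem_filter, Finset.mem_singleton]
      constructor
      · rintro ⟨_, h⟩
        by_contra hi
        have := hwb i hi
        rw [x0i i hi] at h
        omega
      · rintro rfl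
        exact ⟨Finset.mem_univ _, Or.inl x00⟩
  have adj_ea : adjd ea a := ⟨0, Or.inl (by rw [hea, ← hs, sub_add_cancel])⟩
  have adj_b : adjd b w0 := ⟨0, Or.inr (by rw [hw0, ← hs, sub_add_cancel])⟩
  have adj_w : adjd w0 x0 := ⟨0, Or.inr (by rw [hx0, ← hs, sub_add_cancel])⟩
  have x0R : x0 ∉ Rm (D + 1) K := fc_not x0F
  have w0R : w0 ∈ Rm (D + 1) K := lay_sub w0L
  refine ⟨x0, x0F, fun x hx hxne => ?_⟩
  have xR : x ∉ Rm (D + 1) K := fc_not hx
  obtain ⟨w, wL, hxw, hww⟩ := nbr D K hK x0 w0 x hx hxne w00 hwb x00 x0i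
  obtain ⟨ps, psn, psc, psh, psl, psm, pslen⟩ := hsh w0 w ea w00 hwb wL eaL hww heaw
  have psR : ∀ v ∈ ps, v ∈ Rm (D + 1) K := fun v hv => lay_sub (psm v hv).1
  have pcR : ∀ v ∈ pc, v ∈ Rm (D + 1) K := fun v hv => cube_sub (pcm v hv)
  have aR : a ∈ Rm (D + 1) K := cube_sub hac
  have bR : b ∈ Rm (D + 1) K := cube_sub hbc
  have w0c : w0 ∉ cube (D + 1) 3 ((K : ℤ) + 2) := lay_not w0L
  have hps0 : ps ≠ [] := by
    rintro rfl
    simp at psh
  have hpc0 : pc ≠ [] := by
    rintro rfl
    simp at pch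
  -- the first lead
  have c1 : List.IsChain adjd (x :: ps) := by
    rw [List.isChain_cons]
    refine ⟨fun y hy => ?_, psc⟩
    rw [psh] at hy
    rw [← (Option.mem_some_iff.1 hy)]
    exact hxw
  have n1 : (x :: ps).Nodup := List.nodup_cons.2 ⟨fun h => xR (psR x h), psn⟩
  have l1 : (x :: ps).getLast? = some ea := by
    rw [List.getLast?_cons, psl]
    rfl
  have c2 : List.IsChain adjd (x :: ps ++ pc) := by
    rw [List.isChain_append]
    refine ⟨c1, pcc, fun y hy z hz => ?_⟩
    rw [l1] at hy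
    rw [pch] at hz
    rw [← (Option.mem_some_iff.1 hy), ← (Option.mem_some_iff.1 hz)]
    exact adj_ea
  have d12 : List.Disjoint (x :: ps) pc := by
    intro y hy hy2
    rcases List.mem_cons.1 hy with rfl | hy
    · exact xR (pcR _ hy2)
    · exact lay_not (psm y hy).1 (pcm y hy2)
  have n2 : (x :: ps ++ pc).Nodup := List.nodup_append'.2 ⟨n1, pcn, d12⟩
  have l2 : (x :: ps ++ pc).getLast? = some b := by
    rw [List.getLast?_append, pcl]
    rfl
  have c3 : List.IsChain adjd (x :: ps ++ pc ++ [w0, x0]) := by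
    rw [List.isChain_append]
    refine ⟨c2, ?_, fun y hy z hz => ?_⟩
    · rw [List.isChain_cons]
      refine ⟨fun y hy => ?_, List.isChain_singleton _⟩
      rw [List.head?_cons] at hy
      rw [← (Option.mem_some_iff.1 hy)]
      exact adj_w
    · rw [l2] at hy
      rw [List.head?_cons] at hz
      rw [← (Option.mem_some_iff.1 hy), ← (Option.mem_some_iff.1 hz)]
      exact adj_b
  have hw0x0 : w0 ≠ x0 := fun h => x0R (h ▸ w0R)
  have hxw0 : x ≠ w0 := fun h => xR (h ▸ w0R)
  have n3 : (x :: ps ++ pc ++ [w0, x0]).Nodup := by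
    refine List.nodup_append'.2 ⟨n2, ?_, ?_⟩
    · simp [hw0x0]
    · intro y hy hy2
      rw [List.mem_append, List.mem_cons] at hy
      rw [List.mem_cons, List.mem_singleton] at hy2
      rcases hy2 with rfl | rfl
      · rcases hy with (hy | hy) | hy
        · exact hxw0 hy.symm
        · exact (psm _ hy).2 rfl
        · exact w0c (pcm _ hy)
      · rcases hy with (hy | hy) | hy
        · exact hxne hy.symm
        · exact x0R (psR _ hy)
        · exact x0R (pcR _ hy)
  have len3 : (x :: ps ++ pc ++ [w0, x0]).length = ps.length + c0 + 13 := by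
    simp only [List.length_append, List.length_cons, List.length_nil, pclen]
    omega
  refine ⟨x :: ps ++ pc ++ [w0, x0], ⟨n3, c3, by simp,
    by rw [List.getLast?_append]; rfl, by omega, ?_⟩, by omega, ?_⟩
  · intro v hv
    rw [List.mem_append, List.mem_append, List.mem_cons, List.mem_cons, List.mem_singleton] at hv
    rcases hv with ((hv | hv) | hv) | (hv | hv)
    · exact Or.inl hv
    · exact Or.inr (Or.inr (psR v hv))
    · exact Or.inr (Or.inr (pcR v hv))
    · exact Or.inr (Or.inr (hv ▸ w0R))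
    · exact Or.inr (Or.inl hv)
  · intro q hqp hq1 hq2
    obtain ⟨S, E, hG, hS⟩ := hq q hqp hq1 hq2
    -- first lead
    have hxa : x ≠ a := fun h => xR (h ▸ aR)
    have haps : a ∉ ps := fun h => lay_not (psm a h).1 hac
    have n4 : (x :: ps ++ [a]).Nodup := by
      refine List.nodup_append'.2 ⟨n1, List.nodup_singleton _, ?_⟩
      intro y hy hy2
      rw [List.mem_singleton] at hy2
      subst hy2
      rcases List.mem_cons.1 hy with h | h
      · exact hxa h.symm
      · exact haps h
    have c4 : List.IsChain adjd (x :: ps ++ [a]) := by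
      rw [List.isChain_append]
      refine ⟨c1, List.isChain_singleton _, fun y hy z hz => ?_⟩
      rw [l1] at hy
      rw [List.head?_cons] at hz
      rw [← (Option.mem_some_iff.1 hy), ← (Option.mem_some_iff.1 hz)]
      exact adj_ea
    obtain ⟨E1, hO1, hE1⟩ := Pool.Agent.TH558.IH.OP_path (x :: ps ++ [a]) x a n4 c4 (by simp)
      (by rw [List.getLast?_append]; rfl) hxa
    have n5 : ([b, w0, x0] : List (Zd (D + 1))).Nodup := by
      have h1 : b ≠ w0 := fun h => w0c (h ▸ hbc)
      have h2 : b ≠ x0 := fun h => x0R (h ▸ bR)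
      simp [h1, h2, hw0x0]
    have c5 : List.IsChain adjd ([b, w0, x0] : List (Zd (D + 1))) := by
      rw [List.isChain_cons]
      refine ⟨fun y hy => ?_, ?_⟩
      · rw [List.head?_cons] at hy
        rw [← (Option.mem_some_iff.1 hy)]
        exact adj_b
      · rw [List.isChain_cons]
        refine ⟨fun y hy => ?_, List.isChain_singleton _⟩
        rw [List.head?_cons] at hy
        rw [← (Option.mem_some_iff.1 hy)]
        exact adj_w
    have hbx0 : b ≠ x0 := fun h => x0R (h ▸ bR)
    obtain ⟨E2, hO2, hE2⟩ := Pool.Agent.TH558.IH.OP_path [b, w0, x0] b x0 n5 c5 (by simp)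
      (by simp) hbx0
    have g1 := Pool.Agent.TH731.IHN3.GD_series_right adjd_irr hO1 hG (by
      intro y hy hyS
      have hy' : y ∈ x :: ps ++ [a] := hy
      rw [List.mem_append, List.mem_cons, List.mem_singleton] at hy'
      rcases hy' with (h | h) | h
      · exact absurd (cube_sub (hS y hyS)) (h ▸ xR)
      · exact absurd (hS y hyS) (lay_not (psm y h).1)
      · exact h)
    have g2 := Pool.Agent.TH731.IHN3.GD_series_left adjd_irr g1 hO2 (by
      intro y hy hy2
      have hy2' : y ∈ [b, w0, x0] := hy2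
      rw [List.mem_cons, List.mem_cons, List.mem_singleton] at hy2'
      rcases hy2' with h | h | h
      · exact h
      · exfalso
        subst h
        rcases hy with hy | hy
        · have hy' : y ∈ x :: ps ++ [a] := hy
          rw [List.mem_append, List.mem_cons, List.mem_singleton] at hy'
          rcases hy' with (h | h) | h
          · exact hxw0 h.symm
          · exact (psm _ h).2 rfl
          · exact w0c (h ▸ hac)
        · exact w0c (hS _ hy)
      · exfalso
        subst h
        rcases hy with hy | hy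
        · have hy' : y ∈ x :: ps ++ [a] := hy
          rw [List.mem_append, List.mem_cons, List.mem_singleton] at hy'
          rcases hy' with (h | h) | h
          · exact hxne h.symm
          · exact x0R (psR _ h)
          · exact x0R (h ▸ aR)
        · exact x0R (cube_sub (hS _ hy)))
    refine ⟨{v | v ∈ x :: ps ++ [a]} ∪ S ∪ {v | v ∈ [b, w0, x0]}, E1 ∪ E ∪ E2, ?_, ?_, ?_⟩
    · have h1 : (((x :: ps ++ pc ++ [w0, x0]).length : ℚ) - 1) =
          (((x :: ps ++ [a]).length : ℚ) - 1 + (c0 + 9)) +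
          ((([b, w0, x0] : List (Zd (D + 1))).length : ℚ) - 1) := by
        rw [len3]
        simp only [List.length_append, List.length_cons, List.length_nil]
        push_cast
        ring
      rw [h1]
      exact g2
    · intro v hv
      rcases hv with (hv | hv) | hv
      · have hy' : v ∈ x :: ps ++ [a] := hv
        rw [List.mem_append, List.mem_cons, List.mem_singleton] at hy'
        rcases hy' with (h | h) | h
        · exact Or.inl h
        · exact Or.inr (Or.inr (psR _ h))
        · exact Or.inr (Or.inr (h ▸ aR))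
      · exact Or.inr (Or.inr (cube_sub (hS _ hv)))
      · have hy2' : v ∈ [b, w0, x0] := hv
        rw [List.mem_cons, List.mem_cons, List.mem_singleton] at hy2'
        rcases hy2' with h | h | h
        · exact Or.inr (Or.inr (h ▸ bR))
        · exact Or.inr (Or.inr (h ▸ w0R))
        · exact Or.inr (Or.inl h)
    · intro e he
      rcases Finset.mem_union.1 he with he | he
      · rcases Finset.mem_union.1 he with he | he
        · obtain ⟨h1, h2, h3⟩ := infix_pair n4 (hE1 e he)
          have h4 : ∀ y ∈ x :: ps ++ [a], y ≠ x → y ∈ Rm (D + 1) K := by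
            intro y hy hyx
            rw [List.mem_append, List.mem_cons, List.mem_singleton] at hy
            rcases hy with (h | h) | h
            · exact absurd h hyx
            · exact psR _ h
            · exact h ▸ aR
          by_cases h5 : e.1 = x
          · exact Or.inr (h4 _ h2 fun h6 => h3 (h5.trans h6.symm))
          · exact Or.inl (h4 _ h1 h5)
        · exact Or.inl (cube_sub (hS _ (hG.1.1.mem e he).1))
      · obtain ⟨h1, h2, h3⟩ := infix_pair n5 (hE2 e he)
        have h4 : ∀ y ∈ [b, w0, x0], y ≠ x0 → y ∈ Rm (D + 1) K := by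
          intro y hy hyx
          rw [List.mem_cons, List.mem_cons, List.mem_singleton] at hy
          rcases hy with h | h | h
          · exact h ▸ bR
          · exact h ▸ w0R
          · exact absurd h hyx
        by_cases h5 : e.1 = x0
        · exact Or.inr (h4 _ h2 fun h6 => h3 (h5.trans h6.symm))
        · exact Or.inl (h4 _ h1 h5)

end Pool.Agent.TH111.IHG7
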