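import Mathlib
import Pool.Agent.TH958.FP.Kummer
import Pool.Agent.TH444.ML.Defs

/-!
# Kummer theory: if the normal closure of `M(√α)` is smaller than expected, a nonempty product of
conjugates of `α` is a square
-/

set_option autoImplicit false

namespace Pool.Agent.TH111.J3097

open Pool.Agent.TH444.ML

/-- the degree of a multiquadratic extension -/
theorem finrank_mq {V Ω : Type} [Field V] [Field Ω] [Algebra V Ω] [Algebra.IsAlgebraic V Ω]
    {ι : Type} [Fintype ι] [DecidableEq ι] {η : ι → Ω} {w : ι → V} (h2 : (2 : V) ≠ 0)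
    (hyw : ∀ i, η i ^ 2 = algebraMap V Ω (w i))
    (hs : ∀ S : Finset ι, S.Nonempty → ¬ IsSquare (∏ i ∈ S, w i)) :
    Module.finrank V (Algebra.adjoin V (Set.range η)) = 2 ^ Fintype.card ι := by
  set A := Algebra.adjoin V (Set.range η) with hA
  set y : ι → A := fun i => ⟨η i, Algebra.subset_adjoin ⟨i, rfl⟩⟩ with hy
  have h1 : ∀ i, y i ^ 2 = algebraMap V A (w i) := fun i => by
    apply Subtype.ext
    exact hyw i
  have h3 : Algebra.adjoin V (Set.range y) = ⊤ := by
    have h4 : Set.range y = ((↑) : A → Ω) ⁻¹' Set.range η := by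
      ext z
      constructor
      · rintro ⟨i, rfl⟩
        exact ⟨i, rfl⟩
      · rintro ⟨i, hi⟩
        exact ⟨i, Subtype.ext hi⟩
    rw [h4]
    exact Algebra.adjoin_adjoin_coe_preimage
  have hspan := Pool.Agent.TH958.FP.span_top h1 h3
  have hli : LinearIndependent V (fun S : Finset ι => ∏ i ∈ S, y i) := by
    rw [Fintype.linearIndependent_iff]
    intro g hg S
    refine Pool.Agent.TH958.FP.lin_indep h2 hyw Finset.univ (fun S _ => hs S) g ?_ S
      (by simp)
    have h5 := congrArg (algebraMap A Ω) hg
    rw [map_zero, map_sum] at h5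
    rw [Finset.powerset_univ, ← h5]
    apply Finset.sum_congr rfl
    intro T _
    rw [Algebra.smul_def, map_mul, map_prod]
    rfl
  have h6 := finrank_span_eq_card hli
  rw [hspan, finrank_top, Fintype.card_finset] at h6
  exact h6

theorem finrank_mq' {V Ω : Type} [Field V] [Field Ω] [Algebra V Ω] [Algebra.IsAlgebraic V Ω]
    {ι : Type} [Fintype ι] [DecidableEq ι] {η : ι → Ω} {w : ι → V} (h2 : (2 : V) ≠ 0)
    (hyw : ∀ i, η i ^ 2 = algebraMap V Ω (w i))
    (hs : ∀ S : Finset ι, S.Nonempty → ¬ IsSquare (∏ i ∈ S, w i)) :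
    Module.finrank V (IntermediateField.adjoin V (Set.range η)) = 2 ^ Fintype.card ι := by
  have h1 := finrank_mq h2 hyw hs
  rw [← IntermediateField.adjoin_toSubalgebra] at h1
  exact h1

theorem notFull : Pool.Agent.TH444.ML.NotFull := by
  intro K Ω _ _ _ _ _ M _ _ L hML α s hα hs hsM hL hne
  classical
  by_contra hcon
  push Not at hcon
  apply hne
  have hac : IsAlgClosed Ω := IsAlgClosure.isAlgClosed K
  have hnorm : Normal K Ω := IsAlgClosure.normal K Ω
  have halg : Algebra.IsAlgebraic K Ω := IsAlgClosure.isAlgebraic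
  have halgM : Algebra.IsAlgebraic M Ω := Algebra.IsAlgebraic.tower_top (K := K) M
  have h2 : (2 : M) ≠ 0 := by
    have : CharZero K := inferInstance
    have : CharZero M := charZero_of_injective_algebraMap (algebraMap K M).injective
    exact two_ne_zero
  have hex : ∀ σ : M ≃ₐ[K] M, ∃ t : Ω, t ^ 2 = algebraMap M Ω (σ α) := fun σ =>
    IsAlgClosed.exists_pow_nat_eq _ two_pos
  choose η hη using hex
  have : Finite (M ≃ₐ[K] M) := inferInstance
  have : Fintype (M ≃ₐ[K] M) := Fintype.ofFinite _
  have hdeg := finrank_mq' h2 hη hcon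
  have hcard : Fintype.card (M ≃ₐ[K] M) = Module.finrank K M := by
    rw [← IsGalois.card_aut_eq_finrank K M, Nat.card_eq_fintype_card]
  -- two square roots of the same element
  have hroot : ∀ (E : IntermediateField K Ω) (u v : Ω), u ^ 2 = v ^ 2 → v ∈ E → u ∈ E := by
    intro E u v h hv
    rcases sq_eq_sq_iff_eq_or_eq_neg.1 h with rfl | rfl
    · exact hv
    · exact neg_mem hv
  have hNC : (IntermediateField.adjoin M (Set.range η)).restrictScalars K =
      IntermediateField.normalClosure K L Ω := by
    apply le_antisymm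
    · have hM : M ≤ IntermediateField.normalClosure K L Ω :=
        hML.trans L.le_normalClosure
      have h3 : IntermediateField.adjoin M (Set.range η) ≤
          IntermediateField.extendScalars hM := by
        rw [IntermediateField.adjoin_le_iff]
        rintro _ ⟨τ, rfl⟩
        show η τ ∈ IntermediateField.normalClosure K L Ω
        set σ : Ω ≃ₐ[K] Ω := τ.liftNormal Ω with hσ
        apply hroot _ (η τ) (σ s)
        · rw [hη, ← map_pow, hs]
          exact (τ.liftNormal_commutes Ω α).symm
        · rw [IntermediateField.normalClosure_def'']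
          have h4 : L.map (σ : Ω →ₐ[K] Ω) ≤
              ⨆ f : Ω ≃ₐ[K] Ω, L.map (f : Ω →ₐ[K] Ω) :=
            le_iSup (fun f : Ω ≃ₐ[K] Ω => L.map (f : Ω →ₐ[K] Ω)) σ
          apply h4
          refine ⟨s, ?_, rfl⟩
          rw [hL]
          exact (le_sup_right : IntermediateField.adjoin K {s} ≤ _)
            (IntermediateField.mem_adjoin_simple_self K s)
      exact h3
    · rw [IntermediateField.normalClosure_def'']
      apply iSup_le
      intro σ
      rw [hL, IntermediateField.map_sup, IntermediateField.adjoin_map, Set.image_singleton]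
      apply sup_le
      · rintro _ ⟨m, hm, rfl⟩
        have h5 := σ.restrictNormal_commutes M ⟨m, hm⟩
        have h6 : σ m = algebraMap M Ω (σ.restrictNormal M ⟨m, hm⟩) := h5.symm
        show σ m ∈ IntermediateField.adjoin M (Set.range η)
        rw [h6]
        exact IntermediateField.algebraMap_mem _ _
      · rw [IntermediateField.adjoin_simple_le_iff]
        show σ s ∈ (IntermediateField.adjoin M (Set.range η)).restrictScalars K
        apply hroot _ (σ s) (η (σ.restrictNormal M))
        · rw [hη, ← map_pow, hs]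
          exact (σ.restrictNormal_commutes M α).symm
        · exact IntermediateField.subset_adjoin M _ ⟨_, rfl⟩
  rw [← hNC, ← hcard, ← hdeg, hcard]
  have h7 := Module.finrank_mul_finrank K M (IntermediateField.adjoin M (Set.range η))
  rw [mul_comm, h7]
  rfl

end Pool.Agent.TH111.J3097
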