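import Pool.Agent.TH62.PL.Stms
import Pool.Agent.TH62.PL.Stms2
import Pool.Agent.TH62.PL.Hall

set_option autoImplicit false

namespace Pool.Agent.TH111.J825

open Pool.Agent.TH62.PL
open scoped commutatorElement

/-- the centraliser of a section -/
lemma exists_cent {G : Type} [Group G] (R S : Subgroup G) (hR : R.Normal) (hS : S.Normal) :
    ∃ N : Subgroup G, N.Normal ∧ ∀ g, g ∈ N ↔ ∀ x ∈ R, g * x * g⁻¹ * x⁻¹ ∈ S := by
  refine ⟨
    { carrier := {g | ∀ x ∈ R, g * x * g⁻¹ * x⁻¹ ∈ S}
      one_mem' := fun x _ => by simp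
      mul_mem' := by
        intro g h hg hh x hx
        have h1 := hS.conj_mem _ (hh x hx) g
        have h2 := S.mul_mem h1 (hg x hx)
        have h3 : g * (h * x * h⁻¹ * x⁻¹) * g⁻¹ * (g * x * g⁻¹ * x⁻¹) =
          g * h * x * (g * h)⁻¹ * x⁻¹ := by group
        rwa [h3] at h2
      inv_mem' := by
        intro g hg x hx
        have h1 := hS.conj_mem _ (S.inv_mem (hg x hx)) g⁻¹
        have h3 : g⁻¹ * (g * x * g⁻¹ * x⁻¹)⁻¹ * g⁻¹⁻¹ = g⁻¹ * x * g⁻¹⁻¹ * x⁻¹ := by group
        rwa [h3] at h1 }, ⟨?_⟩, fun g => Iff.rfl⟩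
  intro g hg h x hx
  have h1 := hR.conj_mem x hx h⁻¹
  have h2 := hS.conj_mem _ (hg _ h1) h
  have h3 : h * (g * (h⁻¹ * x * h⁻¹⁻¹) * g⁻¹ * (h⁻¹ * x * h⁻¹⁻¹)⁻¹) * h⁻¹ =
    h * g * h⁻¹ * x * (h * g * h⁻¹)⁻¹ * x⁻¹ := by group
  rwa [h3] at h2

/-- the normaliser of `P` in a finite group -/
lemma exists_norm {G : Type} [Group G] [Finite G] (P : Subgroup G) :
    ∃ T : Subgroup G, ∀ t, t ∈ T ↔ ∀ x ∈ P, t * x * t⁻¹ ∈ P := by
  refine ⟨
    { carrier := {t | ∀ x ∈ P, t * x * t⁻¹ ∈ P}
      one_mem' := fun x hx => by simpa using hx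
      mul_mem' := by
        intro g h hg hh x hx
        have h2 := hg _ (hh x hx)
        have h3 : g * (h * x * h⁻¹) * g⁻¹ = g * h * x * (g * h)⁻¹ := by group
        rwa [h3] at h2
      inv_mem' := by
        intro t ht
        have hk : ∀ k : ℕ, ∀ x ∈ P, t ^ k * x * (t ^ k)⁻¹ ∈ P := by
          intro k
          induction k with
          | zero => intro x hx; simpa using hx
          | succ k ih =>
            intro x hx
            have h2 := ih _ (ht x hx)
            have h3 : t ^ k * (t * x * t⁻¹) * (t ^ k)⁻¹ = t ^ (k + 1) * x * (t ^ (k + 1))⁻¹ := by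
              rw [pow_succ]; group
            rwa [h3] at h2
        have h4 : t⁻¹ ∈ Submonoid.powers t :=
          mem_powers_iff_mem_zpowers.2 (Subgroup.inv_mem _ (Subgroup.mem_zpowers t))
        obtain ⟨k, hk'⟩ := h4
        intro x hx
        have h5 := hk k x hx
        simp only at hk'
        rwa [hk'] at h5 }, fun t => Iff.rfl⟩

/-- elements centralising `P` lie in `Y` -/
lemma cent_le (hh : HHStm) {π : Set ℕ} {X : Type} [Group X] [Finite X] (hsol : PSol π X)
    (M Y P : Subgroup X) (hM : M.Normal) (hY : Y.Normal) (hMY : M ≤ Y) (hM1 : PF πᶜ ⊥ M)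
    (hMmax : ∀ A : Subgroup X, A.Normal → PF πᶜ ⊥ A → A ≤ M) (hMY1 : PF π M Y)
    (hYmax : ∀ A : Subgroup X, A.Normal → M ≤ A → PF π M A → A ≤ Y) (hYP : Y ≤ P ⊔ M)
    (x : X) (hx : ∀ y ∈ P, x * y = y * x) : x ∈ Y := by
  set f := QuotientGroup.mk' M with hf
  have hfs : Function.Surjective f := QuotientGroup.mk'_surjective M
  have hbot : (⊥ : Subgroup (X ⧸ M)).comap f = M := by
    rw [MonoidHom.comap_bot, QuotientGroup.ker_mk']
  have hR : (Y.map f).Normal := hY.map f hfs
  have h1 := hh π (X ⧸ M) (hsol.quotient M) ⊥ (Y.map f) inferInstance hR (PF.refl ⊥)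
    (by
      have := hMY1.map f
      have h2 : M.map f = ⊥ := by
        rw [Subgroup.map_eq_bot_iff, QuotientGroup.ker_mk']
      rwa [h2] at this)
    (by
      intro N hN hN1
      have h2 := hN1.comap f
      rw [hbot] at h2
      have h3 := hMmax (N.comap f) (hN.comap f) (hM1.trans h2)
      exact (Subgroup.comap_le_comap_of_surjective hfs).1 (h3.trans hbot.ge))
    (by
      intro N hN hN1
      have h2 := hN1.comap f
      rw [hbot] at h2
      have h4 : M ≤ N.comap f := hbot.ge.trans (Subgroup.comap_mono bot_le)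
      have h3 := hYmax (N.comap f) (hN.comap f) h4 h2
      have h5 := Subgroup.map_mono (f := f) h3
      rwa [Subgroup.map_comap_eq_self_of_surjective hfs] at h5)
    (f x)
    (by
      intro y hy
      rw [bot_sup_eq] at hy
      obtain ⟨z, hz, rfl⟩ := hy
      obtain ⟨s, hs, t, ht, rfl⟩ := (mem_sup_inv (Inv.of_normal P hM)).1 (hYP hz)
      have h2 : f t = 1 := (QuotientGroup.eq_one_iff t).2 ht
      rw [map_mul, h2, mul_one, ← map_mul, ← map_mul, hx s hs])
  rw [bot_sup_eq] at h1
  have h2 : x ∈ (Y.map f).comap f := h1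
  rw [Subgroup.comap_map_eq, QuotientGroup.ker_mk', sup_eq_left.2 hMY] at h2
  exact h2

/-- the case `N = ⊥` -/
lemma core (π : Set ℕ) (hπ : ∀ p ∈ π, p.Prime) (frh : FrHStm) (hh : HHStm) (sel : SelStm)
    (n : ℕ) (hE : EStm π n) (X : Type) [Group X] [Finite X] (L : Subgroup X) (hsol : PSol π X)
    (hL : IsHall π L) (hcard : Nat.card X ≤ n + 1) (m : ℕ)
    (hlen : ¬ Len π (m + 1) (⊥ : Subgroup X)) :
    ∃ (r : ℕ) (K P₁ P₂ : Subgroup X), PEData π L ⊥ (m + 1) r K P₁ P₂ := by
  obtain ⟨M, hM, -, hM1, hMmax⟩ := exists_core πᶜ (⊥ : Subgroup X) inferInstance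
  obtain ⟨Y, hY, hMY, hMY1, hYmax⟩ := exists_core π M hM
  obtain ⟨P, hP⟩ : ∃ P : Subgroup X, P = L ⊓ Y := ⟨_, rfl⟩
  have hPL : P ≤ L := by rw [hP]; exact inf_le_left
  have hPY : P ≤ Y := by rw [hP]; exact inf_le_right
  have hPπ : PF π ⊥ P := hL.1.mono le_rfl hPL
  have hcop : (Nat.card M).Coprime (Nat.card P) :=
    (PF.bot_iff.1 hM1).coprime' (PF.bot_iff.1 hPπ)
  have hYP : Y ≤ P ⊔ M := by
    refine le_of_PF (Inv.of_normal Y hM) le_sup_right hMY1 ((hL.inf hY).of_dvd ?_)
    rw [← Subgroup.inf_relIndex_right L Y, ← hP]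
    exact Subgroup.relIndex_dvd_of_le_left Y le_sup_left
  have hYeq : M ⊔ P = Y := le_antisymm (sup_le hMY hPY) (hYP.trans (le_of_eq (sup_comm _ _)))
  have hPsol : Group.IsSolvable P := hsol.isSolvable hπ hPπ
  have hfr := frh X M P hM (by rw [hYeq]; exact hY) hcop hPsol
  obtain ⟨T, hT⟩ := exists_norm P
  have hLT : L ≤ T := by
    intro g hg
    rw [hT]
    intro x hx
    rw [hP] at hx ⊢
    exact ⟨L.mul_mem (L.mul_mem hg hx.1) (L.inv_mem hg), hY.conj_mem x hx.2 g⟩
  have hPT : P ≤ T := hPL.trans hLT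
  have hsup : ∀ g : X, ∃ m ∈ M, ∃ t ∈ T, g = m * t := by
    intro g
    obtain ⟨a, ha, t, ht, hg⟩ := hfr g
    exact ⟨a, ha, t, (hT t).2 ht, hg⟩
  have hMP : ∀ x ∈ M, x ∈ P → x = 1 := by
    intro x hxM hxP
    have h1 := (hM1.orderOf hxM).coprime' (hPπ.orderOf hxP)
    rw [Nat.coprime_self] at h1
    exact orderOf_eq_one_iff.1 h1
  have hM2n : (M.subgroupOf T).Normal := hM.comap T.subtype
  -- the claim
  have hclaim : ∀ C : Subgroup T, (∀ g, g ∈ C ↔ ∀ x ∈ P.subgroupOf T, g * x = x * g) →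
      ¬ FL π m C := by
    intro C hC hFL
    apply hlen
    have h1 : M.subgroupOf T ≤ C := by
      intro a ha
      rw [Subgroup.mem_subgroupOf] at ha
      rw [hC]
      intro x hx
      rw [Subgroup.mem_subgroupOf] at hx
      have h2 : (a : X) * x * (a : X)⁻¹ * (x : X)⁻¹ ∈ P :=
        P.mul_mem ((hT a).1 a.2 x hx) (P.inv_mem hx)
      have h3 : (a : X) * x * (a : X)⁻¹ * (x : X)⁻¹ ∈ M := by
        have h4 := M.mul_mem ha (hM.conj_mem _ (M.inv_mem ha) (x : X))
        have h5 : (a : X) * ((x : X) * (a : X)⁻¹ * (x : X)⁻¹) =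
          (a : X) * x * (a : X)⁻¹ * (x : X)⁻¹ := by group
        rwa [h5] at h4
      have h4 := hMP _ h3 h2
      apply Subtype.ext
      rw [Subgroup.coe_mul, Subgroup.coe_mul]
      exact mul_inv_eq_iff_eq_mul.1 (mul_inv_eq_one.1 h4)
    have h2 : PF π (M.subgroupOf T) C := by
      intro c hc
      have h3 : (c : X) ∈ Y := by
        apply cent_le hh hsol M Y P hM hY hMY hM1 (fun A hA h => hMmax A hA bot_le h) hMY1 hYmax
          hYP
        intro y hy
        have h4 := (hC c).1 hc ⟨y, hPT hy⟩ (by rw [Subgroup.mem_subgroupOf]; exact hy)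
        have h5 := congrArg Subtype.val h4
        rw [Subgroup.coe_mul, Subgroup.coe_mul] at h5
        exact h5
      obtain ⟨k, hk, hk'⟩ := hMY1 _ h3
      refine ⟨k, hk, ?_⟩
      rw [Subgroup.mem_subgroupOf, Subgroup.coe_pow]
      exact hk'
    have h3 := (hFL.absorb h1 h2).toLen hM2n
    exact Len.absorb bot_le hM1 (Len.of_supplement hM hsup h3)
  -- selection
  have hPn : (P.subgroupOf T).Normal := ⟨fun x hx g => by
    rw [Subgroup.mem_subgroupOf] at hx ⊢
    exact (hT g).1 g.2 x hx⟩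
  have hPπ' : PF π ⊥ (P.subgroupOf T) := by
    have := hPπ.comap T.subtype
    rwa [MonoidHom.comap_bot, Subgroup.ker_subtype] at this
  have hPsol' : Group.IsSolvable (P.subgroupOf T) := (hsol.subgroup T).isSolvable hπ hPπ'
  obtain ⟨r, P₁, P₂, hr, hrπ, h1n, h2n, h21, h1P, hne, hmax, hpf, hc1, hc2, hpow, -, hnC⟩ :=
    sel π T (FL π m) (FL.top m) (fun A B _ _ h h' => h.inf h') (fun A B _ hB hle h => h.mono hB hle)
      (fun A B _ _ hle hPF hB => hB.absorb hle hPF) (P.subgroupOf T) hPn hPπ' hPsol' hclaim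
  obtain ⟨C, hCn, hC⟩ := exists_cent P₁ P₂ h1n h2n
  have hLT' : IsHall π (L.subgroupOf T) := hL.subgroupOf hLT
  have hP1C : P₁ ≤ C := by
    intro g hg
    rw [hC]
    intro x hx
    exact hc1 (Subgroup.commutator_mem_commutator hg hx)
  have hP1ne : P₁ ≠ ⊥ := by
    intro h
    apply hne
    rw [h] at h21 ⊢
    exact le_bot_iff.1 h21
  have hCidx : C.index ≤ n := by
    have h1 := C.index_mul_card
    have h2 : Nat.card T ≤ n + 1 := (Nat.card_le_card_of_injective _ T.subtype_injective).trans hcard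
    have h3 : 1 < Nat.card C := by
      have hCne : C ≠ ⊥ := by
        intro h
        rw [h] at hP1C
        exact hP1ne (le_bot_iff.1 hP1C)
      exact (Subgroup.one_lt_card_iff_ne_bot C).2 hCne
    have h4 : C.index * 2 ≤ n + 1 :=
      (Nat.mul_le_mul_left _ h3).trans (h1.le.trans h2)
    have h5 : 0 < Nat.card T := Nat.card_pos
    have h6 : C.index ≠ 0 := by
      intro h0
      rw [h0, zero_mul] at h1
      omega
    omega
  have hlarge : ¬ CE P₁ (DS (L.subgroupOf T)) (m + 1) ≤ P₂ := fun h =>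
    hnC C hC (hE T (L.subgroupOf T) P₁ P₂ C r (hsol.subgroup T) hLT' h1n h2n h21 hr hrπ hc1 hpow
      hC hCidx m h)
  have hinv : ∀ A : Subgroup T, A.Normal → Inv T (A.map T.subtype) := by
    rintro A hA g hg _ ⟨x, hx, rfl⟩
    exact ⟨(⟨g, hg⟩ : T) * x * (⟨g, hg⟩ : T)⁻¹, hA.conj_mem x hx _, rfl⟩
  refine ⟨r, T, P₁.map T.subtype, P₂.map T.subtype, ?_⟩
  exact
    { rp := hr
      rπ := hrπ
      LK := hLT
      NP := bot_le
      PP := Subgroup.map_mono h21
      PK := Subgroup.map_subtype_le P₁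
      inv₁ := hinv _ h1n
      inv₂ := hinv _ h2n
      max := by
        intro Z _ hZ1 hZinv
        have hZT : Z ≤ T := hZ1.trans (Subgroup.map_subtype_le P₁)
        have hZn : (Z.subgroupOf T).Normal := ⟨fun x hx g => by
          rw [Subgroup.mem_subgroupOf] at hx ⊢
          exact hZinv g g.2 x hx⟩
        have hZeq : (Z.subgroupOf T).map T.subtype = Z := Subgroup.map_subgroupOf_eq_of_le hZT
        have hZle : Z.subgroupOf T ≤ P₁ := by
          rw [← Subgroup.map_le_map_iff_of_injective T.subtype_injective, hZeq]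
          exact hZ1
        rcases hmax _ hZn hZle with h | h
        · left; rw [← hZeq, h]
        · right
          rw [← hZeq]
          exact Subgroup.map_mono h
      pf := by
        have := hpf.map T.subtype
        rwa [Subgroup.map_bot] at this
      comm₁ := by
        rw [← Subgroup.map_commutator]
        exact Subgroup.map_mono hc1
      comm₂ := by
        rw [← Subgroup.map_commutator, hc2, Subgroup.map_bot]
      large := by
        intro h
        apply hlarge
        rw [← Subgroup.map_le_map_iff_of_injective T.subtype_injective, CE.map,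
          Subgroup.map_subgroupOf_eq_of_le hLT]
        exact h }

theorem peStm (π : Set ℕ) (hπ : ∀ p ∈ π, p.Prime) (frh : FrHStm) (hh : HHStm) (sel : SelStm)
    (n : ℕ) (hE : EStm π n) : PEStm π (n + 1) := by
  intro G _ _ L N hsol hL hN hidx m hlen
  set f := QuotientGroup.mk' N with hf
  have hfs : Function.Surjective f := QuotientGroup.mk'_surjective N
  have hbot : (⊥ : Subgroup (G ⧸ N)).comap f = N := by
    rw [MonoidHom.comap_bot, QuotientGroup.ker_mk']
  obtain ⟨r, K, P₁, P₂, hd⟩ := core π hπ frh hh sel n hE (G ⧸ N) (L.map f) (hsol.quotient N)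
    (hL.map f hfs) hidx m (fun h => hlen (by
      have := h.comap f
      rwa [hbot] at this))
  have hinv : ∀ A : Subgroup (G ⧸ N), Inv K A → Inv (K.comap f) (A.comap f) := by
    intro A hA g hg x hx
    rw [Subgroup.mem_comap] at hg hx ⊢
    rw [map_mul, map_mul, map_inv]
    exact hA _ hg _ hx
  have hcomm : ∀ A B C : Subgroup (G ⧸ N), ⁅A, B⁆ ≤ C → ⁅A.comap f, B.comap f⁆ ≤ C.comap f := by
    intro A B C h
    rw [Subgroup.commutator_le]
    intro a ha b hb
    rw [Subgroup.mem_comap, map_commutatorElement]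
    exact h (Subgroup.commutator_mem_commutator ha hb)
  refine ⟨r, K.comap f, P₁.comap f, P₂.comap f, ?_⟩
  exact
    { rp := hd.rp
      rπ := hd.rπ
      LK := Subgroup.map_le_iff_le_comap.1 hd.LK
      NP := by
        have h := Subgroup.comap_mono (f := f) hd.NP
        rwa [hbot] at h
      PP := Subgroup.comap_mono hd.PP
      PK := Subgroup.comap_mono hd.PK
      inv₁ := hinv _ hd.inv₁
      inv₂ := hinv _ hd.inv₂
      max := by
        intro Y hNY hY1 hYinv
        have h1 : Y.map f ≤ P₁ := Subgroup.map_le_iff_le_comap.2 hY1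
        have h2 : Inv K (Y.map f) := by
          rintro g hg _ ⟨x, hx, rfl⟩
          obtain ⟨g', rfl⟩ := hfs g
          exact ⟨g' * x * g'⁻¹, hYinv g' hg x hx, by rw [map_mul, map_mul, map_inv]⟩
        rcases hd.max _ bot_le h1 h2 with h | h
        · left
          rw [← h, Subgroup.comap_map_eq, QuotientGroup.ker_mk', sup_eq_left.2 hNY]
        · right
          exact Subgroup.map_le_iff_le_comap.1 h
      pf := by
        have h := hd.pf.comap f
        rwa [hbot] at h
      comm₁ := hcomm _ _ _ hd.comm₁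
      comm₂ := by
        have h := hcomm _ _ _ hd.comm₂
        rwa [hbot] at h
      large := by
        intro h
        apply hd.large
        have h1 := Subgroup.map_mono (f := f) h
        rw [CE.map, Subgroup.map_comap_eq_self_of_surjective hfs,
          Subgroup.map_comap_eq_self_of_surjective hfs] at h1
        exact h1 }

end Pool.Agent.TH111.J825
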