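import Pool.Agent.TH62.PL.Stms
import Pool.Agent.TH62.PL.Stms2
import Pool.Agent.TH62.PL.Hall

set_option autoImplicit false

namespace Pool.Agent.TH111.J833

open Pool.Agent.TH62.PL
open scoped commutatorElement

/-- the centraliser of a section -/
lemma exists_cent {G : Type} [Group G] (R S : Subgroup G) (hR : R.Normal) (hS : S.Normal) :
    ∃ N : Subgroup G, N.Normal ∧ ∀ g, g ∈ N ↔ ∀ x ∈ R, g * x * g⁻¹ * x⁻¹ ∈ S := by
  refine ⟨
    { carrier := {g | ∀ x ∈ R, g * x * g⁻¹ * x⁻¹ ∈ S}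
      one_mem' := fun x _ => by simp
      mul_mem' := by
        intro g h hg hh x hx
        have h1 := hS.conj_mem _ (hh x hx) g
        have h2 := S.mul_mem h1 (hg x hx)
        have h3 : g * (h * x * h⁻¹ * x⁻¹) * g⁻¹ * (g * x * g⁻¹ * x⁻¹) =
          g * h * x * (g * h)⁻¹ * x⁻¹ := by group
        rwa [h3] at h2
      inv_mem' := by
        intro g hg x hx
        have h1 := hS.conj_mem _ (S.inv_mem (hg x hx)) g⁻¹
        have h3 : g⁻¹ * (g * x * g⁻¹ * x⁻¹)⁻¹ * g⁻¹⁻¹ = g⁻¹ * x * g⁻¹⁻¹ * x⁻¹ := by group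
        rwa [h3] at h1 }, ⟨?_⟩, fun g => Iff.rfl⟩
  intro g hg h x hx
  have h1 := hR.conj_mem x hx h⁻¹
  have h2 := hS.conj_mem _ (hg _ h1) h
  have h3 : h * (g * (h⁻¹ * x * h⁻¹⁻¹) * g⁻¹ * (h⁻¹ * x * h⁻¹⁻¹)⁻¹) * h⁻¹ =
    h * g * h⁻¹ * x * (h * g * h⁻¹)⁻¹ * x⁻¹ := by group
  rwa [h3] at h2

/-- the centraliser of a normal subgroup -/
lemma exists_cent' {G : Type} [Group G] (R : Subgroup G) (hR : R.Normal) :
    ∃ N : Subgroup G, N.Normal ∧ ∀ g, g ∈ N ↔ ∀ x ∈ R, g * x = x * g := by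
  obtain ⟨N, hN, h⟩ := exists_cent R ⊥ hR inferInstance
  refine ⟨N, hN, fun g => ?_⟩
  rw [h]
  constructor
  · intro h1 x hx
    have h2 := Subgroup.mem_bot.1 (h1 x hx)
    have h3 := mul_inv_eq_one.1 h2
    exact mul_inv_eq_iff_eq_mul.1 h3
  · intro h1 x hx
    rw [Subgroup.mem_bot, mul_inv_eq_one, mul_inv_eq_iff_eq_mul]
    exact h1 x hx

theorem msStm (π : Set ℕ) (hπ : ∀ p ∈ π, p.Prime) (sel : SelStm) (ab : AbStm) (odd : OddStm)
    (two : TwoStm) (n : ℕ) (hT : TStm π n) (hPE : PEStm π n) : MSStm π n := by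
  intro p q _ _ k G V _ _ _ _ _ _ _ _ ρ L hp hq hcard hsol hL l hV Q C hQn hQp hfaith hC
  have hpp : p.Prime := Fact.out
  have hqp : q.Prime := Fact.out
  have hpq : p ≠ q := fun h => hq (h ▸ hp)
  -- C is normal
  have hCn : C.Normal := by
    obtain ⟨N, hN, h⟩ := exists_cent' Q hQn
    have : C = N := Subgroup.ext fun g => by rw [hC, h]
    rw [this]; exact hN
  by_contra hcon
  cases l with
  | zero =>
    apply hcon
    refine hL.PF_top hCn fun g hg => ?_
    rw [hC]
    intro x hx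
    have h1 : ρ g = 1 := by
      ext v
      have h2 : ρ g v - v ∈ VC ρ (DS L) ⊤ (0 + 1) :=
        Submodule.subset_span ⟨g, hg, v, trivial, rfl⟩
      rw [hV, Submodule.mem_bot, sub_eq_zero] at h2
      exact h2
    have h3 : g * x * g⁻¹ * x⁻¹ ∈ Q := Q.mul_mem (hQn.conj_mem x hx g) (Q.inv_mem hx)
    have h4 : ρ (g * x * g⁻¹ * x⁻¹) = 1 := by
      have h5 : ρ g⁻¹ = 1 := by
        have h6 : ρ g * ρ g⁻¹ = 1 := by rw [← map_mul, mul_inv_cancel, map_one]
        rwa [h1, one_mul] at h6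
      rw [map_mul, map_mul, map_mul, h1, h5, one_mul, mul_one, ← map_mul, mul_inv_cancel, map_one]
    have h5 := hfaith _ h3 h4
    exact mul_inv_eq_iff_eq_mul.1 (mul_inv_eq_one.1 h5)
  | succ l₀ =>
    have hPFQ : PF πᶜ ⊥ Q := by
      intro x hx
      obtain ⟨k, hk⟩ := hQp ⟨x, hx⟩
      refine ⟨q ^ k, (PN.prime_pow hqp k).mono (by
        intro r hr
        rw [Set.mem_singleton_iff] at hr
        subst hr
        exact hq), ?_⟩
      have h9 := congrArg Subtype.val hk
      rw [Subgroup.mem_bot]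
      simpa only [Subgroup.coe_pow, Subgroup.coe_one] using h9
    have hQsol : Group.IsSolvable Q := by
      have h2 : Group.IsNilpotent Q := hQp.isNilpotent
      infer_instance
    obtain ⟨r, R, S, hr, hrσ, hRn, hSn, hSR, hRQ, hne, hmax, hPFR, hRR, hRS, hpow, hnC, hnN⟩ :=
      sel πᶜ G (Len π (l₀ + 1)) (Len.top _) (fun A B _ _ h h' => h.inf h')
        (fun A B _ hB hle h => h.mono hB hle) (fun A B _ _ hle hPF hB => Len.absorb hle hPF hB)
        Q hQn hPFQ hQsol (fun C' hC' h => hcon (by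
          have : C' = C := Subgroup.ext fun g => by rw [hC', hC]
          rwa [← this]))
    have hRp : IsPGroup q R := hQp.to_le hRQ
    -- r = q
    have hrq : r = q := by
      have h1 : ∃ x ∈ R, x ≠ 1 := by
        by_contra hno
        push Not at hno
        apply hne
        have h2 : R = ⊥ := by
          rw [eq_bot_iff]; intro x hx; rw [Subgroup.mem_bot]; exact hno x hx
        rw [h2] at hSR ⊢
        exact le_bot_iff.1 hSR
      obtain ⟨x, hx, hx1⟩ := h1
      have h2 := hPFR.orderOf hx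
      obtain ⟨k, hk⟩ := hRp ⟨x, hx⟩
      have h9 := congrArg Subtype.val hk
      simp only [Subgroup.coe_pow, Subgroup.coe_one] at h9
      have h3 : orderOf x ∣ q ^ k := orderOf_dvd_of_pow_eq_one h9
      obtain ⟨s, hs, hsd⟩ := Nat.exists_prime_and_dvd (n := orderOf x)
        (fun h => hx1 (orderOf_eq_one_iff.1 h))
      have h4 : s = r := by
        have := h2.2 s hs hsd
        rwa [Set.mem_singleton_iff] at this
      have h5 : s = q := (Nat.prime_dvd_prime_iff_eq hs hqp).1 (hs.dvd_of_dvd_pow (hsd.trans h3))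
      rw [← h4, h5]
    subst hrq
    obtain ⟨CR, hCRn, hCR⟩ := exists_cent' R hRn
    obtain ⟨N, hNn, hN⟩ := exists_cent R S hRn hSn
    have hnCR : ¬ DS L (l₀ + 1) ≤ CR := fun h => hnC CR hCR (hT G L CR hcard hsol hL hCRn _ h)
    have hnN' : ¬ DS L (l₀ + 1) ≤ N := fun h => hnN N hN (hT G L N hcard hsol hL hNn _ h)
    have hLsol : Group.IsSolvable L := hsol.isSolvable hπ hL.1
    have hfaithR : ∀ x ∈ R, ρ x = 1 → x = 1 := fun x hx => hfaith x (hRQ hx)
    have hcardR : ((Nat.card R : ℕ) : k) ≠ 0 := by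
      obtain ⟨m, hm⟩ := IsPGroup.iff_card.1 hRp
      intro h0
      rw [hm] at h0
      have h1 : p ∣ r ^ m := (CharP.cast_eq_zero_iff k p _).1 h0
      exact hpq ((Nat.prime_dvd_prime_iff_eq hpp hqp).1 (hpp.dvd_of_dvd_pow h1))
    have hnab : ¬ (∀ x ∈ R, ∀ y ∈ R, x * y = y * x) := by
      intro hab
      apply hnCR
      intro g hg
      rw [hCR]
      exact ab p k G V ρ L hLsol (l₀ + 1) hV R hRn hab hcardR hfaithR g hg
    have hQD : QD r R S :=
      { Qn := hRn
        Zn := hSn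
        ZQ := hSR
        pg := hRp
        cent := by
          intro z hz x hx
          have h1 : ⁅x, z⁆ ∈ ⁅R, S⁆ := Subgroup.commutator_mem_commutator hx hz
          rw [hRS, Subgroup.mem_bot, commutatorElement_eq_one_iff_mul_comm] at h1
          exact h1.symm
        comm := by
          intro x hx y hy
          exact hRR (Subgroup.commutator_mem_commutator hx hy)
        pow := hpow
        full := by
          intro x hx hxc
          have hYn : (R ⊓ CR).Normal := Subgroup.normal_inf_normal R CR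
          rcases hmax (R ⊓ CR) hYn inf_le_left with h | h
          · exfalso
            apply hnab
            intro a ha b hb
            have h1 : a ∈ R ⊓ CR := h.symm.le ha
            exact (hCR a).1 h1.2 b hb
          · exact h ⟨hx, (hCR x).2 hxc⟩ }
    have hcop : ∀ g ∈ L, (orderOf g).Coprime r := by
      intro g hg
      exact (hL.1.orderOf hg).coprime (PN.prime hqp hrσ)
    by_cases hp2 : p = 2
    · subst hp2
      have hidx : N.index ≤ n :=
        (Nat.le_of_dvd Nat.card_pos (Subgroup.index_dvd_card N)).trans hcard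
      obtain ⟨s, K, P₁, P₂, hPED⟩ := hPE G L N hsol hL hNn hidx l₀ (hnN N hN)
      exact two π r k G V ρ L R S N l₀ s K P₁ P₂ hp hq hL hLsol hV hQD hfaithR hN hPED
    · apply hnN'
      intro g hg
      rw [hN]
      exact odd p r k G V ρ L R S (l₀ + 1) hp2 hpq hLsol hcop hV hQD hfaithR g hg

end Pool.Agent.TH111.J833
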