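import Mathlib

set_option autoImplicit false

namespace Pool.Agent.TH111.J925

open Filter Topology

/-- the time horizon -/
noncomputable def hor (D m : ℕ) (δ : ℝ) : ℕ := m * (⌈(m.factorial : ℝ) / δ⌉₊ + 1) + D

/-- the exponents -/
def ex (D : ℕ) : ℕ → ℕ
  | 0 => 1
  | j + 1 => (ex D j + D + 1 + 1) * D + D + (ex D j + D + 1) + 4

lemma ex_pos (D j : ℕ) : 1 ≤ ex D j := by
  cases j with
  | zero => exact le_rfl
  | succ j => simp only [ex]; omega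

lemma ex_step (D j : ℕ) : ex D j + D + 5 ≤ ex D (j + 1) := by
  simp only [ex]; omega

lemma ex_mono (D : ℕ) : Monotone (ex D) := by
  apply monotone_nat_of_le_succ
  intro j
  have := ex_step D j
  omega

lemma ev1 (D E L N C : ℕ) (lam : ℝ) (h0 : 0 ≤ lam) (h1 : lam < 1) :
    ∀ᶠ R : ℕ in atTop, (L : ℝ) * (((C * R ^ ((2 ^ D + 2) * 2 ^ D) * (R ^ 2 ^ D + D) ^ E + 1 : ℕ) : ℝ) ^ N *
      (2 * lam ^ R)) < 1 / 4 := by
  obtain ⟨p, hp⟩ : ∃ p, p = (2 ^ D + 2) * 2 ^ D + 2 ^ D * E := ⟨_, rfl⟩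
  obtain ⟨c, hc⟩ : ∃ c : ℕ, c = C * (D + 1) ^ E + 1 := ⟨_, rfl⟩
  have ht := (tendsto_pow_const_mul_const_pow_of_lt_one (p * N) h0 h1).const_mul
    ((L : ℝ) * ((c : ℝ) ^ N * 2))
  rw [mul_zero] at ht
  have hev := ht.eventually (gt_mem_nhds (show (0 : ℝ) < 1 / 4 by norm_num))
  filter_upwards [hev, eventually_ge_atTop 1] with R hR hR1
  refine lt_of_le_of_lt ?_ hR
  have hb : C * R ^ ((2 ^ D + 2) * 2 ^ D) * (R ^ 2 ^ D + D) ^ E + 1 ≤ c * R ^ p := by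
    have h2 : R ^ 2 ^ D + D ≤ (D + 1) * R ^ 2 ^ D := by
      have : 1 ≤ R ^ 2 ^ D := Nat.one_le_pow _ _ hR1
      nlinarith
    have h3 : (R ^ 2 ^ D + D) ^ E ≤ (D + 1) ^ E * R ^ (2 ^ D * E) := by
      calc (R ^ 2 ^ D + D) ^ E ≤ ((D + 1) * R ^ 2 ^ D) ^ E := Nat.pow_le_pow_left h2 E
        _ = (D + 1) ^ E * R ^ (2 ^ D * E) := by rw [mul_pow, ← pow_mul]
    calc C * R ^ ((2 ^ D + 2) * 2 ^ D) * (R ^ 2 ^ D + D) ^ E + 1
        ≤ C * R ^ ((2 ^ D + 2) * 2 ^ D) * ((D + 1) ^ E * R ^ (2 ^ D * E)) + R ^ p :=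
          add_le_add (Nat.mul_le_mul_left _ h3) (Nat.one_le_pow _ _ hR1)
      _ = c * R ^ p := by rw [hc, hp, pow_add]; ring
  have hb' : ((C * R ^ ((2 ^ D + 2) * 2 ^ D) * (R ^ 2 ^ D + D) ^ E + 1 : ℕ) : ℝ) ≤ c * (R : ℝ) ^ p := by
    exact_mod_cast hb
  have hb2 : ((C * R ^ ((2 ^ D + 2) * 2 ^ D) * (R ^ 2 ^ D + D) ^ E + 1 : ℕ) : ℝ) ^ N ≤
      (c : ℝ) ^ N * (R : ℝ) ^ (p * N) := by
    refine (pow_le_pow_left₀ (Nat.cast_nonneg _) hb' N).trans (le_of_eq ?_)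
    rw [mul_pow, ← pow_mul]
  have hl : 0 ≤ 2 * lam ^ R := by positivity
  calc (L : ℝ) * (((C * R ^ ((2 ^ D + 2) * 2 ^ D) * (R ^ 2 ^ D + D) ^ E + 1 : ℕ) : ℝ) ^ N *
        (2 * lam ^ R)) ≤ (L : ℝ) * (((c : ℝ) ^ N * (R : ℝ) ^ (p * N)) * (2 * lam ^ R)) := by
        apply mul_le_mul_of_nonneg_left _ (Nat.cast_nonneg _)
        exact mul_le_mul_of_nonneg_right hb2 hl
    _ = (L : ℝ) * ((c : ℝ) ^ N * 2) * ((R : ℝ) ^ (p * N) * lam ^ R) := by ring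

/-- the base -/
noncomputable def TT (D c6 R : ℕ) : ℝ :=
  (c6 : ℝ) * ((R ^ 2 ^ D : ℕ) : ℝ) * ((R ^ 2 ^ D).factorial : ℝ) *
    ((R ^ ((2 ^ D + 2) * 2 ^ D) : ℕ) : ℝ)

lemma TT_le (D c6 R : ℕ) (hR : 1 ≤ R) : ∃ c1 : ℕ, c1 = 2 ^ D + 2 ^ D + (2 ^ D + 2) * 2 ^ D ∧
    TT D c6 R ≤ c6 * 2 ^ (c1 * R ^ (2 ^ D + 1)) := by
  refine ⟨_, rfl, ?_⟩
  obtain ⟨e, he⟩ : ∃ e, e = 2 ^ D := ⟨_, rfl⟩
  unfold TT
  rw [← he]
  have h1 : R ^ e * (R ^ e).factorial * R ^ ((e + 2) * e) ≤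
      2 ^ ((e + e + (e + 2) * e) * R ^ (e + 1)) := by
    have h2 : (R ^ e).factorial ≤ (R ^ e) ^ (R ^ e) := Nat.factorial_le_pow _
    have h3 : 1 ≤ R ^ e := Nat.one_le_pow _ _ hR
    calc R ^ e * (R ^ e).factorial * R ^ ((e + 2) * e)
        ≤ R ^ e * (R ^ e) ^ (R ^ e) * R ^ ((e + 2) * e) :=
          Nat.mul_le_mul_right _ (Nat.mul_le_mul_left _ h2)
      _ = R ^ (e + e * R ^ e + (e + 2) * e) := by rw [← pow_mul, pow_add, pow_add]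
      _ ≤ R ^ ((e + e + (e + 2) * e) * R ^ e) := by
          apply Nat.pow_le_pow_right hR
          nlinarith [Nat.mul_le_mul_left e h3, Nat.mul_le_mul_left ((e + 2) * e) h3]
      _ ≤ (2 ^ R) ^ ((e + e + (e + 2) * e) * R ^ e) :=
          Nat.pow_le_pow_left Nat.lt_two_pow_self.le _
      _ = 2 ^ ((e + e + (e + 2) * e) * R ^ (e + 1)) := by
          rw [← pow_mul]; congr 1; ring
  have h2 : ((R ^ e : ℕ) : ℝ) * ((R ^ e).factorial : ℝ) * ((R ^ ((e + 2) * e) : ℕ) : ℝ) ≤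
      2 ^ ((e + e + (e + 2) * e) * R ^ (e + 1)) := by exact_mod_cast h1
  calc (c6 : ℝ) * ((R ^ e : ℕ) : ℝ) * ((R ^ e).factorial : ℝ) * ((R ^ ((e + 2) * e) : ℕ) : ℝ)
      = c6 * (((R ^ e : ℕ) : ℝ) * ((R ^ e).factorial : ℝ) * ((R ^ ((e + 2) * e) : ℕ) : ℝ)) := by ring
    _ ≤ c6 * 2 ^ ((e + e + (e + 2) * e) * R ^ (e + 1)) :=
        mul_le_mul_of_nonneg_left h2 (Nat.cast_nonneg _)

lemma TT_nonneg (D c6 R : ℕ) : 0 ≤ TT D c6 R := by unfold TT; positivity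

lemma ev2 (D c6 E' : ℕ) (A lam : ℝ) (hA : 0 ≤ A) (h0 : 0 ≤ lam) (h1 : lam < 1) :
    ∀ᶠ R : ℕ in atTop, A * (TT D c6 R ^ E' * lam ^ (R ^ (2 ^ D + 2))) < 1 / 4 := by
  obtain ⟨c1, hc1⟩ : ∃ c1 : ℕ, c1 = 2 ^ D + 2 ^ D + (2 ^ D + 2) * 2 ^ D := ⟨_, rfl⟩
  have ht1 : Tendsto (fun R : ℕ => (2 : ℝ) ^ (c1 * E') * lam ^ R) atTop (𝓝 0) := by
    have := (tendsto_pow_atTop_nhds_zero_of_lt_one h0 h1).const_mul ((2 : ℝ) ^ (c1 * E'))
    rwa [mul_zero] at this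
  have hev1 := ht1.eventually (gt_mem_nhds (show (0 : ℝ) < 1 / 2 by norm_num))
  have ht2 : Tendsto (fun R : ℕ => A * (c6 : ℝ) ^ E' * (1 / 2 : ℝ) ^ R) atTop (𝓝 0) := by
    have := (tendsto_pow_atTop_nhds_zero_of_lt_one (r := (1 / 2 : ℝ)) (by norm_num)
      (by norm_num)).const_mul (A * (c6 : ℝ) ^ E')
    rwa [mul_zero] at this
  have hev2 := ht2.eventually (gt_mem_nhds (show (0 : ℝ) < 1 / 4 by norm_num))
  filter_upwards [hev1, hev2, eventually_ge_atTop 1] with R hR1 hR2 hR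
  refine lt_of_le_of_lt ?_ hR2
  obtain ⟨c1', hc1', hT⟩ := TT_le D c6 R hR
  rw [← hc1] at hc1'
  subst hc1'
  have hX : R ≤ R ^ (2 ^ D + 1) := by
    calc R = R ^ 1 := (pow_one R).symm
      _ ≤ R ^ (2 ^ D + 1) := Nat.pow_le_pow_right hR (Nat.le_add_left 1 _)
  have h3 : TT D c6 R ^ E' ≤ (c6 : ℝ) ^ E' * (2 ^ (c1' * E')) ^ (R ^ (2 ^ D + 1)) := by
    refine (pow_le_pow_left₀ (TT_nonneg D c6 R) hT E').trans (le_of_eq ?_)
    rw [mul_pow, ← pow_mul, ← pow_mul]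
    congr 2; ring
  have h4 : lam ^ (R ^ (2 ^ D + 2)) = (lam ^ R) ^ (R ^ (2 ^ D + 1)) := by
    rw [← pow_mul]; congr 1; ring
  have h5 : TT D c6 R ^ E' * lam ^ (R ^ (2 ^ D + 2)) ≤ (c6 : ℝ) ^ E' * (1 / 2 : ℝ) ^ R := by
    calc TT D c6 R ^ E' * lam ^ (R ^ (2 ^ D + 2))
        ≤ ((c6 : ℝ) ^ E' * (2 ^ (c1' * E')) ^ (R ^ (2 ^ D + 1))) * lam ^ (R ^ (2 ^ D + 2)) :=
          mul_le_mul_of_nonneg_right h3 (pow_nonneg h0 _)
      _ = (c6 : ℝ) ^ E' * (2 ^ (c1' * E') * lam ^ R) ^ (R ^ (2 ^ D + 1)) := by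
          rw [h4, mul_pow]; ring
      _ ≤ (c6 : ℝ) ^ E' * (1 / 2 : ℝ) ^ (R ^ (2 ^ D + 1)) := by
          apply mul_le_mul_of_nonneg_left _ (by positivity)
          exact pow_le_pow_left₀ (by positivity) hR1.le _
      _ ≤ (c6 : ℝ) ^ E' * (1 / 2 : ℝ) ^ R := by
          apply mul_le_mul_of_nonneg_left _ (by positivity)
          exact pow_le_pow_of_le_one (by norm_num) (by norm_num) hX
  calc A * (TT D c6 R ^ E' * lam ^ (R ^ (2 ^ D + 2)))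
      ≤ A * ((c6 : ℝ) ^ E' * (1 / 2 : ℝ) ^ R) := mul_le_mul_of_nonneg_left h5 hA
    _ = A * (c6 : ℝ) ^ E' * (1 / 2 : ℝ) ^ R := by ring

theorem params (D E L N C : ℕ) (lam : ℝ) (h0 : 0 ≤ lam) (h1 : lam < 1) (ε : ℝ) (hε : 0 < ε) :
    ∃ (R RB m K : ℕ) (θ δ : ℕ → ℝ), 0 < R ∧ 0 < RB ∧ 0 < m ∧ 0 < K ∧
      R ^ (2 ^ D) ≤ m + 1 ∧ RB ^ (2 ^ D) ≤ K ∧ θ L ≤ ε ∧
      (∀ n < L, 0 < θ n ∧ 0 < δ n ∧
        (C : ℝ) * (m.factorial : ℝ) ^ D * θ n + (m.factorial : ℝ) ^ D * δ n ≤ θ (n + 1) ∧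
        (C : ℝ) * (m.factorial : ℝ) ^ D * θ n < 1 / 2 ∧
        (C : ℝ) * θ n * (hor D m (δ n) : ℝ) ^ D * K ≤ 1) ∧
      (L : ℝ) * (((C * K * (m + D) ^ E + 1 : ℕ) : ℝ) ^ N * (2 * lam ^ R)) < 1 / 4 ∧
      ∀ n < L, (L : ℝ) * (((C * K * (hor D m (δ n)) ^ E + 1 : ℕ) : ℝ) ^ N *
        (2 * lam ^ RB)) < 1 / 4 := by
  obtain ⟨c6, hc6⟩ : ∃ c6 : ℕ, c6 = C + D + 3 + ⌈1 / ε⌉₊ := ⟨_, rfl⟩
  obtain ⟨E', hE'⟩ : ∃ E' : ℕ, E' = (E * ex D L + 3) * N := ⟨_, rfl⟩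
  obtain ⟨R, hR1, hR2, hR⟩ := ((ev1 D E L N C lam h0 h1).and ((ev2 D c6 E' ((L : ℝ) * 2) lam
    (by positivity) h0 h1).and (eventually_ge_atTop 1))).exists
  obtain ⟨T, hT⟩ : ∃ T, T = TT D c6 R := ⟨_, rfl⟩
  rw [← hT] at hR2
  obtain ⟨m, hm⟩ : ∃ m : ℕ, m = R ^ 2 ^ D := ⟨_, rfl⟩
  obtain ⟨K, hK⟩ : ∃ K : ℕ, K = R ^ ((2 ^ D + 2) * 2 ^ D) := ⟨_, rfl⟩
  have hm1 : 1 ≤ m := by rw [hm]; exact Nat.one_le_pow _ _ hR
  have hK1 : 1 ≤ K := by rw [hK]; exact Nat.one_le_pow _ _ hR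
  have hmR : (1 : ℝ) ≤ m := by exact_mod_cast hm1
  have hKR : (1 : ℝ) ≤ K := by exact_mod_cast hK1
  have hf1 : (1 : ℝ) ≤ (m.factorial : ℝ) := by exact_mod_cast Nat.factorial_pos m
  have hTeq : T = (c6 : ℝ) * m * (m.factorial : ℝ) * K := by
    rw [hT, TT, ← hm, ← hK]
  have hc6R : (c6 : ℝ) = C + D + 3 + (⌈1 / ε⌉₊ : ℝ) := by rw [hc6]; push_cast; ring
  have hceil : 1 / ε ≤ (⌈1 / ε⌉₊ : ℝ) := Nat.le_ceil _
  have hεp : 0 < 1 / ε := by positivity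
  have hC0 : (0 : ℝ) ≤ C := Nat.cast_nonneg _
  have hD0 : (0 : ℝ) ≤ D := Nat.cast_nonneg _
  have hc63 : (3 : ℝ) ≤ c6 := by rw [hc6R]; linarith
  have hprod : ∀ a : ℝ, 0 ≤ a → a ≤ c6 → a * (m * (m.factorial : ℝ) * K) ≤ T := by
    intro a _ ha
    rw [hTeq]
    have : (0 : ℝ) ≤ m * (m.factorial : ℝ) * K := by positivity
    calc a * (m * (m.factorial : ℝ) * K) ≤ c6 * (m * (m.factorial : ℝ) * K) :=
          mul_le_mul_of_nonneg_right ha this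
      _ = (c6 : ℝ) * m * (m.factorial : ℝ) * K := by ring
  have hmf : (1 : ℝ) ≤ m * (m.factorial : ℝ) := one_le_mul_of_one_le_of_one_le hmR hf1
  have hmfK : (1 : ℝ) ≤ m * (m.factorial : ℝ) * K := one_le_mul_of_one_le_of_one_le hmf hKR
  have hge : ∀ a : ℝ, 0 ≤ a → a ≤ c6 → a ≤ T := by
    intro a ha0 ha
    exact (le_mul_of_one_le_right ha0 hmfK).trans (hprod a ha0 ha)
  have hT3 : 3 ≤ T := hge 3 (by norm_num) hc63
  have hT1 : 1 ≤ T := by linarith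
  have hT0 : 0 < T := by linarith
  have hCT : (C : ℝ) ≤ T := hge C hC0 (by rw [hc6R]; linarith)
  have hKT : (K : ℝ) ≤ T := by
    refine le_trans ?_ (hprod 1 zero_le_one (by linarith))
    rw [one_mul]
    exact le_mul_of_one_le_left (by linarith) hmf
  have hfT : (m.factorial : ℝ) ≤ T := by
    refine le_trans ?_ (hprod 1 zero_le_one (by linarith))
    rw [one_mul]
    calc (m.factorial : ℝ) ≤ m * (m.factorial : ℝ) := le_mul_of_one_le_left (by linarith) hmR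
      _ ≤ m * (m.factorial : ℝ) * K := le_mul_of_one_le_right (by linarith) hKR
  have hDm : ((D : ℝ) + 3) * (m * (m.factorial : ℝ)) ≤ T := by
    refine le_trans ?_ (hprod ((D : ℝ) + 3) (by linarith) (by rw [hc6R]; linarith))
    apply mul_le_mul_of_nonneg_left _ (by linarith)
    exact le_mul_of_one_le_right (by linarith) hKR
  have hεT : 1 / ε ≤ T := hge _ hεp.le (by rw [hc6R]; linarith)
  -- monotonicity of powers
  have hpw : ∀ {a b : ℕ}, a ≤ b → T ^ a ≤ T ^ b := fun h => pow_le_pow_right₀ hT1 h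
  have hTp : ∀ a : ℕ, 0 < T ^ a := fun a => pow_pos hT0 a
  -- horizon
  have hhor : ∀ B : ℕ, (hor D m ((T ^ B)⁻¹) : ℝ) ≤ T ^ (B + 1) := by
    intro B
    unfold hor
    rw [div_inv_eq_mul]
    have hTB : 1 ≤ T ^ B := one_le_pow₀ hT1
    have h2 : (0 : ℝ) ≤ (m.factorial : ℝ) * T ^ B := by positivity
    have h3 : (1 : ℝ) ≤ (m.factorial : ℝ) * T ^ B := one_le_mul_of_one_le_of_one_le hf1 hTB
    have h4 : (⌈(m.factorial : ℝ) * T ^ B⌉₊ : ℝ) ≤ (m.factorial : ℝ) * T ^ B + 1 :=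
      (Nat.ceil_lt_add_one h2).le
    push_cast
    have h5 : (1 : ℝ) ≤ m * ((m.factorial : ℝ) * T ^ B) := one_le_mul_of_one_le_of_one_le hmR h3
    have h6 : (m : ℝ) ≤ m * ((m.factorial : ℝ) * T ^ B) := le_mul_of_one_le_right (by linarith) h3
    calc (m : ℝ) * ((⌈(m.factorial : ℝ) * T ^ B⌉₊ : ℝ) + 1) + D
        ≤ m * (((m.factorial : ℝ) * T ^ B + 1) + 1) + D := by
          have := mul_le_mul_of_nonneg_left (add_le_add_left h4 1) (by linarith : (0 : ℝ) ≤ m)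
          linarith
      _ = m * ((m.factorial : ℝ) * T ^ B) + 2 * m + D * 1 := by ring
      _ ≤ m * ((m.factorial : ℝ) * T ^ B) + 2 * (m * ((m.factorial : ℝ) * T ^ B)) +
          D * (m * ((m.factorial : ℝ) * T ^ B)) := by
          have := mul_le_mul_of_nonneg_left h5 hD0
          linarith
      _ = ((D : ℝ) + 3) * (m * (m.factorial : ℝ)) * T ^ B := by ring
      _ ≤ T * T ^ B := mul_le_mul_of_nonneg_right hDm (hTp B).le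
      _ = T ^ (B + 1) := by ring
  refine ⟨R, R ^ (2 ^ D + 2), m, K, fun n => (T ^ ex D (L - n))⁻¹,
    fun n => (T ^ (ex D (L - n - 1) + D + 1))⁻¹, hR, by positivity, hm1, hK1, by omega, ?_, ?_, ?_,
    ?_, ?_⟩
  · rw [hK, pow_mul]
  · have h2 : ex D (L - L) = 1 := by rw [Nat.sub_self]; rfl
    change (T ^ ex D (L - L))⁻¹ ≤ ε
    rw [h2, pow_one]
    rw [inv_le_comm₀ hT0 hε, ← one_div]
    exact hεT
  · intro n hn
    obtain ⟨j, hj⟩ : ∃ j, L - n = j + 1 := ⟨L - n - 1, by omega⟩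
    have hj1 : L - n - 1 = j := by omega
    have hj2 : L - (n + 1) = j := by omega
    change 0 < (T ^ ex D (L - n))⁻¹ ∧ 0 < (T ^ (ex D (L - n - 1) + D + 1))⁻¹ ∧
        (C : ℝ) * (m.factorial : ℝ) ^ D * (T ^ ex D (L - n))⁻¹ +
          (m.factorial : ℝ) ^ D * (T ^ (ex D (L - n - 1) + D + 1))⁻¹ ≤ (T ^ ex D (L - (n + 1)))⁻¹ ∧
        (C : ℝ) * (m.factorial : ℝ) ^ D * (T ^ ex D (L - n))⁻¹ < 1 / 2 ∧
        (C : ℝ) * (T ^ ex D (L - n))⁻¹ *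
          (hor D m ((T ^ (ex D (L - n - 1) + D + 1))⁻¹) : ℝ) ^ D * K ≤ 1
    rw [hj2, hj1, hj]
    obtain ⟨a, ha⟩ : ∃ a, a = ex D j := ⟨_, rfl⟩
    have hex : ex D (j + 1) = (a + D + 1 + 1) * D + D + (a + D + 1) + 4 := by rw [ha]; rfl
    have ha1 : 1 ≤ a := by rw [ha]; exact ex_pos D j
    rw [← ha]
    have hfD : (m.factorial : ℝ) ^ D ≤ T ^ D := pow_le_pow_left₀ (by linarith) hfT D
    have hCf : (C : ℝ) * (m.factorial : ℝ) ^ D ≤ T ^ (D + 1) := by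
      calc (C : ℝ) * (m.factorial : ℝ) ^ D ≤ T * T ^ D :=
            mul_le_mul hCT hfD (by positivity) hT0.le
        _ = T ^ (D + 1) := by ring
    have hinv : ∀ x y : ℕ, T ^ x * (T ^ (x + y))⁻¹ = (T ^ y)⁻¹ := by
      intro x y
      rw [pow_add, mul_inv, ← mul_assoc, mul_inv_cancel₀ (hTp x).ne', one_mul]
    have hinvle : ∀ {x y : ℕ}, x ≤ y → (T ^ y)⁻¹ ≤ (T ^ x)⁻¹ := fun h =>
      inv_anti₀ (hTp _) (hpw h)
    have hhalf : ∀ x : ℕ, (T ^ (x + 1))⁻¹ ≤ (T ^ x)⁻¹ / 2 := by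
      intro x
      rw [pow_succ, mul_inv, div_eq_mul_inv]
      apply mul_le_mul_of_nonneg_left _ (inv_nonneg.2 (hTp x).le)
      exact inv_anti₀ (by norm_num) (by linarith)
    have hterm1 : (C : ℝ) * (m.factorial : ℝ) ^ D * (T ^ ex D (j + 1))⁻¹ ≤ (T ^ (a + 1))⁻¹ := by
      calc (C : ℝ) * (m.factorial : ℝ) ^ D * (T ^ ex D (j + 1))⁻¹
          ≤ T ^ (D + 1) * (T ^ ex D (j + 1))⁻¹ :=
            mul_le_mul_of_nonneg_right hCf (inv_nonneg.2 (hTp _).le)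
        _ ≤ T ^ (D + 1) * (T ^ ((D + 1) + (a + 1)))⁻¹ := by
            apply mul_le_mul_of_nonneg_left _ (hTp _).le
            apply hinvle
            rw [hex]; omega
        _ = (T ^ (a + 1))⁻¹ := hinv _ _
    have hterm2 : (m.factorial : ℝ) ^ D * (T ^ (a + D + 1))⁻¹ ≤ (T ^ (a + 1))⁻¹ := by
      calc (m.factorial : ℝ) ^ D * (T ^ (a + D + 1))⁻¹ ≤ T ^ D * (T ^ (a + D + 1))⁻¹ :=
            mul_le_mul_of_nonneg_right hfD (inv_nonneg.2 (hTp _).le)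
        _ = T ^ D * (T ^ (D + (a + 1)))⁻¹ := by congr 3; ring
        _ = (T ^ (a + 1))⁻¹ := hinv _ _
    have hh := hhalf a
    refine ⟨inv_pos.2 (hTp _), inv_pos.2 (hTp _), ?_, ?_, ?_⟩
    · linarith
    · have h3 : (T ^ a)⁻¹ < 1 := by
        apply inv_lt_one_of_one_lt₀
        exact one_lt_pow₀ (by linarith) (by omega)
      linarith
    · have hor1 : (hor D m ((T ^ (a + D + 1))⁻¹) : ℝ) ^ D ≤ T ^ ((a + D + 1 + 1) * D) := by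
        rw [pow_mul]
        exact pow_le_pow_left₀ (Nat.cast_nonneg _) (hhor _) D
      calc (C : ℝ) * (T ^ ex D (j + 1))⁻¹ * (hor D m ((T ^ (a + D + 1))⁻¹) : ℝ) ^ D * K
          = (C : ℝ) * (hor D m ((T ^ (a + D + 1))⁻¹) : ℝ) ^ D * K * (T ^ ex D (j + 1))⁻¹ := by ring
        _ ≤ T * T ^ ((a + D + 1 + 1) * D) * T * (T ^ ex D (j + 1))⁻¹ := by
            apply mul_le_mul_of_nonneg_right _ (inv_nonneg.2 (hTp _).le)
            exact mul_le_mul (mul_le_mul hCT hor1 (by positivity) hT0.le) hKT (by positivity)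
              (by positivity)
        _ = T ^ ((a + D + 1 + 1) * D + 2) * (T ^ ex D (j + 1))⁻¹ := by ring
        _ ≤ T ^ ((a + D + 1 + 1) * D + 2) * (T ^ ((a + D + 1 + 1) * D + 2))⁻¹ := by
            apply mul_le_mul_of_nonneg_left _ (hTp _).le
            apply hinvle
            rw [hex]; omega
        _ = 1 := mul_inv_cancel₀ (hTp _).ne'
  · rw [hK, hm]; exact hR1
  · intro n hn
    change (L : ℝ) * (((C * K * (hor D m ((T ^ (ex D (L - n - 1) + D + 1))⁻¹)) ^ E + 1 : ℕ) : ℝ) ^ N *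
      (2 * lam ^ (R ^ (2 ^ D + 2)))) < 1 / 4
    obtain ⟨B, hB⟩ : ∃ B, B = ex D (L - n - 1) + D + 1 := ⟨_, rfl⟩
    rw [← hB]
    have hB1 : B + 1 ≤ ex D L := by
      have h2 := ex_step D (L - n - 1)
      have h3 : ex D (L - n - 1 + 1) ≤ ex D L := ex_mono D (by omega)
      omega
    have hh : (hor D m ((T ^ B)⁻¹) : ℝ) ^ E ≤ T ^ (E * ex D L) := by
      calc (hor D m ((T ^ B)⁻¹) : ℝ) ^ E ≤ (T ^ (B + 1)) ^ E :=
            pow_le_pow_left₀ (Nat.cast_nonneg _) (hhor _) E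
        _ ≤ (T ^ ex D L) ^ E := pow_le_pow_left₀ (hTp _).le (hpw hB1) E
        _ = T ^ (E * ex D L) := by rw [← pow_mul]; congr 1; ring
    have h2 : ((C * K * (hor D m ((T ^ B)⁻¹)) ^ E + 1 : ℕ) : ℝ) ≤ T ^ (E * ex D L + 3) := by
      push_cast
      have h3 : (C : ℝ) * K * (hor D m ((T ^ B)⁻¹) : ℝ) ^ E ≤ T * T * T ^ (E * ex D L) :=
        mul_le_mul (mul_le_mul hCT hKT (by positivity) hT0.le) hh (by positivity) (by positivity)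
      have h4 : T * T * T ^ (E * ex D L) = T ^ (E * ex D L + 2) := by ring
      have h5 : (1 : ℝ) ≤ T ^ (E * ex D L + 2) := one_le_pow₀ hT1
      have h6 : T ^ (E * ex D L + 3) = T * T ^ (E * ex D L + 2) := by ring
      rw [h4] at h3
      have h7 : 3 * T ^ (E * ex D L + 2) ≤ T * T ^ (E * ex D L + 2) :=
        mul_le_mul_of_nonneg_right hT3 (by linarith)
      rw [h6]
      linarith
    have h3 : ((C * K * (hor D m ((T ^ B)⁻¹)) ^ E + 1 : ℕ) : ℝ) ^ N ≤ T ^ E' := by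
      rw [hE', pow_mul]
      exact pow_le_pow_left₀ (Nat.cast_nonneg _) h2 N
    refine lt_of_le_of_lt ?_ hR2
    have h4 : (0 : ℝ) ≤ 2 * lam ^ (R ^ (2 ^ D + 2)) := by positivity
    calc (L : ℝ) * (((C * K * (hor D m ((T ^ B)⁻¹)) ^ E + 1 : ℕ) : ℝ) ^ N *
          (2 * lam ^ (R ^ (2 ^ D + 2))))
        ≤ (L : ℝ) * (T ^ E' * (2 * lam ^ (R ^ (2 ^ D + 2)))) := by
          apply mul_le_mul_of_nonneg_left _ (Nat.cast_nonneg _)
          exact mul_le_mul_of_nonneg_right h3 h4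
      _ = (L : ℝ) * 2 * (T ^ E' * lam ^ (R ^ (2 ^ D + 2))) := by ring

end Pool.Agent.TH111.J925
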