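import Pool.Agent.TH580.LM.Cert

set_option autoImplicit false

/-!
# LM-NF: normal forms of Hanner polytopes
-/

noncomputable section

namespace Pool.Agent.TH111.NF

open MeasureTheory Set Pool.Agent.TH580.HL Pool.Agent.TH580.ST Pool.Agent.TH580.LM
open scoped ENNReal Matrix Pointwise

section

variable {V W V' W' U : Type} [AddCommGroup V] [Module ℝ V] [AddCommGroup W] [Module ℝ W]
  [AddCommGroup V'] [Module ℝ V'] [AddCommGroup W'] [Module ℝ W'] [AddCommGroup U] [Module ℝ U]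

/-- linear equivalence of sets -/
def Eqv (A : Set V) (B : Set W) : Prop := ∃ e : V ≃ₗ[ℝ] W, e '' A = B

theorem Eqv.refl (A : Set V) : Eqv A A := ⟨LinearEquiv.refl ℝ V, image_id' A⟩

theorem Eqv.symm {A : Set V} {B : Set W} (h : Eqv A B) : Eqv B A := by
  obtain ⟨e, rfl⟩ := h
  refine ⟨e.symm, ?_⟩
  rw [image_image]
  simp

theorem Eqv.trans {A : Set V} {B : Set W} {C : Set U} (h : Eqv A B) (h' : Eqv B C) : Eqv A C := by
  obtain ⟨e, rfl⟩ := h
  obtain ⟨f, rfl⟩ := h'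
  refine ⟨e.trans f, ?_⟩
  rw [image_image]
  rfl

theorem Eqv.prod {A : Set V} {B : Set W} {A' : Set V'} {B' : Set W'} (h : Eqv A A')
    (h' : Eqv B B') : Eqv (A ×ˢ B) (A' ×ˢ B') := by
  obtain ⟨e, rfl⟩ := h
  obtain ⟨f, rfl⟩ := h'
  refine ⟨e.prodCongr f, ?_⟩
  rw [← prodMap_image_prod]
  rfl

theorem Eqv.comm (A : Set V) (B : Set W) : Eqv (A ×ˢ B) (B ×ˢ A) := by
  refine ⟨LinearEquiv.prodComm ℝ V W, ?_⟩
  ext ⟨x, y⟩
  constructor
  · rintro ⟨⟨a, b⟩, ⟨h1, h2⟩, h3⟩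
    cases h3
    exact ⟨h2, h1⟩
  · rintro ⟨h1, h2⟩
    exact ⟨(y, x), ⟨h2, h1⟩, rfl⟩

theorem Eqv.assoc (A : Set V) (B : Set W) (C : Set U) :
    Eqv ((A ×ˢ B) ×ˢ C) (A ×ˢ (B ×ˢ C)) := by
  refine ⟨LinearEquiv.prodAssoc ℝ V W U, ?_⟩
  ext ⟨x, y, z⟩
  constructor
  · rintro ⟨⟨⟨a, b⟩, c⟩, ⟨⟨h1, h2⟩, h3⟩, h4⟩
    cases h4
    exact ⟨h1, h2, h3⟩
  · rintro ⟨h1, h2, h3⟩
    exact ⟨((x, y), z), ⟨⟨h1, h2⟩, h3⟩, rfl⟩

/-- free sums in product spaces -/
def sm (A : Set V) (B : Set W) : Set (V × W) :=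
  convexHull ℝ ((fun x => (x, (0 : W))) '' A ∪ (fun y => ((0 : V), y)) '' B)

theorem Eqv.sum {A : Set V} {B : Set W} {A' : Set V'} {B' : Set W'} (h : Eqv A A')
    (h' : Eqv B B') : Eqv (sm A B) (sm A' B') := by
  obtain ⟨e, rfl⟩ := h
  obtain ⟨f, rfl⟩ := h'
  refine ⟨e.prodCongr f, ?_⟩
  unfold sm
  have h1 := LinearMap.image_convexHull (e.prodCongr f).toLinearMap
    ((fun x => (x, (0 : W))) '' A ∪ (fun y => ((0 : V), y)) '' B)
  refine (h1.trans ?_)
  congr 1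
  rw [image_union, image_image, image_image, image_image, image_image]
  congr 1
  · refine image_congr fun x _ => ?_
    show ((e x, f 0) : V' × W') = (e x, 0)
    rw [map_zero]
  · refine image_congr fun x _ => ?_
    show ((e 0, f x) : V' × W') = (0, f x)
    rw [map_zero]

end

theorem prodS_eqv {a b : ℕ} (A : Set (Fin a → ℝ)) (B : Set (Fin b → ℝ)) :
    Eqv (A ×ˢ B) (prodS A B) := ⟨app a b, app_image_prod A B⟩

theorem sumS_eqv {a b : ℕ} (A : Set (Fin a → ℝ)) (B : Set (Fin b → ℝ)) :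
    Eqv (sm A B) (sumS A B) := by
  refine ⟨app a b, ?_⟩
  unfold sm sumS
  have h1 := LinearMap.image_convexHull (app a b).toLinearMap
    ((fun x => (x, (0 : Fin b → ℝ))) '' A ∪ (fun y => ((0 : Fin a → ℝ), y)) '' B)
  refine (h1.trans ?_)
  congr 1
  rw [image_union, image_image, image_image, ← app_image_left, ← app_image_right]
  rfl

theorem prodS_congr {a b a' b' : ℕ} {A : Set (Fin a → ℝ)} {B : Set (Fin b → ℝ)}
    {A' : Set (Fin a' → ℝ)} {B' : Set (Fin b' → ℝ)} (h : Eqv A A') (h' : Eqv B B') :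
    Eqv (prodS A B) (prodS A' B') :=
  ((prodS_eqv A B).symm.trans (h.prod h')).trans (prodS_eqv A' B')

theorem sumS_congr {a b a' b' : ℕ} {A : Set (Fin a → ℝ)} {B : Set (Fin b → ℝ)}
    {A' : Set (Fin a' → ℝ)} {B' : Set (Fin b' → ℝ)} (h : Eqv A A') (h' : Eqv B B') :
    Eqv (sumS A B) (sumS A' B') :=
  ((sumS_eqv A B).symm.trans (h.sum h')).trans (sumS_eqv A' B')

theorem prodS_comm {a b : ℕ} (A : Set (Fin a → ℝ)) (B : Set (Fin b → ℝ)) :
    Eqv (prodS A B) (prodS B A) :=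
  ((prodS_eqv A B).symm.trans (Eqv.comm A B)).trans (prodS_eqv B A)

theorem prodS_assoc {a b c : ℕ} (A : Set (Fin a → ℝ)) (B : Set (Fin b → ℝ))
    (C : Set (Fin c → ℝ)) : Eqv (prodS (prodS A B) C) (prodS A (prodS B C)) :=
  ((((prodS_eqv (prodS A B) C).symm.trans ((prodS_eqv A B).symm.prod (Eqv.refl C))).trans
    (Eqv.assoc A B C)).trans ((Eqv.refl A).prod (prodS_eqv B C))).trans
    (prodS_eqv A (prodS B C))

/-- cubes -/
def Cube (n : ℕ) (A : Set (Fin n → ℝ)) : Prop := Eqv A (Icc (-1 : Fin n → ℝ) 1)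

theorem cube_prod_eq (a b : ℕ) :
    prodS (Icc (-1 : Fin a → ℝ) 1) (Icc (-1 : Fin b → ℝ) 1) = Icc (-1 : Fin (a + b) → ℝ) 1 := by
  ext x
  constructor
  · rintro ⟨⟨h1, h2⟩, ⟨h3, h4⟩⟩
    constructor
    · intro k
      induction k using Fin.addCases with
      | left i => exact h1 i
      | right j => exact h3 j
    · intro k
      induction k using Fin.addCases with
      | left i => exact h2 i
      | right j => exact h4 j
  · rintro ⟨h1, h2⟩
    exact ⟨⟨fun i => h1 _, fun i => h2 _⟩, ⟨fun i => h1 _, fun i => h2 _⟩⟩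

theorem cube_prod {a b : ℕ} {A : Set (Fin a → ℝ)} {B : Set (Fin b → ℝ)} (hA : Cube a A)
    (hB : Cube b B) : Cube (a + b) (prodS A B) := by
  have h := prodS_congr hA hB
  rw [cube_prod_eq] at h
  exact h

/-- the rotation of the plane -/
def rot : (Fin (1 + 1) → ℝ) ≃ₗ[ℝ] (Fin (1 + 1) → ℝ) where
  toFun x := ![x 0 + x 1, x 0 - x 1]
  invFun x := ![(x 0 + x 1) / 2, (x 0 - x 1) / 2]
  left_inv x := by
    funext i
    fin_cases i
    · show (x 0 + x 1 + (x 0 - x 1)) / 2 = x 0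
      ring
    · show (x 0 + x 1 - (x 0 - x 1)) / 2 = x 1
      ring
  right_inv x := by
    funext i
    fin_cases i
    · show (x 0 + x 1) / 2 + (x 0 - x 1) / 2 = x 0
      ring
    · show (x 0 + x 1) / 2 - (x 0 - x 1) / 2 = x 1
      ring
  map_add' x y := by
    funext i
    fin_cases i
    · show x 0 + y 0 + (x 1 + y 1) = x 0 + x 1 + (y 0 + y 1)
      ring
    · show x 0 + y 0 - (x 1 + y 1) = x 0 - x 1 + (y 0 - y 1)
      ring
  map_smul' c x := by
    funext i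
    fin_cases i
    · show c * x 0 + c * x 1 = c * (x 0 + x 1)
      ring
    · show c * x 0 - c * x 1 = c * (x 0 - x 1)
      ring

theorem norm_one (y : Fin 1 → ℝ) : ‖y‖ = |y 0| := by
  apply le_antisymm
  · rw [pi_norm_le_iff_of_nonneg (abs_nonneg _)]
    intro i
    rw [Subsingleton.elim i 0, Real.norm_eq_abs]
  · exact norm_le_pi_norm y 0

theorem gauge_seg (y : Fin 1 → ℝ) : gauge (Icc (-1 : Fin 1 → ℝ) 1) y = |y 0| := by
  have h1 : Icc (-1 : Fin 1 → ℝ) 1 = Metric.closedBall 0 1 := by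
    ext x
    rw [mem_closedBall_zero_iff, norm_one, abs_le]
    constructor
    · rintro ⟨h1, h2⟩
      exact ⟨h1 0, h2 0⟩
    · rintro ⟨h1, h2⟩
      refine ⟨fun i => ?_, fun i => ?_⟩
      · rw [Subsingleton.elim i 0]
        exact h1
      · rw [Subsingleton.elim i 0]
        exact h2
  rw [h1, gauge_closedBall zero_le_one, div_one, norm_one]

theorem sum_seg (x : Fin (1 + 1) → ℝ) :
    x ∈ sumS (Icc (-1 : Fin 1 → ℝ) 1) (Icc (-1 : Fin 1 → ℝ) 1) ↔ |x 0| + |x 1| ≤ 1 := by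
  rw [sumS_eq seg_SBody seg_SBody]
  show sg _ _ x ≤ 1 ↔ _
  unfold sg
  rw [gauge_seg, gauge_seg]
  rfl

theorem cube_two : Cube (1 + 1) (sumS (Icc (-1 : Fin 1 → ℝ) 1) (Icc (-1 : Fin 1 → ℝ) 1)) := by
  refine ⟨rot, ?_⟩
  ext y
  constructor
  · rintro ⟨x, hx, rfl⟩
    rw [sum_seg] at hx
    have h1 := abs_le.1 (le_refl |x 0|)
    have h2 := abs_le.1 (le_refl |x 1|)
    constructor
    · intro i
      fin_cases i
      · show (-1 : ℝ) ≤ x 0 + x 1
        linarith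
      · show (-1 : ℝ) ≤ x 0 - x 1
        linarith
    · intro i
      fin_cases i
      · show x 0 + x 1 ≤ (1 : ℝ)
        linarith
      · show x 0 - x 1 ≤ (1 : ℝ)
        linarith
  · rintro ⟨h1, h2⟩
    refine ⟨rot.symm y, ?_, rot.apply_symm_apply y⟩
    rw [sum_seg]
    have h3 : (-1 : ℝ) ≤ y 0 := h1 0
    have h4 : (-1 : ℝ) ≤ y 1 := h1 1
    have h5 : y 0 ≤ (1 : ℝ) := h2 0
    have h6 : y 1 ≤ (1 : ℝ) := h2 1
    show |(y 0 + y 1) / 2| + |(y 0 - y 1) / 2| ≤ 1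
    rcases abs_cases ((y 0 + y 1) / 2) with ⟨h7, _⟩ | ⟨h7, _⟩ <;>
      rcases abs_cases ((y 0 - y 1) / 2) with ⟨h8, _⟩ | ⟨h8, _⟩ <;> rw [h7, h8] <;> linarith

theorem GG_nonneg {n : ℕ} {H : Set (Fin n → ℝ)} {x S : ℝ} (h : GG n H x S) : 0 ≤ S := by
  obtain ⟨ι, κ, _, _, p, q, w, l, _, ⟨c⟩⟩ := h
  have h1 := c.low 0 le_rfl
  have h2 : ∫ ω, c.ell 0 ω ∂c.μ = 0 := by
    rw [integral_congr_ae c.ell0, integral_zero]
  have h3 : mf n x 0 = 0 := by
    unfold mf lam kap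
    simp
  rw [h2, h3, zero_add] at h1
  exact h1

/-- the bound for the defect of a sum -/
def BS (n : ℕ) : ℝ := if n ≤ 2 then 0 else 2 / 5 * n - 17 / 20

/-- sum types -/
def ST (n : ℕ) (A : Set (Fin n → ℝ)) : Prop :=
  2 ≤ n ∧ ∃ x S, GG n A x S ∧ 0 ≤ x ∧ x ≤ BS n ∧ (0 < S ∨ Cube n A)

/-- the results for general types -/
def Res (n : ℕ) (A : Set (Fin n → ℝ)) : Prop :=
  ∃ x S, GG n A x S ∧ 0 ≤ x ∧ x ≤ bb n ∧ (0 < S ∨ Cube n A)

/-- lists of sum types -/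
inductive LL : (n : ℕ) → Set (Fin n → ℝ) → Prop
  | one : LL 1 (Icc (-1) 1)
  | base {n : ℕ} {A : Set (Fin n → ℝ)} : ST n A → LL n A
  | cons {a b : ℕ} {A : Set (Fin a → ℝ)} {B : Set (Fin b → ℝ)} : ST a A → LL b B →
      LL (a + b) (prodS A B)

theorem BS_le (n : ℕ) : BS n ≤ bb n := by
  unfold BS bb
  split_ifs
  · exact le_rfl
  · linarith

theorem ST.res {n : ℕ} {A : Set (Fin n → ℝ)} (h : ST n A) : Res n A := by
  obtain ⟨_, x, S, h1, h2, h3, h4⟩ := h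
  exact ⟨x, S, h1, h2, h3.trans (BS_le n), h4⟩

theorem LL.dim {n : ℕ} {A : Set (Fin n → ℝ)} (h : LL n A) : 1 ≤ n := by
  induction h with
  | one => exact le_rfl
  | base h => exact le_trans (by norm_num) h.1
  | cons h _ _ =>
    have := h.1
    omega

theorem LL.cube1 {n : ℕ} {A : Set (Fin n → ℝ)} (h : LL n A) (hn : n = 1) : Cube n A := by
  cases h with
  | one => exact Eqv.refl _
  | base h =>
    have := h.1
    omega
  | cons h _ =>
    have := h.1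
    omega

section

variable (hSEG : S_SEG) (hSUM : S_SUM) (hPRO : S_PRO) (hPRI : S_PRI)

include hPRO in
theorem mul_res {a b : ℕ} {A : Set (Fin a → ℝ)} {B : Set (Fin b → ℝ)} (hA : ST a A)
    (hb : 2 ≤ b) (hB : Res b B) : Res (a + b) (prodS A B) := by
  obtain ⟨ha, x, S, g1, x0, x1, c1⟩ := hA
  obtain ⟨y, T, g2, y0, y1, c2⟩ := hB
  have h := hPRO a b A B x y S T ha hb g1 g2 x0 (x1.trans (BS_le a)) y0 y1
  refine ⟨x + y + 4 / 5, S + T, h, by positivity, ?_, ?_⟩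
  · have ha' : (2 : ℝ) ≤ a := by exact_mod_cast ha
    have hb' : (2 : ℝ) ≤ b := by exact_mod_cast hb
    unfold BS at x1
    unfold bb at y1 ⊢
    rw [if_neg (by omega : ¬ a + b ≤ 2)]
    push_cast
    split_ifs at x1 y1 with h1 h2
    · linarith
    · linarith
    · linarith
    · linarith
  · have hS := GG_nonneg g1
    have hT := GG_nonneg g2
    rcases c1 with c1 | c1
    · left; linarith
    · rcases c2 with c2 | c2
      · left; linarith
      · right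
        exact cube_prod c1 c2

include hPRI in
theorem mul_seg {a : ℕ} {A : Set (Fin a → ℝ)} (hA : ST a A) :
    Res (a + 1) (prodS A (Icc (-1 : Fin 1 → ℝ) 1)) := by
  obtain ⟨ha, x, S, g1, x0, x1, c1⟩ := hA
  have h := hPRI a A x S ha g1 x0 (x1.trans (BS_le a))
  refine ⟨x + 3 / 4, S, h, by positivity, ?_, ?_⟩
  · have ha' : (2 : ℝ) ≤ a := by exact_mod_cast ha
    unfold BS at x1
    unfold bb
    rw [if_neg (by omega : ¬ a + 1 ≤ 2)]
    push_cast
    split_ifs at x1 with h1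
    · linarith
    · linarith
  · rcases c1 with c1 | c1
    · exact Or.inl c1
    · exact Or.inr (cube_prod c1 (Eqv.refl _))

include hSEG hPRO hPRI in
theorem LL.res {n : ℕ} {A : Set (Fin n → ℝ)} (h : LL n A) :
    Res n A ∧ ∀ (a : ℕ) (A' : Set (Fin a → ℝ)), ST a A' → Res (a + n) (prodS A' A) := by
  induction h with
  | one =>
    refine ⟨⟨0, 0, hSEG, le_rfl, ?_, Or.inr (Eqv.refl _)⟩, fun a A' h => mul_seg hPRI h⟩
    unfold bb
    rw [if_pos (by norm_num)]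
  | base h => exact ⟨h.res, fun a A' h' => mul_res hPRO h' h.1 h.res⟩
  | @cons a b A B h h2 ih =>
    have h3 := ih.2 a A h
    refine ⟨h3, fun c C h' => mul_res hPRO h' ?_ h3⟩
    have := h.1
    omega

include hSUM in
theorem sum_st {a b : ℕ} {A : Set (Fin a → ℝ)} {B : Set (Fin b → ℝ)} (hA : LL a A) (hB : LL b B)
    (rA : Res a A) (rB : Res b B) : ST (a + b) (sumS A B) := by
  have ha := hA.dim
  have hb := hB.dim
  obtain ⟨x, S, g1, x0, x1, c1⟩ := rA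
  obtain ⟨y, T, g2, y0, y1, c2⟩ := rB
  obtain ⟨U, h1, h2⟩ := hSUM a b A B x y S T ha hb g1 g2 x0 x1 y0 y1
  refine ⟨by omega, x + y, U, h1, by positivity, ?_, ?_⟩
  · have ha' : (1 : ℝ) ≤ a := by exact_mod_cast ha
    have hb' : (1 : ℝ) ≤ b := by exact_mod_cast hb
    unfold BS
    unfold bb at x1 y1
    split_ifs at x1 y1 with h3 h4
    · split_ifs with h5
      · linarith
      · have : (3 : ℝ) ≤ (a : ℝ) + b := by
          have : 3 ≤ a + b := by omega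
          exact_mod_cast this
        push_cast
        linarith
    · rw [if_neg (by omega)]
      push_cast
      linarith
    · rw [if_neg (by omega)]
      push_cast
      linarith
    · rw [if_neg (by omega)]
      push_cast
      linarith
  · by_cases h : a = 1 ∧ b = 1
    · right
      obtain ⟨rfl, rfl⟩ := h
      exact (sumS_congr (hA.cube1 rfl) (hB.cube1 rfl)).trans cube_two
    · exact Or.inl (h2 h)

include hSEG hSUM in
theorem st_two : ST (1 + 1) (sumS (Icc (-1 : Fin 1 → ℝ) 1) (Icc (-1 : Fin 1 → ℝ) 1)) := by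
  have h : Res 1 (Icc (-1 : Fin 1 → ℝ) 1) := by
    refine ⟨0, 0, hSEG, le_rfl, ?_, Or.inr (Eqv.refl _)⟩
    unfold bb
    rw [if_pos (by norm_num)]
  exact sum_st hSUM LL.one LL.one h h

include hSEG hSUM in
/-- products of a list with a segment -/
theorem seg_mul {n : ℕ} {A : Set (Fin n → ℝ)} (h : LL n A) :
    ∃ (m : ℕ) (C : Set (Fin m → ℝ)), LL m C ∧ Eqv (prodS (Icc (-1 : Fin 1 → ℝ) 1) A) C := by
  induction h with
  | one =>
    refine ⟨_, _, LL.base (st_two hSEG hSUM), ?_⟩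
    have h1 : Cube (1 + 1) (prodS (Icc (-1 : Fin 1 → ℝ) 1) (Icc (-1 : Fin 1 → ℝ) 1)) :=
      cube_prod (Eqv.refl _) (Eqv.refl _)
    exact Eqv.trans h1 (Eqv.symm cube_two)
  | @base n A h => exact ⟨_, _, LL.cons h LL.one, prodS_comm _ _⟩
  | @cons a b A B h h2 ih =>
    obtain ⟨m, C, hC, e⟩ := ih
    refine ⟨_, _, LL.cons h hC, ?_⟩
    have e1 := (prodS_assoc (Icc (-1 : Fin 1 → ℝ) 1) A B).symm
    have e2 := prodS_congr (prodS_comm (Icc (-1 : Fin 1 → ℝ) 1) A) (Eqv.refl B)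
    have e3 := prodS_assoc A (Icc (-1 : Fin 1 → ℝ) 1) B
    have e4 := prodS_congr (Eqv.refl A) e
    exact ((e1.trans e2).trans e3).trans e4

include hSEG hSUM in
/-- products of lists -/
theorem list_mul {n : ℕ} {A : Set (Fin n → ℝ)} (h : LL n A) {k : ℕ} {B : Set (Fin k → ℝ)}
    (hB : LL k B) : ∃ (m : ℕ) (C : Set (Fin m → ℝ)), LL m C ∧ Eqv (prodS A B) C := by
  induction h with
  | one => exact seg_mul hSEG hSUM hB
  | base h => exact ⟨_, _, LL.cons h hB, Eqv.refl _⟩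
  | @cons a b A A' h h2 ih =>
    obtain ⟨m, C, hC, e⟩ := ih
    exact ⟨_, _, LL.cons h hC, (prodS_assoc A A' B).trans (prodS_congr (Eqv.refl A) e)⟩

include hSEG hSUM hPRO hPRI in
theorem normal {n : ℕ} {H : Set (Fin n → ℝ)} (h : Hanner n H) :
    ∃ (m : ℕ) (C : Set (Fin m → ℝ)), LL m C ∧ Eqv H C := by
  induction h with
  | seg => exact ⟨_, _, LL.one, Eqv.refl _⟩
  | @prod a b A B _ _ ihA ihB =>
    obtain ⟨m, C, hC, e1⟩ := ihA
    obtain ⟨k, D, hD, e2⟩ := ihB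
    obtain ⟨r, E, hE, e3⟩ := list_mul hSEG hSUM hC hD
    exact ⟨r, E, hE, (prodS_congr e1 e2).trans e3⟩
  | @sum a b A B _ _ ihA ihB =>
    obtain ⟨m, C, hC, e1⟩ := ihA
    obtain ⟨k, D, hD, e2⟩ := ihB
    exact ⟨_, _, LL.base (sum_st hSUM hC hD (hC.res hSEG hPRO hPRI).1 (hD.res hSEG hPRO hPRI).1),
      sumS_congr e1 e2⟩
  | @lin n A e _ ih =>
    obtain ⟨m, C, hC, e1⟩ := ih
    have h1 : Eqv (e '' A) A := Eqv.symm ⟨e, rfl⟩
    exact ⟨m, C, hC, h1.trans e1⟩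

end

theorem Eqv.dim {n m : ℕ} {A : Set (Fin n → ℝ)} {B : Set (Fin m → ℝ)} (h : Eqv A B) : n = m := by
  obtain ⟨e, _⟩ := h
  have := e.finrank_eq
  simpa using this

theorem thm : S_NF := by
  intro hSEG hSUM hPRO hPRI n H hH
  obtain ⟨m, C, hC, e⟩ := normal hSEG hSUM hPRO hPRI hH
  obtain rfl := e.dim
  obtain ⟨x, S, g, _, _, c⟩ := (hC.res hSEG hPRO hPRI).1
  rcases c with c | c
  · right
    obtain ⟨f, rfl⟩ := e
    exact ⟨f, x, S, g, c⟩
  · left
    exact e.trans c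

end Pool.Agent.TH111.NF
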