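import Pool.Agent.TH806.LS.Defs
import Pool.Agent.TH328.LK_ALG

set_option autoImplicit false

/-!
LS project (helper806), job ALG: closure properties of polynomials in `z` and `conj z`, with the squares
of the truncated exponentials. Port of `TH328.LK_ALG`.
-/

namespace Pool.Agent.TH111.LS_ALG

open Finset Filter Topology MeasureTheory Complex
open Pool.Agent.W184.NZ
open Pool.Agent.TH806.LK Pool.Agent.TH806.LS
open Pool.Agent.TH328.LK_ALG

lemma EP_NS (K : ℕ) {a : ℝ} {n : ℕ} (ha : |a| ≤ n) : EP (2 * K) n (fun z => NS K a z) := by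
  have e0 : ‖(a:ℂ) / 2‖ ≤ (n:ℝ) / 2 := by
    rw [norm_div, Complex.norm_real, Real.norm_eq_abs]
    have : ‖(2:ℂ)‖ = 2 := by norm_num
    rw [this]; linarith
  have e1 := (EP_NC K e0).mul (EP_NC K e0) (by positivity)
  have e2 : (fun z => NS K a z) = fun z => NC K ((a:ℂ) / 2) z * NC K ((a:ℂ) / 2) z := by
    funext z
    unfold NS
    ring
  rw [e2]
  exact e1.mono (by omega) (by positivity) (by linarith)

/-- the polynomial in one variable -/
noncomputable def Pzs (K : ℕ) (a θ₁ θ₂ : ℝ) (z : ℂ) : ℂ :=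
  NS K a z * (NC K (θ₁ / 2 * I) z * NC K (θ₂ / 2 * I) z)

lemma EP_Pzs {n K : ℕ} {a θ₁ θ₂ : ℝ} (ha : |a| ≤ n) (h1 : |θ₁| ≤ 1) (h2 : |θ₂| ≤ 1) :
    EP (4 * K) (n + 1) (Pzs K a θ₁ θ₂) := by
  have e1 := EP_NC K (norm_half h1)
  have e2 := EP_NC K (norm_half h2)
  have e3 := (EP_NS K ha).mul (e1.mul e2 (by norm_num)) (Nat.cast_nonneg n)
  exact e3.mono (by omega) (by positivity) (by norm_num)

lemma BFs_eq (K : ℕ) (a b θ₁ θ₂ : ℝ) (z : ℂ) :
    BFs K a b θ₁ θ₂ z = Pzs K a θ₁ θ₂ z * Pzs K b θ₁ θ₂ (starRingEnd ℂ z) := by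
  unfold BFs pf Pzs; ring

lemma BFs_sym (K : ℕ) (a θ₁ θ₂ : ℝ) : Sym (BFs K a a θ₁ θ₂) := by
  intro z
  unfold BFs
  rw [pf_sym, pf_sym, Complex.conj_conj]; ring

lemma BBs_sym (K R : ℕ) (a θ₁ θ₂ : ℝ) : Sym (BBs K R a θ₁ θ₂) := by
  intro z
  unfold BBs
  rw [BFs_sym K a θ₁ θ₂ z, Complex.norm_conj]

lemma BEs_sym (K : ℕ) (a θ₁ θ₂ : ℝ) : Sym (BEs K a θ₁ θ₂) := by
  intro z
  unfold BEs
  rw [TD_sym, TD_sym, Complex.conj_conj]; ring

lemma PB_BBs {n K R : ℕ} (hK : n + 1 ≤ K) (hR : 1 ≤ R) {a θ₁ θ₂ : ℝ} (ha : |a| ≤ n) (h1 : |θ₁| ≤ 1)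
    (h2 : |θ₂| ≤ 1) : PB (4 * K + R) (BBs K R a θ₁ θ₂) := by
  obtain ⟨p, g1, g2, g3⟩ := EP_Pzs (K := K) ha h1 h2
  set m : Polynomial ℂ := p * Polynomial.X ^ R * Polynomial.C ((R:ℂ) ^ R)⁻¹ with hm
  have hd : m.natDegree ≤ 4 * K + R := by
    refine (Polynomial.natDegree_mul_C_le _ _).trans (Polynomial.natDegree_mul_le.trans (add_le_add g1 ?_))
    exact Polynomial.natDegree_X_pow_le _
  have hc : ∀ k, ‖m.coeff k‖ ≤ Real.exp (n + 1) := by
    intro k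
    have hn : (0:ℝ) ≤ (n:ℝ) + 1 := by positivity
    by_cases hk : R ≤ k
    · rw [hm, Polynomial.coeff_mul_C, Polynomial.coeff_mul_X_pow', if_pos hk, norm_mul]
      have e1 := (g2 (k - R)).trans (pow_div_le_exp hn (k - R))
      have e2 : ‖((R:ℂ) ^ R)⁻¹‖ ≤ 1 := by
        rw [norm_inv, norm_pow, Complex.norm_natCast]
        refine inv_le_one_of_one_le₀ (one_le_pow₀ ?_)
        exact_mod_cast hR
      calc ‖p.coeff (k - R)‖ * ‖((R:ℂ) ^ R)⁻¹‖ ≤ Real.exp (n + 1) * 1 :=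
            mul_le_mul e1 e2 (norm_nonneg _) (Real.exp_pos _).le
        _ = _ := mul_one _
    · rw [hm, Polynomial.coeff_mul_C, Polynomial.coeff_mul_X_pow', if_neg hk, zero_mul, norm_zero]
      positivity
  refine ⟨fun k l => m.coeff k * m.coeff l, fun k l => ?_, fun z => ?_⟩
  · rw [norm_mul]
    have hx : ((n:ℝ) + 1) + (n + 1) ≤ 0.69 * ((4 * K + R : ℕ) : ℝ) := by
      have e1 : ((n:ℝ) + 1) ≤ K := by exact_mod_cast hK
      have e2 : (1:ℝ) ≤ R := by exact_mod_cast hR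
      push_cast
      linarith
    refine le_trans ?_ (exp_le_two_pow hx)
    rw [Real.exp_add]
    exact mul_le_mul (hc k) (hc l) (norm_nonneg _) (Real.exp_pos _).le
  · rw [← Fc_prod _ _ hd hd]
    unfold BBs
    rw [BFs_eq, norm_pow_eq, g3, g3, hm]
    simp only [Polynomial.eval_mul, Polynomial.eval_pow, Polynomial.eval_X, Polynomial.eval_C]
    ring

lemma PB_BEs {n K : ℕ} (hK : n + 1 ≤ K) {a θ₁ θ₂ : ℝ} (ha : |a| ≤ n) (h1 : |θ₁| ≤ 1)
    (h2 : |θ₂| ≤ 1) : PB (4 * K + 2) (BEs K a θ₁ θ₂) := by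
  have hK1 : 1 ≤ K := by omega
  have eN := EP_NS K ha
  have eB1 := EP_NC K (norm_half h1)
  have eB2 := EP_NC K (norm_half h2)
  have eA1 := EP_mon K hK1 (norm_half h1)
  have eA2 := EP_mon K hK1 (norm_half h2)
  have n0 : (0:ℝ) ≤ n := Nat.cast_nonneg n
  have e1 : ((n:ℝ) + 1) ≤ K := by exact_mod_cast hK
  have k0 : (0:ℝ) ≤ K := Nat.cast_nonneg K
  have hAA := (eN.mul (eA1.mul eA2 (by norm_num)) n0).mono (K' := 4 * K + 2) (by omega) (by positivity) le_rfl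
  have hBB := (eN.mul (eB1.mul eB2 (by norm_num)) n0).mono (K' := 4 * K + 2) (by omega) (by positivity) le_rfl
  have hAB := (eN.mul (eA1.mul eB2 (by norm_num)) n0).mono (K' := 4 * K + 2) (by omega) (by positivity) le_rfl
  have hBA := (eN.mul (eB1.mul eA2 (by norm_num)) n0).mono (K' := 4 * K + 2) (by omega) (by positivity) le_rfl
  have q1 := PB_of_EP hAA hBB (by positivity) (by positivity) (by push_cast; linarith)
  have q2 := PB_of_EP hBB hAA (by positivity) (by positivity) (by push_cast; linarith)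
  have q3 := PB_of_EP hAB hBA (by positivity) (by positivity) (by push_cast; linarith)
  have q4 := PB_of_EP hBA hAB (by positivity) (by positivity) (by push_cast; linarith)
  have q := PB_avg (PB_avg q1 q2) (PB_avg q3 q4)
  obtain ⟨c, hc1, hc2⟩ := q
  refine ⟨c, hc1, fun z => ?_⟩
  rw [← hc2 z]
  unfold BEs
  rw [TD_eq, TD_eq]
  unfold Az
  ring

theorem t_ALGs : Pool.Agent.TH806.LS.P_ALGs := by
  intro n K R a b θ₁ θ₂ hn hK hR ha hb h1 h2
  refine ⟨?_, PB_BBs hK hR ha h1 h2, PB_BEs hK ha h1 h2, BFs_sym _ _ _ _, BBs_sym _ _ _ _ _,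
    BEs_sym _ _ _ _⟩
  have := EB_of_EP (EP_Pzs (K := K) ha h1 h2) (EP_Pzs (K := K) hb h1 h2) (by positivity)
  obtain ⟨c, hc1, hc2⟩ := this
  exact ⟨c, hc1, fun z => (BFs_eq K a b θ₁ θ₂ z).trans (hc2 z)⟩

end Pool.Agent.TH111.LS_ALG
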