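import Pool.Agent.TH806.LS.Defs
import Pool.Agent.TH811.LK_LOC

set_option autoImplicit false

/-!
LS project (helper806), job LOC: local estimates for a block, with the squares of the truncated
exponentials. Port of `TH811.LK_LOC`.
-/

namespace Pool.Agent.TH111.LS_LOC

open Finset Filter Topology MeasureTheory
open Pool.Agent.W184.NZ
open Pool.Agent.TH806.LK Pool.Agent.TH806.LS
open Pool.Agent.TH811.LK_LOC

noncomputable section

lemma NS_norm (K : ℕ) (a : ℝ) (z : ℂ) : ‖NS K a z‖ ≤ Real.exp (|a| * ‖z‖) := by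
  unfold NS
  have na : ‖(a:ℂ) / 2‖ = |a| / 2 := by
    rw [norm_div, Complex.norm_real, Real.norm_eq_abs]
    norm_num
  rw [norm_pow]
  calc ‖NC K ((a:ℂ) / 2) z‖ ^ 2 ≤ Real.exp (‖(a:ℂ) / 2‖ * ‖z‖) ^ 2 := by
        gcongr
        exact NC_norm _ _ _
    _ = Real.exp (|a| * ‖z‖) := by
        rw [na, ← Real.exp_nat_mul]
        congr 1
        push_cast
        ring

lemma Ap_NS (n R : ℕ) (hn : 1 ≤ n) (hR : 1 ≤ R) (a : ℝ) (z : ℂ) (ha : |a| ≤ n) :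
    Ap (Real.exp (|a| * ‖z‖)) (4 * (Real.exp (-(R:ℝ)) * Real.exp ‖z‖)) (NS (20 * n * R) a z)
      (Complex.exp (a * z)) := by
  have na : ‖(a:ℂ) / 2‖ = |a| / 2 := by
    rw [norm_div, Complex.norm_real, Real.norm_eq_abs]
    norm_num
  have h0 : (0:ℝ) ≤ |a| := abs_nonneg a
  have A := Ap_NC n R hn hR ((a:ℂ) / 2) z (by rw [na]; linarith)
  have B := A.mul A
  rw [na] at B
  have e1 : Real.exp (|a| / 2 * ‖z‖) * Real.exp (|a| / 2 * ‖z‖) = Real.exp (|a| * ‖z‖) := by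
    rw [← Real.exp_add]; ring_nf
  have e2 : Complex.exp ((a:ℂ) / 2 * z) * Complex.exp ((a:ℂ) / 2 * z) = Complex.exp (a * z) := by
    rw [← Complex.exp_add]; ring_nf
  have e3 : NC (20 * n * R) ((a:ℂ) / 2) z * NC (20 * n * R) ((a:ℂ) / 2) z = NS (20 * n * R) a z := by
    unfold NS; ring
  have e4 : 2 * (Real.exp (-(R:ℝ)) * Real.exp ‖z‖) + 2 * (Real.exp (-(R:ℝ)) * Real.exp ‖z‖) =
      4 * (Real.exp (-(R:ℝ)) * Real.exp ‖z‖) := by ring
  rw [e1, e2, e3, e4] at B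
  exact B

/-- the local factor and the exponential -/
lemma BFs_ap (n R : ℕ) (hn : 1 ≤ n) (hR : 1 ≤ R) (a b θ₁ θ₂ : ℝ) (ha : |a| ≤ n) (hb : |b| ≤ n)
    (h1 : |θ₁| ≤ 1) (h2 : |θ₂| ≤ 1) (z : ℂ) :
    ‖BFs (20 * n * R) a b θ₁ θ₂ z‖ ≤ Real.exp ((2 * n + 2) * ‖z‖) ∧
    ‖BFs (20 * n * R) a b θ₁ θ₂ z - Complex.exp ((a + ((θ₁ + θ₂ : ℝ) : ℂ) / 2 * Complex.I) * z +
      (b + ((θ₁ + θ₂ : ℝ) : ℂ) / 2 * Complex.I) * starRingEnd ℂ z)‖ ≤
      16 * Real.exp (-(R:ℝ)) * Real.exp ((2 * n + 3) * ‖z‖) := by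
  have hnR : (1:ℝ) ≤ n := by exact_mod_cast hn
  have nt1 : ‖(θ₁:ℂ) / 2 * Complex.I‖ = |θ₁| / 2 := by simp
  have nt2 : ‖(θ₂:ℂ) / 2 * Complex.I‖ = |θ₂| / 2 := by simp
  have A1 := Ap_NS n R hn hR a z ha
  have A2 := Ap_NS n R hn hR b (starRingEnd ℂ z) hb
  have A3 := Ap_NC n R hn hR ((θ₁:ℂ) / 2 * Complex.I) z (by rw [nt1]; linarith)
  have A4 := Ap_NC n R hn hR ((θ₁:ℂ) / 2 * Complex.I) (starRingEnd ℂ z) (by rw [nt1]; linarith)
  have A5 := Ap_NC n R hn hR ((θ₂:ℂ) / 2 * Complex.I) z (by rw [nt2]; linarith)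
  have A6 := Ap_NC n R hn hR ((θ₂:ℂ) / 2 * Complex.I) (starRingEnd ℂ z) (by rw [nt2]; linarith)
  have A := (A1.mul A2).mul ((A3.mul A4).mul (A5.mul A6))
  rw [RCLike.norm_conj] at A
  rw [nt1, nt2] at A
  have e1 : Complex.exp (a * z) * Complex.exp (b * starRingEnd ℂ z) *
      (Complex.exp ((θ₁:ℂ) / 2 * Complex.I * z) * Complex.exp ((θ₁:ℂ) / 2 * Complex.I * starRingEnd ℂ z) *
      (Complex.exp ((θ₂:ℂ) / 2 * Complex.I * z) * Complex.exp ((θ₂:ℂ) / 2 * Complex.I * starRingEnd ℂ z))) =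
      Complex.exp ((a + ((θ₁ + θ₂ : ℝ) : ℂ) / 2 * Complex.I) * z +
      (b + ((θ₁ + θ₂ : ℝ) : ℂ) / 2 * Complex.I) * starRingEnd ℂ z) := by
    simp only [← Complex.exp_add]
    congr 1
    push_cast
    ring
  rw [e1] at A
  have e2 : BFs (20 * n * R) a b θ₁ θ₂ z = NS (20 * n * R) a z * NS (20 * n * R) b (starRingEnd ℂ z) *
      (NC (20 * n * R) ((θ₁:ℂ) / 2 * Complex.I) z * NC (20 * n * R) ((θ₁:ℂ) / 2 * Complex.I) (starRingEnd ℂ z) *
      (NC (20 * n * R) ((θ₂:ℂ) / 2 * Complex.I) z *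
        NC (20 * n * R) ((θ₂:ℂ) / 2 * Complex.I) (starRingEnd ℂ z))) := rfl
  rw [← e2] at A
  have e3 : Real.exp (|a| * ‖z‖) * Real.exp (|b| * ‖z‖) *
      (Real.exp (|θ₁| / 2 * ‖z‖) * Real.exp (|θ₁| / 2 * ‖z‖) *
      (Real.exp (|θ₂| / 2 * ‖z‖) * Real.exp (|θ₂| / 2 * ‖z‖))) ≤ Real.exp ((2 * n + 2) * ‖z‖) := by
    simp only [← Real.exp_add]
    apply Real.exp_le_exp.mpr
    have : |a| * ‖z‖ + |b| * ‖z‖ + (|θ₁| / 2 * ‖z‖ + |θ₁| / 2 * ‖z‖ + (|θ₂| / 2 * ‖z‖ + |θ₂| / 2 * ‖z‖)) =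
      (|a| + |b| + |θ₁| + |θ₂|) * ‖z‖ := by ring
    rw [this]
    refine mul_le_mul_of_nonneg_right ?_ (norm_nonneg _)
    linarith
  obtain ⟨B1, -, B3⟩ := A
  refine ⟨B1.trans e3, B3.trans ?_⟩
  calc _ ≤ (4 * (Real.exp (-(R:ℝ)) * Real.exp ‖z‖) + 4 * (Real.exp (-(R:ℝ)) * Real.exp ‖z‖) +
        (2 * (Real.exp (-(R:ℝ)) * Real.exp ‖z‖) + 2 * (Real.exp (-(R:ℝ)) * Real.exp ‖z‖) +
        (2 * (Real.exp (-(R:ℝ)) * Real.exp ‖z‖) + 2 * (Real.exp (-(R:ℝ)) * Real.exp ‖z‖)))) *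
        Real.exp ((2 * n + 2) * ‖z‖) := by gcongr
    _ = 16 * Real.exp (-(R:ℝ)) * (Real.exp ‖z‖ * Real.exp ((2 * n + 2) * ‖z‖)) := by ring
    _ = _ := by rw [← Real.exp_add]; ring_nf

/-- the factor with the large values -/
lemma BBs_le (n R : ℕ) (hn : 1 ≤ n) (hR : 1 ≤ R) (a θ₁ θ₂ : ℝ) (ha : |a| ≤ n)
    (h1 : |θ₁| ≤ 1) (h2 : |θ₂| ≤ 1) (z : ℂ) :
    ‖BBs (20 * n * R) R a θ₁ θ₂ z‖ ≤ Real.exp (-(R:ℝ)) * Real.exp ((2 * n + 4) * ‖z‖) := by
  have hRR : (1:ℝ) ≤ R := by exact_mod_cast hR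
  have A := (BFs_ap n R hn hR a a θ₁ θ₂ ha ha h1 h2 z).1
  unfold BBs
  rw [norm_mul, Complex.norm_real, Real.norm_of_nonneg (by positivity)]
  have h3 : ‖z‖ / R ≤ Real.exp (‖z‖ / R - 1) := by
    have := Real.add_one_le_exp (‖z‖ / R - 1)
    linarith
  have h4 : (‖z‖ / R) ^ (2 * R) ≤ Real.exp (2 * ‖z‖ - 2 * R) := by
    calc (‖z‖ / R) ^ (2 * R) ≤ Real.exp (‖z‖ / R - 1) ^ (2 * R) := by gcongr
      _ = Real.exp (2 * ‖z‖ - 2 * R) := by
          rw [← Real.exp_nat_mul]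
          congr 1
          push_cast
          field_simp
  calc _ ≤ Real.exp ((2 * n + 2) * ‖z‖) * Real.exp (2 * ‖z‖ - 2 * R) := by gcongr
    _ = Real.exp (-(2 * R:ℝ)) * Real.exp ((2 * n + 4) * ‖z‖) := by
        rw [← Real.exp_add, ← Real.exp_add]; ring_nf
    _ ≤ _ := by
        gcongr
        linarith

/-- the factor with two defects -/
lemma BEs_le (n R : ℕ) (hn : 1 ≤ n) (hR : 1 ≤ R) (a θ₁ θ₂ : ℝ) (ha : |a| ≤ n)
    (h1 : |θ₁| ≤ 1) (h2 : |θ₂| ≤ 1) (z : ℂ) :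
    ‖BEs (20 * n * R) a θ₁ θ₂ z‖ ≤ Real.exp (-(R:ℝ)) * Real.exp ((2 * n + 6) * ‖z‖) := by
  have hRR : (1:ℝ) ≤ R := by exact_mod_cast hR
  have hnR : (1:ℝ) ≤ n := by exact_mod_cast hn
  have n1 : ‖NS (20 * n * R) a z‖ ≤ Real.exp (n * ‖z‖) :=
    (NS_norm _ _ _).trans (Real.exp_le_exp.mpr (by gcongr))
  have n2 : ‖NS (20 * n * R) a (starRingEnd ℂ z)‖ ≤ Real.exp (n * ‖z‖) := by
    refine (NS_norm _ _ _).trans (Real.exp_le_exp.mpr ?_)
    rw [RCLike.norm_conj]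
    gcongr
  have t1 := TD_le (20 * n * R) θ₁ h1 z
  have t2 := TD_le (20 * n * R) θ₂ h2 z
  unfold BEs
  rw [norm_mul, norm_mul, norm_mul]
  have hK : (R:ℝ) ≤ ((20 * n * R : ℕ) : ℝ) := by push_cast; nlinarith
  calc _ ≤ Real.exp (n * ‖z‖) * Real.exp (n * ‖z‖) *
        (Real.exp (-((20 * n * R : ℕ):ℝ)) * Real.exp (3 * ‖z‖) *
          (Real.exp (-((20 * n * R : ℕ):ℝ)) * Real.exp (3 * ‖z‖))) := by gcongr
    _ = Real.exp (-(2 * ((20 * n * R : ℕ):ℝ))) * Real.exp ((2 * n + 6) * ‖z‖) := by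
        simp only [← Real.exp_add]
        ring_nf
    _ ≤ _ := by
        gcongr
        linarith

theorem t_LOCs : Pool.Agent.TH806.LS.P_LOCs := by
  intro n c C hn hc
  set D := |C| * Real.exp (|C| * (2 * c)) with hD
  set E := Real.exp ((2 * (n + 1) + (n + 1) ^ 2) * c) * (|C| * Real.exp (|C| * c)) with hE
  have hD0 : 0 ≤ D := by positivity
  have hE0 : 0 ≤ E := by positivity
  refine ⟨16 * D + E + 1, by positivity, ?_⟩
  intro w κ₁ κ₂ I ν hk1 hk1' hk2 hk2' h hv hu R hR a b θ₁ θ₂ ha hb h1 h2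
  have hnR : (1:ℝ) ≤ n := by exact_mod_cast hn
  have hv0 : 0 ≤ vI I := Finset.sum_nonneg fun p _ => by positivity
  have hu0 : 0 ≤ uI I := Finset.sum_nonneg fun p _ => by positivity
  have hC : 0 ≤ C := by
    by_contra hneg
    have e1 := h.dsq
    have e2 : 0 ≤ ∫ q, ‖q.2‖ ^ 2 ∂ν := integral_nonneg fun q => by positivity
    have e3 := Real.exp_pos (C * (vI I + uI I))
    nlinarith
  have hCa : |C| = C := abs_of_nonneg hC
  rw [hCa] at hD hE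
  have hDD : C * Real.exp (C * (vI I + uI I)) ≤ D := by
    rw [hD]
    gcongr
    linarith
  have hR0 := Real.exp_pos (-(R:ℝ))
  refine ⟨?_, ?_, ?_⟩
  · -- the main term
    set α : ℂ := a + ((θ₁ + θ₂ : ℝ) : ℂ) / 2 * Complex.I with hα
    set β : ℂ := b + ((θ₁ + θ₂ : ℝ) : ℂ) / 2 * Complex.I with hβ
    have nth : ‖((θ₁ + θ₂ : ℝ) : ℂ) / 2 * Complex.I‖ ≤ 1 := by
      rw [norm_mul, norm_div, Complex.norm_real, Complex.norm_I, Real.norm_eq_abs]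
      have := abs_add_le θ₁ θ₂
      simp only [Complex.norm_ofNat]
      linarith
    have nα : ‖α‖ ≤ n + 1 := by
      refine (norm_add_le _ _).trans ?_
      have : ‖(a:ℂ)‖ = |a| := by simp
      rw [this]; linarith
    have nβ : ‖β‖ ≤ n + 1 := by
      refine (norm_add_le _ _).trans ?_
      have : ‖(b:ℂ)‖ = |b| := by simp
      rw [this]; linarith
    obtain ⟨ε, hε, hexp⟩ := h.exq α β (by linarith) (by linarith)
    set X : ℂ := (κ₁ * α + κ₂ * β + α * β) with hX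
    have hex : ex κ₁ κ₂ a b (θ₁ + θ₂) = X := rfl
    rw [hex]
    have nX : ‖X‖ ≤ 2 * (n + 1) + (n + 1) ^ 2 := by
      refine (norm_add_le _ _).trans ?_
      have e1 : ‖(κ₁:ℂ) * α + κ₂ * β‖ ≤ 1 * (n + 1) + 1 * (n + 1) := by
        refine (norm_add_le _ _).trans ?_
        rw [norm_mul, norm_mul, Complex.norm_real, Complex.norm_real, Real.norm_of_nonneg hk1,
          Real.norm_of_nonneg hk2]
        gcongr
      have e2 : ‖α * β‖ ≤ (n + 1) * (n + 1) := by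
        rw [norm_mul]; gcongr
      nlinarith
    have A1 : ‖(∫ q, q.2 * BFs (20 * n * R) a b θ₁ θ₂ q.1 ∂ν) - Complex.exp (X * vI I + ε)‖ ≤
        16 * D * Real.exp (-(R:ℝ)) := by
      rw [← hexp, ← integral_sub]
      · have e1 := est n h (fun z => BFs (20 * n * R) a b θ₁ θ₂ z -
          Complex.exp (α * z + β * starRingEnd ℂ z)) (16 * Real.exp (-(R:ℝ))) (by positivity) (fun z => by
            refine ((BFs_ap n R hn hR a b θ₁ θ₂ ha hb h1 h2 z).2).trans ?_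
            gcongr
            · linarith
            · norm_num)
        simp only [mul_sub] at e1
        refine e1.trans ?_
        calc _ ≤ 16 * Real.exp (-(R:ℝ)) * D := by gcongr
          _ = _ := by ring
      · refine intg h _ ?_
        unfold Pool.Agent.TH806.LS.BFs NS pf NC
        fun_prop
      · refine intg h _ ?_
        fun_prop
    have A2 : ‖Complex.exp (X * vI I + ε) - Complex.exp (X * vI I)‖ ≤ E * uI I := by
      rw [Complex.exp_add]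
      have e1 : Complex.exp (X * vI I) * Complex.exp ε - Complex.exp (X * vI I) =
        Complex.exp (X * vI I) * (Complex.exp ε - 1) := by ring
      rw [e1, norm_mul]
      have e2 : ‖Complex.exp (X * vI I)‖ ≤ Real.exp ((2 * (n + 1) + (n + 1) ^ 2) * c) := by
        refine (exp_norm _ _).trans (Real.exp_le_exp.mpr ?_)
        rw [Complex.norm_real, Real.norm_of_nonneg hv0]
        gcongr
      have e3 : ‖Complex.exp ε - 1‖ ≤ ‖ε‖ * Real.exp ‖ε‖ := by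
        have := Complex.norm_exp_sub_sum_le_norm_mul_exp ε 1
        simpa using this
      have e4 : ‖ε‖ * Real.exp ‖ε‖ ≤ (C * uI I) * Real.exp (C * c) := by
        gcongr
        exact hε.trans (by gcongr)
      calc _ ≤ Real.exp ((2 * (n + 1) + (n + 1) ^ 2) * c) * ((C * uI I) * Real.exp (C * c)) := by
            gcongr
            exact e3.trans e4
        _ = _ := by rw [hE]; ring
    have e5 : (∫ q, q.2 * BFs (20 * n * R) a b θ₁ θ₂ q.1 ∂ν) - Complex.exp (X * vI I) =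
        ((∫ q, q.2 * BFs (20 * n * R) a b θ₁ θ₂ q.1 ∂ν) - Complex.exp (X * vI I + ε)) +
        (Complex.exp (X * vI I + ε) - Complex.exp (X * vI I)) := by ring
    rw [e5]
    refine (norm_add_le _ _).trans ((add_le_add A1 A2).trans ?_)
    nlinarith [mul_nonneg hD0 hu0, mul_nonneg hE0 hR0.le, mul_nonneg hD0 hR0.le, mul_nonneg hE0 hu0]
  · have e1 := est n h (BBs (20 * n * R) R a θ₁ θ₂) (Real.exp (-(R:ℝ))) (by positivity) (fun z => by
      refine (BBs_le n R hn hR a θ₁ θ₂ ha h1 h2 z).trans ?_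
      gcongr
      linarith)
    refine e1.trans ?_
    calc _ ≤ Real.exp (-(R:ℝ)) * D := by gcongr
      _ ≤ _ := by nlinarith [mul_nonneg hE0 hR0.le, mul_nonneg hD0 hR0.le]
  · have e1 := est n h (BEs (20 * n * R) a θ₁ θ₂) (Real.exp (-(R:ℝ))) (by positivity) (fun z => by
      refine (BEs_le n R hn hR a θ₁ θ₂ ha h1 h2 z).trans ?_
      refine mul_le_mul_of_nonneg_left (Real.exp_le_exp.mpr
        (mul_le_mul_of_nonneg_right ?_ (norm_nonneg _))) hR0.le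
      linarith)
    refine e1.trans ?_
    calc _ ≤ Real.exp (-(R:ℝ)) * D := by gcongr
      _ ≤ _ := by nlinarith [mul_nonneg hE0 hR0.le, mul_nonneg hD0 hR0.le]

end

end Pool.Agent.TH111.LS_LOC
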