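import Pool.Agent.TH196.Loew.Defs

/-!
Argument lift along the circle (job 2893).
-/

set_option autoImplicit false
open Complex
open scoped ContDiff

namespace Pool.Agent.TH111.Loew

open Pool.Agent.TH196.Loew

/-- sector lemma -/
theorem sector {ψ : ℝ → ℝ} (hψ : Continuous ψ) {a b α : ℝ} (hab : a ≤ b)
    (h : ∀ t, a ≤ t → t ≤ b → 0 < Real.cos (ψ t - α)) (ha : |ψ a - α| < Real.pi / 2) :
    |ψ b - α| < Real.pi / 2 := by
  by_contra hb
  push Not at hb
  have hc0 : Continuous fun t => |ψ t - α| := (hψ.sub continuous_const).abs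
  obtain ⟨c, hc1, hc2⟩ := intermediate_value_Icc hab hc0.continuousOn ⟨ha.le, hb⟩
  have h1 := h c hc1.1 hc1.2
  have hc2' : |ψ c - α| = Real.pi / 2 := hc2
  rw [← Real.cos_abs, hc2', Real.cos_pi_div_two] at h1
  exact lt_irrefl _ h1

/-- step lemma -/
theorem step {ψ : ℝ → ℝ} (hψ : Continuous ψ) {a b β : ℝ} (hab : a ≤ b)
    (h : ∀ t, a ≤ t → t ≤ b → 0 < Real.cos (ψ t - (β + Real.pi / 2)))
    (ha : |ψ a - β| < Real.pi / 2) :
    |ψ b - (β + Real.pi / 2)| < Real.pi / 2 := by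
  apply sector hψ hab h
  have h1 := h a le_rfl hab
  have e : ψ a - (β + Real.pi / 2) = (ψ a - β) - Real.pi / 2 := by ring
  rw [e, Real.cos_sub_pi_div_two] at h1
  have h3 := abs_lt.1 ha
  have h2 : 0 < ψ a - β := by
    by_contra h4
    push Not at h4
    have h5 := Real.sin_nonpos_of_nonpos_of_neg_pi_le h4 (by linarith [h3.1, Real.pi_pos])
    linarith
  rw [e, abs_lt]
  constructor <;> linarith [h3.1, h3.2]

theorem lift_aux (H : ℝ → ℂ) (hH : Continuous H) (hper : ∀ t, H (t + Real.pi) = H t)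
    (hne : ∀ t, H t ≠ 0) (t0 t1 t2 t3 : ℝ) (h01 : t0 ≤ t1) (h12 : t1 ≤ t2) (h23 : t2 ≤ t3)
    (h34 : t3 ≤ t0 + Real.pi)
    (h1 : ∀ t, t0 ≤ t → t ≤ t1 → 0 < (H t).im) (h2 : ∀ t, t1 ≤ t → t ≤ t2 → (H t).re < 0)
    (h3 : ∀ t, t2 ≤ t → t ≤ t3 → (H t).im < 0)
    (h4 : ∀ t, t3 ≤ t → t ≤ t0 + Real.pi → 0 < (H t).re) :
    ∃ ψ : ℝ → ℝ, Continuous ψ ∧ (∀ t, H t = ‖H t‖ * Complex.exp ((ψ t : ℂ) * I)) ∧
      0 < ψ (2 * Real.pi) - ψ 0 := by
  have hsc : IsSimplyConnected (Set.univ : Set ℝ) := by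
    have := convex_univ (𝕜 := ℝ) (E := ℝ) |>.contractibleSpace Set.univ_nonempty
    show SimplyConnectedSpace (Set.univ : Set ℝ)
    infer_instance
  obtain ⟨φ, hφc, hφ⟩ := Complex.exists_continuousOn_eqOn_exp_comp hsc isOpen_univ
    hH.continuousOn (by rintro ⟨t, -, ht⟩; exact hne t ht)
  rw [continuousOn_univ] at hφc
  have hφ' : ∀ t, Complex.exp (φ t) = H t := fun t => hφ (Set.mem_univ t)
  set m : ℤ := round ((φ t0).im / (2 * Real.pi)) with hm
  have hpi := Real.pi_pos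
  set ψ : ℝ → ℝ := fun t => (φ t).im - m * (2 * Real.pi) with hψdef
  have hψ : Continuous ψ := (Complex.continuous_im.comp hφc).sub continuous_const
  have hcosψ : ∀ t, Real.cos (ψ t) = Real.cos ((φ t).im) := fun t =>
    Real.cos_sub_int_mul_two_pi _ _
  have hsinψ : ∀ t, Real.sin (ψ t) = Real.sin ((φ t).im) := fun t =>
    Real.sin_sub_int_mul_two_pi _ _
  have hnorm : ∀ t, ‖H t‖ = Real.exp ((φ t).re) := fun t => by
    rw [← hφ', Complex.norm_exp]
  have hre : ∀ t, (H t).re = ‖H t‖ * Real.cos (ψ t) := fun t => by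
    rw [hnorm, hcosψ, ← hφ', Complex.exp_re]
  have him : ∀ t, (H t).im = ‖H t‖ * Real.sin (ψ t) := fun t => by
    rw [hnorm, hsinψ, ← hφ', Complex.exp_im]
  have hnpos : ∀ t, 0 < ‖H t‖ := fun t => norm_pos_iff.2 (hne t)
  have hform : ∀ t, H t = ‖H t‖ * Complex.exp ((ψ t : ℂ) * I) := fun t => by
    apply Complex.ext
    · rw [Complex.re_ofReal_mul, Complex.exp_ofReal_mul_I_re, hre]
    · rw [Complex.im_ofReal_mul, Complex.exp_ofReal_mul_I_im, him]
  have cpos : ∀ t, 0 < (H t).re → 0 < Real.cos (ψ t) := fun t ht => by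
    rw [hre] at ht
    exact pos_of_mul_pos_right ht (hnpos t).le
  have cneg : ∀ t, (H t).re < 0 → Real.cos (ψ t) < 0 := fun t ht => by
    rw [hre] at ht
    by_contra hc
    push Not at hc
    exact absurd ht (not_lt.2 (mul_nonneg (hnpos t).le hc))
  have spos : ∀ t, 0 < (H t).im → 0 < Real.sin (ψ t) := fun t ht => by
    rw [him] at ht
    exact pos_of_mul_pos_right ht (hnpos t).le
  have sneg : ∀ t, (H t).im < 0 → Real.sin (ψ t) < 0 := fun t ht => by
    rw [him] at ht
    by_contra hc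
    push Not at hc
    exact absurd ht (not_lt.2 (mul_nonneg (hnpos t).le hc))
  -- the start
  have s0 : |ψ t0 - 0| < Real.pi / 2 := by
    have hc : 0 < Real.cos (ψ t0) := by
      apply cpos
      rw [← hper]
      exact h4 _ h34 le_rfl
    have hr : |(φ t0).im / (2 * Real.pi) - m| ≤ 1 / 2 := abs_sub_round _
    have hr2 : |ψ t0| ≤ Real.pi := by
      have e : ψ t0 = ((φ t0).im / (2 * Real.pi) - m) * (2 * Real.pi) := by
        simp only [hψdef]
        field_simp
      rw [e, abs_mul, abs_of_pos (by linarith : 0 < 2 * Real.pi)]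
      nlinarith
    rw [sub_zero]
    by_contra hcon
    push Not at hcon
    have := Real.cos_nonpos_of_pi_div_two_le_of_le hcon (by linarith)
    rw [Real.cos_abs] at this
    linarith
  have s1 := step hψ h01 (fun t ha hb => by
    rw [zero_add, Real.cos_sub_pi_div_two]
    exact spos t (h1 t ha hb)) s0
  have s2 := step hψ h12 (fun t ha hb => by
    have e : ψ t - (0 + Real.pi / 2 + Real.pi / 2) = ψ t - Real.pi := by ring
    rw [e, Real.cos_sub_pi]
    linarith [cneg t (h2 t ha hb)]) s1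
  have s3 := step hψ h23 (fun t ha hb => by
    have e : ψ t - (0 + Real.pi / 2 + Real.pi / 2 + Real.pi / 2) =
      (ψ t - Real.pi / 2) - Real.pi := by ring
    rw [e, Real.cos_sub_pi, Real.cos_sub_pi_div_two]
    linarith [sneg t (h3 t ha hb)]) s2
  have s4 := step hψ h34 (fun t ha hb => by
    have e : ψ t - (0 + Real.pi / 2 + Real.pi / 2 + Real.pi / 2 + Real.pi / 2) =
      ψ t - 2 * Real.pi := by ring
    rw [e, Real.cos_sub_two_pi]
    exact cpos t (h4 t ha hb)) s3
  -- the increment over a half turn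
  have hD0 : Real.pi < ψ (t0 + Real.pi) - ψ t0 := by
    rw [sub_zero] at s0
    linarith [(abs_lt.1 s0).2, (abs_lt.1 s4).1]
  have hDcos : ∀ t, Real.cos (ψ (t + Real.pi) - ψ t) = 1 := fun t => by
    have e1 : Real.cos (ψ (t + Real.pi)) = Real.cos (ψ t) := by
      have := hre (t + Real.pi)
      rw [hper, hre t] at this
      exact (mul_left_cancel₀ (hnpos t).ne' this).symm
    have e2 : Real.sin (ψ (t + Real.pi)) = Real.sin (ψ t) := by
      have := him (t + Real.pi)
      rw [hper, him t] at this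
      exact (mul_left_cancel₀ (hnpos t).ne' this).symm
    rw [Real.cos_sub, e1, e2]
    nlinarith [Real.sin_sq_add_cos_sq (ψ t)]
  have hDc : Continuous fun t => ψ (t + Real.pi) - ψ t :=
    (hψ.comp (continuous_id.add continuous_const)).sub hψ
  have hD : ∀ s, Real.pi < ψ (s + Real.pi) - ψ s := by
    intro s
    by_contra hcon
    push Not at hcon
    obtain ⟨c, hc⟩ := mem_range_of_exists_le_of_exists_ge hDc ⟨s, hcon⟩ ⟨t0, hD0.le⟩
    have h5 := hDcos c
    have hc' : ψ (c + Real.pi) - ψ c = Real.pi := hc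
    rw [hc', Real.cos_pi] at h5
    norm_num at h5
  refine ⟨ψ, hψ, hform, ?_⟩
  have e1 := hD 0
  have e2 := hD Real.pi
  have e3 : Real.pi + Real.pi = 2 * Real.pi := by ring
  rw [zero_add] at e1
  rw [e3] at e2
  linarith

theorem side (ρ a : ℝ) (hρ : 0 < ρ) (t : ℝ) :
    ∃ c : ℝ, 0 < c ∧ ρ * Real.sin t - a * (4 * Real.cos t) =
      c * Real.sin (t - Real.arctan (4 * a / ρ)) := by
  set τ := Real.arctan (4 * a / ρ) with hτ
  have hc : 0 < Real.cos τ := Real.cos_arctan_pos _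
  refine ⟨ρ / Real.cos τ, div_pos hρ hc, ?_⟩
  have h1 : Real.tan τ = 4 * a / ρ := Real.tan_arctan _
  rw [Real.tan_eq_sin_div_cos, div_eq_div_iff hc.ne' hρ.ne'] at h1
  rw [Real.sin_sub, div_mul_eq_mul_div, eq_div_iff hc.ne']
  linear_combination (Real.cos t) * h1

theorem exists_lift (F : ℂ → ℂ) (ρ a0 a1 a2 a3 : ℝ) (hρ : 0 < ρ) (h01 : a0 < a1) (h12 : a1 < a2)
    (h23 : a2 < a3) (hF : ContinuousOn F (Metric.sphere (0 : ℂ) 1))
    (h1 : ∀ X Y : ℝ, (X ≠ 0 ∨ Y ≠ 0) → a0 * X ≤ Y → Y ≤ a1 * X →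
      0 < (F ((X + Y * I) / (X - Y * I))).im)
    (h2 : ∀ X Y : ℝ, (X ≠ 0 ∨ Y ≠ 0) → a1 * X ≤ Y → Y ≤ a2 * X →
      (F ((X + Y * I) / (X - Y * I))).re < 0)
    (h3 : ∀ X Y : ℝ, (X ≠ 0 ∨ Y ≠ 0) → a2 * X ≤ Y → Y ≤ a3 * X →
      (F ((X + Y * I) / (X - Y * I))).im < 0)
    (h4 : ∀ X Y : ℝ, (X ≠ 0 ∨ Y ≠ 0) → a3 * X ≤ Y → a0 * X ≤ Y →
      0 < (F ((X + Y * I) / (X - Y * I))).re) :
    ∃ ψ : ℝ → ℝ, Continuous ψ ∧
      (∀ t : ℝ, F ((4 * (Real.cos t : ℂ) + ρ * (Real.sin t : ℂ) * I) /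
          (4 * (Real.cos t : ℂ) - ρ * (Real.sin t : ℂ) * I)) =
        ‖F ((4 * (Real.cos t : ℂ) + ρ * (Real.sin t : ℂ) * I) /
          (4 * (Real.cos t : ℂ) - ρ * (Real.sin t : ℂ) * I))‖ * Complex.exp ((ψ t : ℂ) * I)) ∧
      0 < ψ (2 * Real.pi) - ψ 0 := by
  set K : ℝ → ℝ → ℂ := fun X Y => F ((X + Y * I) / (X - Y * I)) with hK
  set H : ℝ → ℂ := fun t => F ((4 * (Real.cos t : ℂ) + ρ * (Real.sin t : ℂ) * I) /
          (4 * (Real.cos t : ℂ) - ρ * (Real.sin t : ℂ) * I)) with hHdef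
  have hHK : ∀ t, H t = K (4 * Real.cos t) (ρ * Real.sin t) := fun t => by
    simp only [hHdef, hK]
    push_cast
    rfl
  have hKneg : ∀ X Y, K (-X) (-Y) = K X Y := fun X Y => by
    simp only [hK]
    congr 1
    push_cast
    have e1 : (-(X : ℂ) + -(Y : ℂ) * I) = -(X + Y * I) := by ring
    have e2 : (-(X : ℂ) - -(Y : ℂ) * I) = -(X - Y * I) := by ring
    rw [e1, e2, neg_div_neg_eq]
  have hXY : ∀ t : ℝ, 4 * Real.cos t ≠ 0 ∨ ρ * Real.sin t ≠ 0 := fun t => by
    by_contra hcon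
    push Not at hcon
    have e1 : Real.cos t = 0 := by linarith [hcon.1]
    have e2 : Real.sin t = 0 := by
      rcases mul_eq_zero.1 hcon.2 with h | h
      · exact absurd h hρ.ne'
      · exact h
    have := Real.sin_sq_add_cos_sq t
    rw [e1, e2] at this
    norm_num at this
  have hXYn : ∀ t : ℝ, -(4 * Real.cos t) ≠ 0 ∨ -(ρ * Real.sin t) ≠ 0 := fun t => by
    simpa only [ne_eq, neg_eq_zero] using hXY t
  -- continuity
  have hden : ∀ t : ℝ, (4 * (Real.cos t : ℂ) - ρ * (Real.sin t : ℂ) * I) ≠ 0 := fun t h => by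
    have hr := congrArg Complex.re h
    have hi := congrArg Complex.im h
    have e : (4 * (Real.cos t : ℂ) - ρ * (Real.sin t : ℂ) * I) =
        ((4 * Real.cos t : ℝ) : ℂ) - ((ρ * Real.sin t : ℝ) : ℂ) * I := by push_cast; rfl
    rw [e] at hr hi
    simp only [Complex.sub_re, Complex.sub_im, Complex.ofReal_re, Complex.ofReal_im,
      Complex.mul_re, Complex.mul_im, Complex.I_re, Complex.I_im, mul_zero, mul_one,
      sub_zero, add_zero, zero_sub, Complex.zero_re, Complex.zero_im, neg_eq_zero] at hr hi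
    rcases hXY t with h | h
    · exact h hr
    · exact h hi
  have hmem : ∀ t : ℝ, (4 * (Real.cos t : ℂ) + ρ * (Real.sin t : ℂ) * I) /
          (4 * (Real.cos t : ℂ) - ρ * (Real.sin t : ℂ) * I) ∈ Metric.sphere (0 : ℂ) 1 := fun t => by
    rw [mem_sphere_zero_iff_norm, norm_div]
    have e : (4 * (Real.cos t : ℂ) + ρ * (Real.sin t : ℂ) * I) =
        (starRingEnd ℂ) (4 * (Real.cos t : ℂ) - ρ * (Real.sin t : ℂ) * I) := by
      rw [map_sub, map_mul, map_mul, map_mul, Complex.conj_ofReal, Complex.conj_ofReal,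
        Complex.conj_ofReal, Complex.conj_I]
      have : (starRingEnd ℂ) 4 = 4 := Complex.conj_ofNat 4
      rw [this]
      ring
    rw [e, RCLike.norm_conj]
    exact div_self (norm_ne_zero_iff.2 (hden t))
  have hHc : Continuous H := by
    apply hF.comp_continuous ?_ hmem
    apply Continuous.div ?_ ?_ hden
    · exact (continuous_const.mul (Complex.continuous_ofReal.comp Real.continuous_cos)).add
        ((continuous_const.mul (Complex.continuous_ofReal.comp Real.continuous_sin)).mul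
          continuous_const)
    · exact (continuous_const.mul (Complex.continuous_ofReal.comp Real.continuous_cos)).sub
        ((continuous_const.mul (Complex.continuous_ofReal.comp Real.continuous_sin)).mul
          continuous_const)
  have hper : ∀ t, H (t + Real.pi) = H t := fun t => by
    rw [hHK, hHK, Real.cos_add_pi, Real.sin_add_pi, mul_neg, mul_neg, hKneg]
  -- nonvanishing
  have hne_aux : ∀ X Y : ℝ, (X ≠ 0 ∨ Y ≠ 0) → a0 * X ≤ Y → K X Y ≠ 0 := by
    intro X Y hn ha hz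
    rcases le_total Y (a1 * X) with hb | hb
    · have := h1 X Y hn ha hb
      rw [show F ((X + Y * I) / (X - Y * I)) = 0 from hz] at this
      exact lt_irrefl _ this
    rcases le_total Y (a2 * X) with hc | hc
    · have := h2 X Y hn hb hc
      rw [show F ((X + Y * I) / (X - Y * I)) = 0 from hz] at this
      exact lt_irrefl _ this
    rcases le_total Y (a3 * X) with hd | hd
    · have := h3 X Y hn hc hd
      rw [show F ((X + Y * I) / (X - Y * I)) = 0 from hz] at this
      exact lt_irrefl _ this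
    · have := h4 X Y hn hd ha
      rw [show F ((X + Y * I) / (X - Y * I)) = 0 from hz] at this
      exact lt_irrefl _ this
  have hne : ∀ t, H t ≠ 0 := fun t => by
    rcases le_total (a0 * (4 * Real.cos t)) (ρ * Real.sin t) with h | h
    · rw [hHK]
      exact hne_aux _ _ (hXY t) h
    · rw [hHK, ← hKneg]
      exact hne_aux _ _ (hXYn t) (by linarith)
  -- the times
  set t0 := Real.arctan (4 * a0 / ρ) with ht0
  set t1 := Real.arctan (4 * a1 / ρ) with ht1
  set t2 := Real.arctan (4 * a2 / ρ) with ht2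
  set t3 := Real.arctan (4 * a3 / ρ) with ht3
  have k01 : t0 < t1 := Real.arctan_strictMono (div_lt_div_of_pos_right (by linarith) hρ)
  have k12 : t1 < t2 := Real.arctan_strictMono (div_lt_div_of_pos_right (by linarith) hρ)
  have k23 : t2 < t3 := Real.arctan_strictMono (div_lt_div_of_pos_right (by linarith) hρ)
  have b0 : -(Real.pi / 2) < t0 := Real.neg_pi_div_two_lt_arctan _
  have b0' : t0 < Real.pi / 2 := Real.arctan_lt_pi_div_two _
  have b3 : t3 < Real.pi / 2 := Real.arctan_lt_pi_div_two _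
  have b3' : -(Real.pi / 2) < t3 := Real.neg_pi_div_two_lt_arctan _
  -- signs
  have pos : ∀ a t : ℝ, 0 ≤ t - Real.arctan (4 * a / ρ) → t - Real.arctan (4 * a / ρ) ≤ Real.pi →
      a * (4 * Real.cos t) ≤ ρ * Real.sin t := by
    intro a t ha hb
    obtain ⟨c, hc, he⟩ := side ρ a hρ t
    have := mul_nonneg hc.le (Real.sin_nonneg_of_nonneg_of_le_pi ha hb)
    linarith
  have neg : ∀ a t : ℝ, t - Real.arctan (4 * a / ρ) ≤ 0 → -Real.pi ≤ t - Real.arctan (4 * a / ρ) →
      ρ * Real.sin t ≤ a * (4 * Real.cos t) := by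
    intro a t ha hb
    obtain ⟨c, hc, he⟩ := side ρ a hρ t
    have := mul_nonpos_of_nonneg_of_nonpos hc.le (Real.sin_nonpos_of_nonpos_of_neg_pi_le ha hb)
    linarith
  refine lift_aux H hHc hper hne t0 t1 t2 t3 k01.le k12.le k23.le (by linarith) ?_ ?_ ?_ ?_
  · intro t hta htb
    rw [hHK]
    exact h1 _ _ (hXY t) (pos a0 t (by linarith) (by linarith)) (neg a1 t (by linarith) (by linarith))
  · intro t hta htb
    rw [hHK]
    exact h2 _ _ (hXY t) (pos a1 t (by linarith) (by linarith)) (neg a2 t (by linarith) (by linarith))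
  · intro t hta htb
    rw [hHK]
    exact h3 _ _ (hXY t) (pos a2 t (by linarith) (by linarith)) (neg a3 t (by linarith) (by linarith))
  · intro t hta htb
    rw [hHK]
    exact h4 _ _ (hXY t) (pos a3 t (by linarith) (by linarith)) (pos a0 t (by linarith) (by linarith))

end Pool.Agent.TH111.Loew
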