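import Mathlib

set_option autoImplicit false

/-!
# Partition regularity of `x - 2 y = p(z)`, `p` of degree at least two
-/

namespace Pool.Agent.TH111.XTwoY

open Polynomial

/-- The equation `x - 2 y = p(z)` is partition regular: for every colouring of the positive
integers with finitely many colours there are `x, y, z ≥ 1` of the same colour with
`x - 2 y = p(z)`. -/
def PartReg (p : ℤ[X]) : Prop :=
  ∀ (r : ℕ) (c : ℕ → Fin r), ∃ x y z : ℕ, 1 ≤ x ∧ 1 ≤ y ∧ 1 ≤ z ∧ c x = c y ∧ c y = c z ∧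
    (x : ℤ) - 2 * (y : ℤ) = p.eval (z : ℤ)

/-- growth of an integer polynomial of degree at least two -/
lemma growth (p : ℤ[X]) (hd : 2 ≤ p.natDegree) : ∃ z₀ : ℕ, ∀ z : ℕ, z₀ ≤ z →
    (z : ℤ) ^ 2 ≤ 2 * |p.eval (z : ℤ)| ∧ 4 * |p.eval (z : ℤ)| ≤ (z : ℤ) ^ (p.natDegree + 1) := by
  obtain ⟨d, hd'⟩ : ∃ d, p.natDegree = d + 1 := ⟨p.natDegree - 1, by omega⟩
  obtain ⟨A, hA⟩ : ∃ A : ℤ, A = ∑ i ∈ Finset.range (d + 1), |p.coeff i| := ⟨_, rfl⟩
  have hA0 : 0 ≤ A := by rw [hA]; exact Finset.sum_nonneg fun i _ => abs_nonneg _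
  have hlead : p.coeff (d + 1) ≠ 0 := by
    rw [← hd']
    have : p ≠ 0 := by
      rintro rfl
      simp at hd
    simpa using this
  have hlead1 : 1 ≤ |p.coeff (d + 1)| := Int.one_le_abs hlead
  refine ⟨(2 * A + 4 * (A + |p.coeff (d + 1)|) + 1).toNat, fun z hz => ?_⟩
  have hz' : 2 * A + 4 * (A + |p.coeff (d + 1)|) + 1 ≤ (z : ℤ) := Int.toNat_le.1 hz
  have hz1 : 1 ≤ (z : ℤ) := by linarith
  have hz0 : (0 : ℤ) ≤ z := by linarith
  have hev : p.eval (z : ℤ) = (∑ i ∈ Finset.range (d + 1), p.coeff i * (z : ℤ) ^ i) +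
      p.coeff (d + 1) * (z : ℤ) ^ (d + 1) := by
    rw [eval_eq_sum_range, hd', Finset.sum_range_succ]
  have hlow : |∑ i ∈ Finset.range (d + 1), p.coeff i * (z : ℤ) ^ i| ≤ A * (z : ℤ) ^ d := by
    refine (Finset.abs_sum_le_sum_abs _ _).trans ?_
    rw [hA, Finset.sum_mul]
    refine Finset.sum_le_sum fun i hi => ?_
    rw [abs_mul, abs_of_nonneg (pow_nonneg hz0 i)]
    exact mul_le_mul_of_nonneg_left (pow_le_pow_right₀ hz1 (by
      have := Finset.mem_range.1 hi; omega)) (abs_nonneg _)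
  have hpow : (z : ℤ) ^ (d + 1) = z * (z : ℤ) ^ d := by ring
  have hpd : 0 < (z : ℤ) ^ d := pow_pos (by linarith) d
  have habs : |p.coeff (d + 1) * (z : ℤ) ^ (d + 1)| = |p.coeff (d + 1)| * (z : ℤ) ^ (d + 1) := by
    rw [abs_mul, abs_of_nonneg (pow_nonneg hz0 (d + 1))]
  constructor
  · have h1 : |p.coeff (d + 1)| * (z : ℤ) ^ (d + 1) - A * (z : ℤ) ^ d ≤ |p.eval (z : ℤ)| := by
      rw [hev]
      have h2 := abs_sub_abs_le_abs_sub (p.coeff (d + 1) * (z : ℤ) ^ (d + 1))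
        (-(∑ i ∈ Finset.range (d + 1), p.coeff i * (z : ℤ) ^ i))
      rw [abs_neg, sub_neg_eq_add, habs, add_comm (p.coeff (d + 1) * (z : ℤ) ^ (d + 1))] at h2
      linarith
    have h2 : (z : ℤ) ^ (d + 1) ≤ |p.coeff (d + 1)| * (z : ℤ) ^ (d + 1) :=
      le_mul_of_one_le_left (pow_nonneg hz0 _) hlead1
    have h3 : 2 * A * (z : ℤ) ^ d ≤ z * (z : ℤ) ^ d :=
      mul_le_mul_of_nonneg_right (by linarith) hpd.le
    have h4 : (z : ℤ) ^ 2 ≤ (z : ℤ) ^ (d + 1) := pow_le_pow_right₀ hz1 (by omega)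
    linarith
  · have h1 : |p.eval (z : ℤ)| ≤ A * (z : ℤ) ^ d + |p.coeff (d + 1)| * (z : ℤ) ^ (d + 1) := by
      rw [hev]
      have h2 := abs_add_le (∑ i ∈ Finset.range (d + 1), p.coeff i * (z : ℤ) ^ i)
        (p.coeff (d + 1) * (z : ℤ) ^ (d + 1))
      rw [habs] at h2
      linarith
    have h2 : A * (z : ℤ) ^ d ≤ A * (z : ℤ) ^ (d + 1) :=
      mul_le_mul_of_nonneg_left (pow_le_pow_right₀ hz1 (by omega)) hA0
    have h3 : 4 * (A + |p.coeff (d + 1)|) * (z : ℤ) ^ (d + 1) ≤ z * (z : ℤ) ^ (d + 1) :=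
      mul_le_mul_of_nonneg_right (by linarith) (pow_nonneg hz0 _)
    have h4 : (z : ℤ) ^ (p.natDegree + 1) = z * (z : ℤ) ^ (d + 1) := by rw [hd']; ring
    rw [h4]
    linarith

/-- comparison of the first logarithmic colour -/
lemma log_sq {a b s : ℕ} (ha : 1 ≤ a) (h1 : 2 * a ^ 2 ≤ b ^ 2) (h2 : b ^ 2 ≤ 2 ^ s * a ^ 2) :
    Nat.log 2 (a ^ 2) + 1 ≤ Nat.log 2 (b ^ 2) ∧ Nat.log 2 (b ^ 2) ≤ Nat.log 2 (a ^ 2) + s := by
  have ha0 : a ^ 2 ≠ 0 := by positivity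
  constructor
  · have h3 := Nat.log_mono_right (b := 2) h1
    rwa [mul_comm, Nat.log_mul_base (by norm_num) ha0] at h3
  · have h3 := Nat.log_mono_right (b := 2) h2
    have h4 : ∀ s : ℕ, Nat.log 2 (2 ^ s * a ^ 2) = Nat.log 2 (a ^ 2) + s := by
      intro s
      induction s with
      | zero => simp
      | succ s ih =>
        have h5 : 2 ^ (s + 1) * a ^ 2 = 2 ^ s * a ^ 2 * 2 := by ring
        rw [h5, Nat.log_mul_base (by norm_num) (by positivity), ih]; ring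
    rwa [h4] at h3

/-- the difference of two numbers which agree modulo `s + 1` is not in `[1, s]` -/
lemma mod_ne {a b s : ℕ} (h1 : a + 1 ≤ b) (h2 : b ≤ a + s) : a % (s + 1) ≠ b % (s + 1) := by
  intro h
  have h3 : (s + 1) ∣ b - a := (Nat.modEq_iff_dvd' (by omega)).1 h
  have h4 := Nat.le_of_dvd (by omega) h3
  omega

/-- for `p` of degree at least two some finite colouring has only constant monochromatic
solutions -/
theorem only_const (p : ℤ[X]) (hd : 2 ≤ p.natDegree) :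
    ∃ (r : ℕ) (c : ℕ → Fin r), ∀ x y z : ℕ, 1 ≤ x → 1 ≤ y → 1 ≤ z → c x = c y → c y = c z →
      (x : ℤ) - 2 * (y : ℤ) = p.eval (z : ℤ) → x = y ∧ y = z := by
  obtain ⟨z₁, hz₁⟩ := growth p hd
  obtain ⟨D, hD⟩ : ∃ D, D = p.natDegree + 1 := ⟨_, rfl⟩
  obtain ⟨z₀, hz₀⟩ : ∃ z₀, z₀ = max z₁ 16 := ⟨_, rfl⟩
  obtain ⟨s, hs⟩ : ∃ s : ℕ, (2 * D) ^ 2 ≤ 2 ^ s := ⟨(2 * D) ^ 2, Nat.lt_two_pow_self.le⟩
  -- the colouring with values in a finite type
  let C : ℕ → Fin (z₀ + 1) × Fin 4 × Fin (s + 1) := fun n =>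
    (⟨min n z₀, Nat.lt_succ_of_le (min_le_right _ _)⟩,
      ⟨Nat.log 2 (n ^ 2) % 4, Nat.mod_lt _ (by norm_num)⟩,
      ⟨Nat.log 2 ((Nat.log 2 n) ^ 2) % (s + 1), Nat.mod_lt _ (by omega)⟩)
  have hC : ∀ a b : ℕ, C a = C b → min a z₀ = min b z₀ ∧
      Nat.log 2 (a ^ 2) % 4 = Nat.log 2 (b ^ 2) % 4 ∧
      Nat.log 2 ((Nat.log 2 a) ^ 2) % (s + 1) = Nat.log 2 ((Nat.log 2 b) ^ 2) % (s + 1) := by
    intro a b h
    have h1 := congrArg Prod.fst h
    have h2 := congrArg (fun t => t.2.1) h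
    have h3 := congrArg (fun t => t.2.2) h
    exact ⟨congrArg Fin.val h1, congrArg Fin.val h2, congrArg Fin.val h3⟩
  let e := Fintype.equivFin (Fin (z₀ + 1) × Fin 4 × Fin (s + 1))
  refine ⟨_, fun n => e (C n), ?_⟩
  intro x y z hx hy hz hxy hyz heq
  obtain ⟨a1, a2, a3⟩ := hC x y (e.injective hxy)
  obtain ⟨b1, b2, b3⟩ := hC y z (e.injective hyz)
  by_cases hzz : z < z₀
  · omega
  exfalso
  push Not at hzz
  obtain ⟨g1, g2⟩ := hz₁ z (by omega)
  rw [← hD, ← heq] at g2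
  rw [← heq] at g1
  -- the first colour
  have k1 : ¬ (2 * y ^ 2 ≤ x ^ 2 ∧ x ^ 2 ≤ 8 * y ^ 2) := by
    rintro ⟨h1, h2⟩
    obtain ⟨h3, h4⟩ := log_sq (s := 3) hy h1 (by simpa using h2)
    exact mod_ne (s := 3) h3 h4 a2.symm
  -- `m = max x y`
  obtain ⟨m, hm, hm1, hm2, hmz⟩ : ∃ m : ℕ, 1 ≤ m ∧ (m : ℤ) ≤ 4 * |(x : ℤ) - 2 * y| ∧
      |(x : ℤ) - 2 * y| ≤ 2 * m ∧
      Nat.log 2 ((Nat.log 2 m) ^ 2) % (s + 1) = Nat.log 2 ((Nat.log 2 z) ^ 2) % (s + 1) := by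
    rcases le_total x y with h | h
    · refine ⟨y, hy, ?_, ?_, b3⟩
      · have h1 : ((x : ℤ) - 2 * y) ≤ 0 := by
          have : (x : ℤ) ≤ y := by exact_mod_cast h
          have : (0 : ℤ) ≤ y := by positivity
          linarith
        rw [abs_of_nonpos h1]
        have : (x : ℤ) ≤ y := by exact_mod_cast h
        have : (0 : ℤ) ≤ y := by positivity
        linarith
      · rw [abs_le]
        have : (x : ℤ) ≤ y := by exact_mod_cast h
        have : (0 : ℤ) ≤ x := by positivity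
        constructor <;> linarith
    · refine ⟨x, hx, ?_, ?_, a3.trans b3⟩
      · have hxy' : (y : ℤ) ≤ x := by exact_mod_cast h
        have hy0 : (1 : ℤ) ≤ y := by exact_mod_cast hy
        have hx0 : (1 : ℤ) ≤ x := by exact_mod_cast hx
        have k1' : ¬ (2 * (y : ℤ) ^ 2 ≤ (x : ℤ) ^ 2 ∧ (x : ℤ) ^ 2 ≤ 8 * (y : ℤ) ^ 2) := by
          intro h'
          exact k1 ⟨by exact_mod_cast h'.1, by exact_mod_cast h'.2⟩
        by_contra hcon
        push Not at hcon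
        apply k1'
        rcases le_total (2 * (y : ℤ)) x with h2 | h2
        · rw [abs_of_nonneg (by linarith)] at hcon
          constructor
          · nlinarith
          · have h3 : 3 * (x : ℤ) < 8 * y := by linarith
            nlinarith
        · rw [abs_of_nonpos (by linarith)] at hcon
          have h3 : 8 * (y : ℤ) < 5 * x := by linarith
          constructor
          · nlinarith
          · nlinarith
      · rw [abs_le]
        have : (y : ℤ) ≤ x := by exact_mod_cast h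
        have : (0 : ℤ) ≤ y := by positivity
        constructor <;> linarith
  -- `v = log m` and `u = log z`
  obtain ⟨u, hu⟩ : ∃ u, u = Nat.log 2 z := ⟨_, rfl⟩
  obtain ⟨v, hv⟩ : ∃ v, v = Nat.log 2 m := ⟨_, rfl⟩
  rw [← hu, ← hv] at hmz
  have hu4 : 4 ≤ u := by
    rw [hu]
    have : Nat.log 2 16 ≤ Nat.log 2 z := Nat.log_mono_right (by omega)
    have h16 : Nat.log 2 16 = 4 := by
      rw [show (16 : ℕ) = 2 ^ 4 by norm_num, Nat.log_pow (by norm_num)]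
    omega
  have hz2 : 2 ^ u ≤ z := by rw [hu]; exact Nat.pow_log_le_self 2 (by omega)
  have hz3 : z < 2 ^ (u + 1) := by rw [hu]; exact Nat.lt_pow_succ_log_self (by norm_num) z
  have hm2' : 2 ^ v ≤ m := by rw [hv]; exact Nat.pow_log_le_self 2 (by omega)
  have hm3 : m < 2 ^ (v + 1) := by rw [hv]; exact Nat.lt_pow_succ_log_self (by norm_num) m
  -- lower bound
  have hlow : 2 * u ≤ v + 2 := by
    have h1 : (z : ℤ) ^ 2 ≤ 4 * m := by linarith
    have h2 : z ^ 2 ≤ 4 * m := by exact_mod_cast h1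
    have h3 : 2 ^ (2 * u) < 2 ^ (v + 3) := by
      calc 2 ^ (2 * u) = (2 ^ u) ^ 2 := by rw [← pow_mul, mul_comm]
        _ ≤ z ^ 2 := Nat.pow_le_pow_left hz2 2
        _ ≤ 4 * m := h2
        _ < 4 * 2 ^ (v + 1) := by omega
        _ = 2 ^ (v + 3) := by ring
    have h4 := (Nat.pow_lt_pow_iff_right (by norm_num : 1 < 2)).1 h3
    omega
  -- upper bound
  have hup : v ≤ 2 * D * u := by
    have h1 : (m : ℤ) ≤ (z : ℤ) ^ D := by linarith
    have h2 : m ≤ z ^ D := by exact_mod_cast h1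
    have hDp : D ≠ 0 := by omega
    have h3 : 2 ^ v < 2 ^ ((u + 1) * D) := by
      calc 2 ^ v ≤ m := hm2'
        _ ≤ z ^ D := h2
        _ < (2 ^ (u + 1)) ^ D := Nat.pow_lt_pow_left hz3 hDp
        _ = 2 ^ ((u + 1) * D) := by rw [← pow_mul]
    have h4 := (Nat.pow_lt_pow_iff_right (by norm_num : 1 < 2)).1 h3
    have h5 : (u + 1) * D ≤ (2 * u) * D := Nat.mul_le_mul_right D (by omega)
    calc v ≤ (2 * u) * D := h4.le.trans h5
      _ = 2 * D * u := by ring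
  have hf1 : 2 * u ^ 2 ≤ v ^ 2 := by
    have h1 : 3 * u ≤ 2 * v := by omega
    have h2 : (3 * u) ^ 2 ≤ (2 * v) ^ 2 := Nat.pow_le_pow_left h1 2
    rw [mul_pow, mul_pow] at h2
    have h3 : 0 ≤ u ^ 2 := Nat.zero_le _
    omega
  have hf2 : v ^ 2 ≤ 2 ^ s * u ^ 2 := by
    calc v ^ 2 ≤ (2 * D * u) ^ 2 := Nat.pow_le_pow_left hup 2
      _ = (2 * D) ^ 2 * u ^ 2 := by ring
      _ ≤ 2 ^ s * u ^ 2 := Nat.mul_le_mul_right _ hs
  obtain ⟨h3, h4⟩ := log_sq (by omega) hf1 hf2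
  exact mod_ne h3 h4 hmz.symm

/-- For a polynomial `p` with integer coefficients, `p(0) = 0` and degree at least two, the
equation `x - 2 y = p(z)` is partition regular if and only if it has a constant solution, that is
`p(n) = -n` for some `n ≥ 1`; in any case some finite colouring has no monochromatic solution
except the constant ones. -/
theorem result : ∀ p : ℤ[X], p.eval 0 = 0 → 2 ≤ p.natDegree →
    (PartReg p ↔ ∃ n : ℕ, 1 ≤ n ∧ p.eval (n : ℤ) = -(n : ℤ)) ∧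
    ∃ (r : ℕ) (c : ℕ → Fin r), ∀ x y z : ℕ, 1 ≤ x → 1 ≤ y → 1 ≤ z → c x = c y → c y = c z →
      (x : ℤ) - 2 * (y : ℤ) = p.eval (z : ℤ) → x = y ∧ y = z := by
  intro p _ hd
  refine ⟨⟨?_, ?_⟩, only_const p hd⟩
  · intro h
    obtain ⟨r, c, hc⟩ := only_const p hd
    obtain ⟨x, y, z, hx, hy, hz, hxy, hyz, heq⟩ := h r c
    obtain ⟨rfl, rfl⟩ := hc x y z hx hy hz hxy hyz heq
    exact ⟨x, hx, by rw [← heq]; ring⟩
  · rintro ⟨n, hn, he⟩ r c
    exact ⟨n, n, n, hn, hn, hn, rfl, rfl, by rw [he]; ring⟩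

end Pool.Agent.TH111.XTwoY
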